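import Mathlib

/-!
# MP_b197b4_nt, project K1-ALL-DESC: extension of an additive form to an algebraic extension
-/

set_option autoImplicit false

namespace Pool.Agent.Lib.MP_b197b4_ntKE

open Polynomial Module

section Def

variable {κ κ' : Type*} [Field κ] [Field κ'] [Algebra κ κ']

/-- The extension of the form `l` to an algebraic extension. -/
noncomputable def lam (l : κ → ℚ) (u : κ') : ℚ :=
  l ((minpoly κ u).coeff 0) / (minpoly κ u).natDegree

variable (l : κ → ℚ)

theorem lam_hom {κ'' : Type*} [Field κ''] [Algebra κ κ''] (φ : κ' →ₐ[κ] κ'') (u : κ') :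
    lam l (φ u) = lam l u := by
  unfold lam
  rw [minpoly.algHom_eq φ φ.toRingHom.injective]

theorem lam_hom' {κ'' : Type*} [Field κ''] [Algebra κ κ''] (φ : κ' →+* κ'')
    (hφ : ∀ c : κ, φ (algebraMap κ κ' c) = algebraMap κ κ'' c) (u : κ') :
    lam l (φ u) = lam l u :=
  lam_hom l (⟨φ, hφ⟩ : κ' →ₐ[κ] κ'') u

end Def

section Form

variable {κ : Type*} [Field κ] {l : κ → ℚ}
  (hl : ∀ a b : κ, a ≠ 0 → b ≠ 0 → l (a * b) = l a + l b)

include hl

theorem form_one : l 1 = 0 := by
  have h := hl 1 1 one_ne_zero one_ne_zero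
  rw [mul_one] at h
  linarith

theorem form_neg_one : l (-1) = 0 := by
  have h := hl (-1) (-1) (neg_ne_zero.mpr one_ne_zero) (neg_ne_zero.mpr one_ne_zero)
  rw [neg_mul_neg, mul_one, form_one hl] at h
  linarith

theorem form_pow {a : κ} (ha : a ≠ 0) (n : ℕ) : l (a ^ n) = n * l a := by
  induction n with
  | zero => rw [pow_zero, form_one hl, Nat.cast_zero, zero_mul]
  | succ n ih =>
    rw [pow_succ, hl _ _ (pow_ne_zero n ha) ha, ih]
    push_cast
    ring

theorem form_inv {a : κ} (ha : a ≠ 0) : l a⁻¹ = - l a := by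
  have h := hl a a⁻¹ ha (inv_ne_zero ha)
  rw [mul_inv_cancel₀ ha, form_one hl] at h
  linarith

theorem form_zpow {a : κ} (ha : a ≠ 0) (n : ℤ) : l (a ^ n) = n * l a := by
  cases n with
  | ofNat m => simpa using form_pow hl ha m
  | negSucc m =>
    rw [zpow_negSucc, form_inv hl (pow_ne_zero _ ha), form_pow hl ha]
    push_cast
    ring

theorem form_neg {a : κ} (ha : a ≠ 0) : l (-a) = l a := by
  rw [← neg_one_mul, hl _ _ (neg_ne_zero.mpr one_ne_zero) ha, form_neg_one hl, zero_add]

theorem form_neg_one_pow (n : ℕ) : l ((-1) ^ n) = 0 := by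
  rw [form_pow hl (neg_ne_zero.mpr one_ne_zero), form_neg_one hl, mul_zero]

theorem form_prod {ι : Type*} (s : Finset ι) (f : ι → κ) (hf : ∀ i ∈ s, f i ≠ 0) :
    l (∏ i ∈ s, f i) = ∑ i ∈ s, l (f i) := by
  classical
  induction s using Finset.induction_on with
  | empty => simpa using form_one hl
  | insert i s hi ih =>
    rw [Finset.prod_insert hi, Finset.sum_insert hi, hl _ _ (hf i (Finset.mem_insert_self i s))
      (Finset.prod_ne_zero_iff.mpr fun j hj => hf j (Finset.mem_insert_of_mem hj)),
      ih fun j hj => hf j (Finset.mem_insert_of_mem hj)]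

/-- The norm of a finite extension. -/
theorem lam_norm_fin {E : Type*} [Field E] [Algebra κ E] [FiniteDimensional κ E] {u : E}
    (hu : u ≠ 0) : l (Algebra.norm κ u) = finrank κ E * lam l u := by
  have hint : IsIntegral κ u := Algebra.IsIntegral.isIntegral u
  have h0 : (minpoly κ u).coeff 0 ≠ 0 := minpoly.coeff_zero_ne_zero hint hu
  rw [Algebra.norm_eq_norm_adjoin κ u]
  have h1 := Algebra.PowerBasis.norm_gen_eq_coeff_zero_minpoly
    (IntermediateField.adjoin.powerBasis hint)
  rw [IntermediateField.adjoin.powerBasis_gen hint, IntermediateField.minpoly_gen] at h1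
  rw [h1]
  have h2 : (-1 : κ) ^ (IntermediateField.adjoin.powerBasis hint).dim ≠ 0 :=
    pow_ne_zero _ (neg_ne_zero.mpr one_ne_zero)
  rw [form_pow hl (mul_ne_zero h2 h0), hl _ _ h2 h0, form_neg_one_pow hl, zero_add]
  unfold lam
  have h3 := finrank_mul_finrank κ (IntermediateField.adjoin κ {u}) E
  rw [IntermediateField.adjoin.finrank hint] at h3
  rw [← h3]
  have h4 : ((minpoly κ u).natDegree : ℚ) ≠ 0 := by
    exact_mod_cast (minpoly.natDegree_pos hint).ne'
  push_cast
  field_simp

/-- The norm of a finite extension of finite extensions. -/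
theorem lam_norm_tower {E N : Type*} [Field E] [Field N] [Algebra κ E] [Algebra E N] [Algebra κ N]
    [IsScalarTower κ E N] [FiniteDimensional κ E] [FiniteDimensional E N] {g : N} (hg : g ≠ 0) :
    lam l (Algebra.norm E g) = finrank E N * lam l g := by
  have : FiniteDimensional κ N := FiniteDimensional.trans κ E N
  have hn1 := lam_norm_fin hl (E := N) hg
  have h4 : (finrank κ E : ℚ) ≠ 0 := by exact_mod_cast (finrank_pos (R := κ) (M := E)).ne'
  rw [← Algebra.norm_norm (S := E), lam_norm_fin hl (Algebra.norm_ne_zero_iff.mpr hg),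
    ← finrank_mul_finrank κ E N] at hn1
  apply mul_left_cancel₀ h4
  rw [hn1]
  push_cast
  ring

section Alg

variable {κ' : Type*} [Field κ'] [Algebra κ κ']

theorem lam_algebraMap (c : κ) (hc : c ≠ 0) : lam l (algebraMap κ κ' c) = l c := by
  unfold lam
  rw [minpoly.eq_X_sub_C, natDegree_X_sub_C, coeff_sub, coeff_X_zero, coeff_C_zero, zero_sub,
    form_neg hl hc, Nat.cast_one, div_one]

variable [Algebra.IsAlgebraic κ κ']

/-- Two elements of an algebraic extension are in a finite extension. -/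
theorem lam_mul {u v : κ'} (hu : u ≠ 0) (hv : v ≠ 0) : lam l (u * v) = lam l u + lam l v := by
  obtain ⟨E, hE⟩ : ∃ E : IntermediateField κ κ', E = IntermediateField.adjoin κ {u, v} :=
    ⟨_, rfl⟩
  have hfd : FiniteDimensional κ E := by
    rw [hE]
    exact IntermediateField.finiteDimensional_adjoin fun x _ => Algebra.IsIntegral.isIntegral x
  have huE : u ∈ E := hE ▸ IntermediateField.subset_adjoin _ _ (by simp)
  have hvE : v ∈ E := hE ▸ IntermediateField.subset_adjoin _ _ (by simp)
  have hmap : ∀ y : E, lam l (y : κ') = lam l y := fun y => lam_hom l E.val y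
  have hu0 : (⟨u, huE⟩ : E) ≠ 0 := fun h => hu (congrArg Subtype.val h)
  have hv0 : (⟨v, hvE⟩ : E) ≠ 0 := fun h => hv (congrArg Subtype.val h)
  have h1 := lam_norm_fin hl hu0
  have h2 := lam_norm_fin hl hv0
  have h3 := lam_norm_fin hl (mul_ne_zero hu0 hv0)
  rw [map_mul, hl _ _ (Algebra.norm_ne_zero_iff.mpr hu0) (Algebra.norm_ne_zero_iff.mpr hv0), h1,
    h2] at h3
  have h4 : (finrank κ E : ℚ) ≠ 0 := by exact_mod_cast (finrank_pos).ne'
  have h5 := mul_left_cancel₀ h4 (by rw [← h3]; ring :
    (finrank κ E : ℚ) * (lam l (⟨u, huE⟩ : E) + lam l (⟨v, hvE⟩ : E)) =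
      finrank κ E * lam l ((⟨u, huE⟩ : E) * ⟨v, hvE⟩))
  have e1 := hmap ⟨u, huE⟩
  have e2 := hmap ⟨v, hvE⟩
  have e3 := hmap (⟨u, huE⟩ * ⟨v, hvE⟩)
  rw [← e1, ← e2, ← e3] at h5
  exact h5.symm

theorem lam_one : lam l (1 : κ') = 0 :=
  form_one (l := fun y : κ' => lam l y) fun _ _ ha hb => lam_mul hl ha hb

theorem lam_pow {a : κ'} (ha : a ≠ 0) (n : ℕ) : lam l (a ^ n) = n * lam l a :=
  form_pow (l := fun y : κ' => lam l y) (fun _ _ ha hb => lam_mul hl ha hb) ha n

theorem lam_zpow {a : κ'} (ha : a ≠ 0) (n : ℤ) : lam l (a ^ n) = n * lam l a :=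
  form_zpow (l := fun y : κ' => lam l y) (fun _ _ ha hb => lam_mul hl ha hb) ha n

theorem lam_inv {a : κ'} (ha : a ≠ 0) : lam l a⁻¹ = - lam l a :=
  form_inv (l := fun y : κ' => lam l y) (fun _ _ ha hb => lam_mul hl ha hb) ha

theorem lam_neg {a : κ'} (ha : a ≠ 0) : lam l (-a) = lam l a :=
  form_neg (l := fun y : κ' => lam l y) (fun _ _ ha hb => lam_mul hl ha hb) ha

/-- **The extension in two steps.** -/
theorem lam_lam {M : Type*} [Field M] [Algebra κ' M] [Algebra κ M] [IsScalarTower κ κ' M]
    [Algebra.IsAlgebraic κ' M] {t : M} (ht : t ≠ 0) :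
    lam (fun y : κ' => lam l y) t = lam l t := by
  have hint : IsIntegral κ' t := Algebra.IsIntegral.isIntegral t
  -- the field of coefficients
  obtain ⟨p, hp⟩ : ∃ p : κ'[X], p = minpoly κ' t := ⟨_, rfl⟩
  obtain ⟨E, hE⟩ : ∃ E : IntermediateField κ κ', E = IntermediateField.adjoin κ (p.coeffs : Set κ') :=
    ⟨_, rfl⟩
  have hfd : FiniteDimensional κ E := by
    rw [hE]
    exact IntermediateField.finiteDimensional_adjoin fun x _ => Algebra.IsIntegral.isIntegral x
  have hcE : ∀ i, p.coeff i ∈ E := by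
    intro i
    by_cases hi : p.coeff i = 0
    · rw [hi]
      exact E.zero_mem
    · rw [hE]
      exact IntermediateField.subset_adjoin _ _ (by
        exact_mod_cast Polynomial.coeff_mem_coeffs hi)
  obtain ⟨q, hq⟩ : ∃ q : E[X], q.map (algebraMap E κ') = p := by
    have : p ∈ Polynomial.lifts (algebraMap E κ') := by
      rw [Polynomial.lifts_iff_coeff_lifts]
      intro i
      exact ⟨⟨_, hcE i⟩, rfl⟩
    exact (Polynomial.mem_lifts _).mp this
  have hpm : p.Monic := hp ▸ minpoly.monic hint
  have hqm : q.Monic := Polynomial.monic_of_injective (algebraMap E κ').injective (hq ▸ hpm)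
  have hqt : aeval t q = 0 := by
    have h1 : aeval t (q.map (algebraMap E κ')) = 0 := by
      rw [hq, hp, minpoly.aeval]
    rwa [aeval_map_algebraMap] at h1
  have hintE : IsIntegral E t := ⟨q, hqm, hqt⟩
  have hqmin : q = minpoly E t := by
    have h1 : p ∣ (minpoly E t).map (algebraMap E κ') := by
      rw [hp]
      apply minpoly.dvd
      rw [aeval_map_algebraMap, minpoly.aeval]
    have h2 : p.natDegree ≤ (minpoly E t).natDegree := by
      have h3 := natDegree_le_of_dvd h1 ((minpoly.monic hintE).map _).ne_zero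
      rwa [natDegree_map] at h3
    have h3 : minpoly E t ∣ q := minpoly.dvd _ _ hqt
    have h4 : q.natDegree = p.natDegree := by rw [← hq, natDegree_map]
    exact (Polynomial.eq_of_monic_of_dvd_of_natDegree_le (minpoly.monic hintE) hqm h3
      (by rw [h4]; exact h2))
  -- the norm from `E(t)` to `E`
  have hfd2 : FiniteDimensional E (IntermediateField.adjoin E {t}) :=
    IntermediateField.adjoin.finiteDimensional hintE
  obtain ⟨g, hg⟩ : ∃ g : IntermediateField.adjoin E {t},
      g = IntermediateField.AdjoinSimple.gen E t := ⟨_, rfl⟩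
  have hg0 : g ≠ 0 := by
    intro h0
    apply ht
    have h1 := congrArg (algebraMap (IntermediateField.adjoin E {t}) M) h0
    rw [hg, IntermediateField.AdjoinSimple.algebraMap_gen, map_zero] at h1
    exact h1
  have hfd3 : FiniteDimensional κ (IntermediateField.adjoin E {t}) :=
    FiniteDimensional.trans κ E _
  have hlamg : lam l g = lam l t := by
    have h1 := lam_hom l ((IntermediateField.adjoin E {t}).val.restrictScalars κ) g
    rw [← h1, hg]
    rfl
  have hdeg : finrank E (IntermediateField.adjoin E {t}) = p.natDegree := by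
    rw [IntermediateField.adjoin.finrank hintE, ← hqmin, ← hq, natDegree_map]
  have h5 : lam l (Algebra.norm E g) = p.natDegree * lam l t := by
    rw [lam_norm_tower hl hg0, hlamg, hdeg]
  -- the coefficient
  have h6 : Algebra.norm E g = (-1) ^ (IntermediateField.adjoin.powerBasis hintE).dim *
      q.coeff 0 := by
    have h1 := Algebra.PowerBasis.norm_gen_eq_coeff_zero_minpoly
      (IntermediateField.adjoin.powerBasis hintE)
    rw [IntermediateField.adjoin.powerBasis_gen hintE, IntermediateField.minpoly_gen,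
      ← hqmin] at h1
    rw [hg, h1]
  have hq0 : q.coeff 0 ≠ 0 := by
    rw [hqmin]
    exact minpoly.coeff_zero_ne_zero hintE ht
  have hmulE : ∀ a b : E, a ≠ 0 → b ≠ 0 → lam l (a * b) = lam l a + lam l b := by
    intro a b ha hb
    exact lam_mul hl ha hb
  have hE0 : (-1 : E) ≠ 0 := neg_ne_zero.mpr one_ne_zero
  have h7 : lam l (Algebra.norm E g) = lam l (q.coeff 0) := by
    rw [h6, hmulE _ _ (pow_ne_zero _ hE0) hq0, form_neg_one_pow (l := fun y : E => lam l y) hmulE,
      zero_add]
  have h8 : lam l (q.coeff 0) = lam l (p.coeff 0) := by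
    rw [← hq, coeff_map]
    exact (lam_hom l E.val (q.coeff 0)).symm
  have h9 : lam (fun y : κ' => lam l y) t = lam l (p.coeff 0) / p.natDegree := by
    rw [hp]
    rfl
  rw [h9, ← h8, ← h7, h5]
  have h10 : (p.natDegree : ℚ) ≠ 0 := by
    rw [hp]
    exact_mod_cast (minpoly.natDegree_pos hint).ne'
  field_simp

/-- **The form and norms.** (Both sides are zero when the degree is infinite.) -/
theorem lam_norm {M : Type*} [Field M] [Algebra κ' M] [Algebra κ M] [IsScalarTower κ κ' M]
    {t : M} (ht : t ≠ 0) :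
    lam l (Algebra.norm κ' t) = finrank κ' M * lam l t := by
  by_cases hfin : FiniteDimensional κ' M
  · rw [lam_norm_fin (l := fun y : κ' => lam l y) (fun _ _ ha hb => lam_mul hl ha hb) ht,
      lam_lam hl ht]
  · rw [Algebra.norm_eq_one_of_not_module_finite hfin, lam_one hl, finrank_of_not_finite hfin,
      Nat.cast_zero, zero_mul]

end Alg

end Form

end Pool.Agent.Lib.MP_b197b4_ntKE
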