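import Mathlib
import Pool.Agent.Lib.MP_b197b4_ntA.XDefs2
import Pool.Agent.Lib.MP_b197b4_ntKD.BC
import Pool.Agent.Lib.MP_b197b4_ntKD.Rm
import Pool.Agent.Lib.MP_b197b4_ntKE.Lam

/-!
# MP_b197b4_nt, project K1-ALL-DESC: descent from the algebraic closure, definitions

`K` is the compositum of `F` and `k'` (see `BC`), `ι : F → K` the inclusion. A point `O'` of the
variety over `k'` lies over the point `dn ι O' = O' ∩ F` of the variety over `k`.
-/

set_option autoImplicit false

namespace Pool.Agent.Lib.MP_b197b4_ntKE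

open IsLocalRing Pool.Agent.Lib.MP_b197b4_ntK Pool.Agent.Lib.MP_b197b4_ntA
  Pool.Agent.Lib.MP_b197b4_ntKD

section

variable {F K : Type} [Field F] [Field K]

theorem isUnit_comap_iff (ι : F →+* K) (R : Subring K) (y : R.comap ι) :
    IsUnit y ↔ IsUnit (⟨ι y, y.2⟩ : R) := by
  constructor
  · intro h
    exact h.map (((ι.comp (R.comap ι).subtype).codRestrict R fun z => z.2) : R.comap ι →+* R)
  · intro h
    obtain ⟨u, hu⟩ := h
    have h1 : ι (y : F) * ((u⁻¹ : Rˣ) : R) = 1 := by
      have := congrArg (Subtype.val) u.mul_inv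
      rw [hu] at this
      exact this
    have hy0 : ι (y : F) ≠ 0 := left_ne_zero_of_mul_eq_one h1
    have hyF : (y : F) ≠ 0 := fun h0 => hy0 (by rw [h0, map_zero])
    have h2 : ι ((y : F)⁻¹) = ((u⁻¹ : Rˣ) : R) := by
      rw [map_inv₀]
      exact inv_eq_of_mul_eq_one_right h1
    refine IsUnit.of_mul_eq_one ⟨(y : F)⁻¹, ?_⟩ ?_
    · change ι ((y : F)⁻¹) ∈ R
      rw [h2]
      exact ((u⁻¹ : Rˣ) : R).2
    · exact Subtype.ext (mul_inv_cancel₀ hyF)

/-- The intersection of a local subring of `K` with the subfield `F`. -/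
def dn (ι : F →+* K) (O : LocalSubring K) : LocalSubring F where
  toSubring := O.toSubring.comap ι
  isLocalRing := by
    have := O.isLocalRing
    refine IsLocalRing.of_nonunits_add fun a b ha hb => ?_
    rw [mem_nonunits_iff, isUnit_comap_iff] at ha hb ⊢
    have h1 := IsLocalRing.nonunits_add (a := (⟨ι a, a.2⟩ : O.toSubring)) ha hb
    have h2 : (⟨ι ((a + b : O.toSubring.comap ι) : F), (a + b).2⟩ : O.toSubring) =
        ⟨ι a, a.2⟩ + ⟨ι b, b.2⟩ := Subtype.ext (map_add ι _ _)
    rw [h2]
    exact h1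

/-- The inclusion of the local rings. -/
def dnHom (ι : F →+* K) (O : LocalSubring K) : (dn ι O).toSubring →+* O.toSubring :=
  (ι.comp (dn ι O).toSubring.subtype).codRestrict O.toSubring fun z => z.2

instance (ι : F →+* K) (O : LocalSubring K) : IsLocalHom (dnHom ι O) :=
  ⟨fun y hy => (isUnit_comap_iff ι O.toSubring y).mpr hy⟩

/-- The inclusion of the residue fields. -/
noncomputable def kmap (ι : F →+* K) (O : LocalSubring K) : Kap (dn ι O) →+* Kap O :=
  ResidueField.map (dnHom ι O)

theorem mem_dn {ι : F →+* K} {O : LocalSubring K} {y : F} :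
    y ∈ (dn ι O).toSubring ↔ ι y ∈ O.toSubring := Iff.rfl

theorem kmap_residue (ι : F →+* K) (O : LocalSubring K) (y : F) (hy : y ∈ (dn ι O).toSubring)
    (hy' : ι y ∈ O.toSubring) :
    kmap ι O (residue _ ⟨y, hy⟩) = residue _ ⟨ι y, hy'⟩ := rfl

theorem isUnit_dn (ι : F →+* K) (O : LocalSubring K) (y : F) (hy : y ∈ (dn ι O).toSubring)
    (hy' : ι y ∈ O.toSubring) : IsUnit (⟨y, hy⟩ : (dn ι O).toSubring) ↔
      IsUnit (⟨ι y, hy'⟩ : O.toSubring) := isUnit_comap_iff ι O.toSubring ⟨y, hy⟩

/-- A point of a surface: a surface and a valuation ring of its function field. -/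
abbrev PV (F : Type) [Field F] : Type := Σ S : LocalSubring F, ValuationSubring (Kap S)

/-- The trace of the pair `(S, V)`. -/
noncomputable def dnV (ι : F →+* K) (q : PV K) : PV F := ⟨dn ι q.1, q.2.comap (kmap ι q.1)⟩

end

section

variable {F K : Type} [Field F] [Field K]

/-- The canonical extension of the form `l (dn ι P)` to the residue field of `P`. -/
noncomputable def lup (ι : F →+* K) (l : ∀ P : LocalSubring F, Kap P → ℚ) (P : LocalSubring K)
    (u : Kap P) : ℚ :=
  @lam (Kap (dn ι P)) (Kap P) _ _ (kmap ι P).toAlgebra (l (dn ι P)) u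

/-- The points of dimension `e` over `P`. -/
def Ov (k' : Type) [Field k'] [Algebra k' K] {n : ℕ} (x' : Fin (n + 1) → K) (ι : F →+* K) (e : ℕ)
    (P : LocalSubring F) : Set (LocalSubring K) :=
  {P' | P' ∈ Pts k' x' e ∧ dn ι P' = P}

/-- The forms on the variety over `k'`. -/
noncomputable def lX (k' : Type) [Field k'] [Algebra k' K] {n : ℕ} (x' : Fin (n + 1) → K)
    (ι : F →+* K) (l : ∀ P : LocalSubring F, Kap P → ℚ) (P : LocalSubring K) (u : Kap P) : ℚ :=
  lup ι l P u / (Ov k' x' ι 1 (dn ι P)).ncard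

/-- The constants in the residue field. -/
noncomputable def conK (k : Type) [Field k] [Algebra k F] (O : LocalSubring F)
    (hO : ∀ c : k, algebraMap k F c ∈ O.toSubring) : k →+* Kap O :=
  (residue O.toSubring).comp ((algebraMap k F).codRestrict O.toSubring hO)

/-- The homomorphism `φ` is the inclusion of the residue field of the centre `P` of the valuation
ring `V` of the function field of `S`. -/
def Emb (P S : LocalSubring F) (V : ValuationSubring (Kap S)) (φ : Kap P →+* ResidueField V) :
    Prop :=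
  ∀ (y : F) (hP : y ∈ P.toSubring) (hS : y ∈ S.toSubring),
    φ (residue _ ⟨y, hP⟩) = res V (residue _ ⟨y, hS⟩)

open Classical in
/-- The degree of the residue field of `V` over the residue field of its centre `P`. -/
noncomputable def dgr (P : LocalSubring F) (q : PV F) : ℕ :=
  if h : ∃ φ : Kap P →+* ResidueField q.2, Emb P q.1 q.2 φ then
    @Module.finrank (Kap P) (ResidueField q.2) _ _ h.choose.toAlgebra.toModule else 0

/-- The discrete valuation rings over `p` with centre `P'`. -/
def PVo (k' : Type) [Field k'] [Algebra k' K] {n : ℕ} (x' : Fin (n + 1) → K) (ι : F →+* K)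
    (P' : LocalSubring K) (p : PV F) : Set (PV K) :=
  {q | q.1 ∈ Pts k' x' 2 ∧ IsDiscreteValuationRing q.2 ∧ Cen P' q.1 q.2 ∧ dnV ι q = p}

end

end Pool.Agent.Lib.MP_b197b4_ntKE
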