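import Mathlib

/-!
# MP_b197b4_nt, project K1-ALL-DESC: lengths and minimal primes
-/

set_option autoImplicit false

namespace Pool.Agent.Lib.MP_b197b4_ntKE

open IsLocalRing

/-- The range of the multiplication by `a`. -/
def rg {R : Type*} [CommRing R] (a : R) (M : Type*) [AddCommGroup M] [Module R M] :
    Submodule R M := LinearMap.range (LinearMap.lsmul R M a)

theorem mem_rg {R : Type*} [CommRing R] {a : R} {M : Type*} [AddCommGroup M] [Module R M] {m : M} :
    m ∈ rg a M ↔ ∃ n, a • n = m := by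
  simp [rg]

theorem len_aux {R N M : Type*} [CommRing R] [AddCommGroup N] [Module R N] [AddCommGroup M]
    [Module R M] (φ : N →ₗ[R] M) (hφ : Function.Injective φ) (a : R)
    (haM : ∀ m : M, a • m = 0 → m = 0) (hC : Module.length R (M ⧸ LinearMap.range φ) ≠ ⊤) :
    Module.length R (N ⧸ rg a N) = Module.length R (M ⧸ rg a M) := by
  set Q : Submodule R M := (rg a N).map φ with hQ
  have hQ1 : Q ≤ LinearMap.range φ := by
    rintro _ ⟨n, -, rfl⟩
    exact ⟨n, rfl⟩
  have hQ2 : Q ≤ rg a M := by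
    rintro _ ⟨n, hn, rfl⟩
    obtain ⟨n', rfl⟩ := mem_rg.1 hn
    exact mem_rg.2 ⟨φ n', by rw [map_smul]⟩
  -- first sequence
  have e1 : Module.length R (M ⧸ Q) = Module.length R (N ⧸ rg a N) +
      Module.length R (M ⧸ LinearMap.range φ) := by
    refine Module.length_eq_add_of_exact
      ((rg a N).mapQ Q φ (by rw [hQ]; exact Submodule.le_comap_map _ _))
      (Submodule.factor hQ1) ?_ (Submodule.factor_surjective hQ1) ?_
    · rw [← LinearMap.ker_eq_bot, LinearMap.ker_eq_bot']
      intro y hy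
      obtain ⟨n, rfl⟩ := Submodule.Quotient.mk_surjective _ y
      rw [Submodule.mapQ_apply, Submodule.Quotient.mk_eq_zero, hQ] at hy
      obtain ⟨n', hn', h⟩ := hy
      rw [Submodule.Quotient.mk_eq_zero, ← hφ h]
      exact hn'
    · intro y
      obtain ⟨m, rfl⟩ := Submodule.Quotient.mk_surjective _ y
      constructor
      · intro h
        have h' : (Submodule.Quotient.mk m : M ⧸ LinearMap.range φ) = 0 := h
        rw [Submodule.Quotient.mk_eq_zero] at h'
        obtain ⟨n, rfl⟩ := h'
        exact ⟨Submodule.Quotient.mk n, by rw [Submodule.mapQ_apply]⟩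
      · rintro ⟨z, hz⟩
        obtain ⟨n, rfl⟩ := Submodule.Quotient.mk_surjective _ z
        rw [← hz, Submodule.mapQ_apply]
        change (Submodule.Quotient.mk (φ n) : M ⧸ LinearMap.range φ) = 0
        rw [Submodule.Quotient.mk_eq_zero]
        exact ⟨n, rfl⟩
  -- second sequence
  have e2 : Module.length R (M ⧸ Q) = Module.length R (M ⧸ LinearMap.range φ) +
      Module.length R (M ⧸ rg a M) := by
    refine Module.length_eq_add_of_exact
      ((LinearMap.range φ).mapQ Q (LinearMap.lsmul R M a) ?_)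
      (Submodule.factor hQ2) ?_ (Submodule.factor_surjective hQ2) ?_
    · rintro _ ⟨n, rfl⟩
      change a • φ n ∈ Q
      rw [← map_smul]
      exact ⟨a • n, mem_rg.2 ⟨n, rfl⟩, rfl⟩
    · rw [← LinearMap.ker_eq_bot, LinearMap.ker_eq_bot']
      intro y hy
      obtain ⟨m, rfl⟩ := Submodule.Quotient.mk_surjective _ y
      rw [Submodule.mapQ_apply, Submodule.Quotient.mk_eq_zero, hQ] at hy
      obtain ⟨n, hn, h⟩ := hy
      obtain ⟨n', rfl⟩ := mem_rg.1 hn
      have h' : φ (a • n') = a • m := h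
      rw [map_smul] at h'
      have h2 : m = φ n' := by
        have h3 : a • (m - φ n') = 0 := by rw [smul_sub, h', sub_self]
        have := haM _ h3
        exact sub_eq_zero.1 this
      rw [Submodule.Quotient.mk_eq_zero, h2]
      exact ⟨n', rfl⟩
    · intro y
      obtain ⟨m, rfl⟩ := Submodule.Quotient.mk_surjective _ y
      constructor
      · intro h
        have h' : (Submodule.Quotient.mk m : M ⧸ rg a M) = 0 := h
        rw [Submodule.Quotient.mk_eq_zero] at h'
        obtain ⟨n, rfl⟩ := mem_rg.1 h'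
        exact ⟨Submodule.Quotient.mk n, by rw [Submodule.mapQ_apply]; rfl⟩
      · rintro ⟨z, hz⟩
        obtain ⟨n, rfl⟩ := Submodule.Quotient.mk_surjective _ z
        rw [← hz, Submodule.mapQ_apply]
        change (Submodule.Quotient.mk (a • n) : M ⧸ rg a M) = 0
        rw [Submodule.Quotient.mk_eq_zero]
        exact mem_rg.2 ⟨n, rfl⟩
  rw [e1, add_comm] at e2
  exact ENat.add_right_injective_of_ne_top hC e2

/-- A finite module killed by `J` with `R / J` of finite length has finite length. -/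
theorem length_ne_top_of_smul {R C : Type*} [CommRing R] [AddCommGroup C] [Module R C]
    [Module.Finite R C] (J : Ideal R) (hs : ∀ s ∈ J, ∀ c : C, s • c = 0)
    (hR : Module.length R (R ⧸ J) ≠ ⊤) : Module.length R C ≠ ⊤ := by
  obtain ⟨n, f, hf⟩ := Module.Finite.exists_fin' R C
  let p : Submodule R (Fin n → R) := Submodule.pi Set.univ fun _ => J
  have hp : p ≤ LinearMap.ker f := by
    intro v hv
    rw [LinearMap.mem_ker]
    have h1 : v = ∑ i, v i • Pi.single i (1 : R) := by
      funext j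
      simp [Finset.sum_apply, Pi.single_apply]
    rw [h1, map_sum]
    refine Finset.sum_eq_zero fun i _ => ?_
    rw [map_smul]
    exact hs _ (Submodule.mem_pi.1 hv i (Set.mem_univ i)) _
  let g : ((Fin n → R) ⧸ p) →ₗ[R] C := p.liftQ f hp
  have hg : Function.Surjective g := by
    intro c
    obtain ⟨v, rfl⟩ := hf c
    exact ⟨Submodule.Quotient.mk v, by simp [g]⟩
  have h1 := Module.length_le_of_surjective g hg
  have h2 : Module.length R ((Fin n → R) ⧸ p) = ∑ _ : Fin n, Module.length R (R ⧸ J) := by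
    rw [(Submodule.quotientPi (fun _ : Fin n => J)).length_eq,
      Module.length_pi_of_fintype]
  rw [h2] at h1
  refine ne_top_of_le_ne_top ?_ h1
  obtain ⟨m, hm⟩ := ENat.ne_top_iff_exists.1 hR
  rw [← hm, ← Nat.cast_sum]
  exact ENat.natCast_ne_top _

theorem quot_rg {R : Type*} [CommRing R] (p : Ideal R) (a : R) :
    Module.length R ((R ⧸ p) ⧸ rg a (R ⧸ p)) = Module.length R (R ⧸ (p ⊔ Ideal.span {a})) := by
  let f : R →ₗ[R] ((R ⧸ p) ⧸ rg a (R ⧸ p)) :=
    (rg a (R ⧸ p)).mkQ.comp p.mkQ
  have hf : Function.Surjective f :=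
    (Submodule.mkQ_surjective _).comp (Submodule.mkQ_surjective _)
  have hk : LinearMap.ker f = p ⊔ Ideal.span {a} := by
    ext x
    rw [LinearMap.mem_ker]
    change (Submodule.Quotient.mk (Submodule.Quotient.mk x : R ⧸ p) :
      (R ⧸ p) ⧸ rg a (R ⧸ p)) = 0 ↔ _
    rw [Submodule.Quotient.mk_eq_zero, mem_rg, Submodule.mem_sup]
    constructor
    · rintro ⟨n, hn⟩
      obtain ⟨n, rfl⟩ := Submodule.Quotient.mk_surjective _ n
      have h1 : (Submodule.Quotient.mk (a • n) : R ⧸ p) =
        Submodule.Quotient.mk x := hn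
      rw [eq_comm, Submodule.Quotient.eq] at h1
      exact ⟨x - a • n, h1, a • n, Ideal.mem_span_singleton'.2 ⟨n, by
        rw [smul_eq_mul, mul_comm]⟩, by ring⟩
    · rintro ⟨y, hy, z, hz, rfl⟩
      obtain ⟨n, rfl⟩ := Ideal.mem_span_singleton'.1 hz
      refine ⟨Submodule.Quotient.mk n, ?_⟩
      change (Submodule.Quotient.mk (a • n) : R ⧸ p) = _
      rw [Submodule.Quotient.eq, smul_eq_mul, mul_comm]
      have : n * a - (y + n * a) = -y := by ring
      rw [this]
      exact neg_mem hy
  rw [← hk]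
  exact (f.quotKerEquivOfSurjective hf).symm.length_eq
/-- **The length of `R / (I, a)` is the sum of the lengths over the minimal primes of `I`**, for a
radical ideal `I` of a local ring with `R / I` of dimension at most one. -/
theorem len_minimal {R : Type*} [CommRing R] [IsNoetherianRing R] [IsLocalRing R] {I : Ideal R}
    (hI : I.IsRadical)
    (hdim : ∀ p : Ideal R, p.IsPrime → I ≤ p → p ∈ I.minimalPrimes ∨ p = maximalIdeal R)
    (a : R) (ha : ∀ p ∈ I.minimalPrimes, a ∉ p) :
    Module.length R (R ⧸ (I ⊔ Ideal.span {a})) =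
      ∑ᶠ (p : Ideal R) (_ : p ∈ I.minimalPrimes),
        Module.length R (R ⧸ (p ⊔ Ideal.span {a})) := by
  classical
  have hfin : I.minimalPrimes.Finite := Ideal.finite_minimalPrimes_of_isNoetherianRing R I
  have : Fintype (I.minimalPrimes) := hfin.fintype
  have hbot : ∀ x : R, (∀ p ∈ I.minimalPrimes, x ∈ p) → x ∈ I := by
    intro x hx
    have h1 : x ∈ sInf I.minimalPrimes := by
      rw [Submodule.mem_sInf]
      exact hx
    rw [Ideal.sInf_minimalPrimes, hI.radical] at h1
    exact h1
  let M := ∀ p : I.minimalPrimes, R ⧸ (p : Ideal R)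
  let φ₀ : R →ₗ[R] M := LinearMap.pi fun p => (p : Ideal R).mkQ
  have hφ₀ : I ≤ LinearMap.ker φ₀ := by
    intro x hx
    rw [LinearMap.mem_ker]
    funext p
    exact (Submodule.Quotient.mk_eq_zero _).2 (p.2.1.2 hx)
  let φ : (R ⧸ I) →ₗ[R] M := I.liftQ φ₀ hφ₀
  have hφ : Function.Injective φ := by
    rw [← LinearMap.ker_eq_bot, LinearMap.ker_eq_bot']
    intro x hx
    obtain ⟨x, rfl⟩ := Submodule.Quotient.mk_surjective _ x
    rw [Submodule.Quotient.mk_eq_zero]
    refine hbot x fun p hp => ?_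
    have := congrFun hx ⟨p, hp⟩
    exact (Submodule.Quotient.mk_eq_zero _).1 this
  have hpr : ∀ p : I.minimalPrimes, (p : Ideal R).IsPrime := fun p => p.2.1.1
  have haM : ∀ m : M, a • m = 0 → m = 0 := by
    intro m hm
    funext p
    obtain ⟨r, hr⟩ := Submodule.Quotient.mk_surjective _ (m p)
    have h1 : a • m p = 0 := congrFun hm p
    rw [← hr] at h1 ⊢
    have h2 : (Submodule.Quotient.mk (a • r) : R ⧸ (p : Ideal R)) = 0 := h1
    rw [Submodule.Quotient.mk_eq_zero, smul_eq_mul] at h2
    refine (Submodule.Quotient.mk_eq_zero _).2 ?_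
    exact ((hpr p).mem_or_mem h2).resolve_left (ha p p.2)
  -- the conductor
  have hsi : ∀ p : I.minimalPrimes, ∃ s : R, s ∉ (p : Ideal R) ∧
      ∀ q : I.minimalPrimes, q ≠ p → s ∈ (q : Ideal R) := by
    intro p
    have h1 : ¬ ((Finset.univ.erase p).inf fun q : I.minimalPrimes => (q : Ideal R)) ≤ p := by
      intro h
      obtain ⟨q, hq, hqp⟩ := (hpr p).inf_le'.1 h
      have h2 : (p : Ideal R) ≤ q := p.2.2 (y := (q : Ideal R)) q.2.1 hqp
      exact (Finset.mem_erase.1 hq).1 (Subtype.ext (le_antisymm hqp h2))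
    obtain ⟨s, hs, hsp⟩ := SetLike.not_le_iff_exists.1 h1
    refine ⟨s, hsp, fun q hq => ?_⟩
    have h3 : ((Finset.univ.erase p).inf fun q : I.minimalPrimes => (q : Ideal R)) ≤ q :=
      Finset.inf_le (f := fun q : I.minimalPrimes => (q : Ideal R))
        (Finset.mem_erase.2 ⟨hq, Finset.mem_univ q⟩)
    exact h3 hs
  choose s hs1 hs2 using hsi
  set t : R := ∑ p, s p with ht
  have ht1 : ∀ p : I.minimalPrimes, t - s p ∈ (p : Ideal R) := by
    intro p
    rw [ht, ← Finset.sum_erase_add _ _ (Finset.mem_univ p), add_sub_cancel_right]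
    refine Ideal.sum_mem _ fun q hq => hs2 q p ?_
    exact fun h => (Finset.mem_erase.1 hq).1 h.symm
  have ht2 : ∀ p ∈ I.minimalPrimes, t ∉ p := by
    intro p hp h
    have h1 := ht1 ⟨p, hp⟩
    have h2 : s ⟨p, hp⟩ = t - (t - s ⟨p, hp⟩) := by ring
    exact hs1 ⟨p, hp⟩ (by rw [h2]; exact Ideal.sub_mem _ h h1)
  have ht3 : ∀ m : M, t • m ∈ LinearMap.range φ := by
    intro m
    choose r hr using fun p : I.minimalPrimes =>
      Submodule.Quotient.mk_surjective (p : Ideal R) (m p)
    refine ⟨Submodule.Quotient.mk (∑ p, s p * r p), ?_⟩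
    funext p
    change (Submodule.Quotient.mk (∑ p, s p * r p) : R ⧸ (p : Ideal R)) = t • m p
    rw [← hr p]
    change _ = (Submodule.Quotient.mk (t • r p) : R ⧸ (p : Ideal R))
    rw [Submodule.Quotient.eq, smul_eq_mul]
    have h1 : ∑ q, s q * r q - t * r p =
        (∑ q ∈ Finset.univ.erase p, s q * r q) - (t - s p) * r p := by
      rw [← Finset.sum_erase_add _ _ (Finset.mem_univ p)]
      ring
    rw [h1]
    refine Ideal.sub_mem _ (Ideal.sum_mem _ fun q hq => Ideal.mul_mem_right _ _ (hs2 q p ?_))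
      (Ideal.mul_mem_right _ _ (ht1 p))
    exact fun h => (Finset.mem_erase.1 hq).1 h.symm
  have hRt : Module.length R (R ⧸ (I ⊔ Ideal.span {t})) ≠ ⊤ := by
    have h1 : Ring.KrullDimLE 0 (R ⧸ (I ⊔ Ideal.span {t})) := by
      rw [Ideal.krullDimLE_zero_quotient_iff_forall_minimalPrimes_isMaximal]
      intro q hq
      have hq1 : q.IsPrime := hq.1.1
      have hq2 : t ∈ q := hq.1.2 (Ideal.mem_sup_right (Ideal.mem_span_singleton_self t))
      rcases hdim q hq1 (le_sup_left.trans hq.1.2) with h | h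
      · exact absurd hq2 (ht2 q h)
      · rw [h]
        infer_instance
    have h2 : IsArtinianRing (R ⧸ (I ⊔ Ideal.span {t})) := isArtinianRing_iff_krullDimLE_zero.2 h1
    have h3 : Module.length R (R ⧸ (I ⊔ Ideal.span {t})) =
        Module.length (R ⧸ (I ⊔ Ideal.span {t})) (R ⧸ (I ⊔ Ideal.span {t})) :=
      Module.length_eq_of_surjective (S := R) (R := R ⧸ (I ⊔ Ideal.span {t}))
        Ideal.Quotient.mk_surjective
    rw [h3]
    exact Module.length_ne_top
  have hC : Module.length R (M ⧸ LinearMap.range φ) ≠ ⊤ := by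
    have : Module.Finite R M := Module.Finite.pi
    refine length_ne_top_of_smul (I ⊔ Ideal.span {t}) ?_ hRt
    intro u hu c
    obtain ⟨m, rfl⟩ := Submodule.Quotient.mk_surjective _ c
    rw [← Submodule.Quotient.mk_smul, Submodule.Quotient.mk_eq_zero]
    obtain ⟨v, hv, w, hw, rfl⟩ := Submodule.mem_sup.1 hu
    obtain ⟨n, rfl⟩ := Ideal.mem_span_singleton'.1 hw
    have h1 : v • m = 0 := by
      funext p
      obtain ⟨r, hr⟩ := Submodule.Quotient.mk_surjective (p : Ideal R) (m p)
      change v • m p = 0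
      rw [← hr]
      refine (Submodule.Quotient.mk_eq_zero _).2 ?_
      exact Ideal.mul_mem_right _ _ (p.2.1.2 hv)
    rw [add_smul, h1, zero_add, mul_smul]
    exact Submodule.smul_mem _ _ (ht3 m)
  have hmain := len_aux φ hφ a haM hC
  have hpi : rg a M = Submodule.pi Set.univ fun p : I.minimalPrimes => rg a (R ⧸ (p : Ideal R)) := by
    ext m
    rw [mem_rg, Submodule.mem_pi]
    constructor
    · rintro ⟨n, rfl⟩ p -
      exact mem_rg.2 ⟨n p, rfl⟩
    · intro h
      choose n hn using fun p => mem_rg.1 (h p (Set.mem_univ p))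
      exact ⟨n, funext hn⟩
  rw [← quot_rg, hmain, hpi, (Submodule.quotientPi _).length_eq, Module.length_pi_of_fintype,
    finsum_mem_eq_finite_toFinset_sum _ hfin,
    Finset.sum_congr rfl fun p (_ : p ∈ (Finset.univ : Finset I.minimalPrimes)) =>
      quot_rg (p : Ideal R) a]
  rw [← Finset.sum_coe_sort hfin.toFinset]
  refine Fintype.sum_equiv (Equiv.subtypeEquivRight fun p => by simp) _ _ fun p => rfl

end Pool.Agent.Lib.MP_b197b4_ntKE
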