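import Mathlib
import Pool.Agent.Lib.MP_b197b4_ntKE.LenMin

/-!
# MP_b197b4_nt, project K1-ALL-DESC: lengths after a flat unramified extension
-/

set_option autoImplicit false

namespace Pool.Agent.Lib.MP_b197b4_ntKE

open IsLocalRing

variable {R S : Type} [CommRing R] [CommRing S] [Algebra R S]

/-- `S` is unramified over `R`. -/
def Unr (R S : Type) [CommRing R] [CommRing S] [Algebra R S] : Prop :=
  ∀ Q : Ideal S, Q.IsPrime → ∀ y ∈ Q, ∃ s, s ∉ Q ∧
    s * y ∈ (Q.comap (algebraMap R S)).map (algebraMap R S)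

theorem flat_mem [Module.Flat R S] {p : Ideal R} [hp : p.IsPrime] {s : R} (hs : s ∉ p) {y : S}
    (hy : algebraMap R S s * y ∈ p.map (algebraMap R S)) : y ∈ p.map (algebraMap R S) := by
  obtain ⟨t, ht, c, hc⟩ := (Submodule.mem_span_image_iff_exists_fun S).1 hy
  have hsum : ∑ i : Option t, (i.elim s (fun j => -(j : R))) • (i.elim y (fun j => c j)) = 0 := by
    rw [Fintype.sum_option]
    simp only [Option.elim]
    rw [Algebra.smul_def, ← hc]
    rw [← Finset.sum_add_distrib]
    refine Finset.sum_eq_zero fun i _ => ?_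
    rw [smul_eq_mul, Algebra.smul_def (-(i : R)) (c i), map_neg]
    ring
  obtain ⟨n, u, w, hu, hw⟩ := Module.Flat.isTrivialRelation_of_sum_smul_eq_zero (R := R) (M := S)
    (f := fun i : Option t => i.elim s (fun j => -(j : R)))
    (x := fun i : Option t => i.elim y (fun j => c j)) hsum
  have h1 := hu none
  simp only [Option.elim] at h1
  rw [h1]
  refine Ideal.sum_mem _ fun j _ => ?_
  rw [Algebra.smul_def]
  refine Ideal.mul_mem_right _ _ (Ideal.mem_map_of_mem _ ?_)
  have h2 := hw j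
  rw [Fintype.sum_option] at h2
  simp only [Option.elim] at h2
  have h3 : s * u none j ∈ p := by
    have h4 : s * u none j = ∑ i : t, (i : R) * u (some i) j := by
      rw [← sub_eq_zero, ← h2, sub_eq_add_neg, ← Finset.sum_neg_distrib]
      congr 1
      refine Finset.sum_congr rfl fun i _ => by ring
    rw [h4]
    exact Ideal.sum_mem _ fun i _ => Ideal.mul_mem_right _ _ (ht i.2)
  exact (hp.mem_or_mem h3).resolve_left hs

theorem Unr.incomp (h : Unr R S) {Q Q' : Ideal S} (hQ : Q.IsPrime) (hQ' : Q'.IsPrime)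
    (hle : Q' ≤ Q) (he : Q'.comap (algebraMap R S) = Q.comap (algebraMap R S)) : Q' = Q := by
  refine le_antisymm hle fun y hy => ?_
  obtain ⟨s, hs, hsy⟩ := h Q hQ y hy
  rw [← he] at hsy
  have h1 : s * y ∈ Q' := Ideal.map_comap_le hsy
  exact (hQ'.mem_or_mem h1).resolve_left fun h2 => hs (hle h2)

theorem Unr.radical [Module.Flat R S] (h : Unr R S) (p : Ideal R) [hp : p.IsPrime] :
    (p.map (algebraMap R S)).IsRadical := by
  intro y hy
  by_contra hyn
  -- the ideal of denominators
  let J : Ideal S :=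
    { carrier := {b | b * y ∈ p.map (algebraMap R S)}
      add_mem' := fun {b c} hb hc => by
        change (b + c) * y ∈ p.map (algebraMap R S)
        rw [add_mul]
        exact Ideal.add_mem _ hb hc
      zero_mem' := by
        change 0 * y ∈ p.map (algebraMap R S)
        rw [zero_mul]
        exact Ideal.zero_mem _
      smul_mem' := fun c b hb => by
        change c * b * y ∈ p.map (algebraMap R S)
        rw [mul_assoc]
        exact Ideal.mul_mem_left _ _ hb }
  have hmJ : ∀ b, b ∈ J ↔ b * y ∈ p.map (algebraMap R S) := fun b => Iff.rfl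
  have hdisj : Disjoint (J : Set S) ((p.primeCompl.map (algebraMap R S) : Submonoid S) : Set S) := by
    rw [Set.disjoint_left]
    rintro b hb ⟨s, hs, rfl⟩
    exact hyn (flat_mem hs ((hmJ _).1 hb))
  obtain ⟨Q, hQ, hJQ, hdQ⟩ := Ideal.exists_le_prime_disjoint J _ hdisj
  have hpQ : p.map (algebraMap R S) ≤ Q := fun b hb => hJQ ((hmJ b).2 (Ideal.mul_mem_right _ _ hb))
  have hc : Q.comap (algebraMap R S) = p := by
    refine le_antisymm (fun s hs => ?_) (Ideal.map_le_iff_le_comap.1 hpQ)
    by_contra hsp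
    exact Set.disjoint_left.1 hdQ hs ⟨s, hsp, rfl⟩
  have hyQ : y ∈ Q := by
    obtain ⟨n, hn⟩ := hy
    exact hQ.mem_of_pow_mem n (hpQ hn)
  obtain ⟨s, hs, hsy⟩ := h Q hQ y hyQ
  rw [hc] at hsy
  exact hs (hJQ ((hmJ s).2 hsy))

theorem Unr.minimalPrimes [Module.Flat R S] (h : Unr R S) (p : Ideal R) [hp : p.IsPrime] :
    (p.map (algebraMap R S)).minimalPrimes =
      {Q | Q.IsPrime ∧ Q.comap (algebraMap R S) = p} := by
  ext Q
  constructor
  · intro hQ
    have hQp : Q.IsPrime := hQ.1.1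
    have hle : p ≤ Q.comap (algebraMap R S) := Ideal.map_le_iff_le_comap.1 hQ.1.2
    obtain ⟨Q', hQ', hQ'p, hQ'l⟩ := Ideal.exists_ideal_le_liesOver_of_le (p := p)
      (q := Q.comap (algebraMap R S)) Q hle
    have h1 : Q'.comap (algebraMap R S) = p := hQ'l.over.symm
    have h2 : p.map (algebraMap R S) ≤ Q' := Ideal.map_le_iff_le_comap.2 h1.ge
    have h3 : Q = Q' := le_antisymm (hQ.2 ⟨hQ'p, h2⟩ hQ') hQ'
    exact ⟨hQp, h3 ▸ h1⟩
  · rintro ⟨hQ, hQc⟩
    refine ⟨⟨hQ, Ideal.map_le_iff_le_comap.2 hQc.ge⟩, ?_⟩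
    rintro Q' ⟨hQ', hpQ'⟩ hle
    have h1 : Q'.comap (algebraMap R S) = Q.comap (algebraMap R S) := by
      refine le_antisymm (Ideal.comap_mono hle) ?_
      rw [hQc]
      exact Ideal.map_le_iff_le_comap.1 hpQ'
    rw [h.incomp hQ hQ' hle h1]

/-- **Lengths after a flat unramified extension.** -/
theorem len_flat [IsNoetherianRing S] [IsLocalRing R] [IsLocalRing S]
    [IsLocalHom (algebraMap R S)] [Module.Flat R S] (h : Unr R S) (p : Ideal R) [hp : p.IsPrime]
    (hdim : ∀ q : Ideal R, q.IsPrime → p ≤ q → q = p ∨ q = maximalIdeal R) {a : R} (ha : a ∉ p) :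
    {Q : Ideal S | Q.IsPrime ∧ Q.comap (algebraMap R S) = p}.Finite ∧
    Module.length R (R ⧸ (p ⊔ Ideal.span {a})) =
      ∑ᶠ (Q : Ideal S) (_ : Q.IsPrime ∧ Q.comap (algebraMap R S) = p),
        Module.length S (S ⧸ (Q ⊔ Ideal.span {algebraMap R S a})) := by
  have hmin := h.minimalPrimes p
  have hcm : (maximalIdeal S).comap (algebraMap R S) = maximalIdeal R := by
    ext x
    rw [Ideal.mem_comap, mem_maximalIdeal, mem_maximalIdeal, mem_nonunits_iff, mem_nonunits_iff,
      isUnit_map_iff]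
  have hmax : (maximalIdeal R).map (algebraMap R S) = maximalIdeal S := by
    refine le_antisymm (Ideal.map_le_iff_le_comap.2 hcm.ge) ?_
    intro y hy
    obtain ⟨s, hs, hsy⟩ := h (maximalIdeal S) inferInstance y hy
    rw [hcm] at hsy
    have hsu : IsUnit s := by
      by_contra hn
      exact hs ((mem_maximalIdeal s).2 hn)
    exact (Ideal.unit_mul_mem_iff_mem _ hsu).1 hsy
  constructor
  · rw [← hmin]
    exact Ideal.finite_minimalPrimes_of_isNoetherianRing S _
  have h1 := len_minimal (h.radical p) (fun Q hQ hpQ => ?_) (algebraMap R S a) (fun Q hQ haQ => ?_)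
  · have h2 := IsLocalRing.length_baseChange R S (R ⧸ (p ⊔ Ideal.span {a}))
    rw [hmax] at h2
    have h3 : Module.length S (S ⧸ maximalIdeal S) = 1 := by
      rw [Module.length_eq_one_iff]
      exact isSimpleModule_iff_quot_maximal.mpr
        ⟨_, maximalIdeal.isMaximal S, ⟨LinearEquiv.refl _ _⟩⟩
    rw [h3, mul_one] at h2
    rw [← h2, ← (Algebra.TensorProduct.quotIdealMapEquivTensorQuot S
      (p ⊔ Ideal.span {a})).toLinearEquiv.length_eq, Ideal.map_sup, Ideal.map_span,
      Set.image_singleton, h1]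
    refine finsum_congr fun Q => ?_
    rw [hmin]
    rfl
  · have hle : p ≤ Q.comap (algebraMap R S) := Ideal.map_le_iff_le_comap.1 hpQ
    rcases hdim _ (Ideal.IsPrime.comap _) hle with h4 | h4
    · left
      rw [hmin]
      exact ⟨hQ, h4⟩
    · right
      refine ((maximalIdeal.isMaximal S).eq_of_le hQ.ne_top ?_).symm
      rw [← hmax]
      exact Ideal.map_le_iff_le_comap.2 h4.ge
  · rw [hmin] at hQ
    exact ha (hQ.2 ▸ haQ)

end Pool.Agent.Lib.MP_b197b4_ntKE
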