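import Pool.Agent.Lib.MP_b197b4_ntKE.Pt1

/-!
# MP_b197b4_nt, project K1-ALL-DESC: the points over a point
-/

set_option autoImplicit false

namespace Pool.Agent.Lib.MP_b197b4_ntKE

open IsLocalRing Pool.Agent.Lib.MP_b197b4_ntK Pool.Agent.Lib.MP_b197b4_ntA
  Pool.Agent.Lib.MP_b197b4_ntKD Pool.Agent.Lib.MP_b197b4_ntKR

attribute [local instance] bcAlg

variable {k k' F K : Type} [Field k] [Field k'] [Field F] [Field K] [Algebra k k'] [Algebra k F]
  [Algebra k' K] [Algebra F K] {n d : ℕ} {x : Fin (n + 1) → F}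

/-- Finitely many primes over a prime. -/
theorem Pts_fin {R S : Type} [CommRing R] [CommRing S] [Algebra R S] [Algebra.IsIntegral R S]
    [IsNoetherianRing S] (Q : Ideal R) : {Q' : Ideal S | Q'.IsPrime ∧ Q'.comap (algebraMap R S) = Q}.Finite := by
  refine (Ideal.finite_minimalPrimes_of_isNoetherianRing S (Q.map (algebraMap R S))).subset ?_
  rintro Q' ⟨hQ', rfl⟩
  refine ⟨⟨hQ', Ideal.map_comap_le⟩, ?_⟩
  rintro J ⟨hJ, hle⟩ hJQ
  by_contra hcon
  have hlt : J < Q' := lt_of_le_of_ne hJQ fun h => hcon h.ge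
  have := hJ
  have h1 := Ideal.IsIntegral.comap_lt_comap (R := R) hlt
  have h2 : Q'.comap (algebraMap R S) ≤ J.comap (algebraMap R S) := Ideal.le_comap_of_map_le hle
  exact absurd h1 (not_lt_of_ge h2)

theorem ov_nonempty (h : BC k k' F K) (hx : Var k d x) {e : ℕ} {P : LocalSubring F}
    (hP : P ∈ Pts k x e) :
    (Ov k' (fun i => algebraMap F K (x i)) (algebraMap F K) e P).Nonempty := by
  obtain ⟨i, Q, hQ, hd, rfl⟩ := hP
  have hint := h.isIntegral (cht k x i)
  have hinj : Function.Injective (algebraMap (cht k x i) (bc k' K (cht k x i))) :=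
    bcMap_injective (cht k x i)
  obtain ⟨Q'', hQ'', hQQ⟩ := Ideal.exists_ideal_over_prime_of_isIntegral_of_isDomain
    (S := bc k' K (cht k x i)) (R := cht k x i) Q (by
      rw [(RingHom.injective_iff_ker_eq_bot _).mp hinj]
      exact bot_le)
  have key : ∀ (B : Subalgebra k' K) (hB : B = bc k' K (cht k x i)), ∃ (Q' : Ideal B.toSubring)
      (_ : Q'.IsPrime), ∀ (a : F) (h1 : a ∈ (cht k x i).toSubring)
        (h2 : algebraMap F K a ∈ B.toSubring),
        (⟨a, h1⟩ : (cht k x i).toSubring) ∈ Q ↔ ⟨algebraMap F K a, h2⟩ ∈ Q' := by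
    intro B hB
    subst hB
    refine ⟨Q'', hQ'', fun a h1 h2 => ?_⟩
    have h3 : (⟨a, h1⟩ : cht k x i) ∈ Q''.comap (algebraMap (cht k x i) (bc k' K (cht k x i))) ↔
      (⟨a, h1⟩ : cht k x i) ∈ (Q : Ideal (cht k x i)) := by rw [hQQ]
    exact h3.symm
  obtain ⟨Q', hQ', hmem⟩ := key _ (Var_cht_eq h x i)
  obtain ⟨Q₁, hQ₁, e1, e2, e3⟩ := dn_ofPrime h hx i Q' hQ'
  have hQQ₁ : Q₁ = Q := by
    ext a
    have h4 : algebraMap F K (a : F) ∈
        (cht k' (fun i => algebraMap F K (x i)) i).toSubring := by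
      have h5 : algebraMap F K (a : F) ∈ bc k' K (cht k x i) := mem_bc a.2
      rw [← Var_cht_eq h x i] at h5
      exact h5
    exact (e2 a a.2 h4).trans (hmem a a.2 h4).symm
  subst hQQ₁
  exact ⟨LocalSubring.ofPrime _ Q', ⟨i, Q', hQ', e3.symm.trans hd, rfl⟩, e1⟩

theorem ov_finite (h : BC k k' F K) (hx : Var k d x) {e : ℕ} {P : LocalSubring F}
    (hP : P ∈ Pts k x e) :
    (Ov k' (fun i => algebraMap F K (x i)) (algebraMap F K) e P).Finite := by
  have hsub : Ov k' (fun i => algebraMap F K (x i)) (algebraMap F K) e P ⊆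
      ⋃ i : Fin (n + 1), {P' | ∃ (Q' : Ideal (cht k' (fun i => algebraMap F K (x i)) i).toSubring)
        (_ : Q'.IsPrime), P' = LocalSubring.ofPrime _ Q' ∧ dn (algebraMap F K) P' = P} := by
    rintro P' ⟨⟨i, Q', hQ', -, rfl⟩, hdn⟩
    exact Set.mem_iUnion.mpr ⟨i, Q', hQ', rfl, hdn⟩
  refine (Set.finite_iUnion fun i => ?_).subset hsub
  have hint := h.isIntegral (cht k x i)
  have hfg : (cht k x i).FG := Subalgebra.fg_def.mpr ⟨_, Set.finite_range _, rfl⟩
  have hnoeth : IsNoetherianRing (bc k' K (cht k x i)) := by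
    let _ : Algebra k K := ((algebraMap k' K).comp (algebraMap k k')).toAlgebra
    have : IsScalarTower k k' K := IsScalarTower.of_algebraMap_eq fun _ => rfl
    have : IsScalarTower k F K := IsScalarTower.of_algebraMap_eq fun c => h.comm c
    exact bc_noetherian hfg
  have key : ∀ (B : Subalgebra k' K) (hB : B = bc k' K (cht k x i)),
      {P' | ∃ (Q' : Ideal B.toSubring)
        (_ : Q'.IsPrime), P' = LocalSubring.ofPrime _ Q' ∧ dn (algebraMap F K) P' = P}.Finite := by
    intro B hB
    subst hB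
    by_cases hne : {P' | ∃ (Q' : Ideal (bc k' K (cht k x i)).toSubring)
        (_ : Q'.IsPrime), P' = LocalSubring.ofPrime _ Q' ∧ dn (algebraMap F K) P' = P}.Nonempty
    · obtain ⟨P₀, Q₀, hQ₀, rfl, hd₀⟩ := hne
      have hf := Pts_fin (R := cht k x i) (S := bc k' K (cht k x i))
        (Q₀.comap (algebraMap (cht k x i) (bc k' K (cht k x i))))
      have hmem : ∀ (Q' : Ideal (bc k' K (cht k x i)).toSubring) [Q'.IsPrime] (a : cht k x i),
          algebraMap (cht k x i) (bc k' K (cht k x i)) a ∈ Q' ↔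
            ¬ ∃ hy : (a : F) ∈ (dn (algebraMap F K) (LocalSubring.ofPrime _ Q')).toSubring,
              IsUnit (⟨a, hy⟩ : (dn (algebraMap F K) (LocalSubring.ofPrime _ Q')).toSubring) := by
        intro Q' _ a
        have h1 := xcen_unit (bc k' K (cht k x i)).toSubring Q' (bcMap k' K _ a)
        have hy2 : algebraMap F K (a : F) ∈
            (LocalSubring.ofPrime (bc k' K (cht k x i)).toSubring Q').toSubring :=
          LocalSubring.le_ofPrime _ Q' (bcMap k' K _ a).2
        have h3 : ∀ hy1, IsUnit (⟨(a : F), hy1⟩ : (dn (algebraMap F K)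
            (LocalSubring.ofPrime (bc k' K (cht k x i)).toSubring Q')).toSubring) ↔
            bcMap k' K _ a ∉ Q' := fun hy1 =>
          (isUnit_dn (algebraMap F K) (LocalSubring.ofPrime _ Q') (a : F) hy1 hy2).trans h1
        rw [← not_iff_not, not_not]
        constructor
        · intro h2
          exact ⟨hy2, (h3 hy2).mpr h2⟩
        · rintro ⟨hy, hu⟩
          exact (h3 hy).mp hu
      have hcomap : ∀ (Q' : Ideal (bc k' K (cht k x i)).toSubring) (hQ' : Q'.IsPrime),
          dn (algebraMap F K) (LocalSubring.ofPrime _ Q') = P →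
          Q'.comap (algebraMap (cht k x i) (bc k' K (cht k x i))) =
            Q₀.comap (algebraMap (cht k x i) (bc k' K (cht k x i))) := by
        intro Q' hQ' hd'
        ext a
        rw [Ideal.mem_comap, Ideal.mem_comap]
        have h1 := hmem Q' a
        have h2 := hmem Q₀ a
        rw [hd'] at h1
        rw [hd₀] at h2
        exact h1.trans h2.symm
      have hfin : {P' | ∃ Q' : {Q' : Ideal (bc k' K (cht k x i)) // Q'.IsPrime ∧
          Q'.comap (algebraMap (cht k x i) (bc k' K (cht k x i))) =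
            Q₀.comap (algebraMap (cht k x i) (bc k' K (cht k x i)))},
          P' = @LocalSubring.ofPrime K _ (bc k' K (cht k x i)).toSubring Q'.1 Q'.2.1}.Finite := by
        have : Finite {Q' : Ideal (bc k' K (cht k x i)) // Q'.IsPrime ∧
          Q'.comap (algebraMap (cht k x i) (bc k' K (cht k x i))) =
            Q₀.comap (algebraMap (cht k x i) (bc k' K (cht k x i)))} := hf
        have h5 := Set.finite_range (fun Q' : {Q' : Ideal (bc k' K (cht k x i)) // Q'.IsPrime ∧
          Q'.comap (algebraMap (cht k x i) (bc k' K (cht k x i))) =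
            Q₀.comap (algebraMap (cht k x i) (bc k' K (cht k x i)))} =>
          @LocalSubring.ofPrime K _ (bc k' K (cht k x i)).toSubring Q'.1 Q'.2.1)
        refine h5.subset ?_
        rintro _ ⟨Q', rfl⟩
        exact ⟨Q', rfl⟩
      refine hfin.subset ?_
      rintro _ ⟨Q', hQ', rfl, hd'⟩
      exact ⟨⟨Q', hQ', hcomap Q' hQ' hd'⟩, rfl⟩
    · rw [Set.not_nonempty_iff_eq_empty] at hne
      rw [hne]
      exact Set.finite_empty
  exact key _ (Var_cht_eq h x i)

end Pool.Agent.Lib.MP_b197b4_ntKE
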