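import Pool.Agent.Lib.MP_b197b4_ntKA.RegL

/-!
# A regular domain is integrally closed
-/

set_option autoImplicit false

namespace Pool.Agent.Lib.MP_b197b4_ntKE

open IsLocalRing Pool.Agent.Lib.MP_b197b4_ntKA

/-- In a regular local domain `R`, an integral element `z` of the field of fractions with `m z`
contained in `R` belongs to `R`. -/
theorem Reg_core {R K : Type} [CommRing R] [IsDomain R] [IsRegularLocalRing R] [Field K]
    [Algebra R K] [IsFractionRing R K] {z : K} (hz : IsIntegral R z)
    (hm : ∀ y ∈ maximalIdeal R, ∃ u : R, algebraMap R K u = algebraMap R K y * z) :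
    ∃ u : R, algebraMap R K u = z := by
  have hfg : (maximalIdeal R).FG := (maximalIdeal R).fg_of_isNoetherianRing
  have hg := Submodule.FG.generators_ncard hfg
  have hgf : (Submodule.generators (maximalIdeal R)).Finite := Submodule.FG.finite_generators hfg
  have hgs : Ideal.span (Submodule.generators (maximalIdeal R)) = maximalIdeal R :=
    Submodule.span_generators (maximalIdeal R)
  obtain ⟨n, hn⟩ : ∃ n : ℕ, (maximalIdeal R).spanFinrank = n := ⟨_, rfl⟩
  have hdim : ringKrullDim R = (n : WithBot ℕ∞) := by
    rw [← IsRegularLocalRing.spanFinrank_maximalIdeal (R := R), hn]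
  rw [hn] at hg
  rcases Nat.lt_or_ge n 2 with h2 | h2
  · -- a field or a discrete valuation ring
    have hcl : IsIntegrallyClosed R := by
      rcases (by omega : n = 0 ∨ n = 1) with rfl | rfl
      · have h3 : maximalIdeal R = ⊥ := by
          have h4 : Submodule.generators (maximalIdeal R) = ∅ := (Set.ncard_eq_zero hgf).1 hg
          rw [← hgs, h4, Ideal.span_empty]
        exact (IsLocalRing.isField_iff_maximalIdeal_eq.2 h3).toField.instIsIntegrallyClosed
      · rw [IsLocalRing.spanFinrank_maximalIdeal_eq_finrank_cotangentSpace] at hn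
        have h3 : IsDiscreteValuationRing R := IsLocalRing.finrank_CotangentSpace_eq_one_iff.1 hn
        infer_instance
    exact IsIntegrallyClosed.isIntegral_iff.1 hz
  · -- dimension at least two
    have h3 : (Submodule.generators (maximalIdeal R)).Nonempty := by
      rw [← Set.ncard_pos hgf]
      omega
    obtain ⟨x, hx⟩ := h3
    have hxm : x ∈ maximalIdeal R := by
      rw [← hgs]
      exact Ideal.subset_span hx
    have h4 := reg_quot (R := R) (d := 1) (e := n - 1) (s := {x})
      (t := Submodule.generators (maximalIdeal R) \ {x})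
      (by rw [hdim]; congr 1; exact_mod_cast (by omega : n = 1 + (n - 1)))
      (Set.finite_singleton x) (hgf.subset Set.sdiff_subset) (by simp)
      (by rw [Set.ncard_sdiff_singleton_of_mem hx, hg])
      (by
        rw [Set.singleton_union, Set.insert_diff_singleton, Set.insert_eq_of_mem hx]
        exact hgs)
    have h5 := h4.1
    have h6 : IsDomain (R ⧸ Ideal.span {x}) := isDomain_of_regular (n - 1) _ h4.2
    have hpr : (Ideal.span {x}).IsPrime := (Ideal.Quotient.isDomain_iff_prime _).1 h6
    obtain ⟨y, hy, hyx⟩ : ∃ y ∈ maximalIdeal R, y ∉ Ideal.span {x} := by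
      by_contra hcon
      push Not at hcon
      have h7 : maximalIdeal R = Ideal.span {x} :=
        le_antisymm hcon ((Ideal.span_singleton_le_iff_mem _).2 hxm)
      have h8 := Submodule.spanFinrank_span_le_ncard_of_finite (R := R) (Set.finite_singleton x)
      change (Ideal.span {x}).spanFinrank ≤ _ at h8
      rw [← h7, hn, Set.ncard_singleton] at h8
      omega
    obtain ⟨u, hu⟩ := hm x hxm
    obtain ⟨v, hv⟩ := hm y hy
    have hinj : Function.Injective (algebraMap R K) := IsFractionRing.injective R K
    have h7 : x * v = y * u := by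
      apply hinj
      rw [map_mul, map_mul, hu, hv]
      ring
    have h8 : u ∈ Ideal.span {x} := by
      refine (hpr.mem_or_mem (?_ : y * u ∈ Ideal.span {x})).resolve_left hyx
      rw [← h7]
      exact Ideal.mul_mem_right _ _ (Ideal.mem_span_singleton_self x)
    obtain ⟨w, hw⟩ := Ideal.mem_span_singleton'.1 h8
    have hx0 : x ≠ 0 := by
      rintro rfl
      have h9 : (Submodule.generators (maximalIdeal R) \ {0}).Finite := hgf.subset Set.sdiff_subset
      have h10 : maximalIdeal R = Ideal.span (Submodule.generators (maximalIdeal R) \ {0}) := by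
        rw [Ideal.span_sdiff_singleton_zero, hgs]
      have h11 := Submodule.spanFinrank_span_le_ncard_of_finite (R := R) h9
      change (Ideal.span (Submodule.generators (maximalIdeal R) \ {0})).spanFinrank ≤ _ at h11
      rw [← h10, hn, Set.ncard_sdiff_singleton_of_mem hx, hg] at h11
      omega
    refine ⟨w, ?_⟩
    have h9 : algebraMap R K x ≠ 0 := fun h => hx0 (hinj (by rw [h, map_zero]))
    apply mul_left_cancel₀ h9
    rw [← hu, ← hw, map_mul]
    ring

/-- An integral element `w` of the field of fractions for which the conductor `(A : w)` is a prime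
ideal `Q` does not exist if the local ring at `Q` is regular. -/
theorem Reg_step {A R K : Type} [CommRing A] [IsDomain A] [CommRing R] [IsDomain R]
    [IsRegularLocalRing R] [Field K] [Algebra A R] [Algebra R K] [Algebra A K]
    [IsScalarTower A R K] [IsFractionRing A K] [IsFractionRing R K] (Q : Ideal A) [Q.IsPrime]
    [IsLocalization.AtPrime R Q] (w : K) (hw : IsIntegral A w)
    (hmem : ∀ a : A, a ∈ Q ↔ ∃ u : A, algebraMap A K u = algebraMap A K a * w) : False := by
  have hinj : Function.Injective (algebraMap A K) := IsFractionRing.injective A K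
  have hs0 : ∀ s : Q.primeCompl, algebraMap A K s ≠ 0 := by
    intro s h
    have h1 : (s : A) = 0 := hinj (by rw [h, map_zero])
    exact s.2 (h1 ▸ Q.zero_mem)
  have h1 : ∀ (b : A) (s : Q.primeCompl),
      algebraMap R K (IsLocalization.mk' R b s) * algebraMap A K (s : A) = algebraMap A K b := by
    intro b s
    rw [IsScalarTower.algebraMap_apply A R K, ← map_mul, IsLocalization.mk'_spec,
      ← IsScalarTower.algebraMap_apply]
  obtain ⟨r, hr⟩ := Reg_core (R := R) hw.tower_top (by
    intro y hy
    obtain ⟨a, s, rfl⟩ := IsLocalization.exists_mk'_eq Q.primeCompl y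
    have ha : a ∈ Q := (IsLocalization.AtPrime.mk'_mem_maximal_iff R Q a s).1 hy
    obtain ⟨u, hu⟩ := (hmem a).1 ha
    refine ⟨IsLocalization.mk' R u s, ?_⟩
    apply mul_right_cancel₀ (hs0 s)
    rw [mul_right_comm, h1, h1, hu])
  obtain ⟨a, s, rfl⟩ := IsLocalization.exists_mk'_eq Q.primeCompl r
  refine s.2 ((hmem s).2 ⟨a, ?_⟩)
  rw [← h1 a s, hr, mul_comm]

/-- A regular domain is integrally closed. -/
theorem isIntegrallyClosed_of_reg {A : Type} [CommRing A] [IsDomain A] [IsRegularRing A] :
    IsIntegrallyClosed A := by
  rw [isIntegrallyClosed_iff (FractionRing A)]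
  intro z hz
  by_contra hcon
  let B := integralClosure A (FractionRing A)
  let N : Submodule A B := LinearMap.range (Algebra.linearMap A B)
  let z0 : B := ⟨z, hz⟩
  have hz0 : (N.mkQ z0) ≠ 0 := by
    intro h
    rw [Submodule.mkQ_apply, Submodule.Quotient.mk_eq_zero] at h
    obtain ⟨a, ha⟩ := h
    exact hcon ⟨a, congrArg Subtype.val ha⟩
  obtain ⟨Q, hQ, -⟩ := exists_le_isAssociatedPrime_of_isNoetherianRing A (N.mkQ z0) hz0
  rw [isAssociatedPrime_iff] at hQ
  obtain ⟨hQp, w0, hw0⟩ := hQ
  obtain ⟨w, rfl⟩ := N.mkQ_surjective w0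
  have hmem : ∀ a : A, a ∈ Q ↔ ∃ u : A, algebraMap A (FractionRing A) u =
      algebraMap A (FractionRing A) a * (w : FractionRing A) := by
    intro a
    rw [hw0, Submodule.mem_colon_singleton, Submodule.mem_bot, ← map_smul, Submodule.mkQ_apply,
      Submodule.Quotient.mk_eq_zero]
    constructor
    · rintro ⟨u, hu⟩
      refine ⟨u, ?_⟩
      have h := congrArg Subtype.val hu
      rw [← Algebra.smul_def]
      exact h
    · rintro ⟨u, hu⟩
      refine ⟨u, Subtype.ext ?_⟩
      rw [← Algebra.smul_def] at hu
      exact hu
  have hle : Q.primeCompl ≤ nonZeroDivisors A := Q.primeCompl_le_nonZeroDivisors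
  letI : Algebra (Localization.AtPrime Q) (FractionRing A) :=
    IsLocalization.localizationAlgebraOfSubmonoidLe _ _ Q.primeCompl (nonZeroDivisors A) hle
  haveI : IsScalarTower A (Localization.AtPrime Q) (FractionRing A) :=
    IsLocalization.localization_isScalarTower_of_submonoid_le _ _ Q.primeCompl
      (nonZeroDivisors A) hle
  haveI : IsFractionRing (Localization.AtPrime Q) (FractionRing A) :=
    IsFractionRing.isFractionRing_of_isDomain_of_isLocalization Q.primeCompl _ _
  haveI : IsRegularLocalRing (Localization.AtPrime Q) :=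
    IsRegularRing.isRegularLocalRing_localization Q
  exact Reg_step (R := Localization.AtPrime Q) Q (w : FractionRing A) w.2 hmem

end Pool.Agent.Lib.MP_b197b4_ntKE
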