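import Mathlib
import Pool.Agent.Lib.MP_b197b4_ntKE.Defs
import Pool.Agent.Lib.MP_b197b4_ntKE.Reg
import Pool.Agent.Lib.MP_b197b4_ntKR.Chart
import Pool.Agent.Lib.MP_b197b4_ntKD.Md

/-!
# MP_b197b4_nt, project K1-ALL-DESC, D2: the variety over the larger field of constants
-/

set_option autoImplicit false

namespace Pool.Agent.Lib.MP_b197b4_ntKE

open IsLocalRing Pool.Agent.Lib.MP_b197b4_ntK Pool.Agent.Lib.MP_b197b4_ntA
  Pool.Agent.Lib.MP_b197b4_ntKD Pool.Agent.Lib.MP_b197b4_ntKR

section Var_aux

variable {k k' F K : Type} [Field k] [Field k'] [Field F] [Field K] [Algebra k F]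
  [Algebra k' K] [Algebra F K] [Algebra k k'] [Algebra k K] [IsScalarTower k k' K]
  [IsScalarTower k F K] [Algebra.IsSeparable k k']

attribute [local instance] bcAlg

theorem Var_bc (hK : ∀ x : K, x ∈ Algebra.adjoin F (Set.range (algebraMap k' K)))
    {A : Subalgebra k F} (hfg : A.FG) (hfrac : IsFractionRing A F) (hreg : IsRegularRing A) :
    IsFractionRing (bc k' K A) K ∧ IsRegularRing (bc k' K A) ∧
      ∀ P : Ideal (bc k' K A), P.IsPrime →
        P.height = (P.comap (algebraMap A (bc k' K A))).height := by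
  have hic : IsIntegrallyClosed A := isIntegrallyClosed_of_reg
  have hfaith := bc_faithful (k' := k') (K := K) A
  have hint := bc_isIntegral (k' := k') (K := K) A
  have hnoeth : IsNoetherianRing (bc k' K A) := bc_noetherian hfg
  have hun := bc_unramified (k' := k') (K := K) A
  refine ⟨bc_frac hK hfrac, isRegularRing_of_unramified (R := A) hun, ?_⟩
  intro P hP
  exact height_eq_of_unramified (R := A) hun P

end Var_aux

section

variable {k k' F K : Type} [Field k] [Field k'] [Field F] [Field K] [Algebra k k'] [Algebra k F]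
  [Algebra k' K] [Algebra F K] {n d : ℕ} {x : Fin (n + 1) → F}

theorem Var_cht_fg (x : Fin (n + 1) → F) (i : Fin (n + 1)) : (cht k x i).FG := by
  classical
  refine ⟨Finset.univ.image fun j => x j / x i, ?_⟩
  rw [cht, Finset.coe_image, Finset.coe_univ, Set.image_univ]

theorem Var_cht_eq (h : BC k k' F K) (x : Fin (n + 1) → F) (i : Fin (n + 1)) :
    cht k' (fun i => algebraMap F K (x i)) i = bc k' K (cht k x i) := h.chart_eq x i

/-- the rings `k' A_i` -/
theorem Var_ring (h : BC k k' F K) (hx : Var k d x) (i : Fin (n + 1)) :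
    IsFractionRing (bc k' K (cht k x i)) K ∧ IsRegularRing (bc k' K (cht k x i)) ∧
      ∀ P : Ideal (bc k' K (cht k x i)), P.IsPrime →
        P.height = (P.comap (bcMap k' K (cht k x i))).height := by
  have := h.sep
  let _ : Algebra k K := ((algebraMap k' K).comp (algebraMap k k')).toAlgebra
  have : IsScalarTower k k' K := IsScalarTower.of_algebraMap_eq fun _ => rfl
  have : IsScalarTower k F K := IsScalarTower.of_algebraMap_eq fun c => h.comm c
  exact Var_bc h.gen (Var_cht_fg x i) (hx.frac i) (hx.regular i)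

/-- `A_i` is integrally closed. -/
theorem Var_isIntegrallyClosed (hx : Var k d x) (i : Fin (n + 1)) :
    IsIntegrallyClosed (cht k x i) := by
  have := hx.regular i
  exact isIntegrallyClosed_of_reg

/-- `k' A_i` is flat over `A_i`. -/
theorem Var_flat (h : BC k k' F K) (hx : Var k d x) (i : Fin (n + 1)) :
    @Module.Flat (cht k x i) (bc k' K (cht k x i)) _ _ (bcAlg k' K (cht k x i)).toModule := by
  have := h.sep
  let _ : Algebra k K := ((algebraMap k' K).comp (algebraMap k k')).toAlgebra
  have : IsScalarTower k k' K := IsScalarTower.of_algebraMap_eq fun _ => rfl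
  have : IsScalarTower k F K := IsScalarTower.of_algebraMap_eq fun c => h.comm c
  exact bc_flat (Var_isIntegrallyClosed hx i)

/-- D2 (Var.lean). -/
theorem var_up (h : BC k k' F K) (hx : Var k d x) : Var k' d (fun i => algebraMap F K (x i)) := by
  refine ⟨fun i => (map_ne_zero _).mpr (hx.ne i), fun i => ?_, fun i => ?_, fun i => ?_⟩
  · rw [Var_cht_eq h]
    exact (Var_ring h hx i).1
  · rw [Var_cht_eq h]
    exact (Var_ring h hx i).2.1
  · rw [Var_cht_eq h]
    intro m hm
    rw [(Var_ring h hx i).2.2 m hm.isPrime]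
    have h1 := h.isIntegral (cht k x i)
    let _ : Algebra (cht k x i) (bc k' K (cht k x i)) := bcAlg k' K (cht k x i)
    exact hx.height i _ (Ideal.isMaximal_comap_of_isIntegral_of_isMaximal m)

end

end Pool.Agent.Lib.MP_b197b4_ntKE
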