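import Mathlib
import Pool.Agent.Lib.MP_b197b4_ntKE.Defs
import Pool.Agent.Lib.MP_b197b4_ntKE.Var
import Pool.Agent.Lib.MP_b197b4_ntKE.Pts
import Pool.Agent.Lib.MP_b197b4_ntKE.LenFlat
import Pool.Agent.Lib.MP_b197b4_ntKR.Chart

/-!
# MP_b197b4_nt, project K1-ALL-DESC, D9 (A): the local rings above are flat and unramified over the
local rings below, and noetherian
-/

set_option autoImplicit false

namespace Pool.Agent.Lib.MP_b197b4_ntKE

open IsLocalRing Pool.Agent.Lib.MP_b197b4_ntK Pool.Agent.Lib.MP_b197b4_ntA
  Pool.Agent.Lib.MP_b197b4_ntKD Pool.Agent.Lib.MP_b197b4_ntKR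

section

variable {F K : Type} [Field F] [Field K] {A : Subring F} {B : Subring K}

/-- localisation of a flat unramified extension -/
theorem lenA_loc (ι : F →+* K) (g : A →+* B) (hg : ∀ a : A, (g a : K) = ι (a : F))
    (hflat : @Module.Flat A B _ _ g.toAlgebra.toModule)
    (hunr : @Unr A B _ _ g.toAlgebra) (hnoeth : IsNoetherianRing B)
    (Q : Ideal A) (hQ : Q.IsPrime) (Q' : Ideal B) (hQ' : Q'.IsPrime)
    (O : LocalSubring F) (hO : O = LocalSubring.ofPrime A Q) (O' : LocalSubring K)
    (hO' : O' = LocalSubring.ofPrime B Q')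
    (j : O.toSubring →+* O'.toSubring) (hj : ∀ y : O.toSubring, (j y : K) = ι (y : F)) :
    @Module.Flat O.toSubring O'.toSubring _ _ j.toAlgebra.toModule ∧
      @Unr O.toSubring O'.toSubring _ _ j.toAlgebra ∧ IsNoetherianRing O'.toSubring := by
  subst hO
  subst hO'
  let : Algebra A B := g.toAlgebra
  let : Algebra A (LocalSubring.ofPrime B Q').toSubring :=
    ((algebraMap B (LocalSubring.ofPrime B Q').toSubring).comp g).toAlgebra
  let : Algebra (LocalSubring.ofPrime A Q).toSubring (LocalSubring.ofPrime B Q').toSubring :=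
    j.toAlgebra
  have hcomm : ∀ a : A, j (algebraMap A (LocalSubring.ofPrime A Q).toSubring a) =
      algebraMap B (LocalSubring.ofPrime B Q').toSubring (g a) := by
    intro a
    apply Subtype.ext
    rw [hj]
    exact (hg a).symm
  have hcomp : j.comp (algebraMap A (LocalSubring.ofPrime A Q).toSubring) =
      (algebraMap B (LocalSubring.ofPrime B Q').toSubring).comp g := RingHom.ext hcomm
  have : IsScalarTower A B (LocalSubring.ofPrime B Q').toSubring :=
    IsScalarTower.of_algebraMap_eq fun _ => rfl
  have : IsScalarTower A (LocalSubring.ofPrime A Q).toSubring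
      (LocalSubring.ofPrime B Q').toSubring :=
    IsScalarTower.of_algebraMap_eq fun a => (hcomm a).symm
  have hl : IsLocalization.AtPrime (LocalSubring.ofPrime A Q).toSubring Q := inferInstance
  have hl' : IsLocalization.AtPrime (LocalSubring.ofPrime B Q').toSubring Q' := inferInstance
  refine ⟨?_, ?_, ?_⟩
  · have hf' : Module.Flat B (LocalSubring.ofPrime B Q').toSubring :=
      IsLocalization.flat (LocalSubring.ofPrime B Q').toSubring Q'.primeCompl
    have hf2 : Module.Flat A (LocalSubring.ofPrime B Q').toSubring :=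
      Module.Flat.trans A B (LocalSubring.ofPrime B Q').toSubring
    exact (Module.flat_iff_of_isLocalization (LocalSubring.ofPrime A Q).toSubring
      Q.primeCompl (LocalSubring.ofPrime B Q').toSubring).mpr hf2
  · intro P hP y hy
    obtain ⟨⟨b, s⟩, hbs⟩ := IsLocalization.surj (M := Q'.primeCompl) y
    have hs : IsUnit (algebraMap B (LocalSubring.ofPrime B Q').toSubring s) :=
      IsLocalization.map_units _ s
    have hP2 : (P.comap (algebraMap B (LocalSubring.ofPrime B Q').toSubring)).IsPrime :=
      Ideal.IsPrime.comap _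
    have hb : b ∈ P.comap (algebraMap B (LocalSubring.ofPrime B Q').toSubring) := by
      rw [Ideal.mem_comap, ← hbs]
      exact Ideal.mul_mem_right _ _ hy
    obtain ⟨t, ht, htb⟩ := hunr _ hP2 b hb
    refine ⟨algebraMap B (LocalSubring.ofPrime B Q').toSubring t *
      algebraMap B (LocalSubring.ofPrime B Q').toSubring s, ?_, ?_⟩
    · intro hts
      rcases hP.mem_or_mem hts with h1 | h1
      · exact ht h1
      · exact hP.ne_top (Ideal.eq_top_of_isUnit_mem _ h1 hs)
    · have h1 : algebraMap B (LocalSubring.ofPrime B Q').toSubring t *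
          algebraMap B (LocalSubring.ofPrime B Q').toSubring s * y =
          algebraMap B (LocalSubring.ofPrime B Q').toSubring (t * b) := by
        rw [map_mul, ← hbs]
        ring
      rw [h1]
      have h2 := Ideal.mem_map_of_mem
        (algebraMap B (LocalSubring.ofPrime B Q').toSubring) htb
      rw [Ideal.map_map] at h2
      change _ ∈ Ideal.map ((algebraMap B (LocalSubring.ofPrime B Q').toSubring).comp g) _ at h2
      rw [← hcomp, ← Ideal.map_map] at h2
      refine Ideal.map_mono ?_ h2
      rw [Ideal.map_le_iff_le_comap]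
      intro a ha
      rw [Ideal.mem_comap, Ideal.mem_comap]
      change j (algebraMap A (LocalSubring.ofPrime A Q).toSubring a) ∈ P
      rw [hcomm]
      exact ha
  · exact IsLocalization.isNoetherianRing Q'.primeCompl _ hnoeth

end

section

variable {k k' F K : Type} [Field k] [Field k'] [Field F] [Field K] [Algebra k k'] [Algebra k F]
  [Algebra k' K] [Algebra F K] {n d : ℕ} {x : Fin (n + 1) → F}

/-- the ring of a chart above is flat, unramified and noetherian -/
theorem lenA_chart (h : BC k k' F K) (A : Subalgebra k F) (hfg : A.FG)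
    (hflat : @Module.Flat A (bc k' K A) _ _ (bcAlg k' K A).toModule)
    (B : Subalgebra k' K) (hB : B = bc k' K A) :
    ∃ g : A.toSubring →+* B.toSubring, (∀ a : A.toSubring, (g a : K) = algebraMap F K (a : F)) ∧
      @Module.Flat A.toSubring B.toSubring _ _ g.toAlgebra.toModule ∧
      @Unr A.toSubring B.toSubring _ _ g.toAlgebra ∧ IsNoetherianRing B.toSubring := by
  subst hB
  have hn : IsNoetherianRing (bc k' K A) := by
    let _ : Algebra k K := ((algebraMap k' K).comp (algebraMap k k')).toAlgebra
    have : IsScalarTower k k' K := IsScalarTower.of_algebraMap_eq fun _ => rfl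
    have : IsScalarTower k F K := IsScalarTower.of_algebraMap_eq fun c => h.comm c
    exact bc_noetherian hfg
  exact ⟨bcMap k' K A, fun a => rfl, hflat, fun P hP y hy => h.unramified A P hP y hy, hn⟩

/-- **D9 (A).** -/
theorem flat_unr (h : BC k k' F K) (hx : Var k d x) {e : ℕ} {O' : LocalSubring K}
    (hO' : O' ∈ Pts k' (fun i => algebraMap F K (x i)) e) :
    @Module.Flat (dn (algebraMap F K) O').toSubring O'.toSubring _ _
      (dnHom (algebraMap F K) O').toAlgebra.toModule ∧
    @Unr (dn (algebraMap F K) O').toSubring O'.toSubring _ _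
      (dnHom (algebraMap F K) O').toAlgebra ∧
    IsNoetherianRing O'.toSubring := by
  obtain ⟨i, Q', hQ', -, rfl⟩ := hO'
  obtain ⟨Q, hQ, hdn, -, -⟩ := dn_ofPrime h hx i Q' hQ'
  obtain ⟨g, hg, hflat, hunr, hn⟩ := lenA_chart h (cht k x i) (Var_cht_fg x i)
    (Var_flat h hx i) _ (Var_cht_eq h x i)
  exact lenA_loc (algebraMap F K) g hg hflat hunr hn Q hQ Q' hQ' _ hdn _ rfl
    (dnHom (algebraMap F K) _) fun _ => rfl

end

end Pool.Agent.Lib.MP_b197b4_ntKE
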