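import Pool.Agent.Lib.MP_b197b4_ntKE.Defs
import Pool.Agent.Lib.MP_b197b4_ntA.XPts

/-!
# MP_b197b4_nt, project K1-ALL-DESC: change of the chart
-/

set_option autoImplicit false

namespace Pool.Agent.Lib.MP_b197b4_ntKE

open IsLocalRing Pool.Agent.Lib.MP_b197b4_ntK Pool.Agent.Lib.MP_b197b4_ntA
  Pool.Agent.Lib.MP_b197b4_ntKD

variable {k F : Type} [Field k] [Field F] [Algebra k F] {n : ℕ} {x : Fin (n + 1) → F}

/-- A fraction with a denominator outside the prime ideal is in the local ring. -/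
theorem Ch_div_mem {A : Subring F} (P : Ideal A) [P.IsPrime] {a b : A} (hb : b ∉ P) :
    (a : F) / (b : F) ∈ (LocalSubring.ofPrime A P).toSubring := by
  have h1 := (XP_unit A P b).2 hb
  obtain ⟨c, hc⟩ := h1.exists_right_inv
  have h2 : (b : F) * (c : F) = 1 := congrArg Subtype.val hc
  have hb0 : (b : F) ≠ 0 := left_ne_zero_of_mul_eq_one h2
  have h3 : (a : F) / (b : F) = (a : F) * (c : F) := by
    rw [div_eq_iff hb0, mul_assoc, mul_comm (c : F), h2, mul_one]
  rw [h3]
  exact Subring.mul_mem _ (LocalSubring.le_ofPrime A P a.2) c.2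

/-- D3b (Ch.lean): change of the chart. -/
theorem pts_chart (hx : ∀ i, x i ≠ 0) {e : ℕ} {O : LocalSubring F} (hO : O ∈ Pts k x e)
    {i : Fin (n + 1)} (hi : ∀ j, x j / x i ∈ O.toSubring) :
    ∃ (Q : Ideal (cht k x i).toSubring) (_ : Q.IsPrime),
      ringKrullDim ((cht k x i).toSubring ⧸ Q) = e ∧ O = LocalSubring.ofPrime _ Q := by
  have hk : ∀ c : k, algebraMap k F c ∈ O.toSubring := by
    obtain ⟨j, Q, hQ, -, rfl⟩ := hO
    intro c
    exact LocalSubring.le_ofPrime _ Q ((cht k x j).algebraMap_mem c)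
  have hle : (cht k x i).toSubring ≤ O.toSubring := by
    intro a ha
    have ha' : a ∈ Algebra.adjoin k (Set.range fun j => x j / x i) := ha
    clear ha
    induction ha' using Algebra.adjoin_induction with
    | mem y hy =>
      obtain ⟨j, rfl⟩ := hy
      exact hi j
    | algebraMap c => exact hk c
    | add y z _ _ h1 h2 => exact O.toSubring.add_mem h1 h2
    | mul y z _ _ h1 h2 => exact O.toSubring.mul_mem h1 h2
  refine ⟨XP_ker hle, inferInstance, XP_chart_dim hx hO hle, ?_⟩
  apply LocalSubring.toSubring_injective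
  apply le_antisymm
  · intro y hy
    obtain ⟨a, b, ha, hb, hu, rfl⟩ := XP_frac hx hO hle hy
    have hbQ : (⟨b, hb⟩ : (cht k x i).toSubring) ∉ XP_ker hle := by
      rw [XP_mem_ker, not_not]
      exact hu
    exact Ch_div_mem (XP_ker hle) (a := ⟨a, ha⟩) hbQ
  · intro y hy
    obtain ⟨a, s, hs, rfl⟩ := XP_mem _ _ hy
    rw [XP_mem_ker, not_not] at hs
    obtain ⟨c, hc⟩ := hs.exists_right_inv
    have h2 : (s : F) * (c : F) = 1 := congrArg Subtype.val hc
    have hs0 : (s : F) ≠ 0 := left_ne_zero_of_mul_eq_one h2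
    have h3 : (a : F) / (s : F) = (a : F) * (c : F) := by
      rw [div_eq_iff hs0, mul_assoc, mul_comm (c : F), h2, mul_one]
    rw [h3]
    exact O.toSubring.mul_mem (hle a.2) c.2

end Pool.Agent.Lib.MP_b197b4_ntKE
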