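import Mathlib
import Pool.Agent.Lib.MP_b197b4_ntKE.Defs
import Pool.Agent.Lib.MP_b197b4_ntKE.Ch
import Pool.Agent.Lib.MP_b197b4_ntKE.Pts
import Pool.Agent.Lib.MP_b197b4_ntA.XPts
import Pool.Agent.Lib.MP_b197b4_ntA.XCen

/-!
# MP_b197b4_nt, project K1-ALL-DESC, D9: the curves through a point and the primes of its local ring
-/

set_option autoImplicit false

namespace Pool.Agent.Lib.MP_b197b4_ntKE

open IsLocalRing Pool.Agent.Lib.MP_b197b4_ntK Pool.Agent.Lib.MP_b197b4_ntA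
  Pool.Agent.Lib.MP_b197b4_ntKD

section

variable {F : Type} [Field F]

theorem LenB_ker_congr {S T T' : LocalSubring F} (h : S.toSubring ≤ T.toSubring)
    (h' : S.toSubring ≤ T'.toSubring) (e : T = T') : XP_ker h = XP_ker h' := by
  subst e
  rfl

/-- Primes of a localisation are determined by their traces. -/
theorem LenB_ext (A : Subring F) (Q : Ideal A) [Q.IsPrime]
    (q q' : Ideal (LocalSubring.ofPrime A Q).toSubring)
    (h : ∀ a : A, (⟨(a : F), LocalSubring.le_ofPrime A Q a.2⟩ :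
      (LocalSubring.ofPrime A Q).toSubring) ∈ q →
      (⟨(a : F), LocalSubring.le_ofPrime A Q a.2⟩ : (LocalSubring.ofPrime A Q).toSubring) ∈ q') :
    q ≤ q' := by
  rintro ⟨y, hy⟩ hyq
  obtain ⟨a, s, hs, rfl⟩ := XP_mem A Q hy
  have hu := (XP_unit A Q s).2 hs
  have hs0 : (s : F) ≠ 0 := xcen_ne A Q hs
  have h1 : (⟨(a : F), LocalSubring.le_ofPrime A Q a.2⟩ : (LocalSubring.ofPrime A Q).toSubring) =
      ⟨(s : F), LocalSubring.le_ofPrime A Q s.2⟩ * ⟨(a : F) / (s : F), hy⟩ := by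
    apply Subtype.ext
    change (a : F) = (s : F) * ((a : F) / (s : F))
    rw [mul_div_cancel₀ _ hs0]
  have h2 := h a (by rw [h1]; exact Ideal.mul_mem_left _ _ hyq)
  rw [h1] at h2
  exact (Ideal.unit_mul_mem_iff_mem _ hu).1 h2

/-- Localisation of a localisation. -/
theorem LenB_loc (A : Subring F) (Q : Ideal A) [Q.IsPrime]
    (q : Ideal (LocalSubring.ofPrime A Q).toSubring) [q.IsPrime] (q₁ : Ideal A) [q₁.IsPrime]
    (h : ∀ a : A, a ∈ q₁ ↔ (⟨(a : F), LocalSubring.le_ofPrime A Q a.2⟩ :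
      (LocalSubring.ofPrime A Q).toSubring) ∈ q) :
    LocalSubring.ofPrime (LocalSubring.ofPrime A Q).toSubring q = LocalSubring.ofPrime A q₁ := by
  apply LocalSubring.toSubring_injective
  have hsub : ∀ s : A, s ∉ Q → s ∉ q₁ := by
    intro s hs hsq
    have h1 := (XP_unit A Q s).2 hs
    exact (inferInstance : q.IsPrime).ne_top (Ideal.eq_top_of_isUnit_mem _ ((h s).1 hsq) h1)
  apply le_antisymm
  · intro y hy
    obtain ⟨a, s, hs, rfl⟩ := XP_mem _ _ hy
    obtain ⟨a, ha⟩ := a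
    obtain ⟨s, hs'⟩ := s
    obtain ⟨a₁, a₂, ha₂, rfl⟩ := XP_mem _ _ ha
    obtain ⟨s₁, s₂, hs₂, rfl⟩ := XP_mem _ _ hs'
    have e1 : (s₂ : F) ≠ 0 := xcen_ne A Q hs₂
    have hs₁ : s₁ ∉ q₁ := by
      intro h1
      apply hs
      have h2 := (h s₁).1 h1
      have h3 : (⟨(s₁ : F), LocalSubring.le_ofPrime A Q s₁.2⟩ :
          (LocalSubring.ofPrime A Q).toSubring) =
          ⟨(s₂ : F), LocalSubring.le_ofPrime A Q s₂.2⟩ * ⟨(s₁ : F) / (s₂ : F), hs'⟩ := by
        apply Subtype.ext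
        change (s₁ : F) = (s₂ : F) * ((s₁ : F) / (s₂ : F))
        rw [mul_div_cancel₀ _ e1]
      rw [h3] at h2
      exact (Ideal.unit_mul_mem_iff_mem _ ((XP_unit A Q s₂).2 hs₂)).1 h2
    change (a₁ : F) / (a₂ : F) / ((s₁ : F) / (s₂ : F)) ∈ _
    rw [div_div_div_eq]
    have h4 : a₂ * s₁ ∉ q₁ := fun h5 =>
      ((inferInstance : q₁.IsPrime).mem_or_mem h5).elim (hsub a₂ ha₂) hs₁
    exact Ch_div_mem q₁ (a := a₁ * s₂) (b := a₂ * s₁) h4
  · intro y hy
    obtain ⟨a, s, hs, rfl⟩ := XP_mem _ _ hy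
    have h4 : (⟨(s : F), LocalSubring.le_ofPrime A Q s.2⟩ :
      (LocalSubring.ofPrime A Q).toSubring) ∉ q := fun h5 => hs ((h s).2 h5)
    exact Ch_div_mem q (a := ⟨(a : F), LocalSubring.le_ofPrime A Q a.2⟩) h4

end

section

variable {k F : Type} [Field k] [Field F] [Algebra k F] {n : ℕ} {x : Fin (n + 1) → F}

/-- A point through `O` is a localisation of `O`. -/
theorem LenB_pt (hne : ∀ i, x i ≠ 0) {e e' : ℕ} {O P : LocalSubring F} (hO : O ∈ Pts k x e')
    (hP : P ∈ Pts k x e) (hOP : O.toSubring ≤ P.toSubring) :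
    P = LocalSubring.ofPrime O.toSubring (XP_ker hOP) := by
  obtain ⟨i, Q, hQ, -, rfl⟩ := hO
  have hi : (cht k x i).toSubring ≤ P.toSubring := (LocalSubring.le_ofPrime _ Q).trans hOP
  apply LocalSubring.toSubring_injective
  apply le_antisymm
  · intro y hy
    obtain ⟨a, b, ha, hb, hu, rfl⟩ := XP_frac hne hP hi hy
    have h1 : (⟨b, LocalSubring.le_ofPrime _ Q hb⟩ :
        (LocalSubring.ofPrime (cht k x i).toSubring Q).toSubring) ∉ XP_ker hOP := by
      rw [XP_mem_ker, not_not]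
      exact hu
    exact Ch_div_mem (XP_ker hOP) (a := ⟨a, LocalSubring.le_ofPrime _ Q ha⟩) h1
  · intro y hy
    obtain ⟨a, s, hs, rfl⟩ := XP_mem _ _ hy
    rw [XP_mem_ker, not_not] at hs
    obtain ⟨c, hc⟩ := hs.exists_right_inv
    have h2 : (s : F) * (c : F) = 1 := congrArg Subtype.val hc
    have hs0 : (s : F) ≠ 0 := left_ne_zero_of_mul_eq_one h2
    have h3 : (a : F) / (s : F) = (a : F) * (c : F) := by
      rw [div_eq_iff hs0, mul_assoc, mul_comm (c : F), h2, mul_one]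
    rw [h3]
    exact P.toSubring.mul_mem (hOP a.2) c.2

/-- The local ring of a closed point on a curve has only two primes over the curve. -/
theorem LenB_dim (hne : ∀ i, x i ≠ 0) {O P : LocalSubring F} (hO : O ∈ Pts k x 0)
    (hP : P ∈ Pts k x 1) (hOP : O.toSubring ≤ P.toSubring) (q : Ideal O.toSubring)
    (hq : q.IsPrime) (hle : XP_ker hOP ≤ q) : q = XP_ker hOP ∨ q = maximalIdeal O.toSubring := by
  obtain ⟨i, Q, hQ, hd, rfl⟩ := hO
  have hi : (cht k x i).toSubring ≤ P.toSubring := (LocalSubring.le_ofPrime _ Q).trans hOP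
  have hdP := XP_chart_dim hne hP hi
  let j : (cht k x i).toSubring →+* (LocalSubring.ofPrime (cht k x i).toSubring Q).toSubring :=
    Subring.inclusion (LocalSubring.le_ofPrime _ Q)
  have hj : ∀ a : (cht k x i).toSubring, j a = ⟨(a : F), LocalSubring.le_ofPrime _ Q a.2⟩ :=
    fun a => rfl
  have h1 : XP_ker hi = (XP_ker hOP).comap j := by
    ext a
    rw [Ideal.mem_comap, XP_mem_ker, XP_mem_ker]
    rfl
  have h2 : XP_ker hi ≤ q.comap j := by
    rw [h1]
    exact Ideal.comap_mono hle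
  have h3 : q.comap j ≤ Q := by
    intro a ha
    by_contra haQ
    exact hq.ne_top (Ideal.eq_top_of_isUnit_mem _ ha ((XP_unit _ Q a).2 haQ))
  have hqj : (q.comap j).IsPrime := Ideal.IsPrime.comap _
  by_cases h4 : XP_ker hi = q.comap j
  · left
    refine le_antisymm ?_ hle
    refine LenB_ext _ Q _ _ fun a ha => ?_
    have h5 : a ∈ q.comap j := ha
    rw [← h4, h1] at h5
    exact h5
  · right
    have h5 : XP_ker hi < q.comap j := lt_of_le_of_ne h2 h4
    have h6 := XP_dim_lt h5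
    rw [hdP] at h6
    have h7 : q.comap j = Q := by
      by_contra h8
      have h9 := XP_dim_lt (lt_of_le_of_ne h3 h8)
      rw [hd] at h9
      have h10 : ((0 : ℕ) : WithBot ℕ∞) + 1 + 1 ≤ ((1 : ℕ) : WithBot ℕ∞) :=
        (add_le_add_left h9 1).trans h6
      exact absurd h10 (by decide)
    refine ((le_maximalIdeal hq.ne_top).antisymm ?_)
    refine LenB_ext _ Q _ _ fun a ha => ?_
    have h8 : a ∈ Q := by
      by_contra haQ
      exact (mem_maximalIdeal _).1 ha ((XP_unit _ Q a).2 haQ)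
    rw [← h7] at h8
    exact h8

/-- The local rings are noetherian. -/
theorem LenB_noeth {e : ℕ} {O : LocalSubring F} (hO : O ∈ Pts k x e) :
    IsNoetherianRing O.toSubring := by
  obtain ⟨i, Q, hQ, -, rfl⟩ := hO
  exact IsLocalization.isNoetherianRing Q.primeCompl _ (XP_noeth (k := k) (x := x) i)

/-- Fractions of units. -/
theorem LenB_frac (hne : ∀ i, x i ≠ 0) {e e' : ℕ} {O P : LocalSubring F} (hO : O ∈ Pts k x e')
    (hP : P ∈ Pts k x e) (hOP : O.toSubring ≤ P.toSubring) (u : Kap P) (hu : u ≠ 0) :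
    ∃ α β : O.toSubring, α ∉ XP_ker hOP ∧ β ∉ XP_ker hOP ∧
      u = residue P.toSubring ⟨α, hOP α.2⟩ / residue P.toSubring ⟨β, hOP β.2⟩ := by
  obtain ⟨i, Q, hQ, -, rfl⟩ := hO
  have hi : (cht k x i).toSubring ≤ P.toSubring := (LocalSubring.le_ofPrime _ Q).trans hOP
  obtain ⟨⟨y, hy⟩, rfl⟩ := residue_surjective u
  obtain ⟨a, b, ha, hb, hub, rfl⟩ := XP_frac hne hP hi hy
  have h1 := XP_residue_div (hi ha) (hi hb) hub hy
  refine ⟨⟨a, LocalSubring.le_ofPrime _ Q ha⟩, ⟨b, LocalSubring.le_ofPrime _ Q hb⟩, ?_, ?_, h1⟩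
  · rw [XP_mem_ker, not_not]
    refine (residue_ne_zero_iff_isUnit _).1 fun h2 => hu ?_
    rw [h1]
    have h3 : residue P.toSubring ⟨a, hi ha⟩ = 0 := h2
    rw [h3, zero_div]
  · rw [XP_mem_ker, not_not]
    exact hub

end

end Pool.Agent.Lib.MP_b197b4_ntKE
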