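import Mathlib
import Pool.Agent.Lib.MP_b197b4_ntKE.Defs
import Pool.Agent.Lib.MP_b197b4_ntKE.LenFlat
import Pool.Agent.Lib.MP_b197b4_ntA.XPts

/-!
# MP_b197b4_nt, project K1-ALL-DESC, D9: lengths in the local ring of a curve at a point
-/

set_option autoImplicit false

namespace Pool.Agent.Lib.MP_b197b4_ntKE

open IsLocalRing Pool.Agent.Lib.MP_b197b4_ntK Pool.Agent.Lib.MP_b197b4_ntA
  Pool.Agent.Lib.MP_b197b4_ntKD

section

variable {L : Type} [Field L]

/-- The order by lengths is unique. -/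
theorem LenL_unique (B : Subring L) {u : L} {n n' : ℤ} (h : HasLen B u n) (h' : HasLen B u n') :
    n = n' := by
  obtain ⟨a, b, r, s, ha, hb, hu, hr, hs, rfl⟩ := h
  obtain ⟨a', b', r', s', ha', hb', hu', hr', hs', rfl⟩ := h'
  have hnz : ∀ c : B, (c : L) ≠ 0 → c ∈ nonZeroDivisors B := by
    intro c hc
    rw [mem_nonZeroDivisors_iff_ne_zero]
    exact fun h0 => hc (by rw [h0]; rfl)
  have h1 : a * b' = a' * b := by
    apply Subtype.ext
    change (a : L) * b' = a' * b
    rw [hu, div_eq_div_iff hb hb'] at hu'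
    exact hu'
  have h2 : Ring.ord B (a * b') = Ring.ord B a + Ring.ord B b' := Ring.ord_mul B (hnz b' hb')
  have h3 : Ring.ord B (a' * b) = Ring.ord B a' + Ring.ord B b := Ring.ord_mul B (hnz b hb)
  unfold Ring.ord at h2 h3
  rw [hr, hs', h1] at h2
  rw [hr', hs, h2] at h3
  have h4 : r + s' = r' + s := by exact_mod_cast h3
  omega

end

section

variable {F : Type} [Field F] {S T : LocalSubring F}

/-- The map of `S` onto the local ring of the curve `T`. -/
noncomputable def toLoc (h : S.toSubring ≤ T.toSubring) : S.toSubring →+* locSub S T :=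
  ((residue T.toSubring).comp (Subring.inclusion h)).codRestrict (locSub S T) fun s =>
    ⟨⟨s, h s.2⟩, s.2, rfl⟩

theorem toLoc_coe (h : S.toSubring ≤ T.toSubring) (s : S.toSubring) :
    (toLoc h s : Kap T) = residue T.toSubring ⟨s, h s.2⟩ := rfl

theorem toLoc_surjective (h : S.toSubring ≤ T.toSubring) : Function.Surjective (toLoc h) := by
  rintro ⟨c, ⟨y, hy, rfl⟩⟩
  exact ⟨⟨(y : F), hy⟩, rfl⟩

theorem toLoc_eq_zero (h : S.toSubring ≤ T.toSubring) (s : S.toSubring) :
    toLoc h s = 0 ↔ s ∈ XP_ker h := by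
  unfold XP_ker
  rw [RingHom.mem_ker]
  exact Subtype.ext_iff

theorem toLoc_ne_zero (h : S.toSubring ≤ T.toSubring) (s : S.toSubring) :
    (toLoc h s : Kap T) ≠ 0 ↔ s ∉ XP_ker h := by
  rw [← toLoc_eq_zero h]
  exact ⟨fun h1 h2 => h1 (congrArg Subtype.val h2), fun h1 h2 => h1 (Subtype.ext h2)⟩

/-- The length in the local ring of the curve. -/
theorem length_toLoc (h : S.toSubring ≤ T.toSubring) (a : S.toSubring) :
    Module.length (locSub S T) (locSub S T ⧸ Ideal.span {toLoc h a}) =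
      Module.length S.toSubring (S.toSubring ⧸ (XP_ker h ⊔ Ideal.span {a})) := by
  let : Algebra S.toSubring (locSub S T) := (toLoc h).toAlgebra
  have h1 := Module.length_eq_of_surjective (R := locSub S T) (S := S.toSubring)
    (M := locSub S T ⧸ Ideal.span {toLoc h a}) (toLoc_surjective h)
  rw [← h1]
  let f : S.toSubring →ₗ[S.toSubring] locSub S T ⧸ Ideal.span {toLoc h a} :=
    Algebra.linearMap S.toSubring (locSub S T ⧸ Ideal.span {toLoc h a})
  have hf : ∀ b : S.toSubring, f b = Ideal.Quotient.mk _ (toLoc h b) := fun b => rfl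
  have hs : Function.Surjective f := by
    intro c
    obtain ⟨c, rfl⟩ := Ideal.Quotient.mk_surjective c
    obtain ⟨b, rfl⟩ := toLoc_surjective h c
    exact ⟨b, hf b⟩
  have hk : LinearMap.ker f = XP_ker h ⊔ Ideal.span {a} := by
    ext b
    rw [LinearMap.mem_ker, hf, Ideal.Quotient.eq_zero_iff_mem, Ideal.mem_span_singleton,
      Submodule.mem_sup]
    constructor
    · rintro ⟨c, hc⟩
      obtain ⟨c, rfl⟩ := toLoc_surjective h c
      refine ⟨b - a * c, ?_, a * c, ?_, by ring⟩
      · rw [← toLoc_eq_zero h, map_sub, map_mul, hc, sub_self]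
      · exact Ideal.mul_mem_right _ _ (Ideal.mem_span_singleton_self a)
    · rintro ⟨c, hc, d, hd, rfl⟩
      obtain ⟨e, rfl⟩ := Ideal.mem_span_singleton.1 hd
      rw [map_add, (toLoc_eq_zero h c).2 hc, zero_add, map_mul]
      exact dvd_mul_right _ _
  rw [← hk]
  exact (f.quotKerEquivOfSurjective hs).length_eq.symm

/-- The order by lengths of a fraction. -/
theorem len_toLoc (h : S.toSubring ≤ T.toSubring) (α β : S.toSubring) (hα : α ∉ XP_ker h)
    (hβ : β ∉ XP_ker h)
    (fα : Module.length S.toSubring (S.toSubring ⧸ (XP_ker h ⊔ Ideal.span {α})) ≠ ⊤)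
    (fβ : Module.length S.toSubring (S.toSubring ⧸ (XP_ker h ⊔ Ideal.span {β})) ≠ ⊤) :
    len (locSub S T) (residue T.toSubring ⟨α, h α.2⟩ / residue T.toSubring ⟨β, h β.2⟩) =
      ((Module.length S.toSubring (S.toSubring ⧸ (XP_ker h ⊔ Ideal.span {α}))).toNat : ℤ) -
      ((Module.length S.toSubring (S.toSubring ⧸ (XP_ker h ⊔ Ideal.span {β}))).toNat : ℤ) := by
  have h1 : HasLen (locSub S T)
      (residue T.toSubring ⟨α, h α.2⟩ / residue T.toSubring ⟨β, h β.2⟩)
      (((Module.length S.toSubring (S.toSubring ⧸ (XP_ker h ⊔ Ideal.span {α}))).toNat : ℤ) -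
      ((Module.length S.toSubring (S.toSubring ⧸ (XP_ker h ⊔ Ideal.span {β}))).toNat : ℤ)) := by
    refine ⟨toLoc h α, toLoc h β, _, _, (toLoc_ne_zero h α).2 hα, (toLoc_ne_zero h β).2 hβ, rfl,
      ?_, ?_, rfl⟩
    · rw [length_toLoc, ENat.natCast_toNat fα]
    · rw [length_toLoc, ENat.natCast_toNat fβ]
  have h2 : ∃ n, HasLen (locSub S T)
      (residue T.toSubring ⟨α, h α.2⟩ / residue T.toSubring ⟨β, h β.2⟩) n := ⟨_, h1⟩
  unfold len
  rw [dif_pos h2]
  exact LenL_unique _ h2.choose_spec h1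

end

/-- Finiteness of the length. -/
theorem LenL_ne_top {R : Type} [CommRing R] [IsNoetherianRing R] [IsLocalRing R] (p : Ideal R)
    (hdim : ∀ q : Ideal R, q.IsPrime → p ≤ q → q = p ∨ q = maximalIdeal R) {a : R} (ha : a ∉ p) :
    Module.length R (R ⧸ (p ⊔ Ideal.span {a})) ≠ ⊤ := by
  have h1 : Ring.KrullDimLE 0 (R ⧸ (p ⊔ Ideal.span {a})) := by
    rw [Ideal.krullDimLE_zero_quotient_iff_forall_minimalPrimes_isMaximal]
    intro q hq
    have hq1 : q.IsPrime := hq.1.1
    have hq2 : a ∈ q := hq.1.2 (Ideal.mem_sup_right (Ideal.mem_span_singleton_self a))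
    rcases hdim q hq1 (le_sup_left.trans hq.1.2) with h | h
    · exact absurd (h ▸ hq2) ha
    · rw [h]
      infer_instance
  have h2 : IsArtinianRing (R ⧸ (p ⊔ Ideal.span {a})) := isArtinianRing_iff_krullDimLE_zero.2 h1
  have h3 : Module.length R (R ⧸ (p ⊔ Ideal.span {a})) =
      Module.length (R ⧸ (p ⊔ Ideal.span {a})) (R ⧸ (p ⊔ Ideal.span {a})) :=
    Module.length_eq_of_surjective (S := R) (R := R ⧸ (p ⊔ Ideal.span {a}))
      Ideal.Quotient.mk_surjective
  rw [h3]
  exact Module.length_ne_top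

section

variable {R S : Type} [CommRing R] [CommRing S] [Algebra R S]

/-- The primes over `p` in an unramified local extension. -/
theorem Unr.hdim [IsLocalRing R] [IsLocalRing S] [IsLocalHom (algebraMap R S)] (h : Unr R S)
    (p : Ideal R)
    (hdim : ∀ q : Ideal R, q.IsPrime → p ≤ q → q = p ∨ q = maximalIdeal R)
    (Q : Ideal S) (hQ : Q.IsPrime) (hQp : Q.comap (algebraMap R S) = p) (Q' : Ideal S)
    (hQ' : Q'.IsPrime) (hle : Q ≤ Q') : Q' = Q ∨ Q' = maximalIdeal S := by
  have h1 : p ≤ Q'.comap (algebraMap R S) := by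
    rw [← hQp]
    exact Ideal.comap_mono hle
  have hcm : (maximalIdeal S).comap (algebraMap R S) = maximalIdeal R := by
    ext x
    rw [Ideal.mem_comap, mem_maximalIdeal, mem_maximalIdeal, mem_nonunits_iff, mem_nonunits_iff,
      isUnit_map_iff]
  rcases hdim _ (Ideal.IsPrime.comap _) h1 with h2 | h2
  · left
    exact (h.incomp hQ' hQ hle (hQp.trans h2.symm)).symm
  · right
    exact h.incomp (inferInstance : (maximalIdeal S).IsPrime) hQ' (le_maximalIdeal hQ'.ne_top)
      (h2.trans hcm.symm)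

end

end Pool.Agent.Lib.MP_b197b4_ntKE
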