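import Mathlib
import Pool.Agent.Lib.MP_b197b4_ntKE.LenA
import Pool.Agent.Lib.MP_b197b4_ntKE.LenL
import Pool.Agent.Lib.MP_b197b4_ntKE.LenB
import Pool.Agent.Lib.MP_b197b4_ntKE.Pts

/-!
# MP_b197b4_nt, project K1-ALL-DESC, D9: the order by lengths of a function at the points above
-/

set_option autoImplicit false

namespace Pool.Agent.Lib.MP_b197b4_ntKE

open IsLocalRing Pool.Agent.Lib.MP_b197b4_ntK Pool.Agent.Lib.MP_b197b4_ntA
  Pool.Agent.Lib.MP_b197b4_ntKD Pool.Agent.Lib.MP_b197b4_ntKR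

section

variable {F K : Type} [Field F] [Field K]

/-- The trace of the prime of a curve above. -/
theorem Len_comap (ι : F →+* K) {O' P' : LocalSubring K} {P : LocalSubring F}
    (hOP : (dn ι O').toSubring ≤ P.toSubring) (hdn : dn ι P' = P)
    (hle : O'.toSubring ≤ P'.toSubring) : (XP_ker hle).comap (dnHom ι O') = XP_ker hOP := by
  subst hdn
  ext s
  rw [Ideal.mem_comap, XP_mem_ker, XP_mem_ker, not_iff_not]
  exact (isUnit_dn ι P' (s : F) (hOP s.2) (hle (dnHom ι O' s).2)).symm

/-- The value of the function above. -/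
theorem Len_val (ι : F →+* K) {O' P' : LocalSubring K} {P : LocalSubring F}
    (hOP : (dn ι O').toSubring ≤ P.toSubring) (hdn : dn ι P' = P)
    (hle : O'.toSubring ≤ P'.toSubring) (a : ∀ P : LocalSubring F, Kap P)
    (α β : (dn ι O').toSubring)
    (ha : a P = residue P.toSubring ⟨α, hOP α.2⟩ / residue P.toSubring ⟨β, hOP β.2⟩) :
    kmap ι P' (a (dn ι P')) = residue P'.toSubring ⟨dnHom ι O' α, hle (dnHom ι O' α).2⟩ /
      residue P'.toSubring ⟨dnHom ι O' β, hle (dnHom ι O' β).2⟩ := by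
  subst hdn
  rw [ha, map_div₀]
  rfl

end

section

variable {k k' F K : Type} [Field k] [Field k'] [Field F] [Field K] [Algebra k k'] [Algebra k F]
  [Algebra k' K] [Algebra F K] {n d : ℕ} {x : Fin (n + 1) → F}

/-- A prime of the local ring above over the prime of a curve is the prime of a curve above. -/
theorem Len_surj (h : BC k k' F K) (hx : Var k d x) {O' : LocalSubring K}
    (hO' : O' ∈ Pts k' (fun i => algebraMap F K (x i)) 0) {P : LocalSubring F}
    (hP : P ∈ Pts k x 1) (hOP : (dn (algebraMap F K) O').toSubring ≤ P.toSubring)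
    (Q : Ideal O'.toSubring) (hQ : Q.IsPrime)
    (hQp : Q.comap (dnHom (algebraMap F K) O') = XP_ker hOP) :
    LocalSubring.ofPrime O'.toSubring Q ∈
      Ov k' (fun i => algebraMap F K (x i)) (algebraMap F K) 1 P := by
  obtain ⟨i, Q', hQ', -, rfl⟩ := hO'
  let j : (cht k' (fun i => algebraMap F K (x i)) i).toSubring →+*
      (LocalSubring.ofPrime (cht k' (fun i => algebraMap F K (x i)) i).toSubring Q').toSubring :=
    Subring.inclusion (LocalSubring.le_ofPrime _ Q')
  have hq : (Q.comap j).IsPrime := Ideal.IsPrime.comap _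
  have hloc := LenB_loc _ Q' Q (Q.comap j) fun a => Iff.rfl
  obtain ⟨Q₁, hQ₁, e1, e2, e3⟩ := dn_ofPrime h hx i (Q.comap j) hq
  have hι : ∀ a ∈ cht k x i, algebraMap F K a ∈ cht k' (fun i => algebraMap F K (x i)) i := by
    intro a ha
    rw [Var_cht_eq h x i]
    exact mem_bc ha
  have hAO : (cht k x i).toSubring ≤ (dn (algebraMap F K)
      (LocalSubring.ofPrime (cht k' (fun i => algebraMap F K (x i)) i).toSubring Q')).toSubring :=
    fun a ha => LocalSubring.le_ofPrime _ Q' (hι a ha)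
  have hi : (cht k x i).toSubring ≤ P.toSubring := hAO.trans hOP
  obtain ⟨Q₂, hQ₂, hd₂, hP₂⟩ := pts_chart hx.ne hP (i := i) fun l => hi (XP_gen i l)
  have h1 : Q₁ = XP_ker hi := by
    ext a
    have ha' := hι (a : F) a.2
    rw [XP_mem_ker]
    refine (e2 a a.2 ha').trans ?_
    have h2 : (⟨(a : F), hAO a.2⟩ : (dn (algebraMap F K) (LocalSubring.ofPrime
        (cht k' (fun i => algebraMap F K (x i)) i).toSubring Q')).toSubring) ∈
        Q.comap (dnHom (algebraMap F K) _) ↔
        (⟨algebraMap F K (a : F), ha'⟩ : (cht k' (fun i => algebraMap F K (x i)) i).toSubring) ∈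
          Q.comap j := Iff.rfl
    rw [← h2, hQp, XP_mem_ker]
  have h3 : XP_ker hi = Q₂ := by
    subst hP₂
    exact XP_ker_ofPrime _ _
  subst h1
  rw [hloc]
  refine ⟨⟨i, Q.comap j, hq, ?_, rfl⟩, ?_⟩
  · rw [← e3, h3, hd₂]
  · rw [e1]
    have h4 : ∀ (I J : Ideal (cht k x i).toSubring) (hI : I.IsPrime) (hJ : J.IsPrime), I = J →
        @LocalSubring.ofPrime F _ (cht k x i).toSubring I hI =
          @LocalSubring.ofPrime F _ (cht k x i).toSubring J hJ := by
      rintro I J hI hJ rfl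
      rfl
    rw [h4 _ _ _ hQ₂ h3, hP₂]

/-- **D9.** -/
theorem len_up (h : BC k k' F K) (hx : Var k d x) {O' : LocalSubring K}
    (hO' : O' ∈ Pts k' (fun i => algebraMap F K (x i)) 0) {P : LocalSubring F}
    (hP : P ∈ Pts k x 1) (hOP : (dn (algebraMap F K) O').toSubring ≤ P.toSubring)
    (a : ∀ P : LocalSubring F, Kap P) (ha : a P ≠ 0) :
    ∑ᶠ (P' : LocalSubring K) (_ : P' ∈ Ov k' (fun i => algebraMap F K (x i)) (algebraMap F K) 1 P ∧
      O'.toSubring ≤ P'.toSubring),
      len (locSub O' P') (kmap (algebraMap F K) P' (a (dn (algebraMap F K) P'))) =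
      len (locSub (dn (algebraMap F K) O') P) (a P) := by
  classical
  have hO := pts_dn h hx hO'
  obtain ⟨hflat, hunr, hnoeth⟩ := flat_unr h hx hO'
  have hnoeth₀ := LenB_noeth hO
  have hne' : ∀ i, algebraMap F K (x i) ≠ 0 := fun i => (map_ne_zero _).2 (hx.ne i)
  obtain ⟨α, β, hα, hβ, hab⟩ := LenB_frac hx.ne hO hP hOP (a P) ha
  have hdim := LenB_dim hx.ne hO hP hOP
  let : Algebra (dn (algebraMap F K) O').toSubring O'.toSubring :=
    (dnHom (algebraMap F K) O').toAlgebra
  have hloc : IsLocalHom (algebraMap (dn (algebraMap F K) O').toSubring O'.toSubring) :=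
    inferInstanceAs (IsLocalHom (dnHom (algebraMap F K) O'))
  obtain ⟨hfin, hlα⟩ := len_flat hunr (XP_ker hOP) hdim hα
  obtain ⟨-, hlβ⟩ := len_flat hunr (XP_ker hOP) hdim hβ
  have hfα := LenL_ne_top (XP_ker hOP) hdim hα
  have hfβ := LenL_ne_top (XP_ker hOP) hdim hβ
  -- finiteness above
  have hup : ∀ γ : (dn (algebraMap F K) O').toSubring, γ ∉ XP_ker hOP →
      ∀ Q : Ideal O'.toSubring, Q.IsPrime →
        Q.comap (algebraMap (dn (algebraMap F K) O').toSubring O'.toSubring) = XP_ker hOP →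
        algebraMap (dn (algebraMap F K) O').toSubring O'.toSubring γ ∉ Q ∧
        Module.length O'.toSubring (O'.toSubring ⧸ (Q ⊔ Ideal.span
          {algebraMap (dn (algebraMap F K) O').toSubring O'.toSubring γ})) ≠ ⊤ := by
    intro γ hγ Q hQ hQp
    have h1 : algebraMap (dn (algebraMap F K) O').toSubring O'.toSubring γ ∉ Q := by
      intro h2
      apply hγ
      rw [← hQp]
      exact h2
    exact ⟨h1, LenL_ne_top Q (fun q hq hle => hunr.hdim (XP_ker hOP) hdim Q hQ hQp q hq hle) h1⟩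
  -- sums of natural numbers
  have hsum : ∀ γ : (dn (algebraMap F K) O').toSubring, γ ∉ XP_ker hOP →
      Module.length (dn (algebraMap F K) O').toSubring
        ((dn (algebraMap F K) O').toSubring ⧸ (XP_ker hOP ⊔ Ideal.span {γ})) =
      ∑ᶠ (Q : Ideal O'.toSubring) (_ : Q.IsPrime ∧
        Q.comap (algebraMap (dn (algebraMap F K) O').toSubring O'.toSubring) = XP_ker hOP),
        Module.length O'.toSubring (O'.toSubring ⧸ (Q ⊔ Ideal.span
          {algebraMap (dn (algebraMap F K) O').toSubring O'.toSubring γ})) →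
      ((Module.length (dn (algebraMap F K) O').toSubring
        ((dn (algebraMap F K) O').toSubring ⧸ (XP_ker hOP ⊔ Ideal.span {γ}))).toNat : ℤ) =
      ∑ Q ∈ hfin.toFinset,
        ((Module.length O'.toSubring (O'.toSubring ⧸ (Q ⊔ Ideal.span
          {algebraMap (dn (algebraMap F K) O').toSubring O'.toSubring γ}))).toNat : ℤ) := by
    intro γ hγ hs
    have h1 : ∑ᶠ (Q : Ideal O'.toSubring) (_ : Q ∈ {Q : Ideal O'.toSubring | Q.IsPrime ∧
        Q.comap (algebraMap (dn (algebraMap F K) O').toSubring O'.toSubring) = XP_ker hOP}),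
        Module.length O'.toSubring (O'.toSubring ⧸ (Q ⊔ Ideal.span
          {algebraMap (dn (algebraMap F K) O').toSubring O'.toSubring γ})) =
        ∑ Q ∈ hfin.toFinset, Module.length O'.toSubring (O'.toSubring ⧸ (Q ⊔ Ideal.span
          {algebraMap (dn (algebraMap F K) O').toSubring O'.toSubring γ})) :=
      finsum_mem_eq_finite_toFinset_sum _ hfin
    have h2 : ∑ Q ∈ hfin.toFinset, Module.length O'.toSubring (O'.toSubring ⧸ (Q ⊔ Ideal.span
          {algebraMap (dn (algebraMap F K) O').toSubring O'.toSubring γ})) =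
        ((∑ Q ∈ hfin.toFinset, (Module.length O'.toSubring (O'.toSubring ⧸ (Q ⊔ Ideal.span
          {algebraMap (dn (algebraMap F K) O').toSubring O'.toSubring γ}))).toNat : ℕ) : ℕ∞) := by
      rw [Nat.cast_sum]
      refine Finset.sum_congr rfl fun Q hQ => ?_
      have hQ' := (Set.Finite.mem_toFinset hfin).1 hQ
      exact (ENat.natCast_toNat (hup γ hγ Q hQ'.1 hQ'.2).2).symm
    have h3 := hs.trans (h1.trans h2)
    rw [h3, ENat.toNat_natCast, Nat.cast_sum]
  rw [hab, len_toLoc hOP α β hα hβ hfα hfβ, hsum α hα hlα, hsum β hβ hlβ,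
    ← Finset.sum_sub_distrib, ← finsum_mem_eq_finite_toFinset_sum _ hfin]
  symm
  refine finsum_mem_eq_of_bijOn (t := {P' : LocalSubring K |
    P' ∈ Ov k' (fun i => algebraMap F K (x i)) (algebraMap F K) 1 P ∧
      O'.toSubring ≤ P'.toSubring})
    (fun Q : Ideal O'.toSubring => if hQ : Q.IsPrime then
      @LocalSubring.ofPrime K _ O'.toSubring Q hQ else O') ⟨?_, ?_, ?_⟩ ?_
  · rintro Q ⟨hQ, hQp⟩
    simp only [dif_pos hQ]
    exact ⟨Len_surj h hx hO' hP hOP Q hQ hQp, LocalSubring.le_ofPrime _ Q⟩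
  · rintro Q ⟨hQ, hQp⟩ Q₂ ⟨hQ₂, hQp₂⟩ he
    simp only [dif_pos hQ, dif_pos hQ₂] at he
    have h1 := LenB_ker_congr (LocalSubring.le_ofPrime O'.toSubring Q)
      (LocalSubring.le_ofPrime O'.toSubring Q₂) he
    rw [XP_ker_ofPrime, XP_ker_ofPrime] at h1
    exact h1
  · rintro P' ⟨⟨hP', hdn⟩, hle⟩
    refine ⟨XP_ker hle, ⟨inferInstance, Len_comap _ hOP hdn hle⟩, ?_⟩
    have h1 : (XP_ker hle).IsPrime := inferInstance
    simp only [dif_pos h1]
    exact (LenB_pt hne' hO' hP' hle).symm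
  · rintro Q ⟨hQ, hQp⟩
    have key : ∀ P' : LocalSubring K, P' = LocalSubring.ofPrime O'.toSubring Q →
        ((Module.length O'.toSubring (O'.toSubring ⧸ (Q ⊔ Ideal.span
          {algebraMap (dn (algebraMap F K) O').toSubring O'.toSubring α}))).toNat : ℤ) -
        ((Module.length O'.toSubring (O'.toSubring ⧸ (Q ⊔ Ideal.span
          {algebraMap (dn (algebraMap F K) O').toSubring O'.toSubring β}))).toNat : ℤ) =
        len (locSub O' P') (kmap (algebraMap F K) P' (a (dn (algebraMap F K) P'))) := ?_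
    · exact key _ (dif_pos hQ)
    rintro _ rfl
    have hle := LocalSubring.le_ofPrime O'.toSubring Q
    have hov := Len_surj h hx hO' hP hOP Q hQ hQp
    rw [Len_val (algebraMap F K) hOP hov.2 hle a α β hab]
    have hk := XP_ker_ofPrime O'.toSubring Q
    obtain ⟨h1, h2⟩ := hup α hα Q hQ hQp
    obtain ⟨h3, h4⟩ := hup β hβ Q hQ hQp
    have h5 := len_toLoc (S := O') (T := LocalSubring.ofPrime O'.toSubring Q) hle
      (dnHom (algebraMap F K) O' α) (dnHom (algebraMap F K) O' β) (by rw [hk]; exact h1)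
      (by rw [hk]; exact h3) (by rw [hk]; exact h2) (by rw [hk]; exact h4)
    rw [h5, hk]
    rfl

end

end Pool.Agent.Lib.MP_b197b4_ntKE
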