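import Mathlib
import Pool.Agent.Lib.MP_b197b4_ntK.Final
import Pool.Agent.Lib.MP_b197b4_ntKE.Defs
import Pool.Agent.Lib.MP_b197b4_ntKE.Pts
import Pool.Agent.Lib.MP_b197b4_ntKE.Len

/-!
# MP_b197b4_nt, project K1-ALL-DESC: D10, cycles
-/

set_option autoImplicit false

namespace Pool.Agent.Lib.MP_b197b4_ntKE

open IsLocalRing Pool.Agent.Lib.MP_b197b4_ntK Pool.Agent.Lib.MP_b197b4_ntA
  Pool.Agent.Lib.MP_b197b4_ntKD

/-- Grouping of a finite sum. -/
theorem Cyc_group {α β : Type*} (A : Set α) (T : Set β) (hT : T.Finite) (π : α → β) (f : α → ℤ)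
    (hA : ∀ a ∈ A, f a ≠ 0 → π a ∈ T) (hfin : ∀ b ∈ T, {a | a ∈ A ∧ π a = b}.Finite) :
    ∑ᶠ (a : α) (_ : a ∈ A), f a =
      ∑ᶠ (b : β) (_ : b ∈ T), ∑ᶠ (a : α) (_ : a ∈ {a | a ∈ A ∧ π a = b}), f a := by
  have h2 : ∑ᶠ (a : α) (_ : a ∈ A), f a =
      ∑ᶠ (a : α) (_ : a ∈ ⋃ b ∈ T, {a | a ∈ A ∧ π a = b}), f a := by
    refine finsum_mem_inter_support_eq _ _ _ ?_
    ext a
    simp only [Set.mem_inter_iff, Function.mem_support, Set.mem_iUnion]
    constructor
    · rintro ⟨ha, hfa⟩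
      exact ⟨⟨π a, hA a ha hfa, ha, rfl⟩, hfa⟩
    · rintro ⟨⟨b, -, ha, -⟩, hfa⟩
      exact ⟨ha, hfa⟩
  rw [h2, finsum_mem_biUnion _ hT hfin]
  intro b hb c hc hbc
  refine Set.disjoint_left.mpr ?_
  rintro a ⟨-, h5⟩ ⟨-, h6⟩
  exact hbc (h5.symm.trans h6)

section

variable {k k' F K : Type} [Field k] [Field k'] [Field F] [Field K] [Algebra k k'] [Algebra k F]
  [Algebra k' K] [Algebra F K] {n d : ℕ} {x : Fin (n + 1) → F}

/-- D10 (Cyc.lean), from D3 and D9. -/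
theorem cyc_up (h : BC k k' F K) (hx : Var k d x) {a : ∀ P : LocalSubring F, Kap P}
    (ha : CycX k x a) : CycX k' (fun i => algebraMap F K (x i))
      (fun P' => kmap (algebraMap F K) P' (a (dn (algebraMap F K) P'))) := by
  have hone : ∀ P' : LocalSubring K, a (dn (algebraMap F K) P') = 1 →
      kmap (algebraMap F K) P' (a (dn (algebraMap F K) P')) = 1 := fun P' h1 => by
    rw [h1, map_one]
  refine ⟨fun P' hP' => ?_, ?_, fun O' hO' => ?_⟩
  · exact (map_ne_zero (kmap (algebraMap F K) P')).2 (ha.ne _ (pts_dn h hx hP'))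
  · refine (ha.finite.biUnion (t := fun P =>
      Ov k' (fun i => algebraMap F K (x i)) (algebraMap F K) 1 P)
      fun P hP => ov_finite h hx hP.1).subset ?_
    rintro P' ⟨hP', hne⟩
    refine Set.mem_iUnion₂.2 ⟨dn (algebraMap F K) P', ⟨pts_dn h hx hP', fun h1 => hne ?_⟩, hP', rfl⟩
    exact hone P' h1
  · have hT : {P : LocalSubring F | (P ∈ Pts k x 1 ∧ a P ≠ 1) ∧
        (dn (algebraMap F K) O').toSubring ≤ P.toSubring}.Finite :=
      ha.finite.subset fun P hP => hP.1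
    have h1 := Cyc_group {P' : LocalSubring K | P' ∈ Pts k' (fun i => algebraMap F K (x i)) 1 ∧
      O'.toSubring ≤ P'.toSubring} _ hT (fun P' => dn (algebraMap F K) P')
      (fun P' => len (locSub O' P') (kmap (algebraMap F K) P' (a (dn (algebraMap F K) P')))) ?_ ?_
    · refine Eq.trans h1 ?_
      have h2 : ∀ P ∈ {P : LocalSubring F | (P ∈ Pts k x 1 ∧ a P ≠ 1) ∧
          (dn (algebraMap F K) O').toSubring ≤ P.toSubring},
          ∑ᶠ (P' : LocalSubring K) (_ : P' ∈ {P' : LocalSubring K |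
            P' ∈ {P' : LocalSubring K | P' ∈ Pts k' (fun i => algebraMap F K (x i)) 1 ∧
              O'.toSubring ≤ P'.toSubring} ∧ dn (algebraMap F K) P' = P}),
            len (locSub O' P') (kmap (algebraMap F K) P' (a (dn (algebraMap F K) P'))) =
          len (locSub (dn (algebraMap F K) O') P) (a P) := by
        rintro P ⟨⟨hP, -⟩, hOP⟩
        rw [← len_up h hx hO' hP hOP a (ha.ne P hP)]
        refine finsum_congr fun P' => ?_
        refine finsum_congr_Prop (propext ?_) fun _ => rfl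
        constructor
        · rintro ⟨⟨h3, h4⟩, h5⟩
          exact ⟨⟨h3, h5⟩, h4⟩
        · rintro ⟨⟨h3, h5⟩, h4⟩
          exact ⟨⟨h3, h4⟩, h5⟩
      rw [finsum_mem_congr rfl h2]
      refine Eq.trans ?_ (ha.div _ (pts_dn h hx hO'))
      change _ = ∑ᶠ (P : LocalSubring F) (_ : P ∈ {P | P ∈ Pts k x 1 ∧
        (dn (algebraMap F K) O').toSubring ≤ P.toSubring}),
          len (locSub (dn (algebraMap F K) O') P) (a P)
      refine finsum_mem_inter_support_eq _ _ _ ?_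
      ext P
      simp only [Set.mem_inter_iff, Function.mem_support]
      constructor
      · rintro ⟨⟨⟨h3, -⟩, h4⟩, h5⟩
        exact ⟨⟨h3, h4⟩, h5⟩
      · rintro ⟨⟨h3, h4⟩, h5⟩
        refine ⟨⟨⟨h3, fun h6 => h5 ?_⟩, h4⟩, h5⟩
        rw [h6, len_one]
    · rintro P' ⟨hP', hle⟩ hne
      refine ⟨⟨pts_dn h hx hP', fun h6 => hne ?_⟩, fun y hy => hle hy⟩
      rw [hone P' h6, len_one]
    · intro P hP
      refine (ov_finite h hx hP.1.1).subset ?_
      rintro P' ⟨⟨h3, -⟩, h4⟩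
      exact ⟨h3, h4⟩

end

end Pool.Agent.Lib.MP_b197b4_ntKE
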