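import Pool.Agent.Lib.MP_b197b4_ntKE.Defs
import Pool.Agent.Lib.MP_b197b4_ntKR.Chart
import Pool.Agent.Lib.MP_b197b4_ntA.XCen

/-!
# MP_b197b4_nt, project K1-ALL-DESC: the action of the Galois group on the charts
-/

set_option autoImplicit false

namespace Pool.Agent.Lib.MP_b197b4_ntKE

open scoped Pointwise

open IsLocalRing Pool.Agent.Lib.MP_b197b4_ntK Pool.Agent.Lib.MP_b197b4_ntA
  Pool.Agent.Lib.MP_b197b4_ntKD Pool.Agent.Lib.MP_b197b4_ntKR

section Abs

variable {F K : Type} [Field F] [Field K] [Algebra F K]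

theorem gal2A_fixed [IsGalois F K] (A : Subring F) (B : Subring K) (hA : IsIntegrallyClosed A)
    (hAF : IsFractionRing A F)
    (hAB : ∀ a ∈ A, algebraMap F K a ∈ B)
    (hint : ∀ b ∈ B, ∃ p : Polynomial A, p.Monic ∧
      p.eval₂ ((algebraMap F K).comp A.subtype) b = 0) (b : B)
    (hb : ∀ σ : K ≃ₐ[F] K, σ b = b) :
    ∃ a : A, ((algebraMap F K).comp A.subtype |>.codRestrict B fun a => hAB a a.2) a = b := by
  have hbF : (b : K) ∈ (⊥ : IntermediateField F K) :=
    (InfiniteGalois.mem_bot_iff_fixed (k := F) (b : K)).mpr hb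
  rw [IntermediateField.mem_bot] at hbF
  obtain ⟨f, hf⟩ := hbF
  have hfi : IsIntegral A f := by
    obtain ⟨p, hp, hp0⟩ := hint b b.2
    refine ⟨p, hp, ?_⟩
    apply (algebraMap F K).injective
    rw [map_zero, Polynomial.hom_eval₂, hf]
    exact hp0
  obtain ⟨a, ha⟩ := IsIntegrallyClosed.algebraMap_eq_of_integral hfi
  refine ⟨a, Subtype.ext ?_⟩
  rw [← hf, ← ha]
  rfl

/-- The Galois group acts transitively on the primes over a prime. -/
theorem gal2A_trans [IsGalois F K] (A : Subring F) (B : Subring K) (hA : IsIntegrallyClosed A)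
    (hAF : IsFractionRing A F)
    (hAB : ∀ a ∈ A, algebraMap F K a ∈ B)
    (hint : ∀ b ∈ B, ∃ p : Polynomial A, p.Monic ∧
      p.eval₂ ((algebraMap F K).comp A.subtype) b = 0)
    (hσ : ∀ (σ : K ≃ₐ[F] K) (b : K), b ∈ B → σ b ∈ B) (P Q : Ideal B) (hP : P.IsPrime)
    (hQ : Q.IsPrime)
    (hPQ : ∀ (a : F) (ha : a ∈ A), (⟨algebraMap F K a, hAB a ha⟩ : B) ∈ P ↔
      (⟨algebraMap F K a, hAB a ha⟩ : B) ∈ Q) :
    ∃ σ : K ≃ₐ[F] K, ∀ (b : K) (hb : b ∈ B), (⟨b, hb⟩ : B) ∈ P ↔ (⟨σ b, hσ σ b hb⟩ : B) ∈ Q := by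
  have inv : IsInvariantSubring (K ≃ₐ[F] K) B := ⟨fun σ b hb => hσ σ b hb⟩
  let : Algebra A B :=
    ((algebraMap F K).comp A.subtype |>.codRestrict B fun a => hAB a a.2).toAlgebra
  have : SMulCommClass (K ≃ₐ[F] K) A B := ⟨fun σ a b => by
    apply Subtype.ext
    change σ (algebraMap F K a * b) = algebraMap F K a * σ b
    rw [map_mul, σ.commutes]⟩
  have hinv : Algebra.IsInvariant A B (K ≃ₐ[F] K) :=
    ⟨fun b hb => gal2A_fixed A B hA hAF hAB hint b fun g => congrArg Subtype.val (hb g)⟩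
  let : TopologicalSpace B := ⊥
  have : DiscreteTopology B := ⟨rfl⟩
  have : ContinuousSMul (K ≃ₐ[F] K) B := by
    rw [continuousSMul_iff_stabilizer_isOpen]
    intro b
    have h1 := stabilizer_isOpen_of_isIntegral (K := F) (L := K) (b : K)
    have h2 : (MulAction.stabilizer (K ≃ₐ[F] K) b : Set (K ≃ₐ[F] K)) =
        (MulAction.stabilizer (K ≃ₐ[F] K) (b : K) : Set (K ≃ₐ[F] K)) := by
      ext g
      simp only [SetLike.mem_coe, MulAction.mem_stabilizer_iff]
      exact Subtype.ext_iff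
    rw [h2]
    exact h1
  obtain ⟨g, hg⟩ := Algebra.IsInvariant.exists_smul_of_under_eq_of_profinite (A := A)
    (G := K ≃ₐ[F] K) P Q (by
      ext ⟨a, ha⟩
      exact hPQ a ha)
  refine ⟨g, fun b hb => ?_⟩
  rw [hg]
  exact (Ideal.smul_mem_pointwise_smul_iff (a := g) (S := P) (x := ⟨b, hb⟩)).symm

/-- The decomposition group maps onto the automorphisms of the residue ring. -/
theorem gal2A_surj [IsGalois F K] (A : Subring F) (B : Subring K) (hA : IsIntegrallyClosed A)
    (hAF : IsFractionRing A F)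
    (hAB : ∀ a ∈ A, algebraMap F K a ∈ B)
    (hint : ∀ b ∈ B, ∃ p : Polynomial A, p.Monic ∧
      p.eval₂ ((algebraMap F K).comp A.subtype) b = 0)
    (hσ : ∀ (σ : K ≃ₐ[F] K) (b : K), b ∈ B → σ b ∈ B) (Q : Ideal B) (hQ : Q.IsPrime)
    (τ : (B ⧸ Q) ≃+* (B ⧸ Q))
    (hτ : ∀ (a : F) (ha : a ∈ A), τ (Ideal.Quotient.mk Q ⟨algebraMap F K a, hAB a ha⟩) =
      Ideal.Quotient.mk Q ⟨algebraMap F K a, hAB a ha⟩) :
    ∃ σ : K ≃ₐ[F] K, (∀ (b : K) (hb : b ∈ B), (⟨b, hb⟩ : B) ∈ Q ↔ (⟨σ b, hσ σ b hb⟩ : B) ∈ Q) ∧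
      ∀ (b : K) (hb : b ∈ B), τ (Ideal.Quotient.mk Q ⟨b, hb⟩) =
        Ideal.Quotient.mk Q ⟨σ b, hσ σ b hb⟩ := by
  have inv : IsInvariantSubring (K ≃ₐ[F] K) B := ⟨fun σ b hb => hσ σ b hb⟩
  let : Algebra A B :=
    ((algebraMap F K).comp A.subtype |>.codRestrict B fun a => hAB a a.2).toAlgebra
  have : SMulCommClass (K ≃ₐ[F] K) A B := ⟨fun σ a b => by
    apply Subtype.ext
    change σ (algebraMap F K a * b) = algebraMap F K a * σ b
    rw [map_mul, σ.commutes]⟩
  have hinv : Algebra.IsInvariant A B (K ≃ₐ[F] K) :=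
    ⟨fun b hb => gal2A_fixed A B hA hAF hAB hint b fun g => congrArg Subtype.val (hb g)⟩
  let : TopologicalSpace B := ⊥
  have : DiscreteTopology B := ⟨rfl⟩
  have : ContinuousSMul (K ≃ₐ[F] K) B := by
    rw [continuousSMul_iff_stabilizer_isOpen]
    intro b
    have h1 := stabilizer_isOpen_of_isIntegral (K := F) (L := K) (b : K)
    have h2 : (MulAction.stabilizer (K ≃ₐ[F] K) b : Set (K ≃ₐ[F] K)) =
        (MulAction.stabilizer (K ≃ₐ[F] K) (b : K) : Set (K ≃ₐ[F] K)) := by
      ext g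
      simp only [SetLike.mem_coe, MulAction.mem_stabilizer_iff]
      exact Subtype.ext_iff
    rw [h2]
    exact h1
  obtain ⟨⟨g, hg⟩, hgτ⟩ := Ideal.Quotient.stabilizerHom_surjective_of_profinite (A := A)
    (G := K ≃ₐ[F] K) (Q.under A) Q
    (AlgEquiv.ofRingEquiv (f := τ) (by
      intro a
      obtain ⟨a, rfl⟩ := Ideal.Quotient.mk_surjective a
      exact hτ a a.2))
  refine ⟨g, fun b hb => ?_, fun b hb => ?_⟩
  · have hg' : g • Q = Q := hg
    have h1 := (Ideal.smul_mem_pointwise_smul_iff (a := g) (S := Q) (x := ⟨b, hb⟩)).symm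
    rw [hg'] at h1
    exact h1
  · have h1 := DFunLike.congr_fun hgτ (Ideal.Quotient.mk Q ⟨b, hb⟩)
    exact h1.symm

end Abs

section Const

open Polynomial

variable {k k' F K : Type} [Field k] [Field k'] [Field F] [Field K] [Algebra k k'] [Algebra k F]
  [Algebra k' K] [Algebra F K]

/-- Automorphisms map the constants to constants. -/
theorem gal2A_const [IsAlgClosed k'] [Algebra.IsAlgebraic k k']
    (hcomm : ∀ c : k, algebraMap k' K (algebraMap k k' c) = algebraMap F K (algebraMap k F c))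
    (σ : K ≃ₐ[F] K) (c : k') : ∃ c' : k', σ (algebraMap k' K c) = algebraMap k' K c' := by
  have hint : IsIntegral k c := (Algebra.IsAlgebraic.isAlgebraic c).isIntegral
  have hs : ((minpoly k c).map (algebraMap k k')).Splits := IsAlgClosed.splits _
  have hroot : eval₂ ((algebraMap k' K).comp (algebraMap k k')) (σ (algebraMap k' K c))
      (minpoly k c) = 0 := by
    have h0 : aeval c (minpoly k c) = 0 := minpoly.aeval k c
    have h1 := congrArg (fun z => σ (algebraMap k' K z)) h0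
    simp only [map_zero] at h1
    rw [aeval_def, hom_eval₂] at h1
    have h2 := hom_eval₂ (minpoly k c) ((algebraMap k' K).comp (algebraMap k k'))
      (σ : K →+* K) (algebraMap k' K c)
    have h3 : (σ : K →+* K).comp ((algebraMap k' K).comp (algebraMap k k')) =
        (algebraMap k' K).comp (algebraMap k k') := by
      ext z
      change σ (algebraMap k' K (algebraMap k k' z)) = algebraMap k' K (algebraMap k k' z)
      rw [hcomm, σ.commutes]
    rw [h3] at h2
    rw [← h1]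
    exact h2.symm
  have hne : ((minpoly k c).map (algebraMap k k')) ≠ 0 := by
    rw [Polynomial.map_ne_zero_iff (algebraMap k k').injective]
    exact minpoly.ne_zero hint
  have h4 : eval (σ (algebraMap k' K c)) (((minpoly k c).map (algebraMap k k')).map
      (algebraMap k' K)) = 0 := by
    rw [Polynomial.map_map, eval_map]
    exact hroot
  rw [hs.eq_prod_roots] at h4
  rw [Polynomial.map_mul, eval_mul, Polynomial.map_C, eval_C, Polynomial.map_multiset_prod,
    eval_multiset_prod] at h4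
  rcases mul_eq_zero.mp h4 with h5 | h5
  · exfalso
    rw [map_eq_zero, leadingCoeff_eq_zero] at h5
    exact hne h5
  · rw [Multiset.prod_eq_zero_iff] at h5
    simp only [Multiset.map_map, Multiset.mem_map, Function.comp] at h5
    obtain ⟨r, -, hr⟩ := h5
    refine ⟨r, ?_⟩
    rw [Polynomial.map_sub, Polynomial.map_X, Polynomial.map_C, eval_sub, eval_X, eval_C] at hr
    exact sub_eq_zero.mp hr

end Const


section Main

variable {k k' F K : Type} [Field k] [Field k'] [Field F] [Field K] [Algebra k k'] [Algebra k F]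
  [Algebra k' K] [Algebra F K] {n d : ℕ} {x : Fin (n + 1) → F}

theorem gal2A_adjoin (h : BC k k' F K) (S : Set F) :
    bc k' K (Algebra.adjoin k S) = Algebra.adjoin k' (algebraMap F K '' S) := by
  apply le_antisymm
  · unfold bc
    rw [Algebra.adjoin_le_iff]
    rintro _ ⟨a, ha, rfl⟩
    induction ha using Algebra.adjoin_induction with
    | mem y hy => exact Algebra.subset_adjoin ⟨y, hy, rfl⟩
    | algebraMap c =>
      rw [← h.comm]
      exact Subalgebra.algebraMap_mem _ _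
    | add a b _ _ ha hb =>
      rw [map_add]
      exact Subalgebra.add_mem _ ha hb
    | mul a b _ _ ha hb =>
      rw [map_mul]
      exact Subalgebra.mul_mem _ ha hb
  · rw [Algebra.adjoin_le_iff]
    rintro _ ⟨a, ha, rfl⟩
    exact mem_bc (Algebra.subset_adjoin ha)

theorem gal2A_chart (h : BC k k' F K) (x : Fin (n + 1) → F) (i : Fin (n + 1)) :
    cht k' (fun i => algebraMap F K (x i)) i = bc k' K (cht k x i) := by
  unfold cht
  rw [gal2A_adjoin h]
  congr 1
  ext y
  constructor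
  · rintro ⟨j, rfl⟩
    exact ⟨x j / x i, ⟨j, rfl⟩, map_div₀ _ _ _⟩
  · rintro ⟨_, ⟨j, rfl⟩, rfl⟩
    exact ⟨j, (map_div₀ _ _ _).symm⟩

/-- The chart is invariant. -/
theorem gal2A_stable [IsAlgClosed k'] (h : BC k k' F K) (A : Subalgebra k F) (σ : K ≃ₐ[F] K)
    (b : K) (hb : b ∈ bc k' K A) : σ b ∈ bc k' K A := by
  have hsep := h.sep
  have halg : Algebra.IsAlgebraic k k' := inferInstance
  unfold bc at hb
  induction hb using Algebra.adjoin_induction with
  | mem y hy =>
    obtain ⟨a, ha, rfl⟩ := hy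
    rw [σ.commutes]
    exact mem_bc ha
  | algebraMap c =>
    obtain ⟨c', hc'⟩ := gal2A_const h.comm σ c
    rw [hc']
    exact Subalgebra.algebraMap_mem _ _
  | add a b _ _ ha hb =>
    rw [map_add]
    exact Subalgebra.add_mem _ ha hb
  | mul a b _ _ ha hb =>
    rw [map_mul]
    exact Subalgebra.mul_mem _ ha hb

/-- The chart is integral. -/
theorem gal2A_int (h : BC k k' F K) (A : Subalgebra k F) (b : K) (hb : b ∈ bc k' K A) :
    ∃ p : Polynomial A.toSubring, p.Monic ∧
      p.eval₂ ((algebraMap F K).comp A.toSubring.subtype) b = 0 := by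
  obtain ⟨p, hp, hp0⟩ := (h.isIntegral A).isIntegral (⟨b, hb⟩ : bc k' K A)
  refine ⟨p, hp, ?_⟩
  have h1 := congrArg ((bc k' K A).toSubring.subtype) hp0
  rw [map_zero] at h1
  erw [Polynomial.hom_eval₂] at h1
  exact h1

theorem gal2A_mem (h : BC k k' F K) (x : Fin (n + 1) → F) (i : Fin (n + 1)) (b : K) :
    b ∈ (cht k' (fun i => algebraMap F K (x i)) i).toSubring ↔ b ∈ bc k' K (cht k x i) := by
  rw [← gal2A_chart h x i]
  exact Iff.rfl

/-- `ι A_i` is contained in `A'_i`. -/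
theorem gal2A_sub (h : BC k k' F K) (x : Fin (n + 1) → F) (i : Fin (n + 1)) :
    ∀ a ∈ (cht k x i).toSubring,
      algebraMap F K a ∈ (cht k' (fun i => algebraMap F K (x i)) i).toSubring := by
  intro a ha
  rw [gal2A_mem h]
  exact mem_bc ha

theorem gal2A_st [IsAlgClosed k'] (h : BC k k' F K) (x : Fin (n + 1) → F) (i : Fin (n + 1)) :
    ∀ (σ : K ≃ₐ[F] K) (b : K),
      b ∈ (cht k' (fun i => algebraMap F K (x i)) i).toSubring →
      σ b ∈ (cht k' (fun i => algebraMap F K (x i)) i).toSubring := by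
  intro σ b hb
  rw [gal2A_mem h] at hb ⊢
  exact gal2A_stable h _ σ b hb

theorem gal2A_cint (h : BC k k' F K) (x : Fin (n + 1) → F) (i : Fin (n + 1)) :
    ∀ b ∈ (cht k' (fun i => algebraMap F K (x i)) i).toSubring,
      ∃ p : Polynomial (cht k x i).toSubring, p.Monic ∧
        p.eval₂ ((algebraMap F K).comp (cht k x i).toSubring.subtype) b = 0 := by
  intro b hb
  rw [gal2A_mem h] at hb
  exact gal2A_int h _ b hb

end Main

end Pool.Agent.Lib.MP_b197b4_ntKE
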