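import Mathlib
import Pool.Agent.Lib.MP_b197b4_ntKE.Gal2A
import Pool.Agent.Lib.MP_b197b4_ntKE.Ch
import Pool.Agent.Lib.MP_b197b4_ntKE.Reg

/-!
# MP_b197b4_nt, project K1-ALL-DESC: the Galois group acts transitively on the points over a point
-/

set_option autoImplicit false

namespace Pool.Agent.Lib.MP_b197b4_ntKE

open IsLocalRing Pool.Agent.Lib.MP_b197b4_ntK Pool.Agent.Lib.MP_b197b4_ntA
  Pool.Agent.Lib.MP_b197b4_ntKD

section

/-- An element of a chart is in the prime ideal if and only if its inverse is not in the local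
ring. -/
theorem gal2_mem {K : Type} [Field K] (B : Subring K) (P : Ideal B) [P.IsPrime] (b : B) :
    b ∉ P ↔ (b : K) ≠ 0 ∧ (b : K)⁻¹ ∈ (LocalSubring.ofPrime B P).toSubring := by
  constructor
  · intro hb
    refine ⟨xcen_ne B P hb, ?_⟩
    rw [xcen_mem]
    exact ⟨1, b, hb, by rw [Subring.coe_one, one_div]⟩
  · rintro ⟨h0, h1⟩
    rw [← xcen_unit B P b]
    exact IsUnit.of_mul_eq_one ⟨(b : K)⁻¹, h1⟩ (Subtype.ext (mul_inv_cancel₀ h0))

variable {k k' F K : Type} [Field k] [Field k'] [Field F] [Field K] [Algebra k k'] [Algebra k F]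
  [Algebra k' K] [Algebra F K] {n d : ℕ} {x : Fin (n + 1) → F}

/-- D5b (Gal2.lean): the Galois group acts transitively. -/
theorem gal_trans [IsAlgClosed k'] [IsGalois F K] (h : BC k k' F K) (hx : Var k d x) {e : ℕ}
    {S' S'' : LocalSubring K} (hS' : S' ∈ Pts k' (fun i => algebraMap F K (x i)) e)
    (hS'' : S'' ∈ Pts k' (fun i => algebraMap F K (x i)) e)
    (hdn : dn (algebraMap F K) S' = dn (algebraMap F K) S'') :
    ∃ σ : K ≃+* K, (∀ y : F, σ (algebraMap F K y) = algebraMap F K y) ∧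
      dn (σ : K →+* K) S'' = S' := by
  obtain ⟨i, P, hP, hPe, hSP⟩ := hS'
  have hdn' : ∀ y : F, algebraMap F K y ∈ S'.toSubring ↔ algebraMap F K y ∈ S''.toSubring := by
    intro y
    rw [← mem_dn, ← mem_dn, hdn]
  have hchart : ∀ j, algebraMap F K (x j) / algebraMap F K (x i) ∈ S''.toSubring := by
    intro j
    rw [← map_div₀, ← hdn', hSP]
    refine LocalSubring.le_ofPrime _ P ?_
    exact gal2A_sub h x i _ (xcen_coord i j)
  obtain ⟨Q, hQ, hQe, hSQ⟩ := pts_chart (k := k') (x := fun i => algebraMap F K (x i))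
    (fun i => (map_ne_zero _).mpr (hx.ne i)) hS'' hchart
  have hreg := hx.regular i
  have hcl : IsIntegrallyClosed (cht k x i) := isIntegrallyClosed_of_reg
  have hPQ : ∀ (a : F) (ha : a ∈ (cht k x i).toSubring),
      (⟨algebraMap F K a, gal2A_sub h x i a ha⟩ :
        (cht k' (fun i => algebraMap F K (x i)) i).toSubring) ∈ P ↔
      (⟨algebraMap F K a, gal2A_sub h x i a ha⟩ :
        (cht k' (fun i => algebraMap F K (x i)) i).toSubring) ∈ Q := by
    intro a ha
    rw [← not_iff_not, gal2_mem, gal2_mem, ← hSP, ← hSQ]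
    change algebraMap F K a ≠ 0 ∧ (algebraMap F K a)⁻¹ ∈ S'.toSubring ↔
      algebraMap F K a ≠ 0 ∧ (algebraMap F K a)⁻¹ ∈ S''.toSubring
    rw [← map_inv₀, hdn']
  obtain ⟨σ, hσ⟩ := gal2A_trans (cht k x i).toSubring
    (cht k' (fun i => algebraMap F K (x i)) i).toSubring hcl (hx.frac i) (gal2A_sub h x i)
    (gal2A_cint h x i) (gal2A_st h x i) P Q hP hQ hPQ
  refine ⟨σ.toRingEquiv, fun y => σ.commutes y, ?_⟩
  apply LocalSubring.toSubring_injective
  ext y
  change σ y ∈ S''.toSubring ↔ y ∈ S'.toSubring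
  rw [hSP, hSQ, xcen_mem, xcen_mem]
  constructor
  · rintro ⟨a, s, hs, hy⟩
    have hst := gal2A_st h x i σ.symm
    refine ⟨⟨σ.symm a, hst _ a.2⟩, ⟨σ.symm s, hst _ s.2⟩, ?_, ?_⟩
    · rw [hσ _ (hst _ s.2)]
      intro h1
      apply hs
      have h2 : (⟨σ (σ.symm s), gal2A_st h x i σ _ (hst _ s.2)⟩ :
          (cht k' (fun i => algebraMap F K (x i)) i).toSubring) = s :=
        Subtype.ext (σ.apply_symm_apply _)
      rw [← h2]
      exact h1
    · change y = σ.symm a / σ.symm s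
      rw [← map_div₀, ← hy, σ.symm_apply_apply]
  · rintro ⟨a, s, hs, hy⟩
    refine ⟨⟨σ a, gal2A_st h x i σ _ a.2⟩, ⟨σ s, gal2A_st h x i σ _ s.2⟩, ?_, ?_⟩
    · intro h1
      exact hs ((hσ _ s.2).mpr h1)
    · change σ y = σ a / σ s
      rw [← map_div₀, ← hy]

end

end Pool.Agent.Lib.MP_b197b4_ntKE
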