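import Mathlib
import Pool.Agent.Lib.MP_b197b4_ntKE.Defs

/-!
# MP_b197b4_nt, project K1-ALL-DESC, leaf D4: the residue fields
-/

set_option autoImplicit false

namespace Pool.Agent.Lib.MP_b197b4_ntKE

open IsLocalRing Pool.Agent.Lib.MP_b197b4_ntK Pool.Agent.Lib.MP_b197b4_ntA
  Pool.Agent.Lib.MP_b197b4_ntKD

section

variable {k k' L M : Type} [Field k] [Field k'] [Field L] [Field M] [Algebra k k'] [Algebra k L]
  [Algebra k' M] [Algebra L M]

/-- the minimal polynomial over the smaller field annihilates the constant -/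
theorem Kap_aeval (h : ∀ c : k, algebraMap k' M (algebraMap k k' c) = algebraMap L M (algebraMap k L c))
    (c : k') : Polynomial.aeval (algebraMap k' M c) ((minpoly k c).map (algebraMap k L)) = 0 := by
  have h1 : (algebraMap L M).comp (algebraMap k L) = (algebraMap k' M).comp (algebraMap k k') :=
    RingHom.ext fun c => (h c).symm
  rw [Polynomial.aeval_def, Polynomial.eval₂_map, h1, ← Polynomial.hom_eval₂, ← Polynomial.aeval_def,
    minpoly.aeval, map_zero]

theorem Kap_integral [Algebra.IsAlgebraic k k']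
    (h : ∀ c : k, algebraMap k' M (algebraMap k k' c) = algebraMap L M (algebraMap k L c))
    (c : k') : IsIntegral L (algebraMap k' M c) :=
  ⟨(minpoly k c).map (algebraMap k L),
    (minpoly.monic (Algebra.IsIntegral.isIntegral c)).map _, by
      rw [← Polynomial.aeval_def]
      exact Kap_aeval h c⟩

theorem Kap_top
    (hg : ∀ x : M, x ∈ Algebra.adjoin L (Set.range (algebraMap k' M))) :
    IntermediateField.adjoin L (Set.range (algebraMap k' M)) = ⊤ := by
  rw [eq_top_iff]
  intro x _
  exact IntermediateField.algebra_adjoin_le_adjoin L _ (hg x)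

theorem Kap_isAlgebraic [Algebra.IsAlgebraic k k']
    (h : ∀ c : k, algebraMap k' M (algebraMap k k' c) = algebraMap L M (algebraMap k L c))
    (hg : ∀ x : M, x ∈ Algebra.adjoin L (Set.range (algebraMap k' M))) :
    Algebra.IsAlgebraic L M := by
  constructor
  intro x
  have h1 : IsIntegral L x := by
    have h2 := hg x
    induction h2 using Algebra.adjoin_induction with
    | mem y hy =>
      obtain ⟨c, rfl⟩ := hy
      exact Kap_integral h c
    | algebraMap r => exact isIntegral_algebraMap
    | add y z _ _ hy hz => exact hy.add hz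
    | mul y z _ _ hy hz => exact hy.mul hz
  exact h1.isAlgebraic

theorem Kap_isGalois [Algebra.IsSeparable k k'] [IsAlgClosed k']
    (h : ∀ c : k, algebraMap k' M (algebraMap k k' c) = algebraMap L M (algebraMap k L c))
    (hg : ∀ x : M, x ∈ Algebra.adjoin L (Set.range (algebraMap k' M))) :
    IsGalois L M := by
  have htop := Kap_top hg
  have hdvd : ∀ c : k', minpoly L (algebraMap k' M c) ∣ (minpoly k c).map (algebraMap k L) :=
    fun c => minpoly.dvd _ _ (Kap_aeval h c)
  have hsep : Algebra.IsSeparable L M := by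
    have h1 : Algebra.IsSeparable L (IntermediateField.adjoin L (Set.range (algebraMap k' M))) := by
      rw [IntermediateField.isSeparable_adjoin_iff_isSeparable]
      rintro _ ⟨c, rfl⟩
      have h2 : (minpoly k c).Separable := Algebra.IsSeparable.isSeparable k c
      exact (h2.map (f := algebraMap k L)).of_dvd (hdvd c)
    rw [htop] at h1
    exact Algebra.IsSeparable.of_algHom L _ (IntermediateField.topEquiv (F := L) (E := M)).symm.toAlgHom
  have halg := Kap_isAlgebraic h hg
  have hnorm : Normal L M := by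
    refine ⟨fun x => ?_⟩
    refine IntermediateField.splits_of_mem_adjoin L M (S := Set.range (algebraMap k' M)) ?_
      (by rw [htop]; trivial)
    rintro _ ⟨c, rfl⟩
    refine ⟨Kap_integral h c, ?_⟩
    have h3 : ((minpoly k c).map (algebraMap k k')).Splits := IsAlgClosed.splits _
    have h4 := h3.map (algebraMap k' M)
    have h5 : ((minpoly k c).map (algebraMap k k')).map (algebraMap k' M) =
        ((minpoly k c).map (algebraMap k L)).map (algebraMap L M) := by
      rw [Polynomial.map_map, Polynomial.map_map]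
      congr 1
      exact RingHom.ext fun c => h c
    rw [h5] at h4
    refine h4.of_dvd ?_ (Polynomial.map_dvd _ (hdvd c))
    have h6 := (minpoly.monic (Algebra.IsIntegral.isIntegral (R := k) c)).ne_zero
    rw [Polynomial.map_map]
    rwa [Ne, Polynomial.map_eq_zero]
  exact ⟨⟩

end

section

variable {k k' F K : Type} [Field k] [Field k'] [Field F] [Field K] [Algebra k k'] [Algebra k F]
  [Algebra k' K] [Algebra F K] {n d : ℕ} {x : Fin (n + 1) → F}

/-- Elements of the local ring at a prime ideal are fractions. -/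
theorem Kap_frac (A : Subring K) (Q : Ideal A) [Q.IsPrime] (z : (LocalSubring.ofPrime A Q).toSubring) :
    ∃ a s : A, ∃ (ha : (a : K) ∈ (LocalSubring.ofPrime A Q).toSubring)
      (hs : (s : K) ∈ (LocalSubring.ofPrime A Q).toSubring),
      IsUnit (⟨s, hs⟩ : (LocalSubring.ofPrime A Q).toSubring) ∧ z * ⟨s, hs⟩ = ⟨a, ha⟩ := by
  obtain ⟨⟨a, s⟩, h⟩ := IsLocalization.surj Q.primeCompl z
  exact ⟨a, s, LocalSubring.le_ofPrime A Q a.2, LocalSubring.le_ofPrime A Q s.1.2,
    IsLocalization.map_units (M := Q.primeCompl) (LocalSubring.ofPrime A Q).toSubring s, h⟩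

/-- The constants are contained in the local rings of the points. -/
theorem Kap_mem {x' : Fin (n + 1) → K} {e : ℕ} {P' : LocalSubring K} (hP' : P' ∈ Pts k' x' e) (c : k') :
    algebraMap k' K c ∈ P'.toSubring := by
  obtain ⟨i, Q', hQ', _, rfl⟩ := hP'
  exact LocalSubring.le_ofPrime _ Q' (Subalgebra.algebraMap_mem (cht k' x' i) c)

theorem Kap_mem' (h : BC k k' F K) {x' : Fin (n + 1) → K} {e : ℕ} {P' : LocalSubring K}
    (hP' : P' ∈ Pts k' x' e) (c : k) :
    algebraMap k F c ∈ (dn (algebraMap F K) P').toSubring := by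
  rw [mem_dn, ← h.comm]
  exact Kap_mem hP' _

/-- The residue field is generated by the constants. -/
theorem Kap_gen (h : BC k k' F K) {e : ℕ} {P' : LocalSubring K}
    (hP' : P' ∈ Pts k' (fun i => algebraMap F K (x i)) e)
    (h2 : ∀ c : k', algebraMap k' K c ∈ P'.toSubring) (u : Kap P') :
    u ∈ @Algebra.adjoin (Kap (dn (algebraMap F K) P')) (Kap P') _ _
      (kmap (algebraMap F K) P').toAlgebra (Set.range (conK k' P' h2)) := by
  let _ : Algebra (Kap (dn (algebraMap F K) P')) (Kap P') := (kmap (algebraMap F K) P').toAlgebra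
  let _ : Algebra k (Kap (dn (algebraMap F K) P')) := (conK k _ (Kap_mem' h hP')).toAlgebra
  let _ : Algebra k' (Kap P') := (conK k' _ h2).toAlgebra
  have hcomm : ∀ c : k, algebraMap k' (Kap P') (algebraMap k k' c) =
      algebraMap (Kap (dn (algebraMap F K) P')) (Kap P') (algebraMap k _ c) := by
    intro c
    refine congrArg (residue _) (Subtype.ext ?_)
    exact h.comm c
  have := h.sep
  have halg : (IntermediateField.adjoin (Kap (dn (algebraMap F K) P'))
      (Set.range (conK k' P' h2))).toSubalgebra = Algebra.adjoin _ (Set.range (conK k' P' h2)) := by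
    apply IntermediateField.adjoin_toSubalgebra_of_isAlgebraic
    rintro _ ⟨c, rfl⟩
    exact (Kap_integral hcomm c).isAlgebraic
  obtain ⟨z, rfl⟩ := residue_surjective u
  obtain ⟨i, Q', hQ', he, rfl⟩ := hP'
  have hA : ∀ (a : K) (ha : a ∈ cht k' (fun i => algebraMap F K (x i)) i)
      (hb : a ∈ (LocalSubring.ofPrime _ Q').toSubring),
      residue _ ⟨a, hb⟩ ∈ Algebra.adjoin (Kap (dn (algebraMap F K) (LocalSubring.ofPrime _ Q')))
        (Set.range (conK k' (LocalSubring.ofPrime _ Q') h2)) := by
    intro a ha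
    refine Algebra.adjoin_induction (p := fun a ha => ∀ hb : a ∈ (LocalSubring.ofPrime _ Q').toSubring,
      residue _ ⟨a, hb⟩ ∈ Algebra.adjoin (Kap (dn (algebraMap F K) (LocalSubring.ofPrime _ Q')))
        (Set.range (conK k' (LocalSubring.ofPrime _ Q') h2))) ?_ ?_ ?_ ?_ ha
    · rintro _ ⟨j, rfl⟩ hb
      have hd : x j / x i ∈ (dn (algebraMap F K) (LocalSubring.ofPrime _ Q')).toSubring := by
        rw [mem_dn, map_div₀]
        exact hb
      have h3 : residue _ ⟨_, hb⟩ = algebraMap (Kap (dn (algebraMap F K) (LocalSubring.ofPrime _ Q')))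
          (Kap (LocalSubring.ofPrime _ Q')) (residue _ ⟨_, hd⟩) := by
        refine congrArg (residue _) (Subtype.ext ?_)
        exact (map_div₀ (algebraMap F K) _ _).symm
      rw [h3]
      exact Subalgebra.algebraMap_mem _ _
    · intro c hb
      exact Algebra.subset_adjoin ⟨c, rfl⟩
    · intro a b ha hb iha ihb hab
      have ha' := LocalSubring.le_ofPrime _ Q' ha
      have hb' := LocalSubring.le_ofPrime _ Q' hb
      have h3 : residue _ (⟨a + b, hab⟩ : (LocalSubring.ofPrime _ Q').toSubring) =
          residue _ ⟨a, ha'⟩ + residue _ ⟨b, hb'⟩ := by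
        rw [← map_add]
        rfl
      rw [h3]
      exact Subalgebra.add_mem _ (iha ha') (ihb hb')
    · intro a b ha hb iha ihb hab
      have ha' := LocalSubring.le_ofPrime _ Q' ha
      have hb' := LocalSubring.le_ofPrime _ Q' hb
      have h3 : residue _ (⟨a * b, hab⟩ : (LocalSubring.ofPrime _ Q').toSubring) =
          residue _ ⟨a, ha'⟩ * residue _ ⟨b, hb'⟩ := by
        rw [← map_mul]
        rfl
      rw [h3]
      exact Subalgebra.mul_mem _ (iha ha') (ihb hb')
  obtain ⟨a, s, ha, hs, hu, hz⟩ := Kap_frac _ Q' z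
  have h4 := hA a a.2 ha
  have h5 := hA s s.2 hs
  rw [← halg] at h4 h5 ⊢
  have h6 : residue _ z = residue _ ⟨(a : K), ha⟩ / residue _ ⟨(s : K), hs⟩ := by
    rw [← hz, map_mul]
    have h7 : residue _ (⟨(s : K), hs⟩ : (LocalSubring.ofPrime _ Q').toSubring) ≠ 0 := by
      rw [residue_ne_zero_iff_isUnit]
      exact hu
    rw [mul_div_cancel_right₀ _ h7]
  rw [h6]
  exact IntermediateField.div_mem _ h4 h5

/-- D4: the residue fields. -/
theorem kap_bc (h : BC k k' F K) (hx : Var k d x) {e : ℕ} {P' : LocalSubring K}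
    (hP' : P' ∈ Pts k' (fun i => algebraMap F K (x i)) e)
    (h1 : ∀ c : k, algebraMap k F c ∈ (dn (algebraMap F K) P').toSubring)
    (h2 : ∀ c : k', algebraMap k' K c ∈ P'.toSubring) :
    @BC k k' (Kap (dn (algebraMap F K) P')) (Kap P') _ _ _ _ _ (conK k _ h1).toAlgebra
      (conK k' _ h2).toAlgebra (kmap (algebraMap F K) P').toAlgebra := by
  let _ : Algebra (Kap (dn (algebraMap F K) P')) (Kap P') := (kmap (algebraMap F K) P').toAlgebra
  let _ : Algebra k (Kap (dn (algebraMap F K) P')) := (conK k _ h1).toAlgebra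
  let _ : Algebra k' (Kap P') := (conK k' _ h2).toAlgebra
  refine @BC.mk k k' (Kap (dn (algebraMap F K) P')) (Kap P') _ _ _ _ _ (conK k _ h1).toAlgebra
      (conK k' _ h2).toAlgebra (kmap (algebraMap F K) P').toAlgebra h.sep (fun c => ?_) fun u => ?_
  · refine congrArg (residue _) (Subtype.ext ?_)
    exact h.comm c
  · exact Kap_gen h hP' h2 u

/-- D4: the residue fields. -/
theorem kap_alg (h : BC k k' F K) (hx : Var k d x) {e : ℕ} {P' : LocalSubring K}
    (hP' : P' ∈ Pts k' (fun i => algebraMap F K (x i)) e) :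
    @Algebra.IsAlgebraic (Kap (dn (algebraMap F K) P')) (Kap P') _ _
      (kmap (algebraMap F K) P').toAlgebra := by
  let _ : Algebra (Kap (dn (algebraMap F K) P')) (Kap P') := (kmap (algebraMap F K) P').toAlgebra
  let _ : Algebra k (Kap (dn (algebraMap F K) P')) := (conK k _ (Kap_mem' h hP')).toAlgebra
  let _ : Algebra k' (Kap P') := (conK k' _ (Kap_mem hP')).toAlgebra
  have h3 : BC k k' (Kap (dn (algebraMap F K) P')) (Kap P') := kap_bc h hx hP' (Kap_mem' h hP') (Kap_mem hP')
  have := h3.sep
  exact Kap_isAlgebraic (k := k) (k' := k') h3.comm h3.gen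

/-- D4: the residue fields. -/
theorem kap_gal [IsAlgClosed k'] (h : BC k k' F K) (hx : Var k d x) {e : ℕ} {P' : LocalSubring K}
    (hP' : P' ∈ Pts k' (fun i => algebraMap F K (x i)) e) :
    @IsGalois (Kap (dn (algebraMap F K) P')) _ (Kap P') _
      (kmap (algebraMap F K) P').toAlgebra := by
  let _ : Algebra (Kap (dn (algebraMap F K) P')) (Kap P') := (kmap (algebraMap F K) P').toAlgebra
  let _ : Algebra k (Kap (dn (algebraMap F K) P')) := (conK k _ (Kap_mem' h hP')).toAlgebra
  let _ : Algebra k' (Kap P') := (conK k' _ (Kap_mem hP')).toAlgebra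
  have h3 : BC k k' (Kap (dn (algebraMap F K) P')) (Kap P') := kap_bc h hx hP' (Kap_mem' h hP') (Kap_mem hP')
  have := h3.sep
  exact Kap_isGalois (k := k) (k' := k') h3.comm h3.gen

end

end Pool.Agent.Lib.MP_b197b4_ntKE
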