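import Mathlib
import Pool.Agent.Lib.MP_b197b4_ntKE.Kap
import Pool.Agent.Lib.MP_b197b4_ntKD.Fib

/-!
# MP_b197b4_nt, project K1-ALL-DESC, leaf D11: discrete valuation rings
-/

set_option autoImplicit false

namespace Pool.Agent.Lib.MP_b197b4_ntKE

open IsLocalRing Pool.Agent.Lib.MP_b197b4_ntK Pool.Agent.Lib.MP_b197b4_ntA
  Pool.Agent.Lib.MP_b197b4_ntKD

section

variable {L M : Type} [Field L] [Field M]

/-- a discrete valuation ring of an algebraic extension does not contain the smaller field -/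
theorem Dv_pos (φ : L →+* M) (halg : ∀ z : M, ∃ p : Polynomial L, p.Monic ∧ p.eval₂ φ z = 0)
    (V : ValuationSubring M) (hV : IsDiscreteValuationRing V) : ∃ π : L, π ≠ 0 ∧ 0 < ord V (φ π) := by
  by_contra hcon
  push Not at hcon
  have h0 : ∀ x : L, x ≠ 0 → ord V (φ x) = 0 := by
    intro x hx
    have h1 := hcon x hx
    have h2 := hcon x⁻¹ (inv_ne_zero hx)
    rw [map_inv₀, ord_inv ((map_ne_zero φ).mpr hx)] at h2
    omega
  have hmem : ∀ x : L, φ x ∈ V := by
    intro x
    by_cases hx : x = 0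
    · rw [hx, map_zero]
      exact V.zero_mem
    · rw [mem_iff_ord ((map_ne_zero φ).mpr hx), h0 x hx]
  have htop : ∀ z : M, z ∈ V := by
    intro z
    obtain ⟨p, hp, hz⟩ := halg z
    have h1 : IsIntegral V z := by
      refine ⟨p.map (φ.codRestrict V hmem), hp.map _, ?_⟩
      rw [Polynomial.eval₂_map]
      exact hz
    obtain ⟨y, hy⟩ := IsIntegrallyClosed.isIntegral_iff.1 h1
    rw [← hy]
    exact y.2
  obtain ⟨π, hπ⟩ := IsDiscreteValuationRing.exists_irreducible V
  have h2 := ord_irr hπ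
  have h3 := (mem_iff_ord (V := V) (inv_ne_zero (coe_ne hπ))).1 (htop _)
  rw [ord_inv (coe_ne hπ), h2] at h3
  omega

/-- the restriction of a discrete valuation ring is one if it is not trivial -/
theorem Dv_dvr (φ : L →+* M) (V : ValuationSubring M) (hV : IsDiscreteValuationRing V)
    (hex : ∃ π : L, π ≠ 0 ∧ 0 < ord V (φ π)) : IsDiscreteValuationRing (V.comap φ) := by
  classical
  have hφ : ∀ {x : L}, x ≠ 0 → φ x ≠ 0 := fun hx => (map_ne_zero φ).mpr hx
  have hex' : ∃ n : ℕ, ∃ π : L, π ≠ 0 ∧ ord V (φ π) = n + 1 := by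
    obtain ⟨π, hπ0, hπ⟩ := hex
    obtain ⟨n, hn⟩ := Int.eq_ofNat_of_zero_le hπ.le
    exact ⟨n - 1, π, hπ0, by omega⟩
  obtain ⟨π, hπ0, hπ⟩ := Nat.find_spec hex'
  obtain ⟨e, he⟩ : ∃ e : ℤ, e = (Nat.find hex' : ℤ) + 1 := ⟨_, rfl⟩
  have hmin : ∀ x : L, x ≠ 0 → 0 < ord V (φ x) → e ≤ ord V (φ x) := by
    intro x hx hpos
    by_contra hlt
    push Not at hlt
    obtain ⟨n, hn⟩ := Int.eq_ofNat_of_zero_le hpos.le
    refine Nat.find_min hex' (m := n - 1) (by omega) ⟨x, hx, by omega⟩
  rw [← he] at hπ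
  have hepos : 0 < e := by omega
  have hdiv : ∀ x : L, x ≠ 0 → ∃ q : ℤ, ord V (φ x) = q * e := by
    intro x hx
    refine ⟨ord V (φ x) / e, ?_⟩
    have h1 := Int.emod_add_mul_ediv (ord V (φ x)) e
    have h2 := Int.emod_nonneg (ord V (φ x)) hepos.ne'
    have h3 := Int.emod_lt_of_pos (ord V (φ x)) hepos
    have h4 : ord V (φ (x / π ^ (ord V (φ x) / e))) = ord V (φ x) % e := by
      rw [map_div₀, map_zpow₀, ord_div (hφ hx) (zpow_ne_zero _ (hφ hπ0)), ord_zpow (hφ hπ0), hπ]
      linarith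
    have h5 : ord V (φ x) % e = 0 := by
      by_contra h6
      have h7 := hmin (x / π ^ (ord V (φ x) / e)) (div_ne_zero hx (zpow_ne_zero _ hπ0)) (by
        rw [h4]
        omega)
      rw [h4] at h7
      omega
    rw [h5] at h1
    linarith
  have hunit : ∀ (x : L) (q : ℤ), x ≠ 0 → ord V (φ x) = q * e →
      V.valuation (φ (x / π ^ q)) = 1 := by
    intro x q hx hq
    rw [← ord_eq_zero_iff (hφ (div_ne_zero hx (zpow_ne_zero _ hπ0))), map_div₀, map_zpow₀,
      ord_div (hφ hx) (zpow_ne_zero _ (hφ hπ0)), ord_zpow (hφ hπ0), hπ, hq]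
    ring
  have hunit' : ∀ (x : L) (q : ℤ), x ≠ 0 → ord V (φ x) = q * e →
      (V.comap φ).valuation (x / π ^ q) = 1 := fun x q hx hq =>
    (comap_eq_one φ V _).mpr (hunit x q hx hq)
  have hπV : π ∈ V.comap φ := by
    rw [ValuationSubring.mem_comap, mem_iff_ord (hφ hπ0), hπ]
    exact hepos.le
  have hirr : Irreducible (⟨π, hπV⟩ : V.comap φ) := by
    constructor
    · intro hu
      have h1 := (ValuationSubring.valuation_eq_one_iff _ _).mp hu
      have h2 := (comap_eq_one φ V _).mp h1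
      have h3 := (ord_eq_zero_iff (V := V) (hφ hπ0)).mpr h2
      omega
    · intro a b hab
      have hab' : π = (a : L) * (b : L) := congrArg (Subtype.val : V.comap φ → L) hab
      have ha0 : (a : L) ≠ 0 := by
        intro h0
        rw [h0, zero_mul] at hab'
        exact hπ0 hab'
      have hb0 : (b : L) ≠ 0 := by
        intro h0
        rw [h0, mul_zero] at hab'
        exact hπ0 hab'
      have h1 : ord V (φ a) + ord V (φ b) = e := by
        rw [← ord_mul (hφ ha0) (hφ hb0), ← map_mul, ← hab', hπ]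
      have h2 : 0 ≤ ord V (φ a) := (mem_iff_ord (hφ ha0)).mp a.2
      have h3 : 0 ≤ ord V (φ b) := (mem_iff_ord (hφ hb0)).mp b.2
      have h4 : ord V (φ a) = 0 ∨ ord V (φ b) = 0 := by
        by_cases h5 : 0 < ord V (φ a)
        · right
          have := hmin _ ha0 h5
          omega
        · left
          omega
      rcases h4 with h4 | h4
      · left
        exact (ValuationSubring.valuation_eq_one_iff _ _).mpr
          ((comap_eq_one φ V _).mpr ((ord_eq_zero_iff (hφ ha0)).mp h4))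
      · right
        exact (ValuationSubring.valuation_eq_one_iff _ _).mpr
          ((comap_eq_one φ V _).mpr ((ord_eq_zero_iff (hφ hb0)).mp h4))
  apply IsDiscreteValuationRing.ofHasUnitMulPowIrreducibleFactorization
  refine ⟨⟨π, hπV⟩, hirr, ?_⟩
  intro x hx
  have hx0 : (x : L) ≠ 0 := fun h0 => hx (Subtype.ext h0)
  have h1 : 0 ≤ ord V (φ x) := (mem_iff_ord (hφ hx0)).mp x.2
  obtain ⟨q, hq⟩ := hdiv _ hx0
  have hq0 : 0 ≤ q := by
    by_contra hneg
    push Not at hneg
    have := mul_neg_of_neg_of_pos hneg hepos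
    omega
  obtain ⟨n, rfl⟩ := Int.eq_ofNat_of_zero_le hq0
  have h2 := hunit' _ _ hx0 hq
  rw [zpow_natCast] at h2
  obtain ⟨u, hu⟩ := (ValuationSubring.valuation_eq_one_iff (V.comap φ)
    ⟨_, mem_of_val h2⟩).mpr h2
  refine ⟨n, u, Subtype.ext ?_⟩
  push_cast
  rw [hu]
  change π ^ n * ((x : L) / π ^ n) = x
  field_simp

end

section

variable {k k' F K : Type} [Field k] [Field k'] [Field F] [Field K] [Algebra k k'] [Algebra k F]
  [Algebra k' K] [Algebra F K] {n d : ℕ} {x : Fin (n + 1) → F}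

omit [Algebra F K] in
/-- The centre of the trace. -/
theorem Dv_cen (ι : F →+* K) {S' P' : LocalSubring K} {V' : ValuationSubring (Kap S')}
    (hc : Cen P' S' V') : Cen (dn ι P') (dn ι S') (V'.comap (kmap ι S')) := by
  refine ⟨fun y hy => hc.1 hy, fun y hP hS => ?_⟩
  obtain ⟨h1, h2⟩ := hc.2 (ι y) hP hS
  refine ⟨h1, ?_⟩
  rw [isUnit_dn ι P' y hP hP, h2, comap_eq_one, kmap_residue ι S' y hS hS]

/-- D11: discrete valuation rings. -/
theorem dv_down (h : BC k k' F K) (hx : Var k d x) {S' P' : LocalSubring K} {e : ℕ}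
    (hS' : S' ∈ Pts k' (fun i => algebraMap F K (x i)) e)
    {V' : ValuationSubring (Kap S')} (hV' : IsDiscreteValuationRing V') (hc : Cen P' S' V')
    (hk : ∀ c : k', algebraMap k' K c ∈ P'.toSubring) :
    IsDiscreteValuationRing (V'.comap (kmap (algebraMap F K) S')) ∧
      Cen (dn (algebraMap F K) P') (dn (algebraMap F K) S') (V'.comap (kmap (algebraMap F K) S')) ∧
      ∀ y : Kap (dn (algebraMap F K) S'), y ≠ 0 →
        ord V' (kmap (algebraMap F K) S' y) = ord (V'.comap (kmap (algebraMap F K) S')) y := by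
  have hdvr : IsDiscreteValuationRing (V'.comap (kmap (algebraMap F K) S')) := by
    refine Dv_dvr _ _ hV' (Dv_pos _ (fun z => ?_) _ hV')
    let _ : Algebra (Kap (dn (algebraMap F K) S')) (Kap S') := (kmap (algebraMap F K) S').toAlgebra
    have halg : Algebra.IsAlgebraic (Kap (dn (algebraMap F K) S')) (Kap S') := kap_alg h hx hS'
    exact (Algebra.IsAlgebraic.isAlgebraic z).isIntegral
  refine ⟨hdvr, Dv_cen _ hc, ?_⟩
  let _ : Algebra (Kap (dn (algebraMap F K) S')) (Kap S') := (kmap (algebraMap F K) S').toAlgebra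
  let _ : Algebra k (Kap (dn (algebraMap F K) S')) := (conK k _ (Kap_mem' h hS')).toAlgebra
  let _ : Algebra k' (Kap S') := (conK k' _ (Kap_mem hS')).toAlgebra
  have h3 : BC k k' (Kap (dn (algebraMap F K) S')) (Kap S') :=
    kap_bc h hx hS' (Kap_mem' h hS') (Kap_mem hS')
  refine (h3.dvr V' (fun c => ?_) hdvr).2
  have h4 := (hc.2 (algebraMap k' K (algebraMap k k' c)) (hk _) (Kap_mem hS' _)).1
  rw [← h3.comm]
  exact h4

end

end Pool.Agent.Lib.MP_b197b4_ntKE
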