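import Pool.Agent.Lib.MP_b197b4_ntKE.Defs
import Pool.Agent.Lib.MP_b197b4_ntA.XSrf

/-!
# MP_b197b4_nt, project K1-ALL-DESC: finiteness of the curves on a surface where a function has a
zero or a pole
-/

set_option autoImplicit false

namespace Pool.Agent.Lib.MP_b197b4_ntKE

open IsLocalRing Pool.Agent.Lib.MP_b197b4_ntK Pool.Agent.Lib.MP_b197b4_ntA
  Pool.Agent.Lib.MP_b197b4_ntKD

section

variable {k F : Type} [Field k] [Field F] [Algebra k F]

/-- The residue field of a point of dimension `e` is a function field of `e` variables. -/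
theorem fs_kap (A : Subalgebra k F) (hA : A.FG) (P : Ideal A.toSubring) [hP : P.IsPrime] {e : ℕ}
    (hd : ringKrullDim (A.toSubring ⧸ P) = e)
    (iE : Algebra k (Kap (LocalSubring.ofPrime A.toSubring P)))
    (hiE : ∀ (c : k) (hc : algebraMap k F c ∈ (LocalSubring.ofPrime A.toSubring P).toSubring),
      algebraMap k (Kap (LocalSubring.ofPrime A.toSubring P)) c = residue _ ⟨_, hc⟩) :
    FunF k (Kap (LocalSubring.ofPrime A.toSubring P)) e ∧
      ∃ φ : A →ₐ[k] Kap (LocalSubring.ofPrime A.toSubring P),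
        ∀ a : A, φ a = residue _ ⟨a, LocalSubring.le_ofPrime A.toSubring P a.2⟩ := by
  obtain ⟨φ, hφ⟩ : ∃ φ : A →ₐ[k] Kap (LocalSubring.ofPrime A.toSubring P),
      ∀ a : A, φ a = residue _ ⟨a, LocalSubring.le_ofPrime A.toSubring P a.2⟩ := by
    refine ⟨{ toRingHom := (residue _).comp (Subring.inclusion
                (LocalSubring.le_ofPrime A.toSubring P))
              commutes' := fun c => ?_ }, fun a => rfl⟩
    exact (hiE c _).symm
  have hker : ∀ a : A, φ a = 0 ↔ (a : A.toSubring) ∈ P := by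
    intro a
    rw [hφ]
    have h1 := xcen_unit A.toSubring P (a : A.toSubring)
    have h2 : residue (LocalSubring.ofPrime A.toSubring P).toSubring
        ⟨(a : F), LocalSubring.le_ofPrime A.toSubring P a.2⟩ ≠ 0 ↔ (a : A.toSubring) ∉ P :=
      (residue_ne_zero_iff_isUnit _).trans h1
    rw [not_iff_not.symm]
    exact h2
  have hfrac : ∀ z : Kap (LocalSubring.ofPrime A.toSubring P), ∃ a b : A, φ b ≠ 0 ∧
      z = φ a / φ b := by
    intro z
    obtain ⟨⟨y, hy⟩, rfl⟩ := residue_surjective z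
    obtain ⟨a, s, hs, hya⟩ := (xcen_mem A.toSubring P y).mp hy
    have hs' : φ s ≠ 0 := fun h0 => hs ((hker s).mp h0)
    refine ⟨a, s, hs', ?_⟩
    rw [eq_div_iff hs', hφ, hφ, ← map_mul]
    congr 1
    apply Subtype.ext
    change y * (s : F) = (a : F)
    rw [hya, div_mul_cancel₀ _ (xcen_ne A.toSubring P hs)]
  refine ⟨⟨?_, ?_⟩, φ, hφ⟩
  · obtain ⟨S, hS⟩ := xiso_fg φ hA
    refine ⟨S, ?_⟩
    rw [eq_top_iff]
    intro z _
    have h1 : ∀ a : A, φ a ∈ IntermediateField.adjoin k
        (S : Set (Kap (LocalSubring.ofPrime A.toSubring P))) := by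
      intro a
      have h2 : φ a ∈ Algebra.adjoin k (S : Set (Kap (LocalSubring.ofPrime A.toSubring P))) := by
        rw [hS]
        exact ⟨a, rfl⟩
      exact IntermediateField.algebra_adjoin_le_adjoin k _ h2
    obtain ⟨a, b, -, rfl⟩ := hfrac z
    exact div_mem (h1 a) (h1 b)
  · have h1 : Algebra.FiniteType k φ.range :=
      (Subalgebra.fg_iff_finiteType _).mp (xiso_fg φ hA)
    have hno : IsNoetherianRing φ.range := Algebra.FiniteType.isNoetherianRing k _
    have hfr := xiso_frac φ hfrac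
    obtain ⟨s, hs⟩ := Pool.Agent.Lib.MP_b197b4_ntD.exists_hasDim k φ.range
    have h2 := hs.trdeg_frac (Kap (LocalSubring.ofPrime A.toSubring P))
    have h3 := hs.ringKrullDim
    have h4 : P = RingHom.ker (φ.rangeRestrict : A →+* φ.range) := by
      ext a
      rw [RingHom.mem_ker]
      exact (hker a).symm.trans ⟨fun h => Subtype.ext h, fun h => congrArg Subtype.val h⟩
    have h5 : ringKrullDim (A.toSubring ⧸ P) = ringKrullDim φ.range :=
      ringKrullDim_eq_of_ringEquiv ((Ideal.quotEquivOfEq h4).trans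
        (RingHom.quotientKerEquivOfSurjective (f := (φ.rangeRestrict : A →+* φ.range))
          φ.rangeRestrict_surjective))
    rw [hd, h3] at h5
    have h6 : e = s := by exact_mod_cast h5
    rw [h2, h6]

end

/-- D12: finiteness over an algebraically closed field. -/
theorem fin_bd {k F : Type} [Field k] [IsAlgClosed k] [Field F] [Algebra k F] {n d : ℕ}
    {x : Fin (n + 1) → F} (hx : Var k d x) {S : LocalSubring F} (hS : S ∈ Pts k x 2) {f : Kap S}
    (hf : f ≠ 0) : {V : ValuationSubring (Kap S) | IsDiscreteValuationRing V ∧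
      (∃ P ∈ Pts k x 1, Cen P S V) ∧ ord V f ≠ 0}.Finite := by
  obtain ⟨i, P, hP, hd, rfl⟩ := hS
  have hc : ∀ c : k, algebraMap k F c ∈
      (LocalSubring.ofPrime (cht k x i).toSubring P).toSubring := fun c =>
    LocalSubring.le_ofPrime _ P (Subalgebra.algebraMap_mem _ c)
  let iE : Algebra k (Kap (LocalSubring.ofPrime (cht k x i).toSubring P)) :=
    (conK k _ hc).toAlgebra
  obtain ⟨hE, φ, hφ⟩ := fs_kap (cht k x i) (Subalgebra.fg_def.mpr ⟨_, Set.finite_range _, rfl⟩) P
    hd iE (fun c hc => rfl)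
  have hDat : Dat x i φ (LocalSubring.ofPrime (cht k x i).toSubring P) (RingEquiv.refl _) :=
    ⟨hx.ne, fun a ha => LocalSubring.le_ofPrime _ P ha, fun a ha => (hφ a).symm⟩
  exact hDat.finite hE hf

end Pool.Agent.Lib.MP_b197b4_ntKE
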