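import Mathlib
import Pool.Agent.Lib.MP_b197b4_ntKD.Dc

/-!
# MP_b197b4_nt, project K1-ALL-DESC: D14, first half: field theory
-/

set_option autoImplicit false

namespace Pool.Agent.Lib.MP_b197b4_ntKE

open IsLocalRing Pool.Agent.Lib.MP_b197b4_ntK Pool.Agent.Lib.MP_b197b4_ntKD

/-- Descent of a symbol along an algebraic Galois extension. -/
theorem gd0_core {κ κ' : Type} [Field κ] [Field κ'] [Algebra κ κ'] [IsGalois κ κ'] {f g : κ'}
    (hf : f ≠ 0) (hg : g ≠ 0) :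
    ∃ (Γ : Finset (κ' ≃+* κ')) (t : List (κ × κ × ℤ)), Γ.Nonempty ∧
      (∀ τ ∈ Γ, ∀ u, τ (algebraMap κ κ' u) = algebraMap κ κ' u) ∧
      (∀ p ∈ t, p.1 ≠ 0 ∧ p.2.1 ≠ 0) ∧
      ∀ V : ValuationSubring κ', IsDiscreteValuationRing V →
        (∃ π : κ, ord V (algebraMap κ κ' π) = 1) →
        ∃ N : ℕ, 0 < N ∧ (∏ τ ∈ Γ, tame V (τ f) (τ g)) ^ N =
          ((t.map fun p => tame V (algebraMap κ κ' p.1) (algebraMap κ κ' p.2.1) ^ p.2.2).prod) ^ N := by
  classical
  let M := FiniteGaloisIntermediateField.adjoin κ ({f, g} : Set κ')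
  have hfM : f ∈ (M : IntermediateField κ κ') :=
    FiniteGaloisIntermediateField.subset_adjoin κ ({f, g} : Set κ') (by simp)
  have hgM : g ∈ (M : IntermediateField κ κ') :=
    FiniteGaloisIntermediateField.subset_adjoin κ ({f, g} : Set κ') (by simp)
  obtain ⟨f0, hf0⟩ : ∃ f0 : (M : IntermediateField κ κ'), algebraMap _ κ' f0 = f := ⟨⟨f, hfM⟩, rfl⟩
  obtain ⟨g0, hg0⟩ : ∃ g0 : (M : IntermediateField κ κ'), algebraMap _ κ' g0 = g := ⟨⟨g, hgM⟩, rfl⟩
  have hf00 : f0 ≠ 0 := by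
    rintro rfl
    exact hf (by rw [← hf0, map_zero])
  have hg00 : g0 ≠ 0 := by
    rintro rfl
    exact hg (by rw [← hg0, map_zero])
  obtain ⟨t, ht, hV⟩ := desc_gal (F := κ) (F' := (M : IntermediateField κ κ')) hf00 hg00
  let L : ((M : IntermediateField κ κ') ≃ₐ[κ] (M : IntermediateField κ κ')) → (κ' ≃+* κ') :=
    fun σ => ((σ.liftNormal κ' : κ' ≃ₐ[κ] κ') : κ' ≃+* κ')
  have hL : ∀ σ (y : (M : IntermediateField κ κ')), L σ (algebraMap _ κ' y) = algebraMap _ κ' (σ y) :=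
    fun σ y => AlgEquiv.liftNormal_commutes σ κ' y
  have hLinj : Function.Injective L := by
    intro σ σ' h
    refine AlgEquiv.ext fun y => ?_
    apply (algebraMap (M : IntermediateField κ κ') κ').injective
    rw [← hL, ← hL, h]
  refine ⟨Finset.univ.image L, t, ⟨L 1, Finset.mem_image_of_mem _ (Finset.mem_univ _)⟩, ?_, ht, ?_⟩
  · intro τ hτ u
    obtain ⟨σ, -, rfl⟩ := Finset.mem_image.mp hτ
    exact AlgEquiv.commutes _ u
  · intro V hVd hπ
    obtain ⟨π, hπ⟩ := hπ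
    obtain ⟨φ, hφ⟩ : ∃ φ : (M : IntermediateField κ κ') →+* κ', φ = algebraMap _ κ' := ⟨_, rfl⟩
    have hφκ : ∀ u : κ, φ (algebraMap κ (M : IntermediateField κ κ') u) = algebraMap κ κ' u := by
      intro u
      rw [hφ]
      exact (IsScalarTower.algebraMap_apply κ (M : IntermediateField κ κ') κ' u).symm
    have h1 : ord V (φ (algebraMap κ (M : IntermediateField κ κ') π)) = 1 := by
      rw [hφκ, hπ]
    obtain ⟨hW, hord⟩ := dvr_between φ V hVd h1
    obtain ⟨N, hN, hN1⟩ := hV _ hW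
    refine ⟨N, hN, ?_⟩
    have h2 := congrArg (rmap φ V) hN1
    rw [map_pow, map_prod, map_pow, map_list_prod, List.map_map] at h2
    rw [Finset.prod_image fun σ _ σ' _ h => hLinj h]
    have hne : ∀ (σ : (M : IntermediateField κ κ') ≃ₐ[κ] (M : IntermediateField κ κ')) {y}, y ≠ 0 →
        σ y ≠ 0 := fun σ y hy => by rwa [ne_eq, map_eq_zero]
    have h3 : ∀ σ : (M : IntermediateField κ κ') ≃ₐ[κ] (M : IntermediateField κ κ'),
        rmap φ V (tame (V.comap φ) (σ f0) (σ g0)) = tame V (L σ f) (L σ g) := by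
      intro σ
      rw [rmap_tame φ V hord (hne σ hf00) (hne σ hg00), hφ, ← hL, ← hL, hf0, hg0]
    rw [Finset.prod_congr rfl fun σ _ => h3 σ] at h2
    rw [h2]
    congr 2
    refine List.map_congr_left fun p hp => ?_
    rw [Function.comp_apply, map_zpow₀, rmap_tame φ V hord
      (by rw [ne_eq, map_eq_zero]; exact (ht p hp).1) (by rw [ne_eq, map_eq_zero]; exact (ht p hp).2),
      hφκ, hφκ]

end Pool.Agent.Lib.MP_b197b4_ntKE
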