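import Mathlib
import Pool.Agent.Lib.MP_b197b4_ntA.XNrm
import Pool.Agent.Lib.MP_b197b4_ntKD.Dc
import Pool.Agent.Lib.MP_b197b4_ntKE.Defs
import Pool.Agent.Lib.MP_b197b4_ntKE.Var
import Pool.Agent.Lib.MP_b197b4_ntKE.Kap
import Pool.Agent.Lib.MP_b197b4_ntKE.Dv
import Pool.Agent.Lib.MP_b197b4_ntKE.Fs
import Pool.Agent.Lib.MP_b197b4_ntKE.Gd0

/-!
# MP_b197b4_nt, project K1-ALL-DESC, D14: Galois descent of symbols on a surface
-/

set_option autoImplicit false

namespace Pool.Agent.Lib.MP_b197b4_ntKE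

open IsLocalRing Pool.Agent.Lib.MP_b197b4_ntK Pool.Agent.Lib.MP_b197b4_ntA
  Pool.Agent.Lib.MP_b197b4_ntKD

/-- The value of a form at the boundary of a symbol. -/
theorem Gd_bd {F : Type} [Field F] {S P : LocalSubring F} {f g : Kap S} (hf : f ≠ 0) (hg : g ≠ 0)
    (l : Kap P → ℚ) (hl : ∀ a b : Kap P, a ≠ 0 → b ≠ 0 → l (a * b) = l a + l b)
    (T : Finset (ValuationSubring (Kap S)))
    (h1 : ∀ V ∈ T, IsDiscreteValuationRing V ∧ Cen P S V)
    (h2 : ∀ V : ValuationSubring (Kap S), IsDiscreteValuationRing V → Cen P S V → V ∉ T →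
      ord V f = 0 ∧ ord V g = 0) :
    l (bd ⟨S, f, g⟩ P) = ∑ V ∈ T, l (nrm P S V (tame V f g)) := by
  classical
  have h3 : bd ⟨S, f, g⟩ P = ∏ V ∈ T, nrm P S V (tame V f g) := by
    refine finprod_mem_eq_prod_of_inter_mulSupport_eq
      (s := {V : ValuationSubring (Kap S) | IsDiscreteValuationRing V ∧ Cen P S V})
      (fun V => nrm P S V (tame V f g)) ?_
    ext V
    constructor
    · rintro ⟨h3, h4⟩
      refine ⟨?_, h4⟩
      by_contra h5
      apply h4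
      obtain ⟨h6, h7⟩ := h2 V h3.1 h3.2 h5
      show nrm P S V (tame V f g) = 1
      rw [tame_eq_one_of_ord h6 h7, nrm_one]
    · rintro ⟨h3, h4⟩
      exact ⟨h1 V h3, h4⟩
  rw [h3]
  refine form_prod hl T _ fun V hV => ?_
  have := (h1 V hV).1
  exact nrm_ne P S V (tame_ne hf hg)

theorem Gd_sum_list {α β : Type*} (T : Finset β) (t : List α) (G : α → β → ℚ) :
    (t.map fun p => ∑ V ∈ T, G p V).sum = ∑ V ∈ T, (t.map fun p => G p V).sum := by
  induction t with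
  | nil => simp
  | cons a t ih => simp [ih, Finset.sum_add_distrib]

theorem Gd_form_list {κ : Type*} [Field κ] {l : κ → ℚ}
    (hl : ∀ a b : κ, a ≠ 0 → b ≠ 0 → l (a * b) = l a + l b) {α : Type*} (t : List α) (c : α → κ)
    (e : α → ℤ) (hc : ∀ p ∈ t, c p ≠ 0) :
    (t.map fun p => c p ^ e p).prod ≠ 0 ∧
      l (t.map fun p => c p ^ e p).prod = (t.map fun p => (e p : ℚ) * l (c p)).sum := by
  induction t with
  | nil => simpa using form_one hl
  | cons a t ih =>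
    obtain ⟨h1, h2⟩ := ih fun p hp => hc p (List.mem_cons_of_mem _ hp)
    have h3 : c a ≠ 0 := hc a List.mem_cons_self
    rw [List.map_cons, List.prod_cons, List.map_cons, List.sum_cons]
    refine ⟨mul_ne_zero (zpow_ne_zero _ h3) h1, ?_⟩
    rw [hl _ _ (zpow_ne_zero _ h3) h1, form_zpow hl h3, h2]

section

variable {k k' F K : Type} [Field k] [Field k'] [Field F] [Field K] [Algebra k k'] [Algebra k F]
  [Algebra k' K] [Algebra F K] {n d : ℕ} {x : Fin (n + 1) → F}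

/-- D14 (Gd.lean): Galois descent of symbols on a surface. -/
theorem gal_desc [IsAlgClosed k'] (h : BC k k' F K) (hx : Var k d x) {S' : LocalSubring K}
    (hS' : S' ∈ Pts k' (fun i => algebraMap F K (x i)) 2) {f g : Kap S'} (hf : f ≠ 0) (hg : g ≠ 0) :
    ∃ (Γ : Finset (Kap S' ≃+* Kap S')) (t : List (Kap (dn (algebraMap F K) S') ×
        Kap (dn (algebraMap F K) S') × ℤ)), Γ.Nonempty ∧
      (∀ τ ∈ Γ, ∀ u, τ (kmap (algebraMap F K) S' u) = kmap (algebraMap F K) S' u) ∧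
      (∀ p ∈ t, p.1 ≠ 0 ∧ p.2.1 ≠ 0) ∧
      ∀ P' ∈ Pts k' (fun i => algebraMap F K (x i)) 1, ∀ l' : Kap P' → ℚ,
        (∀ a b, a ≠ 0 → b ≠ 0 → l' (a * b) = l' a + l' b) →
        ∑ τ ∈ Γ, l' (bd ⟨S', τ f, τ g⟩ P') =
          (t.map fun p => (p.2.2 : ℚ) * l' (bd ⟨S', kmap (algebraMap F K) S' p.1,
            kmap (algebraMap F K) S' p.2.1⟩ P')).sum := by
  classical
  let _ : Algebra (Kap (dn (algebraMap F K) S')) (Kap S') := (kmap (algebraMap F K) S').toAlgebra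
  have : IsGalois (Kap (dn (algebraMap F K) S')) (Kap S') := kap_gal h hx hS'
  obtain ⟨Γ, t, hΓ, hfix, ht, hV⟩ := gd0_core (κ := Kap (dn (algebraMap F K) S')) (κ' := Kap S') hf hg
  refine ⟨Γ, t, hΓ, hfix, ht, fun P' hP' l' hl' => ?_⟩
  have hx' : Var k' d (fun i => algebraMap F K (x i)) := var_up h hx
  have hk : ∀ c : k', algebraMap k' K c ∈ P'.toSubring := by
    intro c
    obtain ⟨i, Q, hQ, -, rfl⟩ := hP'
    exact LocalSubring.le_ofPrime _ Q ((cht k' (fun i => algebraMap F K (x i)) i).algebraMap_mem c)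
  have hk0 : ∀ u : Kap (dn (algebraMap F K) S'), u ≠ 0 → kmap (algebraMap F K) S' u ≠ 0 :=
    fun u hu => (map_ne_zero _).mpr hu
  -- the functions
  let C : Finset (Kap S') := (Γ.image (fun τ => τ f) ∪ Γ.image (fun τ => τ g)) ∪
    ((t.map fun p => kmap (algebraMap F K) S' p.1).toFinset ∪
      (t.map fun p => kmap (algebraMap F K) S' p.2.1).toFinset)
  have hC0 : ∀ c ∈ C, c ≠ 0 := by
    intro c hc
    simp only [C, Finset.mem_union, Finset.mem_image, List.mem_toFinset, List.mem_map] at hc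
    obtain (⟨τ, -, rfl⟩ | ⟨τ, -, rfl⟩) | (⟨p, hp, rfl⟩ | ⟨p, hp, rfl⟩) := hc
    · exact (map_ne_zero _).mpr hf
    · exact (map_ne_zero _).mpr hg
    · exact hk0 _ (ht p hp).1
    · exact hk0 _ (ht p hp).2
  have hfin : {V : ValuationSubring (Kap S') | (IsDiscreteValuationRing V ∧ Cen P' S' V) ∧
      ∃ c ∈ C, ord V c ≠ 0}.Finite := by
    refine (C.finite_toSet.biUnion (t := fun c => {V : ValuationSubring (Kap S') |
      IsDiscreteValuationRing V ∧ (∃ P ∈ Pts k' (fun i => algebraMap F K (x i)) 1, Cen P S' V) ∧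
        ord V c ≠ 0}) fun c hc => fin_bd hx' hS' (hC0 c hc)).subset ?_
    rintro V ⟨⟨h1, h2⟩, c, hc, h3⟩
    exact Set.mem_biUnion (x := c) hc ⟨h1, ⟨P', hP', h2⟩, h3⟩
  have h1 : ∀ V ∈ hfin.toFinset, IsDiscreteValuationRing V ∧ Cen P' S' V := fun V hV =>
    ((Set.Finite.mem_toFinset hfin).1 hV).1
  have h2 : ∀ c ∈ C, ∀ V : ValuationSubring (Kap S'), IsDiscreteValuationRing V → Cen P' S' V →
      V ∉ hfin.toFinset → ord V c = 0 := by
    intro c hc V h3 h4 h5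
    by_contra h6
    exact h5 ((Set.Finite.mem_toFinset hfin).2 ⟨⟨h3, h4⟩, c, hc, h6⟩)
  have hbd : ∀ f' ∈ C, ∀ g' ∈ C, l' (bd ⟨S', f', g'⟩ P') =
      ∑ V ∈ hfin.toFinset, l' (nrm P' S' V (tame V f' g')) := fun f' hf' g' hg' =>
    Gd_bd (hC0 f' hf') (hC0 g' hg') l' hl' hfin.toFinset h1
      fun V h3 h4 h5 => ⟨h2 f' hf' V h3 h4 h5, h2 g' hg' V h3 h4 h5⟩
  have hL : ∑ τ ∈ Γ, l' (bd ⟨S', τ f, τ g⟩ P') =
      ∑ V ∈ hfin.toFinset, ∑ τ ∈ Γ, l' (nrm P' S' V (tame V (τ f) (τ g))) := by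
    rw [Finset.sum_comm]
    refine Finset.sum_congr rfl fun τ hτ => hbd _ ?_ _ ?_
    · exact Finset.mem_union_left _ (Finset.mem_union_left _ (Finset.mem_image_of_mem _ hτ))
    · exact Finset.mem_union_left _ (Finset.mem_union_right _ (Finset.mem_image_of_mem _ hτ))
  have hR : (t.map fun p => (p.2.2 : ℚ) * l' (bd ⟨S', kmap (algebraMap F K) S' p.1,
      kmap (algebraMap F K) S' p.2.1⟩ P')).sum = ∑ V ∈ hfin.toFinset,
        (t.map fun p => (p.2.2 : ℚ) * l' (nrm P' S' V (tame V (kmap (algebraMap F K) S' p.1)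
          (kmap (algebraMap F K) S' p.2.1)))).sum := by
    rw [← Gd_sum_list]
    congr 1
    refine List.map_congr_left fun p hp => ?_
    rw [hbd _ ?_ _ ?_, Finset.mul_sum]
    · exact Finset.mem_union_right _ (Finset.mem_union_left _ (List.mem_toFinset.2
        (List.mem_map_of_mem hp)))
    · exact Finset.mem_union_right _ (Finset.mem_union_right _ (List.mem_toFinset.2
        (List.mem_map_of_mem hp)))
  rw [hL, hR]
  refine Finset.sum_congr rfl fun V hVT => ?_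
  obtain ⟨hdvr, hcen⟩ := h1 V hVT
  -- the form on the residue field of `V`
  have hln : ∀ a b : ResidueField V, a ≠ 0 → b ≠ 0 →
      l' (nrm P' S' V (a * b)) = l' (nrm P' S' V a) + l' (nrm P' S' V b) := by
    intro a b ha hb
    rw [nrm_mul, hl' _ _ (nrm_ne P' S' V ha) (nrm_ne P' S' V hb)]
  obtain ⟨hd1, -, hd2⟩ := dv_down h hx hS' hdvr hcen hk
  obtain ⟨π, hπ⟩ := IsDiscreteValuationRing.exists_irreducible
    (V.comap (kmap (algebraMap F K) S'))
  have hπ0 : (π : Kap (dn (algebraMap F K) S')) ≠ 0 := fun h0 => hπ.ne_zero (Subtype.ext h0)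
  obtain ⟨N, hN, hpow⟩ := hV V hdvr ⟨π, by
    have h3 := hd2 π hπ0
    have h4 : ord (V.comap (kmap (algebraMap F K) S')) (π : Kap (dn (algebraMap F K) S')) = 1 :=
      ord_irr hπ
    rw [h4] at h3
    exact h3⟩
  have hp1 : ∀ τ ∈ Γ, tame V (τ f) (τ g) ≠ 0 := fun τ _ =>
    tame_ne ((map_ne_zero _).mpr hf) ((map_ne_zero _).mpr hg)
  have hp2 : ∀ p ∈ t, tame V (kmap (algebraMap F K) S' p.1) (kmap (algebraMap F K) S' p.2.1) ≠ 0 :=
    fun p hp => tame_ne (hk0 _ (ht p hp).1) (hk0 _ (ht p hp).2)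
  obtain ⟨q1, q2⟩ := Gd_form_list (l := fun c => l' (nrm P' S' V c)) hln t
    (fun p => tame V (kmap (algebraMap F K) S' p.1) (kmap (algebraMap F K) S' p.2.1))
    (fun p => p.2.2) hp2
  have q3 := form_prod (l := fun c => l' (nrm P' S' V c)) hln Γ (fun τ => tame V (τ f) (τ g)) hp1
  rw [← q2, ← q3]
  have q4 := congrArg (fun c => l' (nrm P' S' V c)) hpow
  have q5 := form_pow (l := fun c => l' (nrm P' S' V c)) hln (Finset.prod_ne_zero_iff.mpr hp1) N
  have q6 := form_pow (l := fun c => l' (nrm P' S' V c)) hln q1 N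
  have hN' : (N : ℚ) ≠ 0 := by exact_mod_cast hN.ne'
  refine mul_left_cancel₀ hN' ?_
  rw [← q5, ← q6]
  exact q4

end

end Pool.Agent.Lib.MP_b197b4_ntKE
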