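import Mathlib
import Pool.Agent.Lib.MP_b197b4_ntKE.Gal2A

/-!
# MP_b197b4_nt, project K1-ALL-DESC: the Galois group acts on the points
-/

set_option autoImplicit false

namespace Pool.Agent.Lib.MP_b197b4_ntKE

open IsLocalRing Pool.Agent.Lib.MP_b197b4_ntK Pool.Agent.Lib.MP_b197b4_ntA
  Pool.Agent.Lib.MP_b197b4_ntKD

section

/-- Inverse image of a local ring at a prime under an automorphism which preserves the ring. -/
theorem gal1_dn {K : Type} [Field K] (σ : K ≃+* K) (B : Subring K) (h1 : ∀ b ∈ B, σ b ∈ B)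
    (h2 : ∀ b ∈ B, σ.symm b ∈ B) (Q : Ideal B) (hQ : Q.IsPrime) :
    ∃ (Q₁ : Ideal B) (_ : Q₁.IsPrime), ringKrullDim (B ⧸ Q₁) = ringKrullDim (B ⧸ Q) ∧
      dn (σ : K →+* K) (LocalSubring.ofPrime B Q) = LocalSubring.ofPrime B Q₁ := by
  obtain ⟨E, hE⟩ : ∃ E : B ≃+* B, ∀ b : B, ((E b : B) : K) = σ b :=
    ⟨{ toFun := fun b => ⟨σ b, h1 b b.2⟩
       invFun := fun b => ⟨σ.symm b, h2 b b.2⟩
       left_inv := fun b => Subtype.ext (σ.symm_apply_apply _)
       right_inv := fun b => Subtype.ext (σ.apply_symm_apply _)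
       map_mul' := fun a b => Subtype.ext (map_mul σ _ _)
       map_add' := fun a b => Subtype.ext (map_add σ _ _) }, fun _ => rfl⟩
  have hp : (Q.comap (E : B →+* B)).IsPrime := Ideal.comap_isPrime _ _
  refine ⟨Q.comap (E : B →+* B), hp, ?_, ?_⟩
  · refine ringKrullDim_eq_of_ringEquiv (Ideal.quotientEquiv _ Q E ?_)
    exact (Ideal.map_comap_of_surjective (E : B →+* B) E.surjective Q).symm
  · have hmem : ∀ s : B, s ∈ Q.comap (E : B →+* B) ↔ E s ∈ Q := fun _ => Iff.rfl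
    apply LocalSubring.toSubring_injective
    ext y
    change σ y ∈ (LocalSubring.ofPrime B Q).toSubring ↔ _
    rw [xcen_mem, xcen_mem]
    constructor
    · rintro ⟨a, s, hs, hy⟩
      refine ⟨E.symm a, E.symm s, ?_, ?_⟩
      · rw [hmem, E.apply_symm_apply]
        exact hs
      · apply σ.injective
        rw [map_div₀, ← hE, ← hE, E.apply_symm_apply, E.apply_symm_apply, hy]
    · rintro ⟨a, s, hs, hy⟩
      refine ⟨E a, E s, (hmem s).not.mp hs, ?_⟩
      rw [hE, hE, hy, map_div₀]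

variable {k k' F K : Type} [Field k] [Field k'] [Field F] [Field K] [Algebra k k'] [Algebra k F]
  [Algebra k' K] [Algebra F K] {n d : ℕ} {x : Fin (n + 1) → F}

theorem gal1_imp [IsAlgClosed k'] (h : BC k k' F K) (σ : K ≃+* K)
    (hσ : ∀ y : F, σ (algebraMap F K y) = algebraMap F K y) (e : ℕ) (P' : LocalSubring K)
    (hP : P' ∈ Pts k' (fun i => algebraMap F K (x i)) e) :
    dn (σ : K →+* K) P' ∈ Pts k' (fun i => algebraMap F K (x i)) e := by
  obtain ⟨i, Q, hQ, hQe, rfl⟩ := hP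
  have hσ' : ∀ y : F, σ.symm (algebraMap F K y) = algebraMap F K y := by
    intro y
    rw [RingEquiv.symm_apply_eq, hσ]
  obtain ⟨Q₁, hQ₁, hd, he⟩ := gal1_dn σ (cht k' (fun i => algebraMap F K (x i)) i).toSubring
    (gal2A_st h x i (AlgEquiv.ofRingEquiv (f := σ) hσ))
    (gal2A_st h x i (AlgEquiv.ofRingEquiv (f := σ.symm) hσ')) Q hQ
  exact ⟨i, Q₁, hQ₁, hd.trans hQe, he⟩

/-- D5a (Gal1.lean). -/
theorem gal_pts [IsAlgClosed k'] (h : BC k k' F K) (σ : K ≃+* K)
    (hσ : ∀ y : F, σ (algebraMap F K y) = algebraMap F K y) (e : ℕ) (P' : LocalSubring K) :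
    dn (σ : K →+* K) P' ∈ Pts k' (fun i => algebraMap F K (x i)) e ↔
      P' ∈ Pts k' (fun i => algebraMap F K (x i)) e := by
  refine ⟨fun hP => ?_, gal1_imp h σ hσ e P'⟩
  have hσ' : ∀ y : F, σ.symm (algebraMap F K y) = algebraMap F K y := by
    intro y
    rw [RingEquiv.symm_apply_eq, hσ]
  have h1 := gal1_imp h σ.symm hσ' e _ hP
  have h2 : dn (σ.symm : K →+* K) (dn (σ : K →+* K) P') = P' := by
    apply LocalSubring.toSubring_injective
    ext y
    change σ (σ.symm y) ∈ P'.toSubring ↔ _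
    rw [σ.apply_symm_apply]
  rw [h2] at h1
  exact h1

end

end Pool.Agent.Lib.MP_b197b4_ntKE
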