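import Mathlib

/-!
# MP_b197b4_nt, project K1-ALL-DESC: decomposition groups of infinite Galois extensions

`K/F` is a Galois extension, `B` a subring of `K` which is stable under the Galois group.
-/

set_option autoImplicit false

namespace Pool.Agent.Lib.MP_b197b4_ntKE

open scoped Pointwise

section

variable {F K : Type} [Field F] [Field K] [Algebra F K]

/-- The action of the Galois group on a stable subring. -/
@[reducible] def Gal0_act (B : Subring K) (hB : ∀ σ : K ≃ₐ[F] K, ∀ b ∈ B, σ b ∈ B) :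
    MulSemiringAction (K ≃ₐ[F] K) B where
  smul σ b := ⟨σ b, hB σ b b.2⟩
  one_smul _ := rfl
  mul_smul _ _ _ := rfl
  smul_zero σ := Subtype.ext (map_zero σ)
  smul_add σ _ _ := Subtype.ext (map_add σ _ _)
  smul_one σ := Subtype.ext (map_one σ)
  smul_mul σ _ _ := Subtype.ext (map_mul σ _ _)

/-- The inclusion of `F ∩ B` in `B`. -/
@[reducible] def Gal0_alg (F : Type) {K : Type} [Field F] [Field K] [Algebra F K] (B : Subring K) :
    Algebra (B.comap (algebraMap F K)) B :=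
  (((algebraMap F K).comp (B.comap (algebraMap F K)).subtype).codRestrict B
    fun z => z.2).toAlgebra

theorem Gal0_inv [IsGalois F K] (B : Subring K) (hB : ∀ σ : K ≃ₐ[F] K, ∀ b ∈ B, σ b ∈ B) :
    letI := Gal0_act B hB
    letI := Gal0_alg F B
    Algebra.IsInvariant (B.comap (algebraMap F K)) B (K ≃ₐ[F] K) := by
  let _ := Gal0_act B hB
  let _ := Gal0_alg F B
  constructor
  intro b hb
  have h1 : (b : K) ∈ Set.range (algebraMap F K) := by
    rw [InfiniteGalois.mem_range_algebraMap_iff_fixed]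
    intro σ
    exact congrArg Subtype.val (hb σ)
  obtain ⟨y, hy⟩ := h1
  refine ⟨⟨y, ?_⟩, Subtype.ext hy⟩
  rw [Subring.mem_comap, hy]
  exact b.2

theorem Gal0_comm (B : Subring K) (hB : ∀ σ : K ≃ₐ[F] K, ∀ b ∈ B, σ b ∈ B) :
    letI := Gal0_act B hB
    letI := Gal0_alg F B
    SMulCommClass (K ≃ₐ[F] K) (B.comap (algebraMap F K)) B := by
  let _ := Gal0_act B hB
  let _ := Gal0_alg F B
  constructor
  intro σ a b
  rw [Algebra.smul_def, Algebra.smul_def]
  apply Subtype.ext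
  change σ (algebraMap F K a * b) = algebraMap F K a * σ b
  rw [map_mul, σ.commutes]

theorem Gal0_cont [IsGalois F K] (B : Subring K) (hB : ∀ σ : K ≃ₐ[F] K, ∀ b ∈ B, σ b ∈ B) :
    letI := Gal0_act B hB
    letI : TopologicalSpace B := ⊥
    ContinuousSMul (K ≃ₐ[F] K) B := by
  let _ := Gal0_act B hB
  let _ : TopologicalSpace B := ⊥
  have _ : DiscreteTopology B := ⟨rfl⟩
  rw [continuousSMul_iff_stabilizer_isOpen]
  intro b
  have h1 : (MulAction.stabilizer (K ≃ₐ[F] K) b : Set (K ≃ₐ[F] K)) =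
      MulAction.stabilizer (K ≃ₐ[F] K) (b : K) := by
    ext σ
    rw [SetLike.mem_coe, SetLike.mem_coe, MulAction.mem_stabilizer_iff,
      MulAction.mem_stabilizer_iff]
    exact Subtype.ext_iff
  rw [h1]
  exact stabilizer_isOpen_of_isIntegral (b : K)

/-- The Galois group acts transitively on the primes of `B` over a prime of `F ∩ B`. -/
theorem Gal0_trans [IsGalois F K] (B : Subring K) (hB : ∀ σ : K ≃ₐ[F] K, ∀ b ∈ B, σ b ∈ B)
    (P Q : Ideal B) [P.IsPrime] [Q.IsPrime]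
    (hPQ : ∀ (y : F) (hy : algebraMap F K y ∈ B),
      (⟨algebraMap F K y, hy⟩ : B) ∈ P ↔ (⟨algebraMap F K y, hy⟩ : B) ∈ Q) :
    ∃ σ : K ≃ₐ[F] K, ∀ (b : K) (hb : b ∈ B),
      (⟨b, hb⟩ : B) ∈ P ↔ (⟨σ b, hB σ b hb⟩ : B) ∈ Q := by
  let _ := Gal0_act B hB
  let _ := Gal0_alg F B
  have _ := Gal0_inv B hB
  have _ := Gal0_comm B hB
  let _ : TopologicalSpace B := ⊥
  have _ : DiscreteTopology B := ⟨rfl⟩
  have _ := Gal0_cont B hB
  have h1 : P.under (B.comap (algebraMap F K)) = Q.under (B.comap (algebraMap F K)) := by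
    ext y
    exact hPQ y y.2
  obtain ⟨σ, hσ⟩ := Algebra.IsInvariant.exists_smul_of_under_eq_of_profinite
    (A := B.comap (algebraMap F K)) (G := K ≃ₐ[F] K) P Q h1
  refine ⟨σ, fun b hb => ?_⟩
  rw [hσ]
  exact (Ideal.smul_mem_pointwise_smul_iff (a := σ) (S := P) (x := ⟨b, hb⟩)).symm

/-- The decomposition group of a prime `Q` of `B` maps onto the automorphism group of `B / Q` over
the image of `F ∩ B`. -/
theorem Gal0_surj [IsGalois F K] (B : Subring K) (hB : ∀ σ : K ≃ₐ[F] K, ∀ b ∈ B, σ b ∈ B)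
    (Q : Ideal B) [Q.IsPrime] (τ : (B ⧸ Q) ≃+* (B ⧸ Q))
    (hτ : ∀ (y : F) (hy : algebraMap F K y ∈ B),
      τ (Ideal.Quotient.mk Q ⟨algebraMap F K y, hy⟩) =
        Ideal.Quotient.mk Q ⟨algebraMap F K y, hy⟩) :
    ∃ σ : K ≃ₐ[F] K, ∀ (b : K) (hb : b ∈ B),
      τ (Ideal.Quotient.mk Q ⟨b, hb⟩) = Ideal.Quotient.mk Q ⟨σ b, hB σ b hb⟩ := by
  let _ := Gal0_act B hB
  let _ := Gal0_alg F B
  have _ := Gal0_inv B hB
  have _ := Gal0_comm B hB
  let _ : TopologicalSpace B := ⊥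
  have _ : DiscreteTopology B := ⟨rfl⟩
  have _ := Gal0_cont B hB
  let P : Ideal (B.comap (algebraMap F K)) := Q.under (B.comap (algebraMap F K))
  have hlo : Q.LiesOver P := ⟨rfl⟩
  let τ' : (B ⧸ Q) ≃ₐ[B.comap (algebraMap F K) ⧸ P] (B ⧸ Q) :=
    AlgEquiv.ofRingEquiv (f := τ) (by
      intro a
      obtain ⟨a, rfl⟩ := Ideal.Quotient.mk_surjective a
      exact hτ a a.2)
  obtain ⟨g, hg⟩ := Ideal.Quotient.stabilizerHom_surjective_of_profinite (G := K ≃ₐ[F] K) P Q τ'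
  refine ⟨g.1, fun b hb => ?_⟩
  have h1 := DFunLike.congr_fun hg (Ideal.Quotient.mk Q ⟨b, hb⟩)
  exact h1.symm

end

end Pool.Agent.Lib.MP_b197b4_ntKE
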