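import Mathlib
import Pool.Agent.Lib.MP_b197b4_ntA.XPts
import Pool.Agent.Lib.MP_b197b4_ntKE.Defs
import Pool.Agent.Lib.MP_b197b4_ntKE.Gal0

/-!
# MP_b197b4_nt, project K1-ALL-DESC, D5c: the decomposition group maps onto the automorphisms of the
residue field
-/

set_option autoImplicit false
set_option linter.unusedVariables false

namespace Pool.Agent.Lib.MP_b197b4_ntKE

open IsLocalRing Pool.Agent.Lib.MP_b197b4_ntK Pool.Agent.Lib.MP_b197b4_ntA
  Pool.Agent.Lib.MP_b197b4_ntKD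

/-- Automorphisms map the algebraically closed field `k'`, algebraic over the fixed field `k`, to
itself. -/
theorem Gal3_const {k k' E : Type} [Field k] [Field k'] [Field E] [Algebra k k'] [IsAlgClosed k']
    [Algebra.IsAlgebraic k k'] (φ : k' →+* E) (τ : E →+* E)
    (hτ : ∀ c : k, τ (φ (algebraMap k k' c)) = φ (algebraMap k k' c)) (c : k') :
    ∃ c' : k', τ (φ c) = φ c' := by
  have hint : IsIntegral k c := (Algebra.IsAlgebraic.isAlgebraic c).isIntegral
  have h0 : (minpoly k c).map (algebraMap k k') ≠ 0 :=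
    Polynomial.map_ne_zero (minpoly.ne_zero hint)
  have h1 : (((minpoly k c).map (algebraMap k k')).map φ).IsRoot (τ (φ c)) := by
    rw [Polynomial.IsRoot.def, Polynomial.map_map, Polynomial.eval_map]
    have h2 : φ.comp (algebraMap k k') = τ.comp (φ.comp (algebraMap k k')) := by
      ext c
      exact (hτ c).symm
    rw [h2, ← Polynomial.hom_eval₂, ← Polynomial.hom_eval₂]
    have h3 : Polynomial.eval₂ (algebraMap k k') c (minpoly k c) = 0 := minpoly.aeval k c
    rw [h3, map_zero, map_zero]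
  obtain ⟨c', hc'⟩ := (IsAlgClosed.splits _).mem_range_of_isRoot h0 h1
  exact ⟨c', hc'.symm⟩

section

variable {k k' F K : Type} [Field k] [Field k'] [Field F] [Field K] [Algebra k k'] [Algebra k F]
  [Algebra k' K] [Algebra F K] {n d : ℕ} {x : Fin (n + 1) → F}

/-- The charts are stable under the Galois group. -/
theorem Gal3_stable [IsAlgClosed k'] (h : BC k k' F K) (σ : K ≃ₐ[F] K) (i : Fin (n + 1)) (b : K)
    (hb : b ∈ (cht k' (fun i => algebraMap F K (x i)) i).toSubring) :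
    σ b ∈ (cht k' (fun i => algebraMap F K (x i)) i).toSubring := by
  have _ := h.sep
  have hb' : b ∈ cht k' (fun i => algebraMap F K (x i)) i := hb
  change σ b ∈ cht k' (fun i => algebraMap F K (x i)) i
  unfold cht at hb' ⊢
  induction hb' using Algebra.adjoin_induction with
  | mem y hy =>
    obtain ⟨j, rfl⟩ := hy
    change σ (algebraMap F K (x j) / algebraMap F K (x i)) ∈ _
    rw [← map_div₀, σ.commutes, map_div₀]
    exact Algebra.subset_adjoin ⟨j, rfl⟩
  | algebraMap c =>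
    obtain ⟨c', hc'⟩ := Gal3_const (k := k) (algebraMap k' K) (σ : K →+* K) (fun a => by
      rw [h.comm]
      exact σ.commutes _) c
    have h1 : σ (algebraMap k' K c) = algebraMap k' K c' := hc'
    rw [h1]
    exact Subalgebra.algebraMap_mem _ c'
  | add y z _ _ h1 h2 =>
    rw [map_add]
    exact Subalgebra.add_mem _ (h1 (by assumption)) (h2 (by assumption))
  | mul y z _ _ h1 h2 =>
    rw [map_mul]
    exact Subalgebra.mul_mem _ (h1 (by assumption)) (h2 (by assumption))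

end

section

variable {F K : Type} [Field F] [Field K] [Algebra F K]

/-- The homomorphism of the chart to the residue field of a point. -/
noncomputable def Gal3_hom (B : Subring K) (Q : Ideal B) [Q.IsPrime] :
    B →+* Kap (LocalSubring.ofPrime B Q) :=
  (residue _).comp (Subring.inclusion (LocalSubring.le_ofPrime B Q))

theorem Gal3_hom_eq_zero (B : Subring K) (Q : Ideal B) [Q.IsPrime] (b : B) :
    Gal3_hom B Q b = 0 ↔ b ∈ Q := by
  unfold Gal3_hom
  rw [RingHom.comp_apply, residue_eq_zero_iff, mem_maximalIdeal, mem_nonunits_iff]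
  exact (not_congr (XP_unit B Q b)).trans not_not

/-- Everything except the action on the constants. -/
theorem Gal3_main [IsGalois F K] (B : Subring K) (hB : ∀ σ : K ≃ₐ[F] K, ∀ b ∈ B, σ b ∈ B)
    (Q : Ideal B) [Q.IsPrime]
    (τ : Kap (LocalSubring.ofPrime B Q) ≃+* Kap (LocalSubring.ofPrime B Q))
    (hτ : ∀ (y : F) (hy : algebraMap F K y ∈ B),
      τ (Gal3_hom B Q ⟨algebraMap F K y, hy⟩) = Gal3_hom B Q ⟨algebraMap F K y, hy⟩)
    (hR : ∀ z, z ∈ (Gal3_hom B Q).range ↔ τ z ∈ (Gal3_hom B Q).range) :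
    ∃ σ : K ≃ₐ[F] K,
      (∀ y : K, σ y ∈ (LocalSubring.ofPrime B Q).toSubring ↔
        y ∈ (LocalSubring.ofPrime B Q).toSubring) ∧
      ∀ (y : K) (h1 : y ∈ (LocalSubring.ofPrime B Q).toSubring)
        (h2 : σ y ∈ (LocalSubring.ofPrime B Q).toSubring),
        τ (residue _ ⟨y, h1⟩) = residue _ ⟨σ y, h2⟩ := by
  let τR : (Gal3_hom B Q).range ≃+* (Gal3_hom B Q).range := RingEquiv.restrict τ _ _ hR
  have hker : Q = RingHom.ker (Gal3_hom B Q) := by
    ext b
    rw [RingHom.mem_ker, Gal3_hom_eq_zero]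
  let j : (B ⧸ Q) ≃+* (Gal3_hom B Q).range :=
    (Ideal.quotEquivOfEq hker).trans (RingHom.quotientKerEquivRange (Gal3_hom B Q))
  have hj : ∀ b : B, (j (Ideal.Quotient.mk Q b) : Kap (LocalSubring.ofPrime B Q)) =
      Gal3_hom B Q b := fun _ => rfl
  obtain ⟨σ, hσ⟩ := Gal0_surj B hB Q ((j.trans τR).trans j.symm) (by
    intro y hy
    rw [RingEquiv.trans_apply, RingEquiv.symm_apply_eq, RingEquiv.trans_apply]
    apply Subtype.ext
    change τ (j (Ideal.Quotient.mk Q ⟨algebraMap F K y, hy⟩) : Kap _) = _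
    rw [hj, hτ])
  have key : ∀ (b : K) (hb : b ∈ B),
      τ (Gal3_hom B Q ⟨b, hb⟩) = Gal3_hom B Q ⟨σ b, hB σ b hb⟩ := by
    intro b hb
    have h1 := congrArg (fun z => (j z : Kap (LocalSubring.ofPrime B Q))) (hσ b hb)
    change (j (j.symm (τR (j (Ideal.Quotient.mk Q ⟨b, hb⟩)))) : Kap _) =
      Gal3_hom B Q ⟨σ b, hB σ b hb⟩ at h1
    rw [RingEquiv.apply_symm_apply] at h1
    exact h1
  have hQ : ∀ (b : K) (hb : b ∈ B), (⟨σ b, hB σ b hb⟩ : B) ∈ Q ↔ (⟨b, hb⟩ : B) ∈ Q := by
    intro b hb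
    rw [← Gal3_hom_eq_zero, ← key b hb, map_eq_zero_iff τ τ.injective, Gal3_hom_eq_zero]
  -- quotients
  have hfr : ∀ (a s : B), s ∉ Q → (a : K) / s ∈ (LocalSubring.ofPrime B Q).toSubring := by
    intro a s hs
    have h1 := (XP_unit B Q s).2 hs
    obtain ⟨u, hu⟩ := h1.exists_right_inv
    have h2 : (s : K) * (u : K) = 1 := congrArg Subtype.val hu
    have h3 : (a : K) / s = a * u := by
      rw [div_eq_mul_inv, inv_eq_of_mul_eq_one_right h2]
    rw [h3]
    exact Subring.mul_mem _ (LocalSubring.le_ofPrime B Q a.2) u.2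
  have hmem : ∀ y : K, y ∈ (LocalSubring.ofPrime B Q).toSubring →
      σ y ∈ (LocalSubring.ofPrime B Q).toSubring := by
    intro y hy
    obtain ⟨a, s, hs, rfl⟩ := XP_mem B Q hy
    rw [map_div₀]
    exact hfr ⟨σ a, hB σ a a.2⟩ ⟨σ s, hB σ s s.2⟩ fun h1 => hs ((hQ s s.2).1 h1)
  refine ⟨σ, fun y => ⟨fun hy => ?_, hmem y⟩, ?_⟩
  · obtain ⟨a, s, hs, h1⟩ := XP_mem B Q hy
    have h2 : y = σ.symm a / σ.symm s := by
      rw [← map_div₀, ← h1, AlgEquiv.symm_apply_apply]
    rw [h2]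
    refine hfr ⟨σ.symm a, hB σ.symm a a.2⟩ ⟨σ.symm s, hB σ.symm s s.2⟩ fun h3 => hs ?_
    have h4 := (hQ _ _).2 h3
    have h5 : (⟨σ (σ.symm (s : K)), hB σ _ (hB σ.symm s s.2)⟩ : B) = s :=
      Subtype.ext (σ.apply_symm_apply _)
    rw [h5] at h4
    exact h4
  · intro y h1 h2
    obtain ⟨a, s, hs, h3⟩ := XP_mem B Q h1
    have hsu := (XP_unit B Q s).2 hs
    have hs0 : (s : K) ≠ 0 := by
      intro h0
      exact hs ((Subtype.ext h0 : s = 0) ▸ Q.zero_mem)
    have e1 : residue (LocalSubring.ofPrime B Q).toSubring ⟨y, h1⟩ * Gal3_hom B Q s =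
        Gal3_hom B Q a := by
      unfold Gal3_hom
      rw [RingHom.comp_apply, RingHom.comp_apply, ← map_mul]
      congr 1
      apply Subtype.ext
      change y * (s : K) = a
      rw [h3, div_mul_cancel₀ _ hs0]
    have hσs0 : σ (s : K) ≠ 0 := (map_ne_zero_iff σ σ.injective).2 hs0
    have e2 : residue (LocalSubring.ofPrime B Q).toSubring ⟨σ y, h2⟩ *
        Gal3_hom B Q ⟨σ s, hB σ s s.2⟩ = Gal3_hom B Q ⟨σ a, hB σ a a.2⟩ := by
      unfold Gal3_hom
      rw [RingHom.comp_apply, RingHom.comp_apply, ← map_mul]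
      congr 1
      apply Subtype.ext
      change σ y * σ (s : K) = σ a
      rw [← map_mul, h3, div_mul_cancel₀ _ hs0]
    have e3 := congrArg τ e1
    have key_s : τ (Gal3_hom B Q s) = Gal3_hom B Q ⟨σ s, hB σ s s.2⟩ := key s s.2
    have key_a : τ (Gal3_hom B Q a) = Gal3_hom B Q ⟨σ a, hB σ a a.2⟩ := key a a.2
    rw [map_mul, key_s, key_a, ← e2] at e3
    refine mul_right_cancel₀ ?_ e3
    rw [ne_eq, Gal3_hom_eq_zero, hQ]
    exact hs

end

section

variable {k k' F K : Type} [Field k] [Field k'] [Field F] [Field K] [Algebra k k'] [Algebra k F]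
  [Algebra k' K] [Algebra F K] {n d : ℕ} {x : Fin (n + 1) → F}

/-- The image of the chart in the residue field is stable. -/
theorem Gal3_range [IsAlgClosed k'] (h : BC k k' F K) (i : Fin (n + 1))
    (Q : Ideal (cht k' (fun i => algebraMap F K (x i)) i).toSubring) [Q.IsPrime]
    (τ : Kap (LocalSubring.ofPrime _ Q) →+* Kap (LocalSubring.ofPrime _ Q))
    (hτ : ∀ (y : F) (hy : algebraMap F K y ∈ (cht k' (fun i => algebraMap F K (x i)) i).toSubring),
      τ (Gal3_hom _ Q ⟨algebraMap F K y, hy⟩) = Gal3_hom _ Q ⟨algebraMap F K y, hy⟩)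
    (b : K) (hb : b ∈ (cht k' (fun i => algebraMap F K (x i)) i).toSubring) :
    τ (Gal3_hom _ Q ⟨b, hb⟩) ∈ (Gal3_hom _ Q).range := by
  have _ := h.sep
  have hb' : b ∈ Algebra.adjoin k' (Set.range fun j =>
    (algebraMap F K (x j)) / (algebraMap F K (x i))) := hb
  induction hb' using Algebra.adjoin_induction with
  | mem y hy =>
    obtain ⟨j, rfl⟩ := hy
    have h1 : algebraMap F K (x j / x i) ∈
        (cht k' (fun i => algebraMap F K (x i)) i).toSubring := by
      rw [map_div₀]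
      exact hb
    have h2 : (⟨_, hb⟩ : (cht k' (fun i => algebraMap F K (x i)) i).toSubring) =
        ⟨algebraMap F K (x j / x i), h1⟩ := Subtype.ext (map_div₀ _ _ _).symm
    rw [h2, hτ]
    exact ⟨_, rfl⟩
  | algebraMap c =>
    let φ : k' →+* Kap (LocalSubring.ofPrime _ Q) := (Gal3_hom _ Q).comp
      (algebraMap k' (cht k' (fun i => algebraMap F K (x i)) i))
    obtain ⟨c', hc'⟩ := Gal3_const (k := k) φ τ (fun a => by
      have h1 : algebraMap F K (algebraMap k F a) ∈
          (cht k' (fun i => algebraMap F K (x i)) i).toSubring := by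
        rw [← h.comm]
        exact Subalgebra.algebraMap_mem _ _
      have h2 : φ (algebraMap k k' a) = Gal3_hom _ Q ⟨algebraMap F K (algebraMap k F a), h1⟩ := by
        change Gal3_hom _ Q _ = _
        congr 1
        exact Subtype.ext (h.comm a)
      rw [h2, hτ]) c
    exact ⟨_, hc'.symm⟩
  | add y z hy hz h1 h2 =>
    have h3 := Subring.add_mem _ (h1 hy) (h2 hz)
    rw [← map_add, ← map_add] at h3
    exact h3
  | mul y z hy hz h1 h2 =>
    have h3 := Subring.mul_mem _ (h1 hy) (h2 hz)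
    rw [← map_mul, ← map_mul] at h3
    exact h3

/-- D5c: the decomposition group maps onto the automorphisms of the residue field. -/
theorem gal_surj [IsAlgClosed k'] [IsGalois F K] (h : BC k k' F K) (hx : Var k d x) {e : ℕ}
    {S' : LocalSubring K} (hS' : S' ∈ Pts k' (fun i => algebraMap F K (x i)) e)
    (τ : Kap S' ≃+* Kap S') (hτ : ∀ u, τ (kmap (algebraMap F K) S' u) = kmap (algebraMap F K) S' u) :
    ∃ σ : K ≃+* K, (∀ y : F, σ (algebraMap F K y) = algebraMap F K y) ∧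
      (∀ y : K, σ y ∈ S'.toSubring ↔ y ∈ S'.toSubring) ∧
      ∀ (y : K) (h1 : y ∈ S'.toSubring) (h2 : σ y ∈ S'.toSubring),
        τ (residue _ ⟨y, h1⟩) = residue _ ⟨σ y, h2⟩ := by
  obtain ⟨i, Q, hQ, _, rfl⟩ := hS'
  have hτ1 : ∀ (y : F)
      (hy : algebraMap F K y ∈ (cht k' (fun i => algebraMap F K (x i)) i).toSubring),
      τ (Gal3_hom _ Q ⟨algebraMap F K y, hy⟩) = Gal3_hom _ Q ⟨algebraMap F K y, hy⟩ :=
    fun y hy => hτ (residue _ ⟨y, LocalSubring.le_ofPrime _ Q hy⟩)
  have hτ2 : ∀ (y : F)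
      (hy : algebraMap F K y ∈ (cht k' (fun i => algebraMap F K (x i)) i).toSubring),
      τ.symm (Gal3_hom _ Q ⟨algebraMap F K y, hy⟩) = Gal3_hom _ Q ⟨algebraMap F K y, hy⟩ := by
    intro y hy
    rw [RingEquiv.symm_apply_eq, hτ1]
  obtain ⟨σ, h1, h2⟩ := Gal3_main (F := F) _ (fun σ b hb => Gal3_stable h σ i b hb) Q τ hτ1 (by
    intro z
    constructor
    · rintro ⟨b, rfl⟩
      exact Gal3_range h i Q (τ : _ →+* _) hτ1 b b.2
    · rintro ⟨b, hb⟩
      have h3 := Gal3_range h i Q (τ.symm : _ →+* _) hτ2 b b.2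
      have h4 : τ.symm (Gal3_hom _ Q b) = z := by
        rw [hb, τ.symm_apply_apply]
      change τ.symm (Gal3_hom _ Q b) ∈ _ at h3
      rw [h4] at h3
      exact h3)
  exact ⟨σ.toRingEquiv, σ.commutes, h1, h2⟩

end

end Pool.Agent.Lib.MP_b197b4_ntKE
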