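import Mathlib
import Pool.Agent.Lib.MP_b197b4_ntKE.Defs

/-!
# MP_b197b4_nt, project K1-ALL-DESC, D6: transport of the boundary under isomorphisms
-/

set_option autoImplicit false

namespace Pool.Agent.Lib.MP_b197b4_ntKE

open IsLocalRing Pool.Agent.Lib.MP_b197b4_ntK Pool.Agent.Lib.MP_b197b4_ntA
  Pool.Agent.Lib.MP_b197b4_ntKD

section

variable {E E' : Type} [Field E] [Field E']

theorem Tr_vm_bij (e : E →+* E') (he : Function.Bijective e) (V : ValuationSubring E') :
    Function.Bijective (vm e V) := by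
  constructor
  · intro a b h
    apply Subtype.ext
    apply he.1
    exact congrArg Subtype.val h
  · intro b
    obtain ⟨a, ha⟩ := he.2 (b : E')
    have h1 : a ∈ V.comap e := by
      rw [ValuationSubring.mem_comap, ha]
      exact b.2
    exact ⟨⟨a, h1⟩, Subtype.ext ha⟩

theorem Tr_dvr_iff (e : E →+* E') (he : Function.Bijective e) (V : ValuationSubring E') :
    IsDiscreteValuationRing V ↔ IsDiscreteValuationRing (V.comap e) := by
  let ψ : V.comap e ≃+* V := RingEquiv.ofBijective (vm e V) (Tr_vm_bij e he V)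
  constructor
  · intro h
    exact IsDiscreteValuationRing.RingEquivClass.isDiscreteValuationRing ψ.symm
  · intro h
    exact IsDiscreteValuationRing.RingEquivClass.isDiscreteValuationRing ψ

theorem Tr_rmap_bij (e : E →+* E') (he : Function.Bijective e) (V : ValuationSubring E') :
    Function.Bijective (rmap e V) := by
  refine ⟨RingHom.injective _, fun z => ?_⟩
  obtain ⟨y, hy, rfl⟩ := res_surj z
  obtain ⟨a, rfl⟩ := he.2 y
  exact ⟨res (V.comap e) a, rmap_res e V a⟩

theorem Tr_ord_zero (V : ValuationSubring E) : ord V (0 : E) = 0 := by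
  unfold ord
  rw [dif_neg]
  rintro ⟨n, h⟩
  exact hasOrd_ne h rfl

theorem Tr_ord (e : E →+* E') (he : Function.Bijective e) (V : ValuationSubring E')
    (hV : IsDiscreteValuationRing V) (x : E) : ord V (e x) = ord (V.comap e) x := by
  by_cases hx : x = 0
  · rw [hx, map_zero, Tr_ord_zero, Tr_ord_zero]
  · obtain ⟨π, hπ⟩ := IsDiscreteValuationRing.exists_irreducible V
    obtain ⟨a, ha⟩ := he.2 (π : E')
    refine (dvr_between e V hV (π := a) ?_).2 x hx
    rw [ha]
    exact ord_irr hπ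

theorem Tr_tame (e : E →+* E') (he : Function.Bijective e) (V : ValuationSubring E')
    (hV : IsDiscreteValuationRing V) (f g : E) :
    rmap e V (tame (V.comap e) f g) = tame V (e f) (e g) := by
  unfold tame
  rw [rmap_res, ← Tr_ord e he V hV f, ← Tr_ord e he V hV g]
  congr 1
  rw [map_div₀, map_mul, map_zpow₀, map_zpow₀, map_zpow₀, map_neg, map_one]

theorem Tr_comap_bij (e : E →+* E') (he : Function.Bijective e) :
    Function.Bijective fun V : ValuationSubring E' => V.comap e := by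
  constructor
  · intro V V' h
    ext z
    obtain ⟨w, rfl⟩ := he.2 z
    have h1 : w ∈ V.comap e ↔ w ∈ V'.comap e := by
      have h2 : V.comap e = V'.comap e := h
      rw [h2]
    exact h1
  · intro W
    let ψ : E ≃+* E' := RingEquiv.ofBijective e he
    refine ⟨W.comap (ψ.symm : E' →+* E), ?_⟩
    ext z
    change ψ.symm (ψ z) ∈ W ↔ z ∈ W
    rw [ψ.symm_apply_apply]

end

section

variable {K L : Type} [Field K] [Field L]

theorem Tr_kmap_bij (σ : K ≃+* L) (O : LocalSubring L) :
    Function.Bijective (kmap (σ : K →+* L) O) := by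
  refine ⟨RingHom.injective _, fun z => ?_⟩
  obtain ⟨y, rfl⟩ := residue_surjective z
  have h1 : (σ : K →+* L) (σ.symm (y : L)) = y := σ.apply_symm_apply _
  have h2 : σ.symm (y : L) ∈ (dn (σ : K →+* L) O).toSubring := by
    rw [mem_dn, h1]
    exact y.2
  refine ⟨residue _ ⟨σ.symm y, h2⟩, ?_⟩
  rw [kmap_residue (σ : K →+* L) O _ h2 h2]
  congr 1
  exact Subtype.ext h1

theorem Tr_le_iff (σ : K ≃+* L) (S P : LocalSubring L) :
    (dn (σ : K →+* L) P).toSubring ≤ (dn (σ : K →+* L) S).toSubring ↔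
      P.toSubring ≤ S.toSubring := by
  constructor
  · intro h y hy
    have h1 : (σ : K →+* L) (σ.symm (y : L)) = y := σ.apply_symm_apply _
    have h2 : σ.symm y ∈ (dn (σ : K →+* L) P).toSubring := by
      rw [mem_dn, h1]
      exact hy
    have h3 := h h2
    rw [mem_dn, h1] at h3
    exact h3
  · intro h y hy
    exact h hy

theorem Tr_cen_iff (σ : K ≃+* L) (S P : LocalSubring L) (V : ValuationSubring (Kap S)) :
    Cen P S V ↔ Cen (dn (σ : K →+* L) P) (dn (σ : K →+* L) S)
      (V.comap (kmap (σ : K →+* L) S)) := by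
  unfold Cen
  rw [Tr_le_iff]
  refine and_congr_right fun _ => ?_
  constructor
  · intro h y hP hS
    have h1 := h ((σ : K →+* L) y) hP hS
    refine ⟨h1.1, ?_⟩
    rw [isUnit_dn (σ : K →+* L) P y hP hP, h1.2, comap_eq_one,
      kmap_residue (σ : K →+* L) S y hS hS]
  · intro h y hP hS
    obtain ⟨z, rfl⟩ : ∃ z, (σ : K →+* L) z = y := ⟨σ.symm y, σ.apply_symm_apply _⟩
    have h1 := h z hP hS
    refine ⟨h1.1, ?_⟩
    rw [← isUnit_dn (σ : K →+* L) P z hP hP, h1.2, comap_eq_one,
      kmap_residue (σ : K →+* L) S z hS hS]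

theorem Tr_nrm (σ : K ≃+* L) (S P : LocalSubring L) (hPS : P.toSubring ≤ S.toSubring)
    (V : ValuationSubring (Kap S)) (c : ResidueField (V.comap (kmap (σ : K →+* L) S))) :
    nrm P S V (rmap (kmap (σ : K →+* L) S) V c) =
      kmap (σ : K →+* L) P (nrm (dn (σ : K →+* L) P) (dn (σ : K →+* L) S)
        (V.comap (kmap (σ : K →+* L) S)) c) := by
  let kP : Kap (dn (σ : K →+* L) P) ≃+* Kap P :=
    RingEquiv.ofBijective (kmap (σ : K →+* L) P) (Tr_kmap_bij σ P)
  let rV : ResidueField (V.comap (kmap (σ : K →+* L) S)) ≃+* ResidueField V :=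
    RingEquiv.ofBijective (rmap (kmap (σ : K →+* L) S) V) (Tr_rmap_bij _ (Tr_kmap_bij σ S) V)
  unfold nrm
  by_cases h : ∃ φ : Kap (dn (σ : K →+* L) P) →+*
      ResidueField (V.comap (kmap (σ : K →+* L) S)), ∀ (y : K)
      (hP : y ∈ (dn (σ : K →+* L) P).toSubring) (hS : y ∈ (dn (σ : K →+* L) S).toSubring),
      φ (residue _ ⟨y, hP⟩) = res (V.comap (kmap (σ : K →+* L) S)) (residue _ ⟨y, hS⟩)
  · have h2 : ∃ φ : Kap P →+* ResidueField V, ∀ (y : L) (hP : y ∈ P.toSubring)
        (hS : y ∈ S.toSubring), φ (residue _ ⟨y, hP⟩) = res V (residue _ ⟨y, hS⟩) := by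
      obtain ⟨φ, hφ⟩ := h
      refine ⟨(rV : _ →+* ResidueField V).comp (φ.comp (kP.symm : Kap P →+* _)), ?_⟩
      intro y hP hS
      obtain ⟨z, rfl⟩ : ∃ z, (σ : K →+* L) z = y := ⟨σ.symm y, σ.apply_symm_apply _⟩
      have e1 : kP.symm (residue _ ⟨(σ : K →+* L) z, hP⟩) =
          residue (dn (σ : K →+* L) P).toSubring ⟨z, hP⟩ := by
        rw [RingEquiv.symm_apply_eq]
        exact (kmap_residue (σ : K →+* L) P z hP hP).symm
      change rV (φ (kP.symm _)) = _
      rw [e1, hφ z hP hS]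
      change rmap _ V _ = _
      rw [rmap_res, kmap_residue (σ : K →+* L) S z hS hS]
    rw [dif_pos h, dif_pos h2]
    have s1 := h.choose_spec
    have s2 := h2.choose_spec
    let _ : Algebra (Kap (dn (σ : K →+* L) P)) (ResidueField (V.comap (kmap (σ : K →+* L) S))) :=
      h.choose.toAlgebra
    let _ : Algebra (Kap P) (ResidueField V) := h2.choose.toAlgebra
    have hsq : RingHom.comp (algebraMap (Kap P) (ResidueField V)) (kP : _ →+* Kap P) =
        RingHom.comp (rV : _ →+* ResidueField V) (algebraMap (Kap (dn (σ : K →+* L) P))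
          (ResidueField (V.comap (kmap (σ : K →+* L) S)))) := by
      ext z
      obtain ⟨y, rfl⟩ := residue_surjective z
      obtain ⟨y, hy⟩ := y
      have hS : y ∈ (dn (σ : K →+* L) S).toSubring := hPS hy
      change h2.choose (kmap (σ : K →+* L) P (residue _ ⟨y, hy⟩)) =
        rmap _ V (h.choose (residue _ ⟨y, hy⟩))
      rw [kmap_residue (σ : K →+* L) P y hy hy, s2 _ hy hS, s1 y hy hS, rmap_res,
        kmap_residue (σ : K →+* L) S y hS hS]
    have h3 := Algebra.norm_eq_of_equiv_equiv kP rV hsq c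
    have h4 : kP (Algebra.norm (Kap (dn (σ : K →+* L) P)) c) =
        Algebra.norm (Kap P) (rV c) := by
      rw [h3, kP.apply_symm_apply]
    exact h4.symm
  · have h2 : ¬ ∃ φ : Kap P →+* ResidueField V, ∀ (y : L) (hP : y ∈ P.toSubring)
        (hS : y ∈ S.toSubring), φ (residue _ ⟨y, hP⟩) = res V (residue _ ⟨y, hS⟩) := by
      rintro ⟨φ, hφ⟩
      apply h
      refine ⟨(rV.symm : ResidueField V →+* _).comp (φ.comp (kP : _ →+* Kap P)), ?_⟩
      intro y hP hS
      change rV.symm (φ (kmap (σ : K →+* L) P _)) = _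
      rw [kmap_residue (σ : K →+* L) P y hP hP, hφ _ hP hS, RingEquiv.symm_apply_eq]
      change _ = rmap _ V _
      rw [rmap_res, kmap_residue (σ : K →+* L) S y hS hS]
    rw [dif_neg h, dif_neg h2, map_one]

/-- D6: transport. -/
theorem bd_tr {K L : Type} [Field K] [Field L] (σ : K ≃+* L) (S P : LocalSubring L)
    (f g : Kap (dn (σ : K →+* L) S)) :
    bd ⟨S, kmap (σ : K →+* L) S f, kmap (σ : K →+* L) S g⟩ P =
      kmap (σ : K →+* L) P (bd ⟨dn (σ : K →+* L) S, f, g⟩ (dn (σ : K →+* L) P)) := by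
  have he := Tr_kmap_bij σ S
  unfold bd
  refine Eq.trans ?_ (MonoidHom.map_finprod_of_injective (kmap (σ : K →+* L) P).toMonoidHom
    (RingHom.injective (kmap (σ : K →+* L) P)) _).symm
  refine finprod_eq_of_bijective (fun V => V.comap (kmap (σ : K →+* L) S))
    (Tr_comap_bij _ he) fun V => ?_
  rw [MonoidHom.map_finprod_Prop]
  refine finprod_congr_Prop (propext (and_congr (Tr_dvr_iff _ he V) (Tr_cen_iff σ S P V)))
    fun h => ?_
  have hV : IsDiscreteValuationRing V := (Tr_dvr_iff _ he V).2 h.1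
  have hc : Cen P S V := (Tr_cen_iff σ S P V).2 h.2
  change nrm P S V (tame V (kmap (σ : K →+* L) S f) (kmap (σ : K →+* L) S g)) = kmap _ P _
  rw [← Tr_tame _ he V hV, Tr_nrm σ S P hc.1]

end

end Pool.Agent.Lib.MP_b197b4_ntKE
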