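import Mathlib
import Pool.Agent.Lib.MP_b197b4_ntKE.Defs

/-!
# MP_b197b4_nt, project K1-ALL-DESC: D7, transport of the forms
-/

set_option autoImplicit false

namespace Pool.Agent.Lib.MP_b197b4_ntKE

open IsLocalRing Pool.Agent.Lib.MP_b197b4_ntK Pool.Agent.Lib.MP_b197b4_ntA
  Pool.Agent.Lib.MP_b197b4_ntKD

section

variable {F K : Type} [Field F] [Field K]

theorem Tr2_dn (ι : F →+* K) (σ : K →+* K) (P' : LocalSubring K) :
    dn (σ.comp ι) P' = dn ι (dn σ P') := rfl

theorem Tr2_kmap (ι : F →+* K) (σ : K →+* K) (P' : LocalSubring K) (c : Kap (dn ι (dn σ P'))) :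
    kmap σ P' (kmap ι (dn σ P') c) = kmap (σ.comp ι) P' c := by
  obtain ⟨z, rfl⟩ := residue_surjective c
  rfl

theorem Tr2_lup (ι : F →+* K) (σ : K →+* K) (l : ∀ P : LocalSubring F, Kap P → ℚ)
    (P' : LocalSubring K) (u : Kap (dn σ P')) :
    lup (σ.comp ι) l P' (kmap σ P' u) = lup ι l (dn σ P') u := by
  unfold lup
  exact @lam_hom' (Kap (dn ι (dn σ P'))) (Kap (dn σ P')) _ _ (kmap ι (dn σ P')).toAlgebra
    (l (dn ι (dn σ P'))) (Kap P') _ (kmap (σ.comp ι) P').toAlgebra (kmap σ P')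
    (fun c => Tr2_kmap ι σ P' c) u

end

section

variable {k' F K : Type} [Field k'] [Field F] [Field K] [Algebra k' K] [Algebra F K] {n : ℕ}

/-- D7 (Tr2.lean). -/
theorem lX_tr (σ : K ≃+* K) (hσ : ∀ y : F, σ (algebraMap F K y) = algebraMap F K y)
    (l : ∀ P : LocalSubring F, Kap P → ℚ) (x' : Fin (n + 1) → K) (P' : LocalSubring K)
    (u : Kap (dn (σ : K →+* K) P')) :
    lX k' x' (algebraMap F K) l P' (kmap (σ : K →+* K) P' u) =
      lX k' x' (algebraMap F K) l (dn (σ : K →+* K) P') u := by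
  have hι : (σ : K →+* K).comp (algebraMap F K) = algebraMap F K := RingHom.ext hσ
  have h1 : dn (algebraMap F K) (dn (σ : K →+* K) P') = dn (algebraMap F K) P' :=
    congrArg (fun j : F →+* K => dn j P') hι
  have h2 : lup (algebraMap F K) l P' (kmap (σ : K →+* K) P' u) =
      lup (algebraMap F K) l (dn (σ : K →+* K) P') u :=
    (congrArg (fun j : F →+* K => lup j l P' (kmap (σ : K →+* K) P' u)) hι).symm.trans
      (Tr2_lup (algebraMap F K) (σ : K →+* K) l P' u)
  unfold lX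
  rw [h2, h1]

end

end Pool.Agent.Lib.MP_b197b4_ntKE
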