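import Mathlib
import Pool.Agent.Lib.MP_b197b4_ntKE.Defs
import Pool.Agent.Lib.MP_b197b4_ntKE.Gal1
import Pool.Agent.Lib.MP_b197b4_ntKE.Gal2
import Pool.Agent.Lib.MP_b197b4_ntKE.Gal3
import Pool.Agent.Lib.MP_b197b4_ntKE.Tr
import Pool.Agent.Lib.MP_b197b4_ntKE.Tr2

/-!
# MP_b197b4_nt, project K1-ALL-DESC: D8, invariance of the sums
-/

set_option autoImplicit false

namespace Pool.Agent.Lib.MP_b197b4_ntKE

open IsLocalRing Pool.Agent.Lib.MP_b197b4_ntK Pool.Agent.Lib.MP_b197b4_ntA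
  Pool.Agent.Lib.MP_b197b4_ntKD

section

variable {K : Type} [Field K]

theorem Inv_ext {P Q : LocalSubring K} (h : ∀ y, y ∈ P.toSubring ↔ y ∈ Q.toSubring) : P = Q :=
  LocalSubring.toSubring_injective (Subring.ext h)

theorem Inv_kmap_surj (σ : K ≃+* K) (S : LocalSubring K) :
    Function.Surjective (kmap (σ : K →+* K) S) := by
  intro u
  obtain ⟨z, rfl⟩ := residue_surjective u
  have hz : σ (σ.symm (z : K)) ∈ S.toSubring := by
    rw [σ.apply_symm_apply]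
    exact z.2
  refine ⟨residue _ ⟨σ.symm (z : K), hz⟩, ?_⟩
  refine (kmap_residue (σ : K →+* K) S (σ.symm (z : K)) hz hz).trans ?_
  exact congrArg _ (Subtype.ext (σ.apply_symm_apply _))

theorem Inv_dn_symm (σ : K ≃+* K) (P : LocalSubring K) :
    dn (σ : K →+* K) (dn (σ.symm : K →+* K) P) = P := by
  refine Inv_ext fun y => ?_
  show σ.symm (σ y) ∈ P.toSubring ↔ _
  rw [σ.symm_apply_apply]

theorem Inv_dn_inj (σ : K ≃+* K) {P Q : LocalSubring K}
    (h : dn (σ : K →+* K) P = dn (σ : K →+* K) Q) : P = Q := by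
  refine Inv_ext fun y => ?_
  have h1 : σ.symm y ∈ (dn (σ : K →+* K) P).toSubring ↔ σ.symm y ∈ (dn (σ : K →+* K) Q).toSubring := by
    rw [h]
  have h2 : σ (σ.symm y) ∈ P.toSubring ↔ σ (σ.symm y) ∈ Q.toSubring := h1
  rwa [σ.apply_symm_apply] at h2

end

section

variable {k k' F K : Type} [Field k] [Field k'] [Field F] [Field K] [Algebra k k'] [Algebra k F]
  [Algebra k' K] [Algebra F K] {n d : ℕ} {x : Fin (n + 1) → F}

/-- The isomorphism `θ` comes from an automorphism. -/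
theorem Inv_sigma [IsAlgClosed k'] [IsGalois F K] (h : BC k k' F K) (hx : Var k d x) {e : ℕ}
    {S' S'' : LocalSubring K} (hS' : S' ∈ Pts k' (fun i => algebraMap F K (x i)) e)
    (hS'' : S'' ∈ Pts k' (fun i => algebraMap F K (x i)) e)
    (hdn : dn (algebraMap F K) S' = dn (algebraMap F K) S'')
    (θ : Kap S' ≃+* Kap S'') (hθ : ∀ (y : F) (h1 : algebraMap F K y ∈ S'.toSubring)
      (h2 : algebraMap F K y ∈ S''.toSubring), θ (residue _ ⟨algebraMap F K y, h1⟩) =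
        residue _ ⟨algebraMap F K y, h2⟩) :
    ∃ σ : K ≃+* K, (∀ y : F, σ (algebraMap F K y) = algebraMap F K y) ∧
      (∀ y : K, σ y ∈ S''.toSubring ↔ y ∈ S'.toSubring) ∧
      ∀ (y : K) (h1 : y ∈ S'.toSubring) (h2 : σ y ∈ S''.toSubring),
        θ (residue _ ⟨y, h1⟩) = residue _ ⟨σ y, h2⟩ := by
  obtain ⟨σ₁, hσ₁, hd₁⟩ := gal_trans h hx hS' hS'' hdn
  subst hd₁
  obtain ⟨κ, hκ⟩ : ∃ κ : Kap (dn (σ₁ : K →+* K) S'') ≃+* Kap S'',
      ∀ u, κ u = kmap (σ₁ : K →+* K) S'' u :=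
    ⟨RingEquiv.ofBijective (kmap (σ₁ : K →+* K) S'')
      ⟨(kmap (σ₁ : K →+* K) S'').injective, Inv_kmap_surj σ₁ S''⟩, fun _ => rfl⟩
  have hκr : ∀ (y : K) (h1 : y ∈ (dn (σ₁ : K →+* K) S'').toSubring) (h2 : σ₁ y ∈ S''.toSubring),
      κ (residue _ ⟨y, h1⟩) = residue _ ⟨σ₁ y, h2⟩ := by
    intro y h1 h2
    rw [hκ]
    exact kmap_residue (σ₁ : K →+* K) S'' y h1 h2
  obtain ⟨σ₂, hσ₂, hm₂, hr₂⟩ := gal_surj h hx hS' (θ.trans κ.symm) (by
    intro u
    obtain ⟨z, rfl⟩ := residue_surjective u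
    have hz : algebraMap F K (z : F) ∈ (dn (σ₁ : K →+* K) S'').toSubring := z.2
    have hz2 : σ₁ (algebraMap F K (z : F)) ∈ S''.toSubring := hz
    have hz3 : algebraMap F K (z : F) ∈ S''.toSubring := by
      rw [← hσ₁]
      exact hz2
    have e1 : kmap (algebraMap F K) (dn (σ₁ : K →+* K) S'') (residue _ z) =
      residue _ ⟨algebraMap F K (z : F), hz⟩ := kmap_residue _ _ (z : F) z.2 hz
    rw [e1, RingEquiv.trans_apply, hθ (z : F) hz hz3]
    apply κ.injective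
    rw [κ.apply_symm_apply, hκr _ hz hz2]
    exact congrArg _ (Subtype.ext (hσ₁ (z : F)).symm))
  refine ⟨σ₂.trans σ₁, fun y => ?_, fun y => ?_, fun y h1 h2 => ?_⟩
  · show σ₁ (σ₂ (algebraMap F K y)) = _
    rw [hσ₂, hσ₁]
  · exact hm₂ y
  · have h3 : σ₂ y ∈ (dn (σ₁ : K →+* K) S'').toSubring := (hm₂ y).2 h1
    have h4 := hr₂ y h1 h3
    rw [RingEquiv.trans_apply] at h4
    have h5 := congrArg κ h4
    rw [κ.apply_symm_apply, hκr _ h3 h3] at h5
    exact h5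

/-- D8 (Inv.lean), from D5, D6, D7. -/
theorem inv_T [IsAlgClosed k'] [IsGalois F K] (h : BC k k' F K) (hx : Var k d x)
    (l : ∀ P : LocalSubring F, Kap P → ℚ) {e : ℕ}
    {S' S'' : LocalSubring K} (hS' : S' ∈ Pts k' (fun i => algebraMap F K (x i)) e)
    (hS'' : S'' ∈ Pts k' (fun i => algebraMap F K (x i)) e)
    (hdn : dn (algebraMap F K) S' = dn (algebraMap F K) S'')
    (θ : Kap S' ≃+* Kap S'') (hθ : ∀ (y : F) (h1 : algebraMap F K y ∈ S'.toSubring)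
      (h2 : algebraMap F K y ∈ S''.toSubring), θ (residue _ ⟨algebraMap F K y, h1⟩) =
        residue _ ⟨algebraMap F K y, h2⟩) (f g : Kap S') :
    ∑ᶠ (P' : LocalSubring K) (_ : P' ∈ Pts k' (fun i => algebraMap F K (x i)) 1),
      lX k' (fun i => algebraMap F K (x i)) (algebraMap F K) l P' (bd ⟨S'', θ f, θ g⟩ P') =
    ∑ᶠ (P' : LocalSubring K) (_ : P' ∈ Pts k' (fun i => algebraMap F K (x i)) 1),
      lX k' (fun i => algebraMap F K (x i)) (algebraMap F K) l P' (bd ⟨S', f, g⟩ P') := by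
  obtain ⟨σ, hσ, hmem, hr⟩ := Inv_sigma h hx hS' hS'' hdn θ hθ
  have hd : dn (σ : K →+* K) S'' = S' := Inv_ext hmem
  subst hd
  have hθσ : ∀ u, θ u = kmap (σ : K →+* K) S'' u := by
    intro u
    obtain ⟨z, rfl⟩ := residue_surjective u
    exact (hr (z : K) z.2 z.2).trans (kmap_residue (σ : K →+* K) S'' (z : K) z.2 z.2).symm
  have hpts : ∀ P', dn (σ : K →+* K) P' ∈ Pts k' (fun i => algebraMap F K (x i)) 1 ↔
      P' ∈ Pts k' (fun i => algebraMap F K (x i)) 1 := fun P' => gal_pts h σ hσ 1 P'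
  refine finsum_mem_eq_of_bijOn (dn (σ : K →+* K)) ⟨fun P' hP' => (hpts P').2 hP',
    fun P _ Q _ h1 => Inv_dn_inj σ h1, fun P hP => ?_⟩ fun P' _ => ?_
  · refine ⟨dn (σ.symm : K →+* K) P, ?_, Inv_dn_symm σ P⟩
    rw [← hpts, Inv_dn_symm]
    exact hP
  · rw [hθσ, hθσ, bd_tr σ S'' P' f g]
    exact lX_tr σ hσ l _ P' _

end

end Pool.Agent.Lib.MP_b197b4_ntKE
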