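import Mathlib

/-!
# MP_b197b4_nt, project K1-ALL-DESC: D12b, the residue field of a place
-/

set_option autoImplicit false

namespace Pool.Agent.Lib.MP_b197b4_ntKE

open IsLocalRing Polynomial IntermediateField

section Fr

variable {L E : Type} [Field L] [Field E] [Algebra L E] (V : ValuationSubring E)
  (hL : ∀ c : L, algebraMap L E c ∈ V)

/-- The constants in the valuation ring. -/
def FrC : L →+* V := (algebraMap L E).codRestrict V.toSubring hL

/-- The value of a polynomial. -/
noncomputable def FrEv (w : V) (p : L[X]) : V := p.eval₂ (FrC V hL) w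

theorem Fr_coe (w : V) (p : L[X]) : ((FrEv V hL w p : V) : E) = aeval (w : E) p := by
  have h := Polynomial.hom_eval₂ p (FrC V hL) V.subtype w
  rw [aeval_def]
  exact h

theorem Fr_res (w : V) (hw : residue V w = 0) (p : L[X]) :
    residue V (FrEv V hL w p) = residue V (FrC V hL (p.coeff 0)) := by
  unfold FrEv
  rw [Polynomial.hom_eval₂, hw, Polynomial.eval₂_at_zero, RingHom.comp_apply]

theorem Fr_fac (p : L[X]) (hp : p ≠ 0) : ∃ (a : ℕ) (q : L[X]), p = X ^ a * q ∧ q.coeff 0 ≠ 0 := by
  obtain ⟨q, h1, h2⟩ := Polynomial.exists_eq_pow_rootMultiplicity_mul_and_not_dvd p hp 0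
  refine ⟨_, q, by simpa using h1, ?_⟩
  rwa [C_0, sub_zero, X_dvd_iff] at h2

/-- The residue of an element of `L(w)`. -/
theorem Fr_adj (w : V) (hw : residue V w = 0) (hw0 : w ≠ 0)
    (b : E) (hb : b ∈ L⟮(w : E)⟯) (hbV : b ∈ V) :
    ∃ c : L, residue V ⟨b, hbV⟩ = residue V (FrC V hL c) := by
  obtain ⟨r, s, h⟩ := (mem_adjoin_simple_iff L _).mp hb
  by_cases hr : aeval (w : E) r = 0
  · refine ⟨0, ?_⟩
    have h0 : b = 0 := by rw [h, hr, zero_div]
    subst h0
    rw [map_zero]
    rfl
  by_cases hs : aeval (w : E) s = 0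
  · refine ⟨0, ?_⟩
    have h0 : b = 0 := by rw [h, hs, div_zero]
    subst h0
    rw [map_zero]
    rfl
  have hr' : r ≠ 0 := by rintro rfl; exact hr (map_zero _)
  have hs' : s ≠ 0 := by rintro rfl; exact hs (map_zero _)
  obtain ⟨a, r1, hr1, hr2⟩ := Fr_fac r hr'
  obtain ⟨e, s1, hs1, hs2⟩ := Fr_fac s hs'
  have key : (⟨b, hbV⟩ : V) * (w ^ e * FrEv V hL w s1) = w ^ a * FrEv V hL w r1 := by
    apply Subtype.ext
    push_cast
    rw [Fr_coe, Fr_coe]
    have h1 : b * aeval (w : E) s = aeval (w : E) r := by rw [h, div_mul_cancel₀ _ hs]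
    rw [hr1, hs1] at h1
    simpa using h1
  have hne : ∀ p : L[X], p.coeff 0 ≠ 0 → residue V (FrEv V hL w p) ≠ 0 := by
    intro p hp
    rw [Fr_res V hL w hw]
    exact (map_ne_zero ((residue V).comp (FrC V hL))).mpr hp
  rcases le_or_gt e a with hea | hea
  · have h2 : (⟨b, hbV⟩ : V) * FrEv V hL w s1 = w ^ (a - e) * FrEv V hL w r1 := by
      apply mul_left_cancel₀ (pow_ne_zero e hw0)
      calc w ^ e * (⟨b, hbV⟩ * FrEv V hL w s1) = ⟨b, hbV⟩ * (w ^ e * FrEv V hL w s1) := by ring
        _ = w ^ a * FrEv V hL w r1 := key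
        _ = w ^ e * (w ^ (a - e) * FrEv V hL w r1) := by
          rw [← mul_assoc, ← pow_add, Nat.add_sub_cancel' hea]
    have h3 := congrArg (residue V) h2
    rw [map_mul, map_mul, map_pow, hw, Fr_res V hL w hw, Fr_res V hL w hw] at h3
    have h4 : residue V (FrC V hL (s1.coeff 0)) ≠ 0 := by
      have := hne s1 hs2
      rwa [Fr_res V hL w hw] at this
    refine ⟨0 ^ (a - e) * r1.coeff 0 / s1.coeff 0, ?_⟩
    have h5 : ((residue V).comp (FrC V hL)) (0 ^ (a - e) * r1.coeff 0 / s1.coeff 0) =
      0 ^ (a - e) * residue V (FrC V hL (r1.coeff 0)) / residue V (FrC V hL (s1.coeff 0)) := by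
      rw [map_div₀, map_mul, map_pow, map_zero]
      rfl
    rw [RingHom.comp_apply] at h5
    rw [h5, ← h3, mul_div_cancel_right₀ _ h4]
  · exfalso
    have h2 : (⟨b, hbV⟩ : V) * (w ^ (e - a) * FrEv V hL w s1) = FrEv V hL w r1 := by
      apply mul_left_cancel₀ (pow_ne_zero a hw0)
      calc w ^ a * (⟨b, hbV⟩ * (w ^ (e - a) * FrEv V hL w s1))
          = ⟨b, hbV⟩ * ((w ^ a * w ^ (e - a)) * FrEv V hL w s1) := by ring
        _ = ⟨b, hbV⟩ * (w ^ e * FrEv V hL w s1) := by
          rw [← pow_add, Nat.add_sub_cancel' hea.le]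
        _ = w ^ a * FrEv V hL w r1 := key
    have h3 := congrArg (residue V) h2
    rw [map_mul, map_mul, map_pow, hw, zero_pow (by omega), zero_mul, mul_zero] at h3
    exact hne r1 hr2 h3.symm

include hL in
/-- A nonzero element of the maximal ideal is transcendental over the constants. -/
theorem Fr_tr (w : V) (hw : residue V w = 0) (hw0 : w ≠ 0) : Transcendental L (w : E) := by
  rintro ⟨p, hp, h⟩
  obtain ⟨a, q, rfl, hq⟩ := Fr_fac p hp
  rw [map_mul, map_pow, aeval_X, mul_eq_zero, pow_eq_zero_iff'] at h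
  rcases h with h | h
  · exact hw0 (Subtype.ext h.1)
  · have h1 : FrEv V hL w q = 0 := Subtype.ext (by rw [Fr_coe, h]; rfl)
    have h2 := Fr_res V hL w hw q
    rw [h1, map_zero] at h2
    exact hq ((map_eq_zero ((residue V).comp (FrC V hL))).mp h2.symm)

/-- The degree over the field generated by a transcendental element. -/
theorem Fr_fin (hfg : (⊤ : IntermediateField L E).FG) (htr : Algebra.trdeg L E ≤ 1) (w : E)
    (hw : Transcendental L w) : FiniteDimensional L⟮w⟯ E := by
  have h1 : AlgebraicIndependent L (fun _ : Unit => w) := by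
    rw [algebraicIndependent_unique_type_iff]
    exact hw
  have h2 : IsTranscendenceBasis L (fun _ : Unit => w) :=
    h1.isTranscendenceBasis_of_trdeg_le_of_finite (by simpa using htr)
  have h3 := h2.isAlgebraic_field
  rw [Set.range_const] at h3
  obtain ⟨S, hS⟩ := hfg
  have h4 : IntermediateField.adjoin L⟮w⟯ (S : Set E) = ⊤ := by
    rw [eq_top_iff]
    intro y _
    have h5 : y ∈ IntermediateField.adjoin L (S : Set E) := by rw [hS]; trivial
    have h6 : IntermediateField.adjoin L (S : Set E) ≤
        (IntermediateField.adjoin L⟮w⟯ (S : Set E)).restrictScalars L :=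
      IntermediateField.adjoin_le_iff.mpr
        (IntermediateField.subset_adjoin L⟮w⟯ (S : Set E))
    exact h6 h5
  have h7 : FiniteDimensional L⟮w⟯ (IntermediateField.adjoin L⟮w⟯ (S : Set E)) :=
    IntermediateField.finiteDimensional_adjoin fun x _ => (h3.isAlgebraic x).isIntegral
  rw [h4] at h7
  exact Module.Finite.equiv (IntermediateField.topEquiv (F := L⟮w⟯) (E := E)).toLinearEquiv

end Fr

/-- D12b (Fr.lean): the residue field of a place of a function field of one variable is finite over
the field of constants. -/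
theorem fin_res {L E : Type} [Field L] [Field E] [Algebra L E] (hfg : (⊤ : IntermediateField L E).FG)
    (htr : Algebra.trdeg L E ≤ 1) (V : ValuationSubring E) (hV : IsDiscreteValuationRing V)
    (hL : ∀ c : L, algebraMap L E c ∈ V) :
    @Module.Finite L (ResidueField V) _ _
      (((residue V).comp ((algebraMap L E).codRestrict V.toSubring hL)).toAlgebra.toModule) := by
  classical
  let _ : Algebra L (ResidueField V) :=
    ((residue V).comp ((algebraMap L E).codRestrict V.toSubring hL)).toAlgebra
  have hsmul : ∀ (c : L) (z : ResidueField V), c • z = residue V (FrC V hL c) * z := fun c z => rfl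
  obtain ⟨w, hw⟩ := IsDiscreteValuationRing.exists_irreducible V
  have hw1 : residue V w = 0 := (residue_eq_zero_iff w).mpr hw.1
  have hw0 : w ≠ 0 := hw.ne_zero
  have hfin := Fr_fin hfg htr (w : E) (Fr_tr V hL w hw1 hw0)
  have hrank : Module.rank L (ResidueField V) ≤ (Module.finrank L⟮(w : E)⟯ E : ℕ) := by
    apply rank_le
    intro s hs
    choose y hy using fun z : s => residue_surjective (R := V) (z : ResidueField V)
    have hli : LinearIndependent L⟮(w : E)⟯ (fun z : s => (y z : E)) := by
      rw [Fintype.linearIndependent_iff]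
      intro g hg
      by_contra hne
      push Not at hne
      obtain ⟨i1, hi1⟩ := hne
      obtain ⟨i0, _, hi0⟩ := Finset.exists_max_image Finset.univ
        (fun i => V.valuation (g i : E)) ⟨i1, Finset.mem_univ _⟩
      have h0 : (g i0 : E) ≠ 0 := by
        intro h
        have h1 := hi0 i1 (Finset.mem_univ _)
        rw [h, map_zero, le_zero_iff, map_eq_zero] at h1
        exact hi1 (Subtype.ext h1)
      have hV1 : ∀ i, (g i : E) / (g i0 : E) ∈ V := by
        intro i
        rw [← V.valuation_le_one_iff, map_div₀]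
        exact div_le_one_of_le₀ (hi0 i (Finset.mem_univ _)) zero_le
      have hK : ∀ i, (g i : E) / (g i0 : E) ∈ L⟮(w : E)⟯ := fun i => (g i / g i0).2
      choose c hc using fun i => Fr_adj V hL w hw1 hw0 _ (hK i) (hV1 i)
      have hsum : ∑ i, (⟨_, hV1 i⟩ : V) * y i = 0 := by
        apply Subtype.ext
        push_cast
        have h1 : ∑ i, (g i : E) * (y i : E) = 0 := hg
        calc ∑ i, (g i : E) / (g i0 : E) * (y i : E)
            = (g i0 : E)⁻¹ * ∑ i, (g i : E) * (y i : E) := by
              rw [Finset.mul_sum]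
              refine Finset.sum_congr rfl fun i _ => ?_
              ring
          _ = 0 := by rw [h1, mul_zero]
      have h2 := congrArg (residue V) hsum
      rw [map_sum, map_zero] at h2
      have h3 : ∑ i, c i • ((i : s) : ResidueField V) = 0 := by
        rw [← h2]
        refine Finset.sum_congr rfl fun i _ => ?_
        rw [hsmul, map_mul, hy, hc]
      have h4 := (Fintype.linearIndependent_iff.mp hs) c h3 i0
      have h5 := hc i0
      rw [h4, map_zero, map_zero] at h5
      have h6 : (⟨_, hV1 i0⟩ : V) = 1 := Subtype.ext (div_self h0)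
      rw [h6, map_one] at h5
      exact one_ne_zero h5
    have := hli.fintype_card_le_finrank
    simpa using this
  exact Module.rank_lt_aleph0_iff.mp (hrank.trans_lt (Cardinal.natCast_lt_aleph0))

end Pool.Agent.Lib.MP_b197b4_ntKE
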