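import Pool.Agent.Lib.MP_b197b4_ntKE.Fs
import Pool.Agent.Lib.MP_b197b4_ntKE.Fr
import Pool.Agent.Lib.MP_b197b4_ntA.XFin

/-!
# MP_b197b4_nt, project K1-ALL-DESC: D12c, the residue field of `V` is finite over the residue field
of its centre
-/

set_option autoImplicit false

namespace Pool.Agent.Lib.MP_b197b4_ntKE

open IsLocalRing Pool.Agent.Lib.MP_b197b4_ntK Pool.Agent.Lib.MP_b197b4_ntA
  Pool.Agent.Lib.MP_b197b4_ntKD Polynomial IntermediateField

section Fc

/-- The statement for fields. -/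
theorem Fc_core {k κ E : Type} [Field k] [Field κ] [Field E] [Algebra k κ] [Algebra k E]
    (hE : FunF k E 2) (V : ValuationSubring E) (hV : IsDiscreteValuationRing V)
    (φ : κ →+* ResidueField V) (hc : ∀ c : k, algebraMap k E c ∈ V)
    (hcφ : ∀ c : k, residue V ⟨algebraMap k E c, hc c⟩ = φ (algebraMap k κ c))
    (t : κ) (ht : Transcendental k t) (w : E) (hw : w ∈ V) (hwt : residue V ⟨w, hw⟩ = φ t) :
    @Module.Finite κ (ResidueField V) _ _ φ.toAlgebra.toModule := by
  classical
  -- the value of a polynomial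
  let ev : k[X] →+* V := Polynomial.eval₂RingHom
    ((algebraMap k E).codRestrict V.toSubring hc) ⟨w, hw⟩
  have hev : ∀ p : k[X], ((ev p : V) : E) = aeval w p := by
    intro p
    have h := Polynomial.hom_eval₂ p ((algebraMap k E).codRestrict V.toSubring hc) V.subtype
      ⟨w, hw⟩
    rw [aeval_def]
    exact h
  have hres : ∀ p : k[X], residue V (ev p) = φ (aeval t p) := by
    intro p
    have h : (residue V).comp ev = φ.comp (aeval t : k[X] →ₐ[k] κ).toRingHom := by
      refine Polynomial.ringHom_ext (fun c => ?_) ?_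
      · have h1 : ev (C c) = ⟨algebraMap k E c, hc c⟩ := by
          apply Subtype.ext
          rw [hev, aeval_C]
        show residue V (ev (C c)) = φ (aeval t (C c))
        rw [h1, hcφ, aeval_C]
      · have h1 : ev X = ⟨w, hw⟩ := by
          apply Subtype.ext
          rw [hev, aeval_X]
        show residue V (ev X) = φ (aeval t X)
        rw [h1, hwt, aeval_X]
    exact congrArg (fun f : k[X] →+* ResidueField V => f p) h
  have hunit : ∀ p : k[X], p ≠ 0 → IsUnit (ev p) := by
    intro p hp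
    rw [← residue_ne_zero_iff_isUnit, hres]
    intro h0
    exact ht ⟨p, hp, (map_eq_zero φ).mp h0⟩
  have hwtr : Transcendental k w := by
    rintro ⟨p, hp, h0⟩
    have h1 : ev p = 0 := by
      apply Subtype.ext
      rw [hev, h0]
      rfl
    have h2 := hunit p hp
    rw [h1] at h2
    exact not_isUnit_zero h2
  -- the field `k(w)` is contained in `V`
  have hL : ∀ c : k⟮w⟯, ∃ (h : algebraMap k⟮w⟯ E c ∈ V), ∃ z : κ,
      residue V ⟨algebraMap k⟮w⟯ E c, h⟩ = φ z := by
    intro c
    obtain ⟨r, s, h⟩ := (mem_adjoin_simple_iff k _).mp c.2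
    have hcE : algebraMap k⟮w⟯ E c = aeval w r / aeval w s := h
    by_cases hs : s = 0
    · have h0 : algebraMap k⟮w⟯ E c = 0 := by rw [hcE, hs, map_zero, div_zero]
      have hm : algebraMap k⟮w⟯ E c ∈ V := by
        rw [h0]
        exact V.zero_mem
      refine ⟨hm, 0, ?_⟩
      have h1 : (⟨algebraMap k⟮w⟯ E c, hm⟩ : V) = 0 := Subtype.ext h0
      rw [h1, map_zero, map_zero]
    · obtain ⟨u, hu⟩ := hunit s hs
      have hs0 : aeval w s ≠ 0 := by
        rw [← hev]
        intro h0
        have h1 : ev s = 0 := Subtype.ext h0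
        rw [h1] at hu
        exact u.ne_zero hu
      have hinv : ((((u⁻¹ : Vˣ) : V)) : E) = (aeval w s)⁻¹ := by
        rw [← hev s, ← hu]
        apply eq_inv_of_mul_eq_one_left
        have h1 := congrArg (Subtype.val) u.inv_mul
        exact h1
      have hcV : algebraMap k⟮w⟯ E c = ((ev r * ((u⁻¹ : Vˣ) : V) : V) : E) := by
        rw [hcE, div_eq_mul_inv, ← hinv, ← hev r]
        rfl
      have hm : algebraMap k⟮w⟯ E c ∈ V := by
        rw [hcV]
        exact (ev r * ((u⁻¹ : Vˣ) : V) : V).2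
      refine ⟨hm, aeval t r * (aeval t s)⁻¹, ?_⟩
      have h1 : (⟨algebraMap k⟮w⟯ E c, hm⟩ : V) = ev r * ((u⁻¹ : Vˣ) : V) := Subtype.ext hcV
      rw [h1, map_mul, map_mul, hres, map_inv₀]
      congr 1
      apply eq_inv_of_mul_eq_one_left
      rw [← hres s, ← hu, ← map_mul, u.inv_mul, map_one]
  have hLV : ∀ c : k⟮w⟯, algebraMap k⟮w⟯ E c ∈ V := fun c => (hL c).1
  -- the transcendence degree
  obtain ⟨hfg, htr⟩ := hE
  have h1 : Algebra.trdeg k (IntermediateField.adjoin k {w}) ≠ 0 := by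
    rw [trdeg_ne_zero_iff]
    refine ⟨⟨IntermediateField.AdjoinSimple.gen k w, ?_⟩⟩
    intro h
    apply hwtr
    exact h.algebraMap (A := E)
  have h2 := trdeg_add_eq k (IntermediateField.adjoin k {w}) (A := E)
  have h3 : Algebra.trdeg (IntermediateField.adjoin k {w}) E ≤ 1 := by
    have a1 := Cardinal.one_le_iff_ne_zero.mpr h1
    rw [htr] at h2
    have a2 : (1 : Cardinal) + Algebra.trdeg (IntermediateField.adjoin k {w}) E ≤ 1 + 1 := by
      calc (1 : Cardinal) + Algebra.trdeg (IntermediateField.adjoin k {w}) E ≤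
          Algebra.trdeg k (IntermediateField.adjoin k {w}) +
            Algebra.trdeg (IntermediateField.adjoin k {w}) E := add_le_add a1 le_rfl
        _ = 1 + 1 := by
          rw [h2]
          norm_num
    rw [add_comm (1 : Cardinal) (Algebra.trdeg _ _)] at a2
    exact (Cardinal.add_le_add_iff_of_lt_aleph0 Cardinal.one_lt_aleph0).mp a2
  have hfin := fin_res (L := k⟮w⟯) (xfin_fg hfg _) h3 V hV hLV
  obtain ⟨s, hs⟩ := hfin.fg_top
  let _ : Algebra κ (ResidueField V) := φ.toAlgebra
  refine ⟨⟨s, ?_⟩⟩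
  rw [eq_top_iff]
  intro y _
  let _ : Algebra k⟮w⟯ (ResidueField V) :=
    ((residue V).comp ((algebraMap k⟮w⟯ E).codRestrict V.toSubring hLV)).toAlgebra
  have hy : y ∈ Submodule.span k⟮w⟯ (s : Set (ResidueField V)) := by
    rw [hs]
    trivial
  refine Submodule.span_induction (fun z hz => Submodule.subset_span hz)
    (Submodule.zero_mem _) (fun a b _ _ ha hb => Submodule.add_mem _ ha hb)
    (fun c a _ ha => ?_) hy
  obtain ⟨z, hz⟩ := (hL c).2
  have h4 : c • a = z • a := by
    show residue V ⟨algebraMap k⟮w⟯ E c, hLV c⟩ * a = φ z * a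
    rw [hz]
  rw [h4]
  exact Submodule.smul_mem _ z ha

end Fc

/-- D12c (Fc.lean), from D12b: the residue field of `V` is finite over the residue field of its
centre. -/
theorem fin_cen {k F : Type} [Field k] [Field F] [Algebra k F] {n d : ℕ}
    {x : Fin (n + 1) → F} (hx : Var k d x) {S P : LocalSubring F} (hS : S ∈ Pts k x 2)
    (hP : P ∈ Pts k x 1) {V : ValuationSubring (Kap S)} (hV : IsDiscreteValuationRing V)
    (hc : Cen P S V) (φ : Kap P →+* ResidueField V) (hφ : Emb P S V φ) :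
    @Module.Finite (Kap P) (ResidueField V) _ _ φ.toAlgebra.toModule := by
  have hfg : ∀ i, (cht k x i).FG := fun i =>
    ⟨(Set.finite_range fun j => x j / x i).toFinset, by
      rw [Set.Finite.coe_toFinset]
      rfl⟩
  have hcS : ∀ c : k, algebraMap k F c ∈ S.toSubring := by
    obtain ⟨i, Q, hQ, -, rfl⟩ := hS
    exact fun c => LocalSubring.le_ofPrime _ Q (Subalgebra.algebraMap_mem _ c)
  have hcP : ∀ c : k, algebraMap k F c ∈ P.toSubring := by
    obtain ⟨i, Q, hQ, -, rfl⟩ := hP
    exact fun c => LocalSubring.le_ofPrime _ Q (Subalgebra.algebraMap_mem _ c)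
  let iS : Algebra k (Kap S) := (conK k S hcS).toAlgebra
  let iP : Algebra k (Kap P) := (conK k P hcP).toAlgebra
  have hE : FunF k (Kap S) 2 := by
    obtain ⟨i, Q, hQ, hd, rfl⟩ := hS
    exact (fs_kap (cht k x i) (hfg i) Q hd iS fun c _ => rfl).1
  have h1 : FunF k (Kap P) 1 := by
    obtain ⟨i, Q, hQ, hd, rfl⟩ := hP
    exact (fs_kap (cht k x i) (hfg i) Q (by exact_mod_cast hd) iP fun c _ => rfl).1
  have hne : Algebra.trdeg k (Kap P) ≠ 0 := by
    rw [h1.2]
    simp
  rw [trdeg_ne_zero_iff] at hne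
  obtain ⟨t, ht⟩ := hne.transcendental
  obtain ⟨⟨y, hy⟩, rfl⟩ := residue_surjective t
  have hyS : y ∈ S.toSubring := hc.1 hy
  have hV1 : ∀ (z : F) (hzP : z ∈ P.toSubring) (hzS : z ∈ S.toSubring)
      (hzV : residue S.toSubring ⟨z, hzS⟩ ∈ V),
      residue V ⟨residue S.toSubring ⟨z, hzS⟩, hzV⟩ = φ (residue _ ⟨z, hzP⟩) := by
    intro z hzP hzS hzV
    rw [hφ z hzP hzS]
    unfold res
    rw [dif_pos hzV]
  refine Fc_core hE V hV φ (fun c => ((hc.2 _ (hcP c) (hcS c)).1)) (fun c => ?_)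
    (residue _ ⟨y, hy⟩) ht (residue _ ⟨y, hyS⟩) (hc.2 y hy hyS).1 (hV1 y hy hyS _)
  exact hV1 _ (hcP c) (hcS c) _

end Pool.Agent.Lib.MP_b197b4_ntKE
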