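import Mathlib
import Pool.Agent.Lib.MP_b197b4_ntKE.Defs
import Pool.Agent.Lib.MP_b197b4_ntKD.Fib

/-!
# MP_b197b4_nt, project K1-ALL-DESC: the residue field of a pair is generated by the two residue
fields
-/

set_option autoImplicit false

namespace Pool.Agent.Lib.MP_b197b4_ntKE

open IsLocalRing Polynomial Pool.Agent.Lib.MP_b197b4_ntK Pool.Agent.Lib.MP_b197b4_ntA
  Pool.Agent.Lib.MP_b197b4_ntKD Pool.Agent.Lib.MP_b197b4_ntKR

section

variable {k k' ℓ L : Type} [Field k] [Field k'] [Field ℓ] [Field L] [Algebra k k'] [Algebra k ℓ]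
  [Algebra k' L] [Algebra ℓ L]

/-- Every element of a valuation ring is a quotient of polynomials in a constant over the trace of
the valuation ring, the denominator a unit. -/
theorem gn_frac (h : BC k k' ℓ L) (W' : ValuationSubring L)
    (hk : ∀ c : k, algebraMap ℓ L (algebraMap k ℓ c) ∈ W') {x : L} (hx : x ∈ W') :
    ∃ (θ : k') (Y Z : (W'.comap (algebraMap ℓ L) : Type)[X]),
      W'.valuation (aeval (algebraMap k' L θ) Y) = 1 ∧
      x * aeval (algebraMap k' L θ) Y = aeval (algebraMap k' L θ) Z := by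
  have := h.sep
  let _ : Algebra k L := ((algebraMap k' L).comp (algebraMap k k')).toAlgebra
  have : IsScalarTower k k' L := IsScalarTower.of_algebraMap_eq fun _ => rfl
  have : IsScalarTower k ℓ L := IsScalarTower.of_algebraMap_eq fun c => h.comm c
  have hcg : CG k ℓ L := h.cg
  have hall : ∀ y : L, y ∈ Algebra.adjoin k' (Set.range (algebraMap ℓ L)) := by
    intro y
    have h1 := h.gen y
    induction h1 using Algebra.adjoin_induction with
    | mem y hy =>
      obtain ⟨c, rfl⟩ := hy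
      exact Subalgebra.algebraMap_mem _ c
    | algebraMap r => exact Algebra.subset_adjoin ⟨r, rfl⟩
    | add a b _ _ ha hb => exact Subalgebra.add_mem _ ha hb
    | mul a b _ _ ha hb => exact Subalgebra.mul_mem _ ha hb
  obtain ⟨θ, p, hp⟩ := exists_form (A := ℓ) (S := L) k x (hall x)
  have hxθ : x ∈ Algebra.adjoin ℓ {algebraMap k' L θ} := by
    rw [← hp]
    exact aeval_mem_adjoin_singleton ℓ _
  by_cases hx0 : x = 0
  · refine ⟨θ, 1, 0, ?_, ?_⟩
    · rw [map_one, map_one]
    · rw [hx0, zero_mul, map_zero]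
  obtain ⟨y, hy, hy1, hyi, hxyi⟩ := ep (ℓ := ℓ) W' hx hx0 (hcg.alg x)
  have hle : Algebra.adjoin ℓ {x} ≤ Algebra.adjoin ℓ {algebraMap k' L θ} := by
    rw [Algebra.adjoin_le_iff, Set.singleton_subset_iff]
    exact hxθ
  have hθ : IsIntegral k (algebraMap k' L θ) :=
    (Algebra.IsIntegral.isIntegral (R := k) θ).algebraMap
  have hθs : IsSeparable ℓ (algebraMap k' L θ) := by
    refine sep_of (k := k) (g := minpoly k θ) (Algebra.IsSeparable.isSeparable k θ) ?_
    rw [aeval_algebraMap_apply, minpoly.aeval, map_zero]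
  have hkW : ∀ c : k, algebraMap k ℓ c ∈ W'.comap (algebraMap ℓ L) := fun c =>
    ValuationSubring.mem_comap.mpr (hk c)
  obtain ⟨Y, hY⟩ := disc_lemma (k := k) _ hkW hθ hθs (hle hy) hyi
  obtain ⟨Z, hZ⟩ := disc_lemma (k := k) _ hkW hθ hθs
    ((Algebra.adjoin ℓ {algebraMap k' L θ}).mul_mem hxθ (hle hy)) hxyi
  exact ⟨θ, Y, Z, by rw [hY]; exact hy1, by rw [hY, hZ]⟩

/-- The residue field of a valuation ring is generated by the constants and the residue field of
its trace. -/
theorem gn_core (h : BC k k' ℓ L) (W' : ValuationSubring L)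
    (hk : ∀ c : k, algebraMap ℓ L (algebraMap k ℓ c) ∈ W') (R : Subring (ResidueField W'))
    (hR1 : ∀ c : k', res W' (algebraMap k' L c) ∈ R)
    (hR2 : ∀ y ∈ W'.comap (algebraMap ℓ L), res W' (algebraMap ℓ L y) ∈ R)
    (z : ResidueField W') : z ∈ R := by
  have hsep := h.sep
  obtain ⟨x, hx, rfl⟩ := MP_b197b4_ntKD.res_surj (V := W') z
  obtain ⟨θ, Y, Z, hY, hZ⟩ := gn_frac h W' hk hx
  have hθW : algebraMap k' L θ ∈ W' := h.const_mem W' hk θ
  -- the homomorphism to the residue field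
  obtain ⟨r, hr⟩ : ∃ r : (W'.comap (algebraMap ℓ L) : Type) →+* ResidueField W',
      ∀ y, r y = res W' (algebraMap ℓ L (y : ℓ)) :=
    ⟨(residue W').comp (vm (algebraMap ℓ L) W'), fun y => by
      rw [MP_b197b4_ntKD.res_of_mem (ValuationSubring.mem_comap.mp y.2)]
      rfl⟩
  have hmem : ∀ P : (W'.comap (algebraMap ℓ L) : Type)[X], aeval (algebraMap k' L θ) P ∈ W' ∧
      res W' (aeval (algebraMap k' L θ) P) = eval₂ r (res W' (algebraMap k' L θ)) P := by
    intro P
    obtain ⟨j, hj⟩ : ∃ j : (W'.comap (algebraMap ℓ L) : Type)[X] →+* W',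
        j = eval₂RingHom (vm (algebraMap ℓ L) W') ⟨algebraMap k' L θ, hθW⟩ := ⟨_, rfl⟩
    have h1 : ∀ P, ((j P : W') : L) = aeval (algebraMap k' L θ) P := by
      intro P
      rw [hj, coe_eval₂RingHom]
      change W'.subtype _ = _
      rw [hom_eval₂]
      rfl
    have h2 : aeval (algebraMap k' L θ) P ∈ W' := h1 P ▸ (j P).2
    refine ⟨h2, ?_⟩
    rw [← h1 P, MP_b197b4_ntKD.res_of_mem (j P).2]
    change residue W' (j P) = _
    rw [hj, coe_eval₂RingHom, hom_eval₂, MP_b197b4_ntKD.res_of_mem hθW]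
    congr 1
    refine RingHom.ext fun y => ?_
    rw [hr, MP_b197b4_ntKD.res_of_mem (ValuationSubring.mem_comap.mp y.2)]
    rfl
  have hmemR : ∀ P : (W'.comap (algebraMap ℓ L) : Type)[X],
      res W' (aeval (algebraMap k' L θ) P) ∈ R := by
    intro P
    rw [(hmem P).2, eval₂_eq_sum_range]
    refine R.sum_mem fun i _ => R.mul_mem ?_ (R.pow_mem (hR1 θ) _)
    rw [hr]
    exact hR2 _ (P.coeff i).2
  have hYm := hmemR Y
  have hZm := hmemR Z
  have hY0 : res W' (aeval (algebraMap k' L θ) Y) ≠ 0 :=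
    (MP_b197b4_ntKD.res_ne_zero_iff (hmem Y).1).mpr hY
  have hxe : res W' x = res W' (aeval (algebraMap k' L θ) Z) *
      (res W' (aeval (algebraMap k' L θ) Y))⁻¹ := by
    rw [← hZ, MP_b197b4_ntKD.res_mul hx (hmem Y).1, mul_assoc, mul_inv_cancel₀ hY0, mul_one]
  rw [hxe]
  refine R.mul_mem hZm ?_
  -- the inverse of the denominator
  let _ : Algebra (ResidueField (W'.comap (algebraMap ℓ L))) (ResidueField W') :=
    (rmap (algebraMap ℓ L) W').toAlgebra
  obtain ⟨A, hA⟩ : ∃ A : Subalgebra (ResidueField (W'.comap (algebraMap ℓ L))) (ResidueField W'),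
      ∀ y, y ∈ A ↔ y ∈ R := by
    refine ⟨{ R with algebraMap_mem' := ?_ }, fun y => Iff.rfl⟩
    intro c
    obtain ⟨y, hy, rfl⟩ := MP_b197b4_ntKD.res_surj (V := W'.comap (algebraMap ℓ L)) c
    change rmap (algebraMap ℓ L) W' _ ∈ R
    rw [rmap_res]
    exact hR2 y hy
  have hθi : IsIntegral (ResidueField (W'.comap (algebraMap ℓ L)))
      (res W' (algebraMap k' L θ)) := by
    obtain ⟨g, hg, hg0⟩ := Algebra.IsIntegral.isIntegral (R := k) θ
    obtain ⟨c, hc⟩ : ∃ c : k →+* (W'.comap (algebraMap ℓ L) : Type),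
        ∀ a, ((c a : W'.comap (algebraMap ℓ L)) : ℓ) = algebraMap k ℓ a :=
      ⟨(algebraMap k ℓ).codRestrict (W'.comap (algebraMap ℓ L)).toSubring fun a =>
        ValuationSubring.mem_comap.mpr (hk a), fun _ => rfl⟩
    refine ⟨g.map ((residue (W'.comap (algebraMap ℓ L))).comp c), hg.map _, ?_⟩
    have h1 := (hmem (g.map c)).2
    have h2 : aeval (algebraMap k' L θ) (g.map c) = 0 := by
      rw [aeval_def, eval₂_map]
      have h3 : (algebraMap (W'.comap (algebraMap ℓ L)) L).comp c =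
          (algebraMap k' L).comp (algebraMap k k') := by
        refine RingHom.ext fun a => ?_
        rw [RingHom.comp_apply, RingHom.comp_apply, h.comm, ← hc]
        rfl
      rw [h3, ← hom_eval₂, hg0, map_zero]
    rw [h2, MP_b197b4_ntKD.res_zero, eval₂_map] at h1
    rw [eval₂_map, h1]
    congr 1
    refine RingHom.ext fun a => ?_
    change rmap (algebraMap ℓ L) W' (residue _ (c a)) = r (c a)
    rw [hr, ← rmap_res, MP_b197b4_ntKD.res_of_mem (c a).2]
  have hYi : IsIntegral (ResidueField (W'.comap (algebraMap ℓ L)))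
      (res W' (aeval (algebraMap k' L θ) Y)) := by
    rw [(hmem Y).2, eval₂_eq_sum_range]
    refine IsIntegral.sum _ fun i _ => IsIntegral.mul ?_ (hθi.pow _)
    rw [hr, ← rmap_res]
    exact isIntegral_algebraMap
  obtain ⟨w, hw⟩ : ∃ w : A, (w : ResidueField W') = res W' (aeval (algebraMap k' L θ) Y) :=
    ⟨⟨_, (hA _).mpr hYm⟩, rfl⟩
  have hwi := A.inv_mem_of_algebraic (x := w) (by rw [hw]; exact hYi.isAlgebraic)
  rw [hw] at hwi
  exact (hA _).mp hwi

end

section

variable {k k' F K : Type} [Field k] [Field k'] [Field F] [Field K] [Algebra k k'] [Algebra k F]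
  [Algebra k' K] [Algebra F K] {n : ℕ} {x : Fin (n + 1) → F}

omit [Field k] [Field F] [Algebra k k'] [Algebra k F] [Algebra F K] in
/-- The constants are in the local rings of the points. -/
theorem gn_const {m : ℕ} {x' : Fin (m + 1) → K} {e : ℕ} {P' : LocalSubring K}
    (hP' : P' ∈ Pts k' x' e) (c : k') : algebraMap k' K c ∈ P'.toSubring := by
  obtain ⟨i, Q, hQ, -, rfl⟩ := hP'
  exact LocalSubring.le_ofPrime _ Q ((cht k' x' i).algebraMap_mem c)

/-- The residue field of a pair is generated by the two residue fields. -/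
theorem gn_pair (h : BC k k' F K) {P' : LocalSubring K} {e : ℕ}
    (hP' : P' ∈ Pts k' (fun i => algebraMap F K (x i)) e) {q : PV K}
    (h1 : ∀ c : k, algebraMap k F c ∈ (dn (algebraMap F K) q.1).toSubring)
    (h2 : ∀ c : k', algebraMap k' K c ∈ q.1.toSubring)
    (hbc : @BC k k' (Kap (dn (algebraMap F K) q.1)) (Kap q.1) _ _ _ _ _ (conK k _ h1).toAlgebra
      (conK k' _ h2).toAlgebra (kmap (algebraMap F K) q.1).toAlgebra)
    (hc : Cen P' q.1 q.2)
    (φ : Kap P' →+* ResidueField q.2) (hφ : Emb P' q.1 q.2 φ) (z : ResidueField q.2) :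
    z ∈ Subring.closure (Set.range φ ∪ {w | ∃ (y : F) (s : algebraMap F K y ∈ q.1.toSubring),
      residue _ ⟨algebraMap F K y, s⟩ ∈ q.2 ∧
        w = res q.2 (residue _ ⟨algebraMap F K y, s⟩)}) := by
  have h2P : ∀ c : k', algebraMap k' K c ∈ P'.toSubring := gn_const hP'
  refine @gn_core k k' (Kap (dn (algebraMap F K) q.1)) (Kap q.1) _ _ _ _ _
    (conK k _ h1).toAlgebra (conK k' _ h2).toAlgebra (kmap (algebraMap F K) q.1).toAlgebra hbc
    q.2 ?_ _ ?_ ?_ z
  · intro c
    change kmap (algebraMap F K) q.1 (residue _ ⟨algebraMap k F c, h1 c⟩) ∈ q.2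
    rw [kmap_residue (algebraMap F K) q.1 _ (h1 c) (h1 c)]
    have h3 : algebraMap F K (algebraMap k F c) ∈ P'.toSubring := by
      rw [← h.comm]
      exact h2P _
    exact (hc.2 _ h3 _).1
  · intro c
    refine Subring.subset_closure (Or.inl ⟨residue _ ⟨algebraMap k' K c, h2P c⟩, ?_⟩)
    rw [hφ _ (h2P c) (h2 c)]
    rfl
  · intro y hy
    obtain ⟨⟨y, hyS⟩, rfl⟩ := residue_surjective y
    refine Subring.subset_closure (Or.inr ⟨y, hyS, ?_, ?_⟩)
    · exact ValuationSubring.mem_comap.mp hy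
    · rfl

end

end Pool.Agent.Lib.MP_b197b4_ntKE
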