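import Mathlib
import Pool.Agent.Lib.MP_b197b4_ntKE.Kap
import Pool.Agent.Lib.MP_b197b4_ntKE.Gn0

/-!
# MP_b197b4_nt, project K1-ALL-DESC: the residue field of a pair is generated by the two residue
fields
-/

set_option autoImplicit false

namespace Pool.Agent.Lib.MP_b197b4_ntKE

open IsLocalRing Pool.Agent.Lib.MP_b197b4_ntK Pool.Agent.Lib.MP_b197b4_ntA
  Pool.Agent.Lib.MP_b197b4_ntKD

section

variable {k k' F K : Type} [Field k] [Field k'] [Field F] [Field K] [Algebra k k'] [Algebra k F]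
  [Algebra k' K] [Algebra F K] {n d : ℕ} {x : Fin (n + 1) → F}

/-- D13c (Gn.lean): the residue field of a pair is generated by the two residue fields. -/
theorem pair_gen (h : BC k k' F K) (hx : Var k d x) {P' : LocalSubring K}
    (hP' : P' ∈ Pts k' (fun i => algebraMap F K (x i)) 1) {p : PV F} {q : PV K}
    (hq : q ∈ PVo k' (fun i => algebraMap F K (x i)) (algebraMap F K) P' p)
    (φ : Kap P' →+* ResidueField q.2) (hφ : Emb P' q.1 q.2 φ) (z : ResidueField q.2) :
    z ∈ Subring.closure (Set.range φ ∪ {w | ∃ (y : F) (s : algebraMap F K y ∈ q.1.toSubring),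
      residue _ ⟨algebraMap F K y, s⟩ ∈ q.2 ∧
        w = res q.2 (residue _ ⟨algebraMap F K y, s⟩)}) := by
  obtain ⟨hq1, hq2, hc, hqp⟩ := hq
  have h2 : ∀ c : k', algebraMap k' K c ∈ q.1.toSubring := gn_const hq1
  have h1 : ∀ c : k, algebraMap k F c ∈ (dn (algebraMap F K) q.1).toSubring := by
    intro c
    rw [mem_dn, ← h.comm]
    exact h2 _
  exact gn_pair h hP' h1 h2 (kap_bc h hx hq1 h1 h2) hc φ hφ z

end

end Pool.Agent.Lib.MP_b197b4_ntKE
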