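import Mathlib
import Pool.Agent.Lib.MP_b197b4_ntKD.Cor3
import Pool.Agent.Lib.MP_b197b4_ntKD.Fib

/-!
# MP_b197b4_nt, project K1-ALL-DESC, D13a: valuation rings in extensions by constants and their
residue fields
-/

set_option autoImplicit false

namespace Pool.Agent.Lib.MP_b197b4_ntKE

open Polynomial IsLocalRing Pool.Agent.Lib.MP_b197b4_ntK

open Pool.Agent.Lib.MP_b197b4_ntKD hiding res_of_mem res_zero res_ne_zero_iff

section rho

variable {E L : Type} [Field E] [Field L] {j : E →+* L} {V : ValuationSubring E}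
  {V' : ValuationSubring L}

/-- The map of `V` to `V'`. -/
def In_sub (h : V'.comap j = V) : V →+* V' :=
  (j.comp V.subtype).codRestrict V'.toSubring fun v => by
    have h1 : (v : E) ∈ V'.comap j := h.symm ▸ v.2
    exact h1

/-- The map of `V` to the residue field of `V'`. -/
noncomputable def In_rho (h : V'.comap j = V) : V →+* ResidueField V' :=
  (residue V').comp (In_sub h)

theorem In_mem (h : V'.comap j = V) {v : E} (hv : v ∈ V) : j v ∈ V' := by
  rw [← h] at hv
  exact hv

theorem In_rho_apply (h : V'.comap j = V) (v : V) : In_rho h v = res V' (j v) := by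
  rw [res_of_mem (In_mem h v.2)]
  rfl

theorem In_eval₂ (h : V'.comap j = V) {t : L} (ht : t ∈ V') (P : V[X]) :
    P.eval₂ (j.comp V.subtype) t = ((P.eval₂ (In_sub h) ⟨t, ht⟩ : V') : L) := by
  have h1 := hom_eval₂ P (In_sub h) V'.subtype ⟨t, ht⟩
  exact h1.symm

theorem In_eval₂_mem (h : V'.comap j = V) {t : L} (ht : t ∈ V') (P : V[X]) :
    P.eval₂ (j.comp V.subtype) t ∈ V' := by
  rw [In_eval₂ h ht]
  exact Subtype.property _

theorem In_res_eval₂ (h : V'.comap j = V) {t : L} (ht : t ∈ V') (P : V[X]) :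
    res V' (P.eval₂ (j.comp V.subtype) t) = P.eval₂ (In_rho h) (res V' t) := by
  rw [In_eval₂ h ht, res_coe, hom_eval₂, res_of_mem ht]
  rfl

/-- The minimal polynomial of a constant. -/
theorem In_min {k : Type} [Field k] (c : k →+* E) (hc : ∀ a, c a ∈ V) (h : V'.comap j = V)
    {m : k[X]} (hm : m.Monic) {t : L} (hr : m.eval₂ (j.comp c) t = 0) :
    t ∈ V' ∧ ∃ M : V[X], M.Monic ∧ Irreducible (M.map V.subtype) ∧
      M.eval₂ (j.comp V.subtype) t = 0 ∧
      ∀ f : E[X], f.eval₂ j t = 0 ↔ M.map V.subtype ∣ f := by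
  let _ : Algebra E L := j.toAlgebra
  let _ : Algebra V L := (j.comp V.subtype).toAlgebra
  have : IsScalarTower V E L := IsScalarTower.of_algebraMap_eq fun _ => rfl
  have hint : IsIntegral V t := by
    refine ⟨m.map (c.codRestrict V.toSubring hc), hm.map _, ?_⟩
    rw [eval₂_map, ← hr]
    rfl
  have htV : t ∈ V' := by
    have h1 : IsIntegral V' t := by
      refine ⟨(m.map (c.codRestrict V.toSubring hc)).map (In_sub h), (hm.map _).map _, ?_⟩
      rw [eval₂_map, eval₂_map, ← hr]
      rfl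
    obtain ⟨y, hy⟩ := IsIntegrallyClosed.isIntegral_iff.mp h1
    rw [← hy]
    exact y.2
  have h2 : minpoly E t = (minpoly V t).map (algebraMap V E) :=
    minpoly.isIntegrallyClosed_eq_field_fractions' E hint
  have hE : IsIntegral E t := hint.tower_top
  refine ⟨htV, minpoly V t, minpoly.monic hint, ?_, minpoly.aeval V t, fun f => ?_⟩
  · have h3 := minpoly.irreducible hE
    rw [h2] at h3
    exact h3
  · have h3 : minpoly E t ∣ f ↔ aeval t f = 0 := minpoly.dvd_iff
    rw [h2] at h3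
    exact h3.symm

end rho

section key

variable {k E E₁ E₂ : Type} [Field k] [Field E] [Field E₁] [Field E₂]

/-- Constants with the same residue classes satisfy the same equations. -/
theorem In_key (c : k →+* E) (j₁ : E →+* E₁) (j₂ : E →+* E₂) (V : ValuationSubring E)
    (hc : ∀ a, c a ∈ V) (V₁ : ValuationSubring E₁) (V₂ : ValuationSubring E₂)
    (h₁ : V₁.comap j₁ = V) (h₂ : V₂.comap j₂ = V) {m : k[X]} (hm : m.Monic) (hs : m.Separable)
    {t₁ : E₁} {t₂ : E₂} (hr₁ : m.eval₂ (j₁.comp c) t₁ = 0) (hr₂ : m.eval₂ (j₂.comp c) t₂ = 0)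
    (θ : ResidueField V₁ ≃+* ResidueField V₂) (hθt : θ (res V₁ t₁) = res V₂ t₂)
    (hθV : ∀ v ∈ V, θ (res V₁ (j₁ v)) = res V₂ (j₂ v)) (f : E[X]) :
    f.eval₂ j₁ t₁ = 0 ↔ f.eval₂ j₂ t₂ = 0 := by
  obtain ⟨ht₁, M₁, hM₁, hi₁, he₁, hd₁⟩ := In_min c hc h₁ hm hr₁
  obtain ⟨ht₂, M₂, hM₂, hi₂, he₂, hd₂⟩ := In_min c hc h₂ hm hr₂
  suffices hMM : M₁.map V.subtype = M₂.map V.subtype by
    rw [hd₁, hd₂, hMM]
  by_contra hne
  have hcop : IsCoprime (M₁.map V.subtype) (M₂.map V.subtype) := by
    rw [hi₁.coprime_iff_not_dvd]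
    intro hdvd
    exact hne (eq_of_monic_of_associated (hM₁.map _) (hM₂.map _)
      (hi₁.associated_of_dvd hi₂ hdvd))
  let cV : k →+* V := c.codRestrict V.toSubring hc
  have hmE : m.map c = (m.map cV).map V.subtype := by
    rw [Polynomial.map_map]
    rfl
  have hdvd : (M₁ * M₂).map V.subtype ∣ (m.map cV).map V.subtype := by
    rw [Polynomial.map_mul, ← hmE]
    refine hcop.mul_dvd ((hd₁ _).1 ?_) ((hd₂ _).1 ?_)
    · rw [eval₂_map]
      exact hr₁
    · rw [eval₂_map]
      exact hr₂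
  have hdvdV : M₁ * M₂ ∣ m.map cV :=
    (map_dvd_map V.subtype Subtype.val_injective (hM₁.mul hM₂)).1 hdvd
  have hsep : ((M₁.map (In_rho h₁)) * (M₂.map (In_rho h₁))).Separable := by
    have h3 : (m.map ((In_rho h₁).comp cV)).Separable := hs.map
    rw [← Polynomial.map_mul]
    refine h3.of_dvd ?_
    rw [← Polynomial.map_map]
    exact Polynomial.map_dvd _ hdvdV
  obtain ⟨a, b, hab⟩ := hsep.isCoprime
  have hρ : (θ : ResidueField V₁ →+* ResidueField V₂).comp (In_rho h₁) = In_rho h₂ := by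
    ext v
    change θ (In_rho h₁ v) = In_rho h₂ v
    rw [In_rho_apply, In_rho_apply]
    exact hθV v v.2
  have hz₁ : (M₁.map (In_rho h₁)).eval (res V₁ t₁) = 0 := by
    rw [eval_map, ← In_res_eval₂ h₁ ht₁, he₁, res_zero]
  have hz₂ : (M₂.map (In_rho h₁)).eval (res V₁ t₁) = 0 := by
    apply θ.injective
    rw [eval_map, map_zero]
    have h3 := hom_eval₂ M₂ (In_rho h₁) (θ : ResidueField V₁ →+* ResidueField V₂) (res V₁ t₁)
    rw [hρ] at h3
    change θ (M₂.eval₂ (In_rho h₁) (res V₁ t₁)) = M₂.eval₂ (In_rho h₂) (θ (res V₁ t₁)) at h3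
    rw [h3, hθt, ← In_res_eval₂ h₂ ht₂, he₂, res_zero]
  have h4 := congrArg (fun p => p.eval (res V₁ t₁)) hab
  simp only [eval_add, eval_mul, hz₁, hz₂, mul_zero, add_zero, eval_one] at h4
  exact zero_ne_one h4

end key

section val

variable {k k' E L : Type} [Field k] [Field k'] [Field E] [Field L] [Algebra k k'] [Algebra k E]
  [Algebra k' L] [Algebra E L]

/-- Every element of the compositum is a polynomial in a constant. -/
theorem In_adjoin (h : BC k k' E L) (z : L) :
    ∃ c : k', z ∈ Algebra.adjoin E {algebraMap k' L c} := by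
  have := h.sep
  let _ : Algebra k L := ((algebraMap k' L).comp (algebraMap k k')).toAlgebra
  have : IsScalarTower k k' L := IsScalarTower.of_algebraMap_eq fun _ => rfl
  have : IsScalarTower k E L := IsScalarTower.of_algebraMap_eq fun c => h.comm c
  have hx : z ∈ Algebra.adjoin k' (Set.range (algebraMap E L)) := by
    have h1 := h.gen z
    induction h1 using Algebra.adjoin_induction with
    | mem y hy =>
      obtain ⟨c, rfl⟩ := hy
      exact Subalgebra.algebraMap_mem _ c
    | algebraMap r => exact Algebra.subset_adjoin ⟨r, rfl⟩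
    | add a b _ _ ha hb => exact Subalgebra.add_mem _ ha hb
    | mul a b _ _ ha hb => exact Subalgebra.mul_mem _ ha hb
  obtain ⟨c, f, hf⟩ := Pool.Agent.Lib.MP_b197b4_ntKR.exists_form k z hx
  exact ⟨c, by rw [← hf]; exact aeval_mem_adjoin_singleton E _⟩

/-- Valuation rings of a compositum with the same trace and the same residue classes. -/
theorem In_val (h : BC k k' E L) (V₁ V₂ : ValuationSubring L)
    (hV : V₁.comap (algebraMap E L) = V₂.comap (algebraMap E L))
    (hk : ∀ c : k, algebraMap E L (algebraMap k E c) ∈ V₁)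
    (θ : ResidueField V₁ ≃+* ResidueField V₂)
    (hθ1 : ∀ c : k', θ (res V₁ (algebraMap k' L c)) = res V₂ (algebraMap k' L c))
    (hθ2 : ∀ v : E, algebraMap E L v ∈ V₁ →
      θ (res V₁ (algebraMap E L v)) = res V₂ (algebraMap E L v)) : V₁ ≤ V₂ := by
  intro z hz
  have := h.sep
  let _ : Algebra k L := ((algebraMap k' L).comp (algebraMap k k')).toAlgebra
  have : IsScalarTower k k' L := IsScalarTower.of_algebraMap_eq fun _ => rfl
  have : IsScalarTower k E L := IsScalarTower.of_algebraMap_eq fun c => h.comm c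
  by_cases hz0 : z = 0
  · rw [hz0]
    exact V₂.zero_mem
  have hkW : ∀ c : k, algebraMap k E c ∈ V₁.comap (algebraMap E L) := hk
  have hk2 : ∀ c : k, algebraMap E L (algebraMap k E c) ∈ V₂ := fun c => by
    have h1 := hkW c
    rw [hV] at h1
    exact h1
  obtain ⟨c, hc⟩ := In_adjoin h z
  have hθi : IsIntegral k (algebraMap k' L c) :=
    (Algebra.IsIntegral.isIntegral (R := k) c).algebraMap
  have hθs : IsSeparable E (algebraMap k' L c) := by
    have h1 : (minpoly k c).Separable := Algebra.IsSeparable.isSeparable k c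
    refine sep_of (k := k) h1 ?_
    rw [aeval_algebraMap_apply, minpoly.aeval, map_zero]
  have ht1 : algebraMap k' L c ∈ V₁ := h.const_mem V₁ hk c
  have ht2 : algebraMap k' L c ∈ V₂ := h.const_mem V₂ hk2 c
  have halg : IsAlgebraic E z := h.cg.alg z
  obtain ⟨y, hy, hy1, hyi, hxyi⟩ := ep (ℓ := E) V₁ hz hz0 halg
  have hle : Algebra.adjoin E {z} ≤ Algebra.adjoin E {algebraMap k' L c} := by
    rw [Algebra.adjoin_le_iff, Set.singleton_subset_iff]
    exact hc
  obtain ⟨Y, hY⟩ := disc_lemma (V₁.comap (algebraMap E L)) hkW hθi hθs (hle hy) hyi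
  obtain ⟨Z, hZ⟩ := disc_lemma (V₁.comap (algebraMap E L)) hkW hθi hθs
    ((Algebra.adjoin E {algebraMap k' L c}).mul_mem hc (hle hy)) hxyi
  have hY' : Y.eval₂ ((algebraMap E L).comp (V₁.comap (algebraMap E L)).subtype)
      (algebraMap k' L c) = y := hY
  have hZ' : Z.eval₂ ((algebraMap E L).comp (V₁.comap (algebraMap E L)).subtype)
      (algebraMap k' L c) = z * y := hZ
  have hy2 : y ∈ V₂ := by
    rw [← hY']
    exact In_eval₂_mem hV.symm ht2 Y
  have hzy2 : z * y ∈ V₂ := by
    rw [← hZ']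
    exact In_eval₂_mem hV.symm ht2 Z
  have hρ : (θ : ResidueField V₁ →+* ResidueField V₂).comp
      (In_rho (rfl : V₁.comap (algebraMap E L) = V₁.comap (algebraMap E L))) =
      In_rho hV.symm := by
    ext v
    change θ (In_rho _ v) = In_rho _ v
    rw [In_rho_apply, In_rho_apply]
    exact hθ2 v v.2
  have hres : res V₂ y = θ (res V₁ y) := by
    rw [← hY', In_res_eval₂ hV.symm ht2, In_res_eval₂ rfl ht1]
    have h3 := hom_eval₂ Y (In_rho (rfl : V₁.comap (algebraMap E L) =
      V₁.comap (algebraMap E L))) (θ : ResidueField V₁ →+* ResidueField V₂)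
      (res V₁ (algebraMap k' L c))
    rw [hρ] at h3
    change θ (Y.eval₂ _ _) = Y.eval₂ (In_rho hV.symm) (θ (res V₁ (algebraMap k' L c))) at h3
    rw [h3, hθ1]
  have hyne : res V₂ y ≠ 0 := by
    rw [hres, Ne, map_eq_zero_iff θ θ.injective, ← Ne,
      res_ne_zero_iff ((V₁.valuation_le_one_iff _).1 hy1.le)]
    exact hy1
  have hyval : V₂.valuation y = 1 := (res_ne_zero_iff hy2).1 hyne
  rw [← V₂.valuation_le_one_iff] at hzy2 ⊢
  rw [map_mul, hyval, mul_one] at hzy2
  exact hzy2

end val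

end Pool.Agent.Lib.MP_b197b4_ntKE
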