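import Mathlib
import Pool.Agent.Lib.MP_b197b4_ntKE.Ch
import Pool.Agent.Lib.MP_b197b4_ntKE.Kap
import Pool.Agent.Lib.MP_b197b4_ntKE.In1
import Pool.Agent.Lib.MP_b197b4_ntKD.Md

/-!
# MP_b197b4_nt, project K1-ALL-DESC, D13a: a pair is determined by its residue field
-/

set_option autoImplicit false

namespace Pool.Agent.Lib.MP_b197b4_ntKE

open Polynomial IsLocalRing Pool.Agent.Lib.MP_b197b4_ntK Pool.Agent.Lib.MP_b197b4_ntA
  Pool.Agent.Lib.MP_b197b4_ntKR

open Pool.Agent.Lib.MP_b197b4_ntKD hiding res_of_mem res_zero res_ne_zero_iff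

section

variable {F K : Type} [Field F] [Field K]

/-- The residue field of the trace. -/
theorem In_tr {ι : F →+* K} {p : PV F} {q : PV K} (hq : dnV ι q = p) :
    (∀ y, y ∈ p.1.toSubring ↔ ι y ∈ q.1.toSubring) ∧
    ∃ j : Kap p.1 →+* Kap q.1, q.2.comap j = p.2 ∧
      ∀ (y : F) (hy : y ∈ p.1.toSubring) (hy' : ι y ∈ q.1.toSubring),
        j (residue _ ⟨y, hy⟩) = residue _ ⟨ι y, hy'⟩ := by
  subst hq
  exact ⟨fun y => Iff.rfl, kmap ι q.1, rfl, fun y hy hy' => rfl⟩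

/-- The elements of the prime ideal. -/
theorem In_prime (R : Subring F) (Q : Ideal R) [hQ : Q.IsPrime] (a : R)
    (ha : (a : F) ∈ (LocalSubring.ofPrime R Q).toSubring) :
    a ∈ Q ↔ residue (LocalSubring.ofPrime R Q).toSubring ⟨(a : F), ha⟩ = 0 := by
  rw [residue_eq_zero_iff, mem_maximalIdeal, mem_nonunits_iff]
  have h1 := IsLocalization.AtPrime.isUnit_to_map_iff (LocalSubring.ofPrime R Q).toSubring Q a
  change IsUnit (⟨(a : F), ha⟩ : (LocalSubring.ofPrime R Q).toSubring) ↔ a ∉ Q at h1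
  rw [h1, not_not]

end

variable {k k' F K : Type} [Field k] [Field k'] [Field F] [Field K] [Algebra k k'] [Algebra k F]
  [Algebra k' K] [Algebra F K] {n d : ℕ} {x : Fin (n + 1) → F}

theorem In_conK (O : LocalSubring F) (hO : ∀ c : k, algebraMap k F c ∈ O.toSubring) (c : k) :
    conK k O hO c = residue _ ⟨algebraMap k F c, hO c⟩ := rfl

omit [Algebra k k'] in
/-- The residue class of a polynomial in a constant. -/
theorem In_class (i : Fin (n + 1)) {S : LocalSubring F} {S' : LocalSubring K}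
    (hA : ∀ a ∈ bc k' K (cht k x i), a ∈ S'.toSubring)
    (hk' : ∀ c : k', algebraMap k' K c ∈ S'.toSubring)
    (hm : ∀ y, y ∈ S.toSubring ↔ algebraMap F K y ∈ S'.toSubring)
    (j : Kap S →+* Kap S') (hj : ∀ (y : F) (hy : y ∈ S.toSubring)
      (hy' : algebraMap F K y ∈ S'.toSubring), j (residue _ ⟨y, hy⟩) =
        residue _ ⟨algebraMap F K y, hy'⟩)
    (hAS : ∀ a ∈ cht k x i, a ∈ S.toSubring) (θ₀ : k') (f : (cht k x i)[X]) :
    letI := bcAlg k' K (cht k x i)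
    residue S'.toSubring ⟨((aeval (algebraMap k' (bc k' K (cht k x i)) θ₀) f :
      bc k' K (cht k x i)) : K), hA _ (Subtype.property _)⟩ =
      (f.map ((residue S.toSubring).comp ((cht k x i).val.toRingHom.codRestrict S.toSubring
        fun a => hAS a a.2))).eval₂ j (residue _ ⟨algebraMap k' K θ₀, hk' θ₀⟩) := by
  let _ := bcAlg k' K (cht k x i)
  let r : bc k' K (cht k x i) →+* Kap S' := (residue S'.toSubring).comp
    ((bc k' K (cht k x i)).val.toRingHom.codRestrict S'.toSubring fun a => hA a a.2)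
  have h1 : residue S'.toSubring ⟨((aeval (algebraMap k' (bc k' K (cht k x i)) θ₀) f :
      bc k' K (cht k x i)) : K), hA _ (Subtype.property _)⟩ =
      r (aeval (algebraMap k' (bc k' K (cht k x i)) θ₀) f) := rfl
  rw [h1, aeval_def, hom_eval₂, eval₂_map]
  have h2 : r.comp (algebraMap (cht k x i) (bc k' K (cht k x i))) =
      j.comp ((residue S.toSubring).comp ((cht k x i).val.toRingHom.codRestrict S.toSubring
        fun a => hAS a a.2)) := by
    ext a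
    exact (hj (a : F) (hAS a a.2) ((hm _).1 (hAS a a.2))).symm
  rw [h2]
  rfl

/-- The equation of a constant. -/
theorem In_eqn (h : BC k k' F K) {S : LocalSubring F} {S' : LocalSubring K}
    (hk' : ∀ c : k', algebraMap k' K c ∈ S'.toSubring)
    (hk : ∀ c : k, algebraMap k F c ∈ S.toSubring)
    (hm : ∀ y, y ∈ S.toSubring ↔ algebraMap F K y ∈ S'.toSubring)
    (j : Kap S →+* Kap S') (hj : ∀ (y : F) (hy : y ∈ S.toSubring)
      (hy' : algebraMap F K y ∈ S'.toSubring), j (residue _ ⟨y, hy⟩) =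
        residue _ ⟨algebraMap F K y, hy'⟩) (θ₀ : k') :
    (minpoly k θ₀).eval₂ (j.comp (conK k S hk)) (conK k' S' hk' θ₀) = 0 := by
  have h1 : j.comp (conK k S hk) = (conK k' S' hk').comp (algebraMap k k') := by
    ext a
    change j (residue _ ⟨algebraMap k F a, hk a⟩) =
      residue _ ⟨algebraMap k' K (algebraMap k k' a), hk' _⟩
    rw [hj _ (hk a) ((hm _).1 (hk a))]
    congr 1
    exact Subtype.ext (h.comm a).symm
  rw [h1, ← hom_eval₂]
  change conK k' S' hk' (aeval θ₀ (minpoly k θ₀)) = 0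
  rw [minpoly.aeval, map_zero]

/-- D13a (In.lean): a pair is determined by its residue field. -/
theorem pair_inj (h : BC k k' F K) (hx : Var k d x) {P' : LocalSubring K}
    (hP' : P' ∈ Pts k' (fun i => algebraMap F K (x i)) 1) {p : PV F} {q₁ q₂ : PV K}
    (h1 : q₁ ∈ PVo k' (fun i => algebraMap F K (x i)) (algebraMap F K) P' p)
    (h2 : q₂ ∈ PVo k' (fun i => algebraMap F K (x i)) (algebraMap F K) P' p)
    (φ₁ : Kap P' →+* ResidueField q₁.2) (hφ₁ : Emb P' q₁.1 q₁.2 φ₁)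
    (φ₂ : Kap P' →+* ResidueField q₂.2) (hφ₂ : Emb P' q₂.1 q₂.2 φ₂)
    (θ : ResidueField q₁.2 ≃+* ResidueField q₂.2) (hθP : ∀ u, θ (φ₁ u) = φ₂ u)
    (hθV : ∀ (y : F) (s1 : algebraMap F K y ∈ q₁.1.toSubring)
      (s2 : algebraMap F K y ∈ q₂.1.toSubring),
      residue _ ⟨algebraMap F K y, s1⟩ ∈ q₁.2 →
      θ (res q₁.2 (residue _ ⟨algebraMap F K y, s1⟩)) =
        res q₂.2 (residue _ ⟨algebraMap F K y, s2⟩)) : q₁ = q₂ := by
  obtain ⟨S₁, V₁⟩ := q₁
  obtain ⟨S₂, V₂⟩ := q₂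
  obtain ⟨hS₁, -, hc₁, hd₁⟩ := h1
  obtain ⟨hS₂, -, hc₂, hd₂⟩ := h2
  obtain ⟨hm₁, j₁, hV₁, hj₁⟩ := In_tr hd₁
  obtain ⟨hm₂, j₂, hV₂, hj₂⟩ := In_tr hd₂
  change ∀ y, y ∈ p.1.toSubring ↔ algebraMap F K y ∈ S₁.toSubring at hm₁
  change ∀ y, y ∈ p.1.toSubring ↔ algebraMap F K y ∈ S₂.toSubring at hm₂
  change P'.toSubring ≤ S₁.toSubring ∧ _ at hc₁
  change P'.toSubring ≤ S₂.toSubring ∧ _ at hc₂
  obtain ⟨i, Q, hQ, hQ1, hPQ⟩ := id hP'
  have hsep := h.sep
  -- the chart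
  have hcht : cht k' (fun i => algebraMap F K (x i)) i = bc k' K (cht k x i) := h.chart_eq x i
  have hAP : ∀ a ∈ cht k' (fun i => algebraMap F K (x i)) i, a ∈ P'.toSubring := fun a ha => by
    rw [hPQ]
    exact LocalSubring.le_ofPrime _ Q ha
  have hkP : ∀ c : k', algebraMap k' K c ∈ P'.toSubring := fun c =>
    hAP _ (Subalgebra.algebraMap_mem _ c)
  have hk₁ : ∀ c : k', algebraMap k' K c ∈ S₁.toSubring := fun c => hc₁.1 (hkP c)
  have hk₂ : ∀ c : k', algebraMap k' K c ∈ S₂.toSubring := fun c => hc₂.1 (hkP c)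
  have hA₁ : ∀ a ∈ bc k' K (cht k x i), a ∈ S₁.toSubring := fun a ha => hc₁.1 (hAP a (by
    rw [hcht]
    exact ha))
  have hA₂ : ∀ a ∈ bc k' K (cht k x i), a ∈ S₂.toSubring := fun a ha => hc₂.1 (hAP a (by
    rw [hcht]
    exact ha))
  have hAS : ∀ a ∈ cht k x i, a ∈ p.1.toSubring := fun a ha =>
    (hm₁ a).2 (hA₁ _ (mem_bc ha))
  have hkS : ∀ c : k, algebraMap k F c ∈ p.1.toSubring := fun c =>
    hAS _ (Subalgebra.algebraMap_mem _ c)
  -- residue classes of constants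
  have hcon : ∀ c : k', θ (res V₁ (residue _ ⟨algebraMap k' K c, hk₁ c⟩)) =
      res V₂ (residue _ ⟨algebraMap k' K c, hk₂ c⟩) := fun c => by
    have e1 := hφ₁ (algebraMap k' K c) (hkP c) (hk₁ c)
    have e2 := hφ₂ (algebraMap k' K c) (hkP c) (hk₂ c)
    change φ₁ _ = res V₁ _ at e1
    change φ₂ _ = res V₂ _ at e2
    rw [← e1, ← e2]
    exact hθP _
  -- residue classes of functions on `p`
  have hfun : ∀ v ∈ p.2, θ (res V₁ (j₁ v)) = res V₂ (j₂ v) := fun v hv => by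
    obtain ⟨⟨y, hy⟩, rfl⟩ := residue_surjective v
    have e1 := hj₁ y hy ((hm₁ y).1 hy)
    have e2 := hj₂ y hy ((hm₂ y).1 hy)
    rw [← hV₁] at hv
    change j₁ _ ∈ V₁ at hv
    rw [e1] at hv ⊢
    rw [e2]
    exact hθV y ((hm₁ y).1 hy) ((hm₂ y).1 hy) hv
  have hkV : ∀ c : k, conK k p.1 hkS c ∈ p.2 := fun c => by
    rw [← hV₁]
    change j₁ (residue _ ⟨algebraMap k F c, hkS c⟩) ∈ V₁
    rw [hj₁ _ (hkS c) ((hm₁ _).1 (hkS c))]
    have e1 := (hc₁.2 (algebraMap k' K (algebraMap k k' c)) (hkP _) (hk₁ _)).1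
    have e2 : (⟨algebraMap k' K (algebraMap k k' c), hk₁ _⟩ : S₁.toSubring) =
        ⟨algebraMap F K (algebraMap k F c), (hm₁ _).1 (hkS c)⟩ := Subtype.ext (h.comm c)
    rw [e2] at e1
    exact e1
  -- the same elements of the chart vanish
  have key : ∀ z (hz : z ∈ bc k' K (cht k x i)),
      residue S₁.toSubring ⟨z, hA₁ z hz⟩ = 0 ↔ residue S₂.toSubring ⟨z, hA₂ z hz⟩ = 0 := by
    intro z hz
    let _ : Algebra k K := ((algebraMap k' K).comp (algebraMap k k')).toAlgebra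
    have : IsScalarTower k k' K := IsScalarTower.of_algebraMap_eq fun _ => rfl
    have : IsScalarTower k F K := IsScalarTower.of_algebraMap_eq fun c => h.comm c
    obtain ⟨θ₀, f, hf⟩ := bc_form (k' := k') (K := K) (⟨z, hz⟩ : bc k' K (cht k x i))
    have e0 := congrArg Subtype.val hf
    have e1 := In_class i hA₁ hk₁ hm₁ j₁ hj₁ hAS θ₀ f
    have e2 := In_class i hA₂ hk₂ hm₂ j₂ hj₂ hAS θ₀ f
    have e3 : (⟨z, hA₁ z hz⟩ : S₁.toSubring) = ⟨_, hA₁ _ (Subtype.property _)⟩ :=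
      Subtype.ext e0.symm
    have e4 : (⟨z, hA₂ z hz⟩ : S₂.toSubring) = ⟨_, hA₂ _ (Subtype.property _)⟩ :=
      Subtype.ext e0.symm
    rw [e3, e4]
    refine (Eq.congr_left e1).trans (Iff.trans ?_ (Eq.congr_left e2).symm)
    exact In_key (conK k p.1 hkS) j₁ j₂ p.2 hkV V₁ V₂ hV₁ hV₂
      (minpoly.monic (Algebra.IsIntegral.isIntegral (R := k) θ₀))
      (Algebra.IsSeparable.isSeparable k θ₀) (In_eqn h hk₁ hkS hm₁ j₁ hj₁ θ₀)
      (In_eqn h hk₂ hkS hm₂ j₂ hj₂ θ₀) θ (hcon θ₀) hfun _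
  -- the surfaces are the same
  have hne : ∀ i, (fun i => algebraMap F K (x i)) i ≠ 0 := fun i => by
    change algebraMap F K (x i) ≠ 0
    rw [Ne, map_eq_zero]
    exact hx.ne i
  obtain ⟨Q₁, hQ₁, -, hSQ₁⟩ := pts_chart hne hS₁ (i := i) fun l =>
    hc₁.1 (hAP _ (Algebra.subset_adjoin ⟨l, rfl⟩))
  obtain ⟨Q₂, hQ₂, -, hSQ₂⟩ := pts_chart hne hS₂ (i := i) fun l =>
    hc₂.1 (hAP _ (Algebra.subset_adjoin ⟨l, rfl⟩))
  have hSS : S₁ = S₂ := by
    have hQQ : Q₁ = Q₂ := by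
      ext a
      have ha : (a : K) ∈ bc k' K (cht k x i) := by
        rw [← hcht]
        exact a.2
      have k1 := key a ha
      have k2 := In_prime _ Q₁ a (LocalSubring.le_ofPrime _ Q₁ a.2)
      have k3 := In_prime _ Q₂ a (LocalSubring.le_ofPrime _ Q₂ a.2)
      have k4 : residue S₁.toSubring ⟨(a : K), hA₁ _ ha⟩ = 0 ↔
          residue (LocalSubring.ofPrime _ Q₁).toSubring
            ⟨(a : K), LocalSubring.le_ofPrime _ Q₁ a.2⟩ = 0 := by
        subst hSQ₁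
        exact Iff.rfl
      have k5 : residue S₂.toSubring ⟨(a : K), hA₂ _ ha⟩ = 0 ↔
          residue (LocalSubring.ofPrime _ Q₂).toSubring
            ⟨(a : K), LocalSubring.le_ofPrime _ Q₂ a.2⟩ = 0 := by
        subst hSQ₂
        exact Iff.rfl
      rw [k2, ← k4, k1, k5, ← k3]
    have e1 : S₁ = LocalSubring.ofPrime _ Q₁ := hSQ₁
    have e2 : S₂ = LocalSubring.ofPrime _ Q₂ := hSQ₂
    rw [e1, e2]
    subst hQQ
    rfl
  subst hSS
  -- the valuation rings are the same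
  have hVV : V₁.comap (kmap (algebraMap F K) S₁) = V₂.comap (kmap (algebraMap F K) S₁) :=
    eq_of_heq (Sigma.mk.inj (hd₁.trans hd₂.symm)).2
  have hkd : ∀ c : k, algebraMap k F c ∈ (dn (algebraMap F K) S₁).toSubring := fun c => by
    change algebraMap F K (algebraMap k F c) ∈ S₁.toSubring
    rw [← h.comm]
    exact hk₁ _
  have hbc := kap_bc h hx hS₁ hkd hk₁
  let _ : Algebra k (Kap (dn (algebraMap F K) S₁)) := (conK k _ hkd).toAlgebra
  let _ : Algebra k' (Kap S₁) := (conK k' _ hk₁).toAlgebra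
  let _ : Algebra (Kap (dn (algebraMap F K) S₁)) (Kap S₁) := (kmap (algebraMap F K) S₁).toAlgebra
  have hbc' : BC k k' (Kap (dn (algebraMap F K) S₁)) (Kap S₁) := hbc
  have hmem : ∀ c : k', algebraMap k' (Kap S₁) c ∈ V₁ := fun c =>
    (hc₁.2 (algebraMap k' K c) (hkP _) (hk₁ _)).1
  have hmem₂ : ∀ c : k', algebraMap k' (Kap S₁) c ∈ V₂ := fun c =>
    (hc₂.2 (algebraMap k' K c) (hkP _) (hk₁ _)).1
  have hfun' : ∀ v : Kap (dn (algebraMap F K) S₁), algebraMap _ (Kap S₁) v ∈ V₁ →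
      θ (res V₁ (algebraMap _ (Kap S₁) v)) = res V₂ (algebraMap _ (Kap S₁) v) := fun v hv => by
    obtain ⟨⟨y, hy⟩, rfl⟩ := residue_surjective v
    exact hθV y hy hy hv
  have hle1 : V₁ ≤ V₂ := In_val hbc' V₁ V₂ hVV (fun c => by
    rw [← hbc'.comm]
    exact hmem _) θ hcon hfun'
  have hle2 : V₂ ≤ V₁ := In_val hbc' V₂ V₁ hVV.symm (fun c => by
    rw [← hbc'.comm]
    exact hmem₂ _) θ.symm (fun c => by
      rw [RingEquiv.symm_apply_eq]
      exact (hcon c).symm) (fun v hv => by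
      rw [RingEquiv.symm_apply_eq]
      refine (hfun' v ?_).symm
      have h5 : v ∈ V₂.comap (kmap (algebraMap F K) S₁) := hv
      rw [← hVV] at h5
      exact h5)
  rw [le_antisymm hle1 hle2]

end Pool.Agent.Lib.MP_b197b4_ntKE
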