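import Mathlib
import Pool.Agent.Lib.MP_b197b4_ntKR.Chart

/-!
# MP_b197b4_nt, project K1-ALL-DESC: homomorphisms of `T[k']`
-/

set_option autoImplicit false

namespace Pool.Agent.Lib.MP_b197b4_ntKE

open Polynomial Pool.Agent.Lib.MP_b197b4_ntKD Pool.Agent.Lib.MP_b197b4_ntKR

variable {k k' F K : Type} [Field k] [Field k'] [Field F] [Field K] [Algebra k k'] [Algebra k F]
  [Algebra k' K] [Algebra F K]

theorem SuA_frac {A T : Subalgebra k F} (hAT : A ≤ T) (hA : IsFractionRing A F) :
    IsFractionRing T F := by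
  refine IsFractionRing.of_field T F ?_
  intro z
  obtain ⟨a, b, hb, rfl⟩ := IsFractionRing.div_surjective (A := A) z
  exact ⟨⟨a, hAT a.2⟩, ⟨b, hAT b.2⟩, rfl⟩

theorem SuA_algebraMap (A : Subalgebra k F) (z : A) : algebraMap A F z = (z : F) := rfl

/-- The minimal polynomial over `T` comes from `A`. -/
theorem SuA_minpoly {A T : Subalgebra k F} (hAT : A ≤ T) (hA : IsFractionRing A F)
    (hAn : IsIntegrallyClosed A) (hTn : IsIntegrallyClosed T) {θ : K} (h : IsIntegral A θ)
    (h' : IsIntegral T θ) :
    minpoly T θ = (minpoly A θ).map (Subalgebra.inclusion hAT : A →+* T) := by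
  have hT := SuA_frac hAT hA
  have h1 := minpoly.isIntegrallyClosed_eq_field_fractions' (R := A) F h
  have h2 := minpoly.isIntegrallyClosed_eq_field_fractions' (R := T) F h'
  apply Polynomial.map_injective (algebraMap T F) (IsFractionRing.injective T F)
  rw [← h2, h1, Polynomial.map_map]
  rfl

/-- **Homomorphisms of `T[k']`.** -/
theorem SuA_exists_hom (h : BC k k' F K) {M : Type} [CommRing M] {A T : Subalgebra k F}
    (hAT : A ≤ T) (hA : IsFractionRing A F) (hAn : IsIntegrallyClosed A)
    (hTn : IsIntegrallyClosed T) (b : T →+* M) (a : bc k' K A →+* M)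
    (hab : ∀ y : A, a (bcMap k' K A y) = b (Subalgebra.inclusion hAT y)) :
    ∃ χ : bc k' K T →+* M, (∀ t : T, χ (bcMap k' K T t) = b t) ∧
      ∀ (z : bc k' K A) (hz : (z : K) ∈ bc k' K T), χ ⟨z, hz⟩ = a z := by
  classical
  have hsep := h.sep
  -- the algebra `K × M`
  let ιT : T →+* K := (algebraMap F K).comp (T.val : T →+* F)
  let fT : T →+* K × M := ιT.prod b
  let fk : k' →+* K × M := (algebraMap k' K).prod (a.comp (algebraMap k' (bc k' K A)))
  let _ : Algebra T (K × M) := fT.toAlgebra
  let _ : Algebra k' (K × M) := fk.toAlgebra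
  let _ : Algebra k (K × M) := (fT.comp (algebraMap k T)).toAlgebra
  have hkT : IsScalarTower k T (K × M) := IsScalarTower.of_algebraMap_eq fun _ => rfl
  have hkk : IsScalarTower k k' (K × M) := by
    refine IsScalarTower.of_algebraMap_eq fun c => ?_
    change fT (algebraMap k T c) = fk (algebraMap k k' c)
    refine Prod.ext ?_ ?_
    · exact (h.comm c).symm
    · change b (algebraMap k T c) = a (algebraMap k' (bc k' K A) (algebraMap k k' c))
      have h1 : algebraMap k' (bc k' K A) (algebraMap k k' c) = bcMap k' K A (algebraMap k A c) :=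
        Subtype.ext (h.comm c)
      rw [h1, hab]
      rfl
  let G : Subalgebra k' (K × M) := Algebra.adjoin k' (Set.range (algebraMap T (K × M)))
  have hG1 : ∀ g ∈ G, g.1 ∈ bc k' K T := by
    intro g hg
    induction hg using Algebra.adjoin_induction with
    | mem y hy =>
      obtain ⟨t, rfl⟩ := hy
      exact mem_bc t.2
    | algebraMap c => exact Subalgebra.algebraMap_mem _ c
    | add x y _ _ h1 h2 => exact add_mem h1 h2
    | mul x y _ _ h1 h2 => exact mul_mem h1 h2
  have hG2 : ∀ g ∈ G, g.1 = 0 → g.2 = 0 := by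
    intro g hg hg0
    obtain ⟨θ, p, hp⟩ := exists_form (k := k) (A := T) g hg
    have hpK : eval₂ ιT (algebraMap k' K θ) p = 0 := by
      have h1 := congrArg (RingHom.fst K M) hp
      rw [aeval_def, hom_eval₂] at h1
      rw [← hg0]
      exact h1
    have hpM : eval₂ b (a (algebraMap k' (bc k' K A) θ)) p = g.2 := by
      have h1 := congrArg (RingHom.snd K M) hp
      rw [aeval_def, hom_eval₂] at h1
      exact h1
    have hθ : IsIntegral k θ := (Algebra.IsAlgebraic.isAlgebraic θ).isIntegral
    have hθA : IsIntegral A (algebraMap k' K θ) := by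
      obtain ⟨q, hq, hq0⟩ := hθ
      refine ⟨q.map (algebraMap k A), hq.map _, ?_⟩
      rw [eval₂_map]
      have h1 := congrArg (algebraMap k' K) hq0
      rw [hom_eval₂, map_zero] at h1
      rw [← h1]
      congr 1
      exact RingHom.ext fun c => (h.comm c).symm
    have hθT : IsIntegral T (algebraMap k' K θ) := by
      obtain ⟨q, hq, hq0⟩ := hθA
      refine ⟨q.map (Subalgebra.inclusion hAT : A →+* T), hq.map _, ?_⟩
      rw [eval₂_map, ← hq0]
      congr 1
    have htor : Module.IsTorsionFree T K := by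
      rw [Module.isTorsionFree_iff_faithfulSMul, faithfulSMul_iff_algebraMap_injective]
      exact (algebraMap F K).injective.comp Subtype.val_injective
    obtain ⟨q, hq⟩ := minpoly.isIntegrallyClosed_dvd hθT (p := p) hpK
    rw [← hpM, hq, eval₂_mul, SuA_minpoly hAT hA hAn hTn hθA hθT, eval₂_map]
    have h1 : (b.comp (Subalgebra.inclusion hAT : A →+* T)) = a.comp (bcMap k' K A) :=
      RingHom.ext fun y => (hab y).symm
    rw [h1, ← hom_eval₂]
    have h2 : eval₂ (bcMap k' K A) (algebraMap k' (bc k' K A) θ)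
        (minpoly A (algebraMap k' K θ)) = 0 := by
      apply Subtype.val_injective
      have h3 := hom_eval₂ (minpoly A (algebraMap k' K θ)) (bcMap k' K A)
        ((bc k' K A).val : bc k' K A →+* K) (algebraMap k' (bc k' K A) θ)
      have h4 := minpoly.aeval A (algebraMap k' K θ)
      exact h3.trans h4
    rw [h2, map_zero, zero_mul]
  have hG3 : ∀ z ∈ bc k' K T, ∃ g ∈ G, g.1 = z := by
    intro z hz
    unfold bc at hz
    induction hz using Algebra.adjoin_induction with
    | mem y hy =>
      obtain ⟨t, ht, rfl⟩ := hy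
      exact ⟨fT ⟨t, ht⟩, Algebra.subset_adjoin ⟨⟨t, ht⟩, rfl⟩, rfl⟩
    | algebraMap c => exact ⟨fk c, Subalgebra.algebraMap_mem _ c, rfl⟩
    | add x y _ _ h1 h2 =>
      obtain ⟨g1, hg1, rfl⟩ := h1
      obtain ⟨g2, hg2, rfl⟩ := h2
      exact ⟨g1 + g2, add_mem hg1 hg2, rfl⟩
    | mul x y _ _ h1 h2 =>
      obtain ⟨g1, hg1, rfl⟩ := h1
      obtain ⟨g2, hg2, rfl⟩ := h2
      exact ⟨g1 * g2, mul_mem hg1 hg2, rfl⟩
  let f : G →+* bc k' K T :=
    ((RingHom.fst K M).comp G.toSubring.subtype).codRestrict (bc k' K T) fun g => hG1 g g.2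
  have hf : Function.Bijective f := by
    constructor
    · rw [injective_iff_map_eq_zero]
      intro g hg
      have h1 : (g : K × M).1 = 0 := congrArg Subtype.val hg
      exact Subtype.ext (Prod.ext h1 (hG2 g g.2 h1))
    · rintro ⟨z, hz⟩
      obtain ⟨g, hg, hgz⟩ := hG3 z hz
      exact ⟨⟨g, hg⟩, Subtype.ext hgz⟩
  let e := RingEquiv.ofBijective f hf
  have key : ∀ (z : bc k' K T) (w : K × M) (hw : w ∈ G), w.1 = (z : K) →
      ((e.symm z : G) : K × M).2 = w.2 := by
    intro z w hw hwz
    have h1 : e.symm z = ⟨w, hw⟩ := by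
      rw [RingEquiv.symm_apply_eq]
      exact Subtype.ext hwz.symm
    rw [h1]
  refine ⟨((RingHom.snd K M).comp G.toSubring.subtype).comp (e.symm : bc k' K T →+* G), ?_, ?_⟩
  · intro t
    exact key (bcMap k' K T t) (fT t) (Algebra.subset_adjoin ⟨t, rfl⟩) rfl
  · intro z hz
    have h1 : ∀ z : bc k' K A, ((z : K), a z) ∈ G := by
      intro z
      have hz : z ∈ Algebra.adjoin k' (Set.range (bcMap k' K A)) := by
        rw [adjoin_range]
        trivial
      induction hz using Algebra.adjoin_induction with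
      | mem y hy =>
        obtain ⟨t, rfl⟩ := hy
        have h2 : (((bcMap k' K A t : bc k' K A) : K), a (bcMap k' K A t)) =
            fT (Subalgebra.inclusion hAT t) := Prod.ext rfl (hab t)
        rw [h2]
        exact Algebra.subset_adjoin ⟨_, rfl⟩
      | algebraMap c => exact Subalgebra.algebraMap_mem G c
      | add x y _ _ h1 h2 =>
        have h3 := add_mem h1 h2
        have h4 : (((x + y : bc k' K A) : K), a (x + y)) = ((x : K), a x) + ((y : K), a y) :=
          Prod.ext rfl (map_add a x y)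
        rw [h4]
        exact h3
      | mul x y _ _ h1 h2 =>
        have h3 := mul_mem h1 h2
        have h4 : (((x * y : bc k' K A) : K), a (x * y)) = ((x : K), a x) * ((y : K), a y) :=
          Prod.ext rfl (map_mul a x y)
        rw [h4]
        exact h3
    exact key ⟨z, hz⟩ _ (h1 z) rfl

end Pool.Agent.Lib.MP_b197b4_ntKE
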