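import Mathlib
import Pool.Agent.Lib.MP_b197b4_ntKE.Defs
import Pool.Agent.Lib.MP_b197b4_ntKE.SuA
import Pool.Agent.Lib.MP_b197b4_ntA.XCen
import Pool.Agent.Lib.MP_b197b4_ntK.Curve

/-!
# MP_b197b4_nt, project K1-ALL-DESC: the ring of a pair `(S, V)`
-/

set_option autoImplicit false

namespace Pool.Agent.Lib.MP_b197b4_ntKE

open IsLocalRing Polynomial Pool.Agent.Lib.MP_b197b4_ntK Pool.Agent.Lib.MP_b197b4_ntA
  Pool.Agent.Lib.MP_b197b4_ntKD

variable {k F : Type} [Field k] [Field F] [Algebra k F]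

/-- The functions which are regular at the point `S` with values in `V`. -/
def suT (k : Type) {F : Type} [Field k] [Field F] [Algebra k F] (S : LocalSubring F)
    (V : ValuationSubring (Kap S)) (hk : ∀ c : k, ∃ h : algebraMap k F c ∈ S.toSubring,
      residue S.toSubring ⟨_, h⟩ ∈ V) : Subalgebra k F where
  carrier := {y | ∃ h : y ∈ S.toSubring, residue S.toSubring ⟨y, h⟩ ∈ V}
  mul_mem' := by
    rintro a b ⟨ha, ha'⟩ ⟨hb, hb'⟩
    refine ⟨S.toSubring.mul_mem ha hb, ?_⟩
    have h1 : residue S.toSubring ⟨a * b, S.toSubring.mul_mem ha hb⟩ =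
        residue S.toSubring ⟨a, ha⟩ * residue S.toSubring ⟨b, hb⟩ := rfl
    rw [h1]
    exact V.mul_mem _ _ ha' hb'
  add_mem' := by
    rintro a b ⟨ha, ha'⟩ ⟨hb, hb'⟩
    refine ⟨S.toSubring.add_mem ha hb, ?_⟩
    have h1 : residue S.toSubring ⟨a + b, S.toSubring.add_mem ha hb⟩ =
        residue S.toSubring ⟨a, ha⟩ + residue S.toSubring ⟨b, hb⟩ := rfl
    rw [h1]
    exact V.add_mem _ _ ha' hb'
  algebraMap_mem' := hk

section

variable {S : LocalSubring F} {V : ValuationSubring (Kap S)}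
  (hk : ∀ c : k, ∃ h : algebraMap k F c ∈ S.toSubring, residue S.toSubring ⟨_, h⟩ ∈ V)

/-- `T → O_S` -/
def suS : suT k S V hk →+* S.toSubring :=
  ((suT k S V hk).val : suT k S V hk →+* F).codRestrict S.toSubring fun t => t.2.1

theorem suS_coe (t : suT k S V hk) : ((suS hk t : S.toSubring) : F) = t := rfl

/-- `T → V` -/
noncomputable def suV : suT k S V hk →+* V :=
  ((residue S.toSubring).comp (suS hk)).codRestrict V.toSubring fun t => t.2.2

theorem suV_coe (t : suT k S V hk) :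
    ((suV hk t : V) : Kap S) = residue S.toSubring ⟨t, t.2.1⟩ := rfl

theorem suV_surj : Function.Surjective (suV hk) := by
  rintro ⟨v, hv⟩
  obtain ⟨⟨y, hy⟩, rfl⟩ := residue_surjective v
  exact ⟨⟨y, hy, hv⟩, rfl⟩

theorem suV_res (t : suT k S V hk) : residue V (suV hk t) =
    res V (residue S.toSubring ⟨t, t.2.1⟩) := by
  rw [MP_b197b4_ntKD.res_of_mem t.2.2]
  rfl

/-- `T` is integrally closed if `O_S` is. -/
theorem suT_closed (hfr : IsFractionRing (suT k S V hk) F)
    (hS : ∀ y : F, IsIntegral S.toSubring y → y ∈ S.toSubring) :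
    IsIntegrallyClosed (suT k S V hk) := by
  rw [isIntegrallyClosed_iff F]
  rintro y ⟨p, hp, hpy⟩
  have hy : y ∈ S.toSubring := by
    apply hS
    refine ⟨p.map (suS hk), hp.map _, ?_⟩
    rw [eval₂_map]
    exact hpy
  have h1 : eval₂ (suS hk) (⟨y, hy⟩ : S.toSubring) p = 0 := by
    apply Subtype.val_injective
    have h2 := hom_eval₂ p (suS hk) S.toSubring.subtype (⟨y, hy⟩ : S.toSubring)
    exact h2.trans hpy
  have h2 : IsIntegral V (residue S.toSubring ⟨y, hy⟩) := by
    refine ⟨p.map (suV hk), hp.map _, ?_⟩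
    rw [eval₂_map]
    have h3 := congrArg (residue S.toSubring) h1
    rw [hom_eval₂, map_zero] at h3
    exact h3
  obtain ⟨v, hv⟩ := IsIntegrallyClosed.isIntegral_iff.mp h2
  have h3 : residue S.toSubring ⟨y, hy⟩ ∈ V := by
    rw [← hv]
    exact v.2
  exact ⟨⟨y, hy, h3⟩, rfl⟩

end

/-- The local ring at a point of a normal chart is integrally closed. -/
theorem su_closed {A : Subalgebra k F} (hA : IsIntegrallyClosed A) (hfr : IsFractionRing A F)
    (Q : Ideal A.toSubring) (hQ : Q.IsPrime) (y : F)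
    (hy : IsIntegral (LocalSubring.ofPrime A.toSubring Q).toSubring y) :
    y ∈ (LocalSubring.ofPrime A.toSubring Q).toSubring := by
  have hA' : IsIntegrallyClosed A.toSubring := hA
  have hle : Q.primeCompl ≤ nonZeroDivisors A.toSubring := Q.primeCompl_le_nonZeroDivisors
  have h1 : IsIntegrallyClosed (LocalSubring.ofPrime A.toSubring Q).toSubring :=
    isIntegrallyClosed_of_isLocalization _ Q.primeCompl hle
  have h2 : IsFractionRing (LocalSubring.ofPrime A.toSubring Q).toSubring F := by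
    refine IsFractionRing.of_field _ F ?_
    intro z
    obtain ⟨a, b, hb, rfl⟩ := IsFractionRing.div_surjective (A := A) z
    exact ⟨⟨a, LocalSubring.le_ofPrime A.toSubring Q a.2⟩,
      ⟨b, LocalSubring.le_ofPrime A.toSubring Q b.2⟩, rfl⟩
  obtain ⟨z, hz⟩ := (isIntegrallyClosed_iff F).mp h1 hy
  rw [← hz]
  exact z.2

/-- Vanishing at a point of a chart. -/
theorem su_residue_zero {A : Subring F} (Q : Ideal A) [Q.IsPrime] (a : A) :
    residue (LocalSubring.ofPrime A Q).toSubring ⟨a, LocalSubring.le_ofPrime A Q a.2⟩ = 0 ↔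
      a ∈ Q := by
  have h1 : residue (LocalSubring.ofPrime A Q).toSubring ⟨a, LocalSubring.le_ofPrime A Q a.2⟩ = 0 ↔
      ¬ IsUnit (⟨a, LocalSubring.le_ofPrime A Q a.2⟩ : (LocalSubring.ofPrime A Q).toSubring) := by
    rw [residue_eq_zero_iff, mem_maximalIdeal, mem_nonunits_iff]
  rw [h1, xcen_unit, not_not]

end Pool.Agent.Lib.MP_b197b4_ntKE
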