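import Mathlib
import Pool.Agent.Lib.MP_b197b4_ntKR.Chart
import Pool.Agent.Lib.MP_b197b4_ntKE.Defs
import Pool.Agent.Lib.MP_b197b4_ntKE.Reg
import Pool.Agent.Lib.MP_b197b4_ntKE.SuB
import Pool.Agent.Lib.MP_b197b4_ntKD.Md

/-!
# MP_b197b4_nt, project K1-ALL-DESC, D13b: the homomorphism on `k' T` given by homomorphisms on `T`
and on `k'`

`T` is a ring between a normal ring `O` and its field of fractions `F`. A homomorphism `τ : T → M`
and a homomorphism `a : O' → M` (`O'` a ring which contains `O` and `k'`) which agree on `O` extend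
to `k' T → M`.
-/

set_option autoImplicit false

namespace Pool.Agent.Lib.MP_b197b4_ntKE

open TensorProduct Polynomial IsLocalRing Pool.Agent.Lib.MP_b197b4_ntK
  Pool.Agent.Lib.MP_b197b4_ntA Pool.Agent.Lib.MP_b197b4_ntKD Pool.Agent.Lib.MP_b197b4_ntKR

section

variable {k k' F K : Type} [Field k] [Field k'] [Field F] [Field K] [Algebra k k'] [Algebra k F]
  [Algebra k' K] [Algebra F K]

/-- Every element of `T ⊗ k'` is `h(θ)`. -/
theorem Chi_form [Algebra.IsSeparable k k'] {T : Type} [CommRing T] [Algebra k T]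
    (w : T ⊗[k] k') : ∃ (θ : k') (h : T[X]),
      eval₂ (algebraMap T (T ⊗[k] k')) (1 ⊗ₜ θ) h = w := by
  induction w using TensorProduct.induction_on with
  | zero => exact ⟨0, 0, by rw [eval₂_zero]⟩
  | tmul t c =>
    refine ⟨c, C t * X, ?_⟩
    rw [eval₂_mul, eval₂_C, eval₂_X]
    change (t ⊗ₜ[k] (1 : k')) * (1 ⊗ₜ[k] c) = t ⊗ₜ[k] c
    rw [Algebra.TensorProduct.tmul_mul_tmul, mul_one, one_mul]
  | add u v hu hv =>
    classical
    obtain ⟨θ₁, h₁, rfl⟩ := hu
    obtain ⟨θ₂, h₂, rfl⟩ := hv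
    obtain ⟨θ, hθ⟩ := exists_prim (k := k) ({θ₁, θ₂} : Finset k')
    obtain ⟨q₁, hq₁⟩ := hθ θ₁ (by simp)
    obtain ⟨q₂, hq₂⟩ := hθ θ₂ (by simp)
    have key : ∀ (q : k[X]), eval₂ (algebraMap T (T ⊗[k] k')) (1 ⊗ₜ θ) (q.map (algebraMap k T)) =
        1 ⊗ₜ (aeval θ q) := by
      intro q
      rw [eval₂_map]
      have h1 : (algebraMap T (T ⊗[k] k')).comp (algebraMap k T) =
          algebraMap k (T ⊗[k] k') := (IsScalarTower.algebraMap_eq k T (T ⊗[k] k')).symm
      rw [h1, ← aeval_def]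
      exact (aeval_algHom_apply (Algebra.TensorProduct.includeRight (R := k) (A := T) (B := k'))
        θ q)
    refine ⟨θ, h₁.comp (q₁.map (algebraMap k T)) + h₂.comp (q₂.map (algebraMap k T)), ?_⟩
    rw [eval₂_add, eval₂_comp, eval₂_comp, key, key, hq₁, hq₂]

end

section

variable {k k' F K : Type} [Field k] [Field k'] [Field F] [Field K] [Algebra k k'] [Algebra k F]
  [Algebra k' K] [Algebra F K] [Algebra k K] [IsScalarTower k k' K] [IsScalarTower k F K]

/-- The minimal polynomial over `F` of a constant `θ ∈ k'` has coefficients in every normal ring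
containing `k`. -/
theorem Chi_minpoly [Algebra.IsAlgebraic k k'] {O : Subring F}
    (hO : ∀ y : F, IsIntegral k y → y ∈ O) (θ : k') (n : ℕ) :
    (minpoly F (algebraMap k' K θ)).coeff n ∈ O := by
  have hint : IsIntegral k θ := Algebra.IsIntegral.isIntegral θ
  have hm : (minpoly k θ).Monic := minpoly.monic hint
  have hintF : IsIntegral F (algebraMap k' K θ) := (hint.algebraMap (B := K)).tower_top
  have hdvd : minpoly F (algebraMap k' K θ) ∣ (minpoly k θ).map (algebraMap k F) := by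
    apply minpoly.dvd
    rw [aeval_map_algebraMap, aeval_algebraMap_apply, minpoly.aeval, map_zero]
  obtain ⟨g, hg⟩ := integralClosure.mem_lifts_of_monic_of_dvd_map F hm (minpoly.monic hintF) hdvd
  apply hO
  rw [← hg]
  change IsIntegral k ((map (algebraMap (integralClosure k F) F) g).coeff n)
  rw [coeff_map]
  exact (g.coeff n).2

/-- Well-definedness. -/
theorem Chi_wd [Algebra.IsSeparable k k'] {M : Type} [Field M] (T : Subalgebra k F)
    {O : Subring F} (hOT : ∀ y ∈ O, y ∈ T) (hO : ∀ y : F, IsIntegral k y → y ∈ O)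
    {O' : Subring K} (hOO : ∀ y ∈ O, algebraMap F K y ∈ O') (hk' : ∀ c : k', algebraMap k' K c ∈ O')
    (τ : T →+* M) (a : O' →+* M)
    (hτa : ∀ (y : F) (hy : y ∈ O), τ ⟨y, hOT y hy⟩ = a ⟨algebraMap F K y, hOO y hy⟩)
    (θ : k') (h : T[X])
    (h0 : eval₂ ((algebraMap F K).comp (T.val : T →+* F)) (algebraMap k' K θ) h = 0) :
    eval₂ τ (a ⟨algebraMap k' K θ, hk' θ⟩) h = 0 := by
  have hint : IsIntegral k θ := Algebra.IsIntegral.isIntegral θ
  have hintF : IsIntegral F (algebraMap k' K θ) := (hint.algebraMap (B := K)).tower_top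
  set μ := minpoly F (algebraMap k' K θ) with hμ
  have hμm : μ.Monic := minpoly.monic hintF
  have hμO : ∀ n, μ.coeff n ∈ O := fun n => Chi_minpoly hO θ n
  obtain ⟨μO, hμO1, hμO2, hμO3⟩ := lifts_and_natDegree_eq_and_monic (p := μ)
    (f := O.subtype) ((lifts_iff_coeff_lifts _).2 fun n => ⟨⟨_, hμO n⟩, rfl⟩) hμm
  let i : O →+* T := (O.subtype).codRestrict T.toSubring fun y => hOT y y.2
  let j : O →+* O' := ((algebraMap F K).comp O.subtype).codRestrict O' fun y => hOO y y.2
  let μT : T[X] := μO.map i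
  have hμTm : μT.Monic := hμO3.map i
  have hμTF : μT.map (T.val : T →+* F) = μ := by
    rw [← hμO1, Polynomial.map_map]
    rfl
  have hdiv := modByMonic_add_div h μT
  have hr : h %ₘ μT = 0 := by
    by_contra hne
    have h1 : aeval (algebraMap k' K θ) ((h %ₘ μT).map (T.val : T →+* F)) = 0 := by
      have h2 : eval₂ ((algebraMap F K).comp (T.val : T →+* F)) (algebraMap k' K θ)
          (h %ₘ μT + μT * (h /ₘ μT)) = 0 := by rw [hdiv]; exact h0
      rw [eval₂_add, eval₂_mul] at h2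
      have h3 : eval₂ ((algebraMap F K).comp (T.val : T →+* F)) (algebraMap k' K θ) μT = 0 := by
        rw [← eval₂_map, hμTF]
        exact minpoly.aeval F (algebraMap k' K θ)
      rw [h3, zero_mul, add_zero] at h2
      rw [aeval_def, eval₂_map]
      exact h2
    have hinj : Function.Injective (T.val : T →+* F) := Subtype.val_injective
    have h4 : (h %ₘ μT).map (T.val : T →+* F) ≠ 0 := by
      rwa [Ne, Polynomial.map_eq_zero_iff hinj]
    have h5 := minpoly.degree_le_of_ne_zero F (algebraMap k' K θ) h4 h1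
    rw [degree_map_eq_of_injective hinj, ← hμ, ← hμTF, hμTm.degree_map] at h5
    exact absurd (degree_modByMonic_lt h hμTm) (not_lt.2 h5)
  rw [hr, zero_add] at hdiv
  rw [← hdiv, eval₂_mul]
  have h6 : eval₂ τ (a ⟨algebraMap k' K θ, hk' θ⟩) μT = 0 := by
    rw [eval₂_map]
    have h7 : τ.comp i = a.comp j := RingHom.ext fun y => hτa y y.2
    rw [h7, ← hom_eval₂]
    have h8 : eval₂ j ⟨algebraMap k' K θ, hk' θ⟩ μO = 0 := by
      apply Subtype.ext
      change O'.subtype (eval₂ j ⟨algebraMap k' K θ, hk' θ⟩ μO) = 0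
      rw [hom_eval₂]
      have h9 : O'.subtype.comp j = (algebraMap F K).comp O.subtype := rfl
      rw [h9, ← eval₂_map, hμO1]
      exact minpoly.aeval F (algebraMap k' K θ)
    rw [h8, map_zero]
  rw [h6, zero_mul]

/-- **The homomorphism on `k' T`.** -/
theorem Chi_exists_aux [Algebra.IsSeparable k k'] {M : Type} [Field M] (T : Subalgebra k F)
    {O : Subring F} (hOT : ∀ y ∈ O, y ∈ T) (hO : ∀ y : F, IsIntegral k y → y ∈ O)
    {O' : Subring K} (hOO : ∀ y ∈ O, algebraMap F K y ∈ O') (hk' : ∀ c : k', algebraMap k' K c ∈ O')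
    (τ : T →+* M) (a : O' →+* M)
    (hτa : ∀ (y : F) (hy : y ∈ O), τ ⟨y, hOT y hy⟩ = a ⟨algebraMap F K y, hOO y hy⟩) :
    ∃ χ : bc k' K T →+* M, (∀ y : T, χ (bcMap k' K T y) = τ y) ∧
      ∀ c : k', χ (algebraMap k' (bc k' K T) c) = a ⟨algebraMap k' K c, hk' c⟩ := by
  have hkO : ∀ c : k, algebraMap k F c ∈ O := fun c => hO _ isIntegral_algebraMap
  let a' : k' →+* M := a.comp ((algebraMap k' K).codRestrict O' hk')
  have hka : ∀ c : k, τ (algebraMap k T c) = a' (algebraMap k k' c) := by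
    intro c
    have h1 := hτa (algebraMap k F c) (hkO c)
    refine Eq.trans ?_ (h1.trans ?_)
    · rfl
    · change a _ = a _
      congr 1
      apply Subtype.ext
      change algebraMap F K (algebraMap k F c) = algebraMap k' K (algebraMap k k' c)
      rw [← IsScalarTower.algebraMap_apply, ← IsScalarTower.algebraMap_apply]
  have := bc_tower (k' := k') (K := K) T
  let _ : Algebra k M := (τ.comp (algebraMap k T)).toAlgebra
  let g : T ⊗[k] k' →ₐ[k] M := Algebra.TensorProduct.productMap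
    { τ with commutes' := fun _ => rfl } { a' with commutes' := fun c => (hka c).symm }
  have hf1 : ∀ c : k, bcMap k' K T (algebraMap k T c) = algebraMap k (bc k' K T) c := by
    intro c
    apply Subtype.ext
    change algebraMap F K (algebraMap k F c) = algebraMap k K c
    rw [← IsScalarTower.algebraMap_apply]
  have hf2 : ∀ c : k, algebraMap k' (bc k' K T) (algebraMap k k' c) =
      algebraMap k (bc k' K T) c := by
    intro c
    apply Subtype.ext
    change algebraMap k' K (algebraMap k k' c) = algebraMap k K c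
    rw [← IsScalarTower.algebraMap_apply]
  let f : T ⊗[k] k' →ₐ[k] bc k' K T := Algebra.TensorProduct.productMap
    { bcMap k' K T with commutes' := hf1 } { algebraMap k' (bc k' K T) with commutes' := hf2 }
  have hgt : ∀ (t : T) (c : k'), g (t ⊗ₜ c) = τ t * a' c := fun t c =>
    Algebra.TensorProduct.productMap_apply_tmul _ _ t c
  have hft : ∀ (t : T) (c : k'), f (t ⊗ₜ c) = bcMap k' K T t * algebraMap k' (bc k' K T) c :=
    fun t c => Algebra.TensorProduct.productMap_apply_tmul _ _ t c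
  have hfe : ∀ (θ : k') (h : T[X]), f (eval₂ (algebraMap T (T ⊗[k] k')) (1 ⊗ₜ θ) h) =
      eval₂ (bcMap k' K T) (algebraMap k' (bc k' K T) θ) h := by
    intro θ h
    change (f : T ⊗[k] k' →+* bc k' K T) _ = _
    rw [hom_eval₂]
    congr 1
    · refine RingHom.ext fun t => ?_
      change f (t ⊗ₜ 1) = _
      rw [hft, map_one, mul_one]
    · change f (1 ⊗ₜ θ) = _
      rw [hft, map_one, one_mul]
  have hge : ∀ (θ : k') (h : T[X]), g (eval₂ (algebraMap T (T ⊗[k] k')) (1 ⊗ₜ θ) h) =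
      eval₂ τ (a' θ) h := by
    intro θ h
    change (g : T ⊗[k] k' →+* M) _ = _
    rw [hom_eval₂]
    congr 1
    · refine RingHom.ext fun t => ?_
      change g (t ⊗ₜ 1) = _
      rw [hgt, map_one, mul_one]
    · change g (1 ⊗ₜ θ) = _
      rw [hgt, map_one, one_mul]
  have hfs : Function.Surjective (f : T ⊗[k] k' →+* bc k' K T) := by
    intro y
    obtain ⟨θ, h, rfl⟩ := bc_form (k := k) (k' := k') (K := K) y
    refine ⟨eval₂ (algebraMap T (T ⊗[k] k')) (1 ⊗ₜ θ) h, ?_⟩
    exact hfe θ h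
  have hker : RingHom.ker (f : T ⊗[k] k' →+* bc k' K T) ≤ RingHom.ker (g : T ⊗[k] k' →+* M) := by
    intro w hw
    obtain ⟨θ, h, rfl⟩ := Chi_form w
    rw [RingHom.mem_ker] at hw ⊢
    have h1 : eval₂ (bcMap k' K T) (algebraMap k' (bc k' K T) θ) h = 0 := (hfe θ h).symm.trans hw
    refine (hge θ h).trans ?_
    refine Chi_wd T hOT hO hOO hk' τ a hτa θ h ?_
    have h2 := congrArg (Subring.subtype (bc k' K T).toSubring) h1
    rw [map_zero, hom_eval₂] at h2
    exact h2
  let χ : bc k' K T →+* M := RingHom.liftOfSurjective (f : T ⊗[k] k' →+* bc k' K T) hfs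
    ⟨(g : T ⊗[k] k' →+* M), hker⟩
  have hχ : ∀ w, χ (f w) = g w := fun w =>
    RingHom.liftOfRightInverse_comp_apply (f : T ⊗[k] k' →+* bc k' K T) _
      (Function.rightInverse_surjInv hfs) ⟨(g : T ⊗[k] k' →+* M), hker⟩ w
  refine ⟨χ, fun y => ?_, fun c => ?_⟩
  · have h1 := hχ (y ⊗ₜ 1)
    rwa [hft, hgt, map_one, map_one, mul_one, mul_one] at h1
  · have h1 := hχ (1 ⊗ₜ c)
    rwa [hft, hgt, map_one, map_one, one_mul, one_mul] at h1

end

section

variable {k k' F K : Type} [Field k] [Field k'] [Field F] [Field K] [Algebra k k'] [Algebra k F]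
  [Algebra k' K] [Algebra F K] {n d : ℕ} {x : Fin (n + 1) → F}

/-- The constants of the larger field are regular at the points. -/
theorem Chi_const {x' : Fin (n + 1) → K} {e : ℕ} {P' : LocalSubring K} (hP' : P' ∈ Pts k' x' e)
    (c : k') : algebraMap k' K c ∈ P'.toSubring := by
  obtain ⟨i, Q', hQ', -, rfl⟩ := hP'
  exact LocalSubring.le_ofPrime _ Q' ((cht k' x' i).algebraMap_mem c)

/-- The algebraic elements of `F` are regular at the points. -/
theorem Chi_nor (h : BC k k' F K) (hx : Var k d x) {e : ℕ} {P' : LocalSubring K}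
    (hP' : P' ∈ Pts k' (fun i => algebraMap F K (x i)) e) (y : F) (hy : IsIntegral k y) :
    y ∈ (dn (algebraMap F K) P').toSubring := by
  obtain ⟨i, Q', hQ', -, rfl⟩ := hP'
  have hfr := hx.frac i
  have hreg := hx.regular i
  have hic : IsIntegrallyClosed (cht k x i) := isIntegrallyClosed_of_reg
  have h1 : IsIntegral (cht k x i) y := hy.tower_top
  obtain ⟨a, ha⟩ := IsIntegrallyClosed.isIntegral_iff.1 h1
  have h2 : y ∈ cht k x i := by
    rw [← ha]
    exact a.2
  have h3 : algebraMap F K y ∈ cht k' (fun i => algebraMap F K (x i)) i := by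
    unfold cht at h2 ⊢
    rw [h.chart_eq x i]
    exact mem_bc h2
  exact LocalSubring.le_ofPrime _ Q' h3

/-- **The homomorphism on `k' T`**. -/
theorem Chi_exists (h : BC k k' F K) (hx : Var k d x) {P' : LocalSubring K}
    (hP' : P' ∈ Pts k' (fun i => algebraMap F K (x i)) 1) {p : PV F}
    (hc : Cen (dn (algebraMap F K) P') p.1 p.2)
    (hk : ∀ c : k, ∃ h : algebraMap k F c ∈ p.1.toSubring, residue p.1.toSubring ⟨_, h⟩ ∈ p.2)
    (φ : Kap (dn (algebraMap F K) P') →+* ResidueField p.2)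
    (hφ : Emb (dn (algebraMap F K) P') p.1 p.2 φ)
    {M : Type} [Field M] (α : Kap P' →+* M) (β : ResidueField p.2 →+* M)
    (hαβ : ∀ u, α (kmap (algebraMap F K) P' u) = β (φ u)) :
    ∃ χ : bc k' K (suT k p.1 p.2 hk) →+* M,
      (∀ t, χ (bcMap k' K _ t) = β (residue p.2 (suV hk t))) ∧
      (∀ (z : K) (hz : z ∈ bc k' K (suT k p.1 p.2 hk)) (hzP : z ∈ P'.toSubring)
        (i : Fin (n + 1)), (∀ j, algebraMap F K (x j) / algebraMap F K (x i) ∈ P'.toSubring) →
        z ∈ cht k' (fun i => algebraMap F K (x i)) i → χ ⟨z, hz⟩ = α (residue _ ⟨z, hzP⟩)) ∧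
      (∀ i : Fin (n + 1), (∀ j, algebraMap F K (x j) / algebraMap F K (x i) ∈ P'.toSubring) →
        cht k' (fun i => algebraMap F K (x i)) i ≤ bc k' K (suT k p.1 p.2 hk)) ∧
      (RingHom.ker χ).IsMaximal := by
  have hsep := h.sep
  let _ : Algebra k K := ((algebraMap k' K).comp (algebraMap k k')).toAlgebra
  have : IsScalarTower k k' K := IsScalarTower.of_algebraMap_eq fun _ => rfl
  have : IsScalarTower k F K := IsScalarTower.of_algebraMap_eq fun c => h.comm c
  have hk' := Chi_const hP'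
  have hPT : ∀ y ∈ (dn (algebraMap F K) P').toSubring, y ∈ suT k p.1 p.2 hk :=
    fun y hy => ⟨hc.1 hy, (hc.2 y hy (hc.1 hy)).1⟩
  have hcomp : ∀ (y : F) (hy : y ∈ (dn (algebraMap F K) P').toSubring)
      (hy' : algebraMap F K y ∈ P'.toSubring),
      β (residue p.2 (suV hk ⟨y, hPT y hy⟩)) = α (residue _ ⟨algebraMap F K y, hy'⟩) := by
    intro y hy hy'
    rw [← kmap_residue (algebraMap F K) P' y hy hy', hαβ, hφ y hy (hc.1 hy), suV_res]
  obtain ⟨χ, hχ1, hχ2⟩ := Chi_exists_aux (M := M) (suT k p.1 p.2 hk)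
    (O := (dn (algebraMap F K) P').toSubring) hPT (Chi_nor h hx hP')
    (O' := P'.toSubring) (fun y hy => hy) hk' ((β.comp (residue p.2)).comp (suV hk))
    (α.comp (residue P'.toSubring)) (fun y hy => hcomp y hy hy)
  have hloc : ∀ i : Fin (n + 1),
      (∀ j, algebraMap F K (x j) / algebraMap F K (x i) ∈ P'.toSubring) →
      ∀ z ∈ cht k' (fun i => algebraMap F K (x i)) i,
      ∃ (h1 : z ∈ bc k' K (suT k p.1 p.2 hk)) (h2 : z ∈ P'.toSubring),
        χ ⟨z, h1⟩ = α (residue _ ⟨z, h2⟩) := by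
    intro i hi z hz
    unfold cht at hz
    induction hz using Algebra.adjoin_induction with
    | mem z hz =>
      obtain ⟨j, rfl⟩ := hz
      have e0 : algebraMap F K (x j) / algebraMap F K (x i) = algebraMap F K (x j / x i) :=
        (map_div₀ _ _ _).symm
      have hy : x j / x i ∈ (dn (algebraMap F K) P').toSubring := by
        rw [mem_dn, ← e0]
        exact hi j
      have h1 : algebraMap F K (x j / x i) ∈ bc k' K (suT k p.1 p.2 hk) := mem_bc (hPT _ hy)
      have h3 : χ ⟨algebraMap F K (x j / x i), h1⟩ =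
          α (residue _ ⟨algebraMap F K (x j / x i), hy⟩) :=
        (hχ1 ⟨x j / x i, hPT _ hy⟩).trans (hcomp _ hy hy)
      have hgen : ∀ w : K, w = algebraMap F K (x j / x i) →
          ∃ (h1 : w ∈ bc k' K (suT k p.1 p.2 hk)) (h2 : w ∈ P'.toSubring),
            χ ⟨w, h1⟩ = α (residue _ ⟨w, h2⟩) := by
        rintro _ rfl
        exact ⟨h1, hy, h3⟩
      exact hgen _ e0
    | algebraMap c => exact ⟨Subalgebra.algebraMap_mem _ c, hk' c, hχ2 c⟩
    | add u v _ _ hu hv =>
      obtain ⟨hu1, hu2, hu3⟩ := hu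
      obtain ⟨hv1, hv2, hv3⟩ := hv
      refine ⟨add_mem hu1 hv1, add_mem hu2 hv2, ?_⟩
      have e1 : (⟨u + v, add_mem hu1 hv1⟩ : bc k' K (suT k p.1 p.2 hk)) =
        ⟨u, hu1⟩ + ⟨v, hv1⟩ := rfl
      have e2 : (⟨u + v, add_mem hu2 hv2⟩ : P'.toSubring) = ⟨u, hu2⟩ + ⟨v, hv2⟩ := rfl
      rw [e1, e2, map_add, map_add, map_add, hu3, hv3]
    | mul u v _ _ hu hv =>
      obtain ⟨hu1, hu2, hu3⟩ := hu
      obtain ⟨hv1, hv2, hv3⟩ := hv
      refine ⟨mul_mem hu1 hv1, mul_mem hu2 hv2, ?_⟩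
      have e1 : (⟨u * v, mul_mem hu1 hv1⟩ : bc k' K (suT k p.1 p.2 hk)) =
        ⟨u, hu1⟩ * ⟨v, hv1⟩ := rfl
      have e2 : (⟨u * v, mul_mem hu2 hv2⟩ : P'.toSubring) = ⟨u, hu2⟩ * ⟨v, hv2⟩ := rfl
      rw [e1, e2, map_mul, map_mul, map_mul, hu3, hv3]
  refine ⟨χ, hχ1, fun z hz hzP i hi hzi => (hloc i hi z hzi).2.2, fun i hi z hz =>
    (hloc i hi z hz).1, ?_⟩
  let _ : Algebra (suT k p.1 p.2 hk) (bc k' K (suT k p.1 p.2 hk)) :=
    bcAlg k' K (suT k p.1 p.2 hk)
  have hint : Algebra.IsIntegral (suT k p.1 p.2 hk) (bc k' K (suT k p.1 p.2 hk)) :=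
    BC.isIntegral h (suT k p.1 p.2 hk)
  have hp : (RingHom.ker χ).IsPrime := RingHom.ker_isPrime χ
  apply Ideal.isMaximal_of_isIntegral_of_isMaximal_comap (R := suT k p.1 p.2 hk)
  have h2 : (RingHom.ker χ).comap
      (algebraMap (suT k p.1 p.2 hk) (bc k' K (suT k p.1 p.2 hk))) =
      RingHom.ker ((residue p.2).comp (suV hk)) := by
    ext t
    rw [Ideal.mem_comap, RingHom.mem_ker, RingHom.mem_ker]
    have h3 : χ (algebraMap (suT k p.1 p.2 hk) (bc k' K (suT k p.1 p.2 hk)) t) =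
        β (residue p.2 (suV hk t)) := hχ1 t
    rw [h3]
    exact map_eq_zero β
  rw [h2]
  exact RingHom.ker_isMaximal_of_surjective _
    ((residue_surjective (R := p.2)).comp (suV_surj (hk := hk)))

end

end Pool.Agent.Lib.MP_b197b4_ntKE
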