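import Mathlib
import Pool.Agent.Lib.MP_b197b4_ntKE.Var
import Pool.Agent.Lib.MP_b197b4_ntA.XCen
import Pool.Agent.Lib.MP_b197b4_ntD.Dim

/-!
# MP_b197b4_nt, project K1-ALL-DESC, D3: the point of the variety over `k` under a point
-/

set_option autoImplicit false
set_option linter.style.haveILetI false

namespace Pool.Agent.Lib.MP_b197b4_ntKE

open IsLocalRing Pool.Agent.Lib.MP_b197b4_ntK Pool.Agent.Lib.MP_b197b4_ntA
  Pool.Agent.Lib.MP_b197b4_ntKD Pool.Agent.Lib.MP_b197b4_ntKR Pool.Agent.Lib.MP_b197b4_ntD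

/-- a relation in a flat algebra -/
theorem Pt1_rel {R M : Type} [CommRing R] [CommRing M] [Algebra R M] (hf : Module.Flat R M)
    (a b : R) (s t : M) (h : algebraMap R M a * s = algebraMap R M b * t) :
    ∃ (κ : ℕ) (c0 c1 : Fin κ → R) (w : Fin κ → M),
      s = ∑ j, algebraMap R M (c0 j) * w j ∧ ∀ j, a * c0 j = b * c1 j := by
  obtain ⟨κ, c, w, hw, hc⟩ := Module.Flat.isTrivialRelation_of_sum_smul_eq_zero (R := R) (M := M)
    (f := (![a, -b] : Fin 2 → R)) (x := (![s, t] : Fin 2 → M)) (by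
      rw [Fin.sum_univ_two]
      simp only [Matrix.cons_val_zero, Matrix.cons_val_one, Algebra.smul_def, map_neg]
      rw [h]
      ring)
  refine ⟨κ, c 0, c 1, w, ?_, fun j => ?_⟩
  · have h3 := hw 0
    simp only [Matrix.cons_val_zero, Algebra.smul_def] at h3
    exact h3
  · have h3 := hc j
    rw [Fin.sum_univ_two] at h3
    simp only [Matrix.cons_val_zero, Matrix.cons_val_one] at h3
    linear_combination h3

section Pt1

variable {k k' F K : Type} [Field k] [Field k'] [Field F] [Field K] [Algebra k F]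
  [Algebra k' K] [Algebra F K]

/-- `A → B` -/
def Pt1_map (A : Subalgebra k F) (B : Subalgebra k' K)
    (hAB : ∀ a ∈ A, algebraMap F K a ∈ B) : A.toSubring →+* B.toSubring :=
  ((algebraMap F K).comp A.toSubring.subtype).codRestrict B.toSubring fun a => hAB a a.2

/-- a flat extension: `B_(Q') ∩ F = A_Q` -/
theorem Pt1_mem (A : Subalgebra k F) (hfr : IsFractionRing A F)
    (hflat : @Module.Flat A (bc k' K A) _ _ (bcAlg k' K A).toModule)
    (Q' : Ideal (bc k' K A).toSubring) [Q'.IsPrime]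
    (Q : Ideal A.toSubring) [Q.IsPrime]
    (hQ : ∀ (a : F) (h1 : a ∈ A.toSubring) (h2 : algebraMap F K a ∈ (bc k' K A).toSubring),
      (⟨a, h1⟩ : A.toSubring) ∈ Q ↔ ⟨algebraMap F K a, h2⟩ ∈ Q')
    (y : F) : algebraMap F K y ∈ (LocalSubring.ofPrime _ Q').toSubring ↔
      y ∈ (LocalSubring.ofPrime _ Q).toSubring := by
  rw [xcen_mem, xcen_mem]
  constructor
  · rintro ⟨a', s', hs', hy⟩
    obtain ⟨a, b, hb, rfl⟩ := IsFractionRing.div_surjective (A := A) y
    have hb0 : (b : F) ≠ 0 := by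
      intro h
      exact nonZeroDivisors.ne_zero hb (Subtype.ext h)
    have hbK : algebraMap F K (b : F) ≠ 0 := (map_ne_zero _).mpr hb0
    have hs0 : ((s' : (bc k' K A).toSubring) : K) ≠ 0 := xcen_ne _ _ hs'
    have h1 : algebraMap F K (a : F) * (s' : K) = algebraMap F K (b : F) * (a' : K) := by
      have h2 : algebraMap F K ((a : F) / (b : F)) = (a' : K) / (s' : K) := hy
      rw [map_div₀, div_eq_div_iff hbK hs0] at h2
      rw [h2, mul_comm]
    obtain ⟨κ, c0, c1, w, hw, hc⟩ := @Pt1_rel A (bc k' K A) _ _ (bcAlg k' K A) hflat a b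
      ⟨s', s'.2⟩ ⟨a', a'.2⟩ (Subtype.ext h1)
    obtain ⟨j, hj⟩ : ∃ j, (⟨(c0 j : F), (c0 j).2⟩ : A.toSubring) ∉ Q := by
      by_contra hcon
      push Not at hcon
      apply hs'
      have h3 : s' = ∑ j, (⟨algebraMap F K (c0 j : F), mem_bc (c0 j).2⟩ : (bc k' K A).toSubring) *
          ⟨(w j : K), (w j).2⟩ := by
        apply Subtype.ext
        have h4 := congrArg (Subtype.val : bc k' K A → K) hw
        rw [AddSubmonoidClass.coe_finsetSum] at h4
        rw [AddSubmonoidClass.coe_finsetSum]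
        exact h4
      rw [h3]
      refine Q'.sum_mem fun j _ => Q'.mul_mem_right _ ?_
      exact (hQ _ (c0 j).2 (mem_bc (c0 j).2)).1 (hcon j)
    refine ⟨⟨(c1 j : F), (c1 j).2⟩, ⟨(c0 j : F), (c0 j).2⟩, hj, ?_⟩
    have h4 : (a : F) * (c0 j : F) = (b : F) * (c1 j : F) := congrArg (Subtype.val : A → F) (hc j)
    have h5 : (c0 j : F) ≠ 0 := xcen_ne A.toSubring Q hj
    show (a : F) / (b : F) = (c1 j : F) / (c0 j : F)
    rw [div_eq_div_iff hb0 h5]
    linear_combination h4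
  · rintro ⟨a, s, hs, rfl⟩
    refine ⟨⟨algebraMap F K (a : F), mem_bc a.2⟩, ⟨algebraMap F K (s : F), mem_bc s.2⟩, ?_, ?_⟩
    · rw [← hQ _ s.2 (mem_bc s.2)]
      exact hs
    · exact map_div₀ _ _ _

/-- the dimension -/
theorem Pt1_dim [Algebra k k'] [Algebra k K] [IsScalarTower k k' K] [IsScalarTower k F K]
    {A : Subalgebra k F} (hfg : A.FG) {B : Subalgebra k' K} (hfg' : B.FG)
    (hAB : ∀ a ∈ A, algebraMap F K a ∈ B) (hint : (Pt1_map A B hAB).IsIntegral)
    (Q' : Ideal B.toSubring) [Q'.IsPrime] :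
    ringKrullDim (A.toSubring ⧸ Q'.comap (Pt1_map A B hAB)) = ringKrullDim (B.toSubring ⧸ Q') := by
  letI : Algebra k A.toSubring := inferInstanceAs (Algebra k A)
  letI : Algebra k' B.toSubring := inferInstanceAs (Algebra k' B)
  haveI : Algebra.FiniteType k A.toSubring := (Subalgebra.fg_iff_finiteType A).1 hfg
  haveI : Algebra.FiniteType k' B.toSubring := (Subalgebra.fg_iff_finiteType B).1 hfg'
  haveI : IsNoetherianRing B.toSubring := Algebra.FiniteType.isNoetherianRing k' _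
  haveI : IsNoetherianRing A.toSubring := Algebra.FiniteType.isNoetherianRing k _
  letI : Algebra k B.toSubring := ((algebraMap k' B.toSubring).comp (algebraMap k k')).toAlgebra
  let φ : A.toSubring →ₐ[k] B.toSubring :=
    { Pt1_map A B hAB with
      commutes' := fun c => by
        apply Subtype.ext
        show algebraMap F K (algebraMap k F c) = algebraMap k' K (algebraMap k k' c)
        rw [← IsScalarTower.algebraMap_apply, ← IsScalarTower.algebraMap_apply] }
  let ψ : (A.toSubring ⧸ Q'.comap (Pt1_map A B hAB)) →ₐ[k] (B.toSubring ⧸ Q') :=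
    Ideal.quotientMapₐ Q' φ (le_refl _)
  have hψ : Function.Injective ψ := by
    refine Ideal.quotientMap_injective' (f := (φ : A.toSubring →+* B.toSubring)) (H := le_refl _) ?_
    exact le_refl _
  have hψi : ψ.toRingHom.IsIntegral := by
    intro z
    obtain ⟨z, rfl⟩ := Ideal.Quotient.mk_surjective z
    have h1 : RingHom.IsIntegralElem ((Ideal.Quotient.mk Q').comp (Pt1_map A B hAB))
        (Ideal.Quotient.mk Q' z) := by
      obtain ⟨p, hp, hp0⟩ := hint z
      exact ⟨p, hp, by rw [← Polynomial.hom_eval₂, hp0, map_zero]⟩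
    obtain ⟨p, hp, hp0⟩ := h1
    refine ⟨p.map (Ideal.Quotient.mk _), hp.map _, ?_⟩
    rw [Polynomial.eval₂_map]
    exact hp0
  haveI : (Q'.comap (Pt1_map A B hAB)).IsPrime := Ideal.comap_isPrime _ _
  haveI : IsDomain (A.toSubring ⧸ Q'.comap (Pt1_map A B hAB)) := Ideal.Quotient.isDomain _
  haveI : IsDomain (B.toSubring ⧸ Q') := Ideal.Quotient.isDomain _
  obtain ⟨s, hs⟩ := exists_hasDim k (A.toSubring ⧸ Q'.comap (Pt1_map A B hAB))
  rw [hs.ringKrullDim, (hs.of_integral ψ hψ hψi).ringKrullDim]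

end Pt1

section

variable {k k' F K : Type} [Field k] [Field k'] [Field F] [Field K] [Algebra k k'] [Algebra k F]
  [Algebra k' K] [Algebra F K] {n d : ℕ} {x : Fin (n + 1) → F}

theorem Pt1_all (h : BC k k' F K) (hx : Var k d x) (i : Fin (n + 1)) (B : Subalgebra k' K)
    (hB : B = bc k' K (cht k x i)) (Q' : Ideal B.toSubring) (hQ' : Q'.IsPrime) :
    ∃ (Q : Ideal (cht k x i).toSubring) (_ : Q.IsPrime),
      dn (algebraMap F K) (LocalSubring.ofPrime _ Q') = LocalSubring.ofPrime _ Q ∧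
      (∀ (a : F) (h1 : a ∈ (cht k x i).toSubring) (h2 : algebraMap F K a ∈ B.toSubring),
        (⟨a, h1⟩ : (cht k x i).toSubring) ∈ Q ↔ ⟨algebraMap F K a, h2⟩ ∈ Q') ∧
      ringKrullDim ((cht k x i).toSubring ⧸ Q) = ringKrullDim (B.toSubring ⧸ Q') := by
  subst hB
  have := h.sep
  let _ : Algebra k K := ((algebraMap k' K).comp (algebraMap k k')).toAlgebra
  have : IsScalarTower k k' K := IsScalarTower.of_algebraMap_eq fun _ => rfl
  have : IsScalarTower k F K := IsScalarTower.of_algebraMap_eq fun c => h.comm c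
  have hAB : ∀ a ∈ cht k x i, algebraMap F K a ∈ bc k' K (cht k x i) := fun a ha => mem_bc ha
  let j := Pt1_map (cht k x i) (bc k' K (cht k x i)) hAB
  have hp : (Q'.comap j).IsPrime := Ideal.comap_isPrime _ _
  have hQ : ∀ (a : F) (h1 : a ∈ (cht k x i).toSubring)
      (h2 : algebraMap F K a ∈ (bc k' K (cht k x i)).toSubring),
      (⟨a, h1⟩ : (cht k x i).toSubring) ∈ Q'.comap j ↔ ⟨algebraMap F K a, h2⟩ ∈ Q' :=
    fun a h1 h2 => Iff.rfl
  have hint : j.IsIntegral := by
    intro z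
    obtain ⟨p, hp, hp0⟩ := (h.isIntegral (cht k x i)).isIntegral (⟨z.1, z.2⟩ : bc k' K (cht k x i))
    exact ⟨p, hp, hp0⟩
  refine ⟨Q'.comap j, hp, ?_, hQ, ?_⟩
  · apply LocalSubring.toSubring_injective
    ext y
    exact Pt1_mem (cht k x i) (hx.frac i) (Var_flat h hx i) Q' (Q'.comap j) hQ y
  · exact Pt1_dim (Var_cht_fg x i) (bc_fg (Var_cht_fg x i)) hAB hint Q'

/-- D3 (Pt1.lean). -/
theorem dn_ofPrime (h : BC k k' F K) (hx : Var k d x) (i : Fin (n + 1))
    (Q' : Ideal (cht k' (fun i => algebraMap F K (x i)) i).toSubring) (hQ' : Q'.IsPrime) :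
    ∃ (Q : Ideal (cht k x i).toSubring) (_ : Q.IsPrime),
      dn (algebraMap F K) (LocalSubring.ofPrime _ Q') = LocalSubring.ofPrime _ Q ∧
      (∀ (a : F) (h1 : a ∈ (cht k x i).toSubring)
        (h2 : algebraMap F K a ∈ (cht k' (fun i => algebraMap F K (x i)) i).toSubring),
        (⟨a, h1⟩ : (cht k x i).toSubring) ∈ Q ↔ ⟨algebraMap F K a, h2⟩ ∈ Q') ∧
      ringKrullDim ((cht k x i).toSubring ⧸ Q) =
        ringKrullDim ((cht k' (fun i => algebraMap F K (x i)) i).toSubring ⧸ Q') :=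
  Pt1_all h hx i _ (Var_cht_eq h x i) Q' hQ'

/-- D3 (Pt1.lean). -/
theorem pts_dn (h : BC k k' F K) (hx : Var k d x) {e : ℕ} {P' : LocalSubring K}
    (hP' : P' ∈ Pts k' (fun i => algebraMap F K (x i)) e) :
    dn (algebraMap F K) P' ∈ Pts k x e := by
  obtain ⟨i, Q', hQ', hd, rfl⟩ := hP'
  obtain ⟨Q, hQ, h1, -, h2⟩ := dn_ofPrime h hx i Q' hQ'
  exact ⟨i, Q, hQ, h2.trans hd, h1⟩

end

end Pool.Agent.Lib.MP_b197b4_ntKE
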