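import Mathlib
import Pool.Agent.Lib.MP_b197b4_ntKE.SuB
import Pool.Agent.Lib.MP_b197b4_ntKD.Fib

/-!
# MP_b197b4_nt, project K1-ALL-DESC: the point over `S`
-/

set_option autoImplicit false

namespace Pool.Agent.Lib.MP_b197b4_ntKE

open IsLocalRing Polynomial Pool.Agent.Lib.MP_b197b4_ntK Pool.Agent.Lib.MP_b197b4_ntA
  Pool.Agent.Lib.MP_b197b4_ntKD Pool.Agent.Lib.MP_b197b4_ntKR

/-- The units among the elements of `R`. -/
theorem SuC_unit {K : Type} [Field K] {B : Subring K} {R : Type} [CommRing R] (c : R →+* K)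
    (hc : Function.Injective c) (j : B →+* R) (hj : ∀ z : B, c (j z) = z) (p'' : Ideal R)
    (hp : p''.IsPrime) (Q : Ideal B) (hQ : Q.IsPrime) (hjQ : ∀ z : B, z ∈ Q ↔ j z ∈ p'') (z : R)
    (hz' : c z ∈ (LocalSubring.ofPrime B Q).toSubring) :
    IsUnit (⟨c z, hz'⟩ : (LocalSubring.ofPrime B Q).toSubring) ↔ z ∉ p'' := by
  obtain ⟨a, s, hs, hzs⟩ := (xcen_mem _ Q (c z)).mp hz'
  have hs0 : (s : K) ≠ 0 := xcen_ne _ _ hs
  have hsu := (xcen_unit _ Q s).mpr hs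
  have h1 : (⟨(s : K), LocalSubring.le_ofPrime _ Q s.2⟩ :
      (LocalSubring.ofPrime B Q).toSubring) * ⟨c z, hz'⟩ =
      ⟨(a : K), LocalSubring.le_ofPrime _ Q a.2⟩ := by
    apply Subtype.ext
    change (s : K) * c z = a
    rw [hzs, mul_div_cancel₀ _ hs0]
  have h2 : j s * z = j a := by
    apply hc
    rw [map_mul, hj, hj, hzs, mul_div_cancel₀ _ hs0]
  have h3 : IsUnit (⟨c z, hz'⟩ : (LocalSubring.ofPrime B Q).toSubring) ↔
      IsUnit (⟨(a : K), LocalSubring.le_ofPrime _ Q a.2⟩ :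
      (LocalSubring.ofPrime B Q).toSubring) := by
    rw [← h1, IsUnit.mul_iff]
    exact ⟨fun h => ⟨hsu, h⟩, fun h => h.2⟩
  rw [h3, xcen_unit, not_iff_not, hjQ, ← h2]
  constructor
  · intro h4
    exact (hp.mem_or_mem h4).resolve_left fun h5 => hs ((hjQ s).mpr h5)
  · intro h4
    exact p''.mul_mem_left _ h4

variable {k k' F K : Type} [Field k] [Field k'] [Field F] [Field K] [Algebra k k'] [Algebra k F]
  [Algebra k' K] [Algebra F K]

/-- Going down. -/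
theorem SuC_down (h : BC k k' F K) {T : Subalgebra k F} (hT : IsIntegrallyClosed T)
    (N : Ideal (bc k' K T)) (hN : N.IsPrime) (p₀ : Ideal T) (hp₀ : p₀.IsPrime)
    (hle : p₀ ≤ N.comap (bcMap k' K T)) :
    ∃ p'' : Ideal (bc k' K T), p''.IsPrime ∧ p'' ≤ N ∧ p''.comap (bcMap k' K T) = p₀ := by
  have := h.sep
  let _ : Algebra k K := ((algebraMap k' K).comp (algebraMap k k')).toAlgebra
  have : IsScalarTower k k' K := IsScalarTower.of_algebraMap_eq fun _ => rfl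
  have : IsScalarTower k F K := IsScalarTower.of_algebraMap_eq fun c => h.comm c
  let _ : Algebra T (bc k' K T) := bcAlg k' K T
  have hfl : Module.Flat T (bc k' K T) := bc_flat hT
  have hgd : Algebra.HasGoingDown T (bc k' K T) := inferInstance
  have hq : (N.comap (bcMap k' K T)).IsPrime := Ideal.comap_isPrime _ _
  have hlo : N.LiesOver (N.comap (bcMap k' K T)) := ⟨rfl⟩
  obtain ⟨p'', hp1, hp2, hp3⟩ := Ideal.exists_ideal_le_liesOver_of_le N hle
  exact ⟨p'', hp2, hp1, hp3.over.symm⟩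

omit [Algebra k k'] in
theorem SuC_mono {A T : Subalgebra k F} (hAT : A ≤ T) : bc k' K A ≤ bc k' K T :=
  Algebra.adjoin_mono (Set.image_mono hAT)

omit [Algebra k k'] in
/-- `T[k']` is contained in the local ring. -/
theorem SuC_le {A T : Subalgebra k F} (Q : Ideal A.toSubring) (hQ : Q.IsPrime)
    (hTS : ∀ t ∈ T, t ∈ (LocalSubring.ofPrime A.toSubring Q).toSubring)
    (Q'' : Ideal (bc k' K A).toSubring) (hQ'' : Q''.IsPrime)
    (hQA : ∀ (a : F) (h1 : a ∈ A.toSubring) (h2 : algebraMap F K a ∈ (bc k' K A).toSubring),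
        (⟨a, h1⟩ : A.toSubring) ∈ Q ↔
          (⟨algebraMap F K a, h2⟩ : (bc k' K A).toSubring) ∈ Q'') (z : K)
    (hz : z ∈ bc k' K T) : z ∈ (LocalSubring.ofPrime (bc k' K A).toSubring Q'').toSubring := by
  unfold bc at hz
  induction hz using Algebra.adjoin_induction with
  | mem y hy =>
    obtain ⟨t, ht, rfl⟩ := hy
    obtain ⟨a, s, hs, hts⟩ := (xcen_mem _ Q t).mp (hTS t ht)
    have ha' : algebraMap F K a ∈ (bc k' K A).toSubring := mem_bc a.2
    have hs' : algebraMap F K s ∈ (bc k' K A).toSubring := mem_bc s.2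
    rw [xcen_mem]
    refine ⟨⟨_, ha'⟩, ⟨_, hs'⟩, ?_, ?_⟩
    · rw [← hQA s s.2 hs']
      exact hs
    · rw [hts, map_div₀]
  | algebraMap c =>
    exact LocalSubring.le_ofPrime _ _ (Subalgebra.algebraMap_mem (bc k' K A) c)
  | add a b _ _ ha hb => exact add_mem ha hb
  | mul a b _ _ ha hb => exact mul_mem ha hb

/-- **The point over `S`.** -/
theorem SuC_point (h : BC k k' F K) {A T : Subalgebra k F} (hAT : A ≤ T)
    (hT : IsIntegrallyClosed T)
    (Q : Ideal A.toSubring) (hQ : Q.IsPrime)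
    (hTS : ∀ t ∈ T, t ∈ (LocalSubring.ofPrime A.toSubring Q).toSubring)
    (N : Ideal (bc k' K T)) (hN : N.IsPrime) (p₀ : Ideal T) (hp₀ : p₀.IsPrime)
    (hpQ : ∀ a : A.toSubring, a ∈ Q ↔ (⟨a, hAT a.2⟩ : T) ∈ p₀)
    (hle : p₀ ≤ N.comap (bcMap k' K T)) :
    ∃ (Q'' : Ideal (bc k' K A).toSubring) (_ : Q''.IsPrime) (p'' : Ideal (bc k' K T)),
      p'' ≤ N ∧
      (∀ z ∈ bc k' K T, z ∈ (LocalSubring.ofPrime (bc k' K A).toSubring Q'').toSubring) ∧
      (∀ (z : K) (hz : z ∈ bc k' K T)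
        (hz' : z ∈ (LocalSubring.ofPrime (bc k' K A).toSubring Q'').toSubring),
        IsUnit (⟨z, hz'⟩ : (LocalSubring.ofPrime (bc k' K A).toSubring Q'').toSubring) ↔
          (⟨z, hz⟩ : bc k' K T) ∉ p'') ∧
      ∀ (a : F) (h1 : a ∈ A.toSubring) (h2 : algebraMap F K a ∈ (bc k' K A).toSubring),
        (⟨a, h1⟩ : A.toSubring) ∈ Q ↔
          (⟨algebraMap F K a, h2⟩ : (bc k' K A).toSubring) ∈ Q'' := by
  obtain ⟨p'', hp1, hp2, hp3⟩ := SuC_down h hT N hN p₀ hp₀ hle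
  have hmono : bc k' K A ≤ bc k' K T := SuC_mono hAT
  obtain ⟨j, hj⟩ : ∃ j : (bc k' K A).toSubring →+* bc k' K T,
      ∀ z, j z = ⟨(z : K), hmono z.2⟩ :=
    ⟨(Subring.subtype (bc k' K A).toSubring).codRestrict (bc k' K T) fun z => hmono z.2,
      fun _ => rfl⟩
  have hQ'' : (p''.comap j).IsPrime := Ideal.comap_isPrime _ _
  have hQA : ∀ (a : F) (h1 : a ∈ A.toSubring) (h2 : algebraMap F K a ∈ (bc k' K A).toSubring),
        (⟨a, h1⟩ : A.toSubring) ∈ Q ↔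
          (⟨algebraMap F K a, h2⟩ : (bc k' K A).toSubring) ∈ p''.comap j := by
    intro a h1 h2
    rw [Ideal.mem_comap, hj, hpQ, ← hp3, Ideal.mem_comap]
    exact Iff.rfl
  refine ⟨p''.comap j, hQ'', p'', hp2, SuC_le Q hQ hTS _ hQ'' hQA, ?_, hQA⟩
  intro z hz hz'
  exact SuC_unit ((bc k' K T).val : bc k' K T →+* K) Subtype.val_injective j
    (fun z => by rw [hj]; rfl) p'' hp1 (p''.comap j) hQ'' (fun _ => Iff.rfl) ⟨z, hz⟩ hz'

end Pool.Agent.Lib.MP_b197b4_ntKE
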