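import Mathlib
import Pool.Agent.Lib.MP_b197b4_ntKE.SuB
import Pool.Agent.Lib.MP_b197b4_ntKD.Fib

/-!
# MP_b197b4_nt, project K1-ALL-DESC: the valuation ring over `V`
-/

set_option autoImplicit false

namespace Pool.Agent.Lib.MP_b197b4_ntKE

open IsLocalRing Polynomial Pool.Agent.Lib.MP_b197b4_ntK Pool.Agent.Lib.MP_b197b4_ntA
  Pool.Agent.Lib.MP_b197b4_ntKD Pool.Agent.Lib.MP_b197b4_ntKR

/-- A valuation ring which contains the image of `R` and has centre the maximal ideal `N`. -/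
theorem SuD_dom {R E : Type} [CommRing R] [Field E] (ρ : R →+* E) (N : Ideal R) (hN : N.IsMaximal)
    (hk : RingHom.ker ρ ≤ N) : ∃ V : ValuationSubring E, ∀ z : R, ρ z ∈ V ∧
      (z ∈ N ↔ V.valuation (ρ z) < 1) := by
  have hI : N.map ρ.rangeRestrict ≠ ⊤ := by
    intro h0
    have h1 : (1 : ρ.range) ∈ N.map ρ.rangeRestrict := by
      rw [h0]
      trivial
    obtain ⟨z, hz, hz1⟩ := (Ideal.mem_map_iff_of_surjective _ ρ.rangeRestrict_surjective).mp h1
    have h2 : ρ z = 1 := congrArg Subtype.val hz1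
    have h3 : (1 : R) - z ∈ N := by
      apply hk
      rw [RingHom.mem_ker, map_sub, map_one, h2, sub_self]
    have h4 : (1 : R) ∈ N := by
      have h5 := N.add_mem h3 hz
      rwa [sub_add_cancel] at h5
    exact hN.ne_top ((Ideal.eq_top_iff_one N).mpr h4)
  obtain ⟨V, hV1, hV2⟩ := Ideal.image_subset_nonunits_valuationSubring (N.map ρ.rangeRestrict) hI
  have hmem : ∀ z : R, ρ z ∈ V := fun z => hV1 ⟨z, rfl⟩
  have hlt : ∀ z ∈ N, V.valuation (ρ z) < 1 := by
    intro z hz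
    have h1 : ρ z ∈ V.nonunits := hV2 ⟨ρ.rangeRestrict z, Ideal.mem_map_of_mem _ hz, rfl⟩
    exact V.mem_nonunits_iff.mp h1
  refine ⟨V, fun z => ⟨hmem z, hlt z, fun hz => ?_⟩⟩
  by_contra hzN
  obtain ⟨w, hw⟩ : ∃ w : R, 1 - w * z ∈ N := by
    have h1 : Ideal.span {z} ⊔ N = ⊤ := by
      by_contra h2
      have h3 := hN.eq_of_le h2 le_sup_right
      apply hzN
      rw [h3]
      exact Ideal.mem_sup_left (Ideal.subset_span rfl)
    have h2 : (1 : R) ∈ Ideal.span {z} ⊔ N := by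
      rw [h1]
      trivial
    obtain ⟨a, ha, b, hb, hab⟩ := Submodule.mem_sup.mp h2
    obtain ⟨w, rfl⟩ := Ideal.mem_span_singleton'.mp ha
    refine ⟨w, ?_⟩
    rw [← hab, add_sub_cancel_left]
    exact hb
  have h1 := hlt _ hw
  have h2 : V.valuation (ρ (w * z)) < 1 := by
    rw [map_mul, map_mul, mul_comm]
    exact mul_lt_one_of_lt_of_le hz ((V.valuation_le_one_iff _).mpr (hmem w))
  have h3 : V.valuation (ρ (1 - w * z) + ρ (w * z)) < 1 :=
    lt_of_le_of_lt (V.valuation.map_add _ _) (max_lt h1 h2)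
  rw [← map_add, sub_add_cancel, map_one, map_one] at h3
  exact lt_irrefl _ h3

/-- A valuation ring which dominates `V` has trace `V`. -/
theorem SuD_comap {E E' : Type} [Field E] [Field E'] (f : E →+* E') (V : ValuationSubring E)
    (V' : ValuationSubring E') (h1 : ∀ v ∈ V, f v ∈ V')
    (h2 : ∀ v ∈ V, V.valuation v < 1 → V'.valuation (f v) < 1) : V'.comap f = V := by
  ext u
  rw [ValuationSubring.mem_comap]
  refine ⟨fun hu => ?_, h1 u⟩
  by_contra hn
  have hu0 : u ≠ 0 := by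
    rintro rfl
    exact hn V.zero_mem
  have h3 : u⁻¹ ∈ V := (V.mem_or_inv_mem u).resolve_left hn
  have h4 : V.valuation u⁻¹ < 1 := by
    rw [map_inv₀]
    have h5 : 1 < V.valuation u := by
      rw [← not_le, V.valuation_le_one_iff]
      exact hn
    exact inv_lt_one_of_one_lt₀ h5
  have h5 := h2 _ h3 h4
  have h6 : V'.valuation (f u) ≤ 1 := (V'.valuation_le_one_iff _).mpr hu
  have h7 : V'.valuation (f u⁻¹) * V'.valuation (f u) = 1 := by
    rw [← map_mul, ← map_mul, inv_mul_cancel₀ hu0, map_one, map_one]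
  have h8 := mul_lt_one_of_lt_of_le h5 h6
  rw [h7] at h8
  exact lt_irrefl _ h8

variable {k k' F K : Type} [Field k] [Field k'] [Field F] [Field K] [Algebra k k'] [Algebra k F]
  [Algebra k' K] [Algebra F K]

omit [Algebra k k'] in
/-- **The valuation ring over `V`.** -/
theorem SuD_val {S'' : LocalSubring K} {V : ValuationSubring (Kap (dn (algebraMap F K) S''))}
    (hk : ∀ c : k, ∃ h : algebraMap k F c ∈ (dn (algebraMap F K) S'').toSubring,
      residue (dn (algebraMap F K) S'').toSubring ⟨_, h⟩ ∈ V)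
    (N p'' : Ideal (bc k' K (suT k (dn (algebraMap F K) S'') V hk))) (hN : N.IsMaximal)
    (hp : p'' ≤ N)
    (hmem : ∀ z ∈ bc k' K (suT k (dn (algebraMap F K) S'') V hk), z ∈ S''.toSubring)
    (hunit : ∀ (z : K) (hz : z ∈ bc k' K (suT k (dn (algebraMap F K) S'') V hk))
      (hz' : z ∈ S''.toSubring), IsUnit (⟨z, hz'⟩ : S''.toSubring) ↔
        (⟨z, hz⟩ : bc k' K (suT k (dn (algebraMap F K) S'') V hk)) ∉ p'')
    (hNV : ∀ t : suT k (dn (algebraMap F K) S'') V hk,
      V.valuation (residue (dn (algebraMap F K) S'').toSubring ⟨t, t.2.1⟩) < 1 →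
        bcMap k' K _ t ∈ N) :
    ∃ V'' : ValuationSubring (Kap S''), V''.comap (kmap (algebraMap F K) S'') = V ∧
      ∀ (z : K) (hz : z ∈ bc k' K (suT k (dn (algebraMap F K) S'') V hk))
        (hz' : z ∈ S''.toSubring), residue S''.toSubring ⟨z, hz'⟩ ∈ V'' ∧
          ((⟨z, hz⟩ : bc k' K (suT k (dn (algebraMap F K) S'') V hk)) ∈ N ↔
            V''.valuation (residue S''.toSubring ⟨z, hz'⟩) < 1) := by
  let ρ : bc k' K (suT k (dn (algebraMap F K) S'') V hk) →+* Kap S'' :=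
    (residue S''.toSubring).comp
      ((Subring.subtype (bc k' K (suT k (dn (algebraMap F K) S'') V hk)).toSubring).codRestrict
        S''.toSubring fun z => hmem z z.2)
  have hρ : ∀ (z : K) (hz : z ∈ bc k' K (suT k (dn (algebraMap F K) S'') V hk))
      (hz' : z ∈ S''.toSubring), ρ ⟨z, hz⟩ = residue S''.toSubring ⟨z, hz'⟩ := fun _ _ _ => rfl
  have hker : RingHom.ker ρ ≤ N := by
    intro z hz
    apply hp
    by_contra hn
    have h1 := (hunit z z.2 (hmem z z.2)).mpr hn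
    rw [RingHom.mem_ker] at hz
    have h2 : ¬ IsUnit (⟨z, hmem z z.2⟩ : S''.toSubring) := by
      rw [← mem_nonunits_iff, ← mem_maximalIdeal, ← residue_eq_zero_iff]
      exact hz
    exact h2 h1
  obtain ⟨V'', hV''⟩ := SuD_dom ρ N hN hker
  refine ⟨V'', ?_, fun z hz hz' => hV'' ⟨z, hz⟩⟩
  apply SuD_comap
  · intro v hv
    obtain ⟨t, ht⟩ := suV_surj hk ⟨v, hv⟩
    have h1 : v = residue (dn (algebraMap F K) S'').toSubring ⟨t, t.2.1⟩ :=
      (congrArg Subtype.val ht).symm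
    rw [h1]
    exact (hV'' (bcMap k' K _ t)).1
  · intro v hv hv1
    obtain ⟨t, ht⟩ := suV_surj hk ⟨v, hv⟩
    have h1 : v = residue (dn (algebraMap F K) S'').toSubring ⟨t, t.2.1⟩ :=
      (congrArg Subtype.val ht).symm
    rw [h1] at hv1 ⊢
    exact (hV'' (bcMap k' K _ t)).2.mp (hNV t hv1)

end Pool.Agent.Lib.MP_b197b4_ntKE
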