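import Mathlib
import Pool.Agent.Lib.MP_b197b4_ntKE.SuD
import Pool.Agent.Lib.MP_b197b4_ntKE.Gn

/-!
# MP_b197b4_nt, project K1-ALL-DESC: the pair `(S'', V'')`
-/

set_option autoImplicit false

namespace Pool.Agent.Lib.MP_b197b4_ntKE

open IsLocalRing Polynomial Pool.Agent.Lib.MP_b197b4_ntK Pool.Agent.Lib.MP_b197b4_ntA
  Pool.Agent.Lib.MP_b197b4_ntKD Pool.Agent.Lib.MP_b197b4_ntKR

theorem SuE_res_zero {E : Type} [Field E] (V : ValuationSubring E) (v : V) :
    residue V v = 0 ↔ V.valuation v < 1 := by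
  rw [residue_eq_zero_iff, V.valuation_lt_one_iff]

/-- The residue field of the centre. -/
theorem SuE_emb {K : Type} [Field K] {P S : LocalSubring K} {V : ValuationSubring (Kap S)}
    (hc : Cen P S V) : ∃ φ : Kap P →+* ResidueField V, Emb P S V φ := by
  obtain ⟨g, hg⟩ : ∃ g : P.toSubring →+* ResidueField V, ∀ y : P.toSubring,
      g y = residue V ⟨residue S.toSubring ⟨y, hc.1 y.2⟩, (hc.2 y y.2 (hc.1 y.2)).1⟩ :=
    ⟨(residue V).comp (((residue S.toSubring).comp (Subring.inclusion hc.1)).codRestrict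
      V.toSubring fun y => (hc.2 y y.2 (hc.1 y.2)).1), fun _ => rfl⟩
  have hloc : IsLocalHom g := by
    constructor
    intro y hy
    have h1 : g y ≠ 0 := hy.ne_zero
    rw [hg] at h1
    have h2 : ¬ V.valuation (residue S.toSubring ⟨y, hc.1 y.2⟩) < 1 := fun h3 =>
      h1 ((SuE_res_zero V _).mpr h3)
    have h3 := (V.valuation_le_one_iff _).mpr (hc.2 y y.2 (hc.1 y.2)).1
    exact (hc.2 y y.2 (hc.1 y.2)).2.mpr (le_antisymm h3 (not_lt.mp h2))
  refine ⟨ResidueField.lift g, fun y hP hS => ?_⟩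
  rw [ResidueField.lift_residue_apply, hg, MP_b197b4_ntKD.res_of_mem (hc.2 y hP hS).1]

/-- A homomorphism from `R` with kernel a maximal ideal onto a field. -/
theorem SuE_inv {R E : Type} [CommRing R] [Field E] (ψ : R →+* E) (hN : (RingHom.ker ψ).IsMaximal)
    {z : R} (hz : ψ z ≠ 0) : ∃ w : R, ψ w * ψ z = 1 := by
  have h1 : Ideal.span {z} ⊔ RingHom.ker ψ = ⊤ := by
    by_contra h2
    have h3 := hN.eq_of_le h2 le_sup_right
    apply hz
    rw [← RingHom.mem_ker, h3]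
    exact Ideal.mem_sup_left (Ideal.subset_span rfl)
  have h2 : (1 : R) ∈ Ideal.span {z} ⊔ RingHom.ker ψ := by
    rw [h1]
    trivial
  obtain ⟨a, ha, b, hb, hab⟩ := Submodule.mem_sup.mp h2
  obtain ⟨w, rfl⟩ := Ideal.mem_span_singleton'.mp ha
  refine ⟨w, ?_⟩
  have h3 := congrArg ψ hab
  rw [map_add, map_one, map_mul, (RingHom.mem_ker).mp hb, add_zero] at h3
  exact h3

/-- The centre of `V''` is `P'`. -/
theorem SuE_cen {k' K : Type} [Field k'] [Field K] [Algebra k' K] {S'' : LocalSubring K}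
    {V'' : ValuationSubring (Kap S'')} {B : Subring K}
    (Q' : Ideal B) (hQ' : Q'.IsPrime) {R : Subalgebra k' K} (hBR : ∀ z ∈ B, z ∈ R)
    (hRS : ∀ z ∈ R, z ∈ S''.toSubring) (N : Ideal R)
    (hNQ : ∀ z : B, z ∈ Q' ↔ (⟨z, hBR z z.2⟩ : R) ∈ N)
    (hu : ∀ z : R, z ∉ N → IsUnit (⟨z, hRS z z.2⟩ : S''.toSubring))
    (hV : ∀ z : R, residue S''.toSubring ⟨z, hRS z z.2⟩ ∈ V'' ∧
      (z ∈ N ↔ V''.valuation (residue S''.toSubring ⟨z, hRS z z.2⟩) < 1)) :
    Cen (LocalSubring.ofPrime B Q') S'' V'' := by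
  have key : ∀ y ∈ (LocalSubring.ofPrime B Q').toSubring, ∃ hS : y ∈ S''.toSubring,
      ∀ (hP : y ∈ (LocalSubring.ofPrime B Q').toSubring), residue S''.toSubring ⟨y, hS⟩ ∈ V'' ∧
      (IsUnit (⟨y, hP⟩ : (LocalSubring.ofPrime B Q').toSubring) ↔
        V''.valuation (residue S''.toSubring ⟨y, hS⟩) = 1) := by
    intro y hy
    obtain ⟨a, s, hs, rfl⟩ := (xcen_mem _ Q' y).mp hy
    have hs0 : (s : K) ≠ 0 := xcen_ne _ _ hs
    have hsN : (⟨s, hBR _ s.2⟩ : R) ∉ N := fun h1 => hs ((hNQ s).mpr h1)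
    have hsu := hu _ hsN
    have hsi : (s : K)⁻¹ ∈ S''.toSubring := xcen_inv_mem S'' (hRS _ (hBR _ s.2)) hsu
    have hS : (a : K) / (s : K) ∈ S''.toSubring := by
      rw [div_eq_mul_inv]
      exact mul_mem (hRS _ (hBR _ a.2)) hsi
    have hvs : V''.valuation (residue S''.toSubring ⟨s, hRS _ (hBR _ s.2)⟩) = 1 := by
      have h1 := hV ⟨s, hBR _ s.2⟩
      have h2 : ¬ V''.valuation (residue S''.toSubring ⟨s, hRS _ (hBR _ s.2)⟩) < 1 := fun h3 =>
        hsN (h1.2.mpr h3)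
      exact le_antisymm ((V''.valuation_le_one_iff _).mpr h1.1) (not_lt.mp h2)
    have hprod : residue S''.toSubring ⟨(a : K) / (s : K), hS⟩ *
        residue S''.toSubring ⟨s, hRS _ (hBR _ s.2)⟩ = residue S''.toSubring ⟨a, hRS _ (hBR _ a.2)⟩ := by
      rw [← map_mul]
      congr 1
      apply Subtype.ext
      exact div_mul_cancel₀ _ hs0
    have hva : V''.valuation (residue S''.toSubring ⟨(a : K) / (s : K), hS⟩) =
        V''.valuation (residue S''.toSubring ⟨a, hRS _ (hBR _ a.2)⟩) := by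
      rw [← hprod, map_mul, hvs, mul_one]
    have ha := hV ⟨a, hBR _ a.2⟩
    refine ⟨hS, fun hP => ⟨?_, ?_⟩⟩
    · rw [← V''.valuation_le_one_iff, hva, V''.valuation_le_one_iff]
      exact ha.1
    · rw [hva]
      have h1 : (⟨(a : K) / (s : K), hP⟩ : (LocalSubring.ofPrime B Q').toSubring) *
          ⟨s, LocalSubring.le_ofPrime _ Q' s.2⟩ = ⟨a, LocalSubring.le_ofPrime _ Q' a.2⟩ := by
        apply Subtype.ext
        exact div_mul_cancel₀ _ hs0
      have h2 : IsUnit (⟨(a : K) / (s : K), hP⟩ : (LocalSubring.ofPrime B Q').toSubring) ↔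
          IsUnit (⟨a, LocalSubring.le_ofPrime _ Q' a.2⟩ :
            (LocalSubring.ofPrime B Q').toSubring) := by
        rw [← h1, IsUnit.mul_iff]
        exact ⟨fun h => ⟨h, (xcen_unit _ Q' s).mpr hs⟩, fun h => h.1⟩
      rw [h2, xcen_unit, hNQ, ha.2, not_lt]
      exact ⟨fun h3 => le_antisymm ((V''.valuation_le_one_iff _).mpr ha.1) h3, fun h3 => h3.ge⟩
  refine ⟨fun y hy => (key y hy).1, fun y hP hS => ?_⟩
  obtain ⟨hS', h1⟩ := key y hP
  exact h1 hP

end Pool.Agent.Lib.MP_b197b4_ntKE
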