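import Mathlib
import Pool.Agent.Lib.MP_b197b4_ntKE.SuE

/-!
# MP_b197b4_nt, project K1-ALL-DESC: the pair `(S'', V'')` and its residue field
-/

set_option autoImplicit false

namespace Pool.Agent.Lib.MP_b197b4_ntKE

open IsLocalRing Pool.Agent.Lib.MP_b197b4_ntK Pool.Agent.Lib.MP_b197b4_ntA
  Pool.Agent.Lib.MP_b197b4_ntKD Pool.Agent.Lib.MP_b197b4_ntKR

variable {k k' F K : Type} [Field k] [Field k'] [Field F] [Field K] [Algebra k k'] [Algebra k F]
  [Algebra k' K] [Algebra F K] {n d : ℕ} {x : Fin (n + 1) → F}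

/-- The homomorphism onto the residue field. -/
theorem SuF_psi {R : Subalgebra k' K} {S'' : LocalSubring K} {V'' : ValuationSubring (Kap S'')}
    (hRS : ∀ z ∈ R, z ∈ S''.toSubring)
    (hV : ∀ z : R, residue S''.toSubring ⟨z, hRS z z.2⟩ ∈ V'') :
    ∃ ψ : R →+* ResidueField V'', (∀ z : R, ψ z = residue V'' ⟨_, hV z⟩) ∧
      ∀ z : R, ψ z = res V'' (residue S''.toSubring ⟨z, hRS z z.2⟩) := by
  refine ⟨(residue V'').comp (((residue S''.toSubring).comp
    ((Subring.subtype R.toSubring).codRestrict S''.toSubring fun z => hRS z z.2)).codRestrict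
      V''.toSubring fun z => hV z), fun _ => rfl, fun z => ?_⟩
  rw [MP_b197b4_ntKD.res_of_mem (hV z)]
  rfl

/-- The residue field of `V''` is the image of `R`. -/
theorem SuF_surj {R : Subalgebra k' K} {S'' : LocalSubring K} {V'' : ValuationSubring (Kap S'')}
    (hRS : ∀ z ∈ R, z ∈ S''.toSubring) {B : Subring K} (Q' : Ideal B) (hQ' : Q'.IsPrime)
    (hBR : ∀ z ∈ B, z ∈ R) (ψ : R →+* ResidueField V'') (hN : (RingHom.ker ψ).IsMaximal)
    (hψ : ∀ z : R, ψ z = res V'' (residue S''.toSubring ⟨z, hRS z z.2⟩))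
    (φ : Kap (LocalSubring.ofPrime B Q') →+* ResidueField V'')
    (hφ : Emb (LocalSubring.ofPrime B Q') S'' V'' φ)
    (hgen : ∀ z : ResidueField V'', z ∈ Subring.closure (Set.range φ ∪
      {w | ∃ (y : F) (s : algebraMap F K y ∈ S''.toSubring),
        residue _ ⟨algebraMap F K y, s⟩ ∈ V'' ∧
          w = res V'' (residue _ ⟨algebraMap F K y, s⟩)}))
    (hF : ∀ (y : F) (s : algebraMap F K y ∈ S''.toSubring),
      residue _ ⟨algebraMap F K y, s⟩ ∈ V'' → algebraMap F K y ∈ R) :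
    Function.Surjective ψ := by
  intro z
  have h1 : z ∈ ψ.range := by
    refine Subring.closure_le.mpr ?_ (hgen z)
    rintro w (⟨u, rfl⟩ | ⟨y, s, hy, rfl⟩)
    · obtain ⟨⟨y, hy⟩, rfl⟩ := residue_surjective u
      obtain ⟨a, s, hs, hys⟩ := (xcen_mem _ Q' y).mp hy
      have hs0 : (s : K) ≠ 0 := xcen_ne _ _ hs
      have hsu := (xcen_unit _ Q' s).mpr hs
      have haP := LocalSubring.le_ofPrime _ Q' a.2
      have hsP := LocalSubring.le_ofPrime _ Q' s.2
      have h2 : φ (residue _ ⟨s, hsP⟩) = ψ ⟨s, hBR s s.2⟩ := by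
        rw [hψ, hφ _ hsP (hRS _ (hBR _ s.2))]
      have h3 : φ (residue _ ⟨a, haP⟩) = ψ ⟨a, hBR a a.2⟩ := by
        rw [hψ, hφ _ haP (hRS _ (hBR _ a.2))]
      have h4 : φ (residue _ ⟨y, hy⟩) * φ (residue _ ⟨s, hsP⟩) = φ (residue _ ⟨a, haP⟩) := by
        rw [← map_mul, ← map_mul]
        congr 2
        apply Subtype.ext
        change y * (s : K) = a
        rw [hys, div_mul_cancel₀ _ hs0]
      have h5 : φ (residue _ ⟨s, hsP⟩) ≠ 0 := by
        rw [map_ne_zero]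
        exact (hsu.map (residue _)).ne_zero
      rw [h2] at h5
      obtain ⟨w, hw⟩ := SuE_inv ψ hN h5
      refine ⟨⟨a, hBR a a.2⟩ * w, ?_⟩
      rw [map_mul, ← h3, ← h4, h2, mul_assoc, mul_comm _ (ψ w), hw, mul_one]
    · exact ⟨⟨_, hF y s hy⟩, hψ _⟩
  exact h1

/-- **The pair `(S'', V'')`.** -/
theorem SuF_end (h : BC k k' F K) (hx : Var k d x) {P' : LocalSubring K}
    (hP' : P' ∈ Pts k' (fun i => algebraMap F K (x i)) 1)
    {S'' : LocalSubring K} (hS'' : S'' ∈ Pts k' (fun i => algebraMap F K (x i)) 2)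
    {V : ValuationSubring (Kap (dn (algebraMap F K) S''))} (hV : IsDiscreteValuationRing V)
    (hk : ∀ c : k, ∃ h : algebraMap k F c ∈ (dn (algebraMap F K) S'').toSubring,
      residue (dn (algebraMap F K) S'').toSubring ⟨_, h⟩ ∈ V)
    {M : Type} [Field M] (α : Kap P' →+* M) (β : ResidueField V →+* M)
    (χ : bc k' K (suT k (dn (algebraMap F K) S'') V hk) →+* M)
    (hχ1 : ∀ t, χ (bcMap k' K _ t) = β (residue V (suV hk t)))
    {B : Subring K} {Q' : Ideal B} (hQ' : Q'.IsPrime) (hPQ : P' = LocalSubring.ofPrime B Q')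
    (hBT : ∀ z ∈ B, z ∈ bc k' K (suT k (dn (algebraMap F K) S'') V hk))
    (hχ2 : ∀ (z : K) (hz : z ∈ bc k' K (suT k (dn (algebraMap F K) S'') V hk))
      (hzP : z ∈ P'.toSubring), z ∈ B → χ ⟨z, hz⟩ = α (residue _ ⟨z, hzP⟩))
    (hχ4 : (RingHom.ker χ).IsMaximal)
    (p'' : Ideal (bc k' K (suT k (dn (algebraMap F K) S'') V hk))) (hp : p'' ≤ RingHom.ker χ)
    (hmem : ∀ z ∈ bc k' K (suT k (dn (algebraMap F K) S'') V hk), z ∈ S''.toSubring)
    (hunit : ∀ (z : K) (hz : z ∈ bc k' K (suT k (dn (algebraMap F K) S'') V hk))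
      (hz' : z ∈ S''.toSubring), IsUnit (⟨z, hz'⟩ : S''.toSubring) ↔
        (⟨z, hz⟩ : bc k' K (suT k (dn (algebraMap F K) S'') V hk)) ∉ p'') :
    ∃ q ∈ PVo k' (fun i => algebraMap F K (x i)) (algebraMap F K) P'
        ⟨dn (algebraMap F K) S'', V⟩,
      ∃ γ : ResidueField q.2 →+* M,
        (∀ (φ' : Kap P' →+* ResidueField q.2), Emb P' q.1 q.2 φ' → ∀ u, γ (φ' u) = α u) ∧
        ∀ (y : F) (s1 : y ∈ (dn (algebraMap F K) S'').toSubring)
          (s2 : algebraMap F K y ∈ q.1.toSubring), residue _ ⟨y, s1⟩ ∈ V →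
          γ (res q.2 (residue _ ⟨algebraMap F K y, s2⟩)) = β (res V (residue _ ⟨y, s1⟩)) := by
  subst hPQ
  have hNV : ∀ t : suT k (dn (algebraMap F K) S'') V hk,
      V.valuation (residue (dn (algebraMap F K) S'').toSubring ⟨t, t.2.1⟩) < 1 →
        bcMap k' K _ t ∈ RingHom.ker χ := by
    intro t ht
    rw [RingHom.mem_ker, hχ1, (SuE_res_zero V _).mpr ht, map_zero]
  obtain ⟨V'', hcomap, hV''⟩ := SuD_val hk (RingHom.ker χ) p'' hχ4 hp hmem hunit hNV
  -- constants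
  have hc2 : ∀ c : k', algebraMap k' K c ∈ S''.toSubring := Kap_mem hS''
  have hc1 : ∀ c : k, algebraMap k F c ∈ (dn (algebraMap F K) S'').toSubring := Kap_mem' h hS''
  -- the valuation ring is discrete
  have hV2 : IsDiscreteValuationRing V'' := by
    let _ : Algebra (Kap (dn (algebraMap F K) S'')) (Kap S'') :=
      (kmap (algebraMap F K) S'').toAlgebra
    let _ : Algebra k (Kap (dn (algebraMap F K) S'')) := (conK k _ hc1).toAlgebra
    let _ : Algebra k' (Kap S'') := (conK k' _ hc2).toAlgebra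
    have hbc : BC k k' (Kap (dn (algebraMap F K) S'')) (Kap S'') := kap_bc h hx hS'' hc1 hc2
    refine (hbc.dvr V'' ?_ ?_).1
    · intro c
      obtain ⟨h1, h2⟩ := hk c
      have h3 : residue (dn (algebraMap F K) S'').toSubring ⟨_, h1⟩ ∈
          V''.comap (kmap (algebraMap F K) S'') := by
        rw [hcomap]
        exact h2
      exact h3
    · have h3 : V''.comap (algebraMap (Kap (dn (algebraMap F K) S'')) (Kap S'')) = V := hcomap
      rw [h3]
      exact hV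
  -- the centre
  have hNQ : ∀ z : B, z ∈ Q' ↔ (⟨z, hBT z z.2⟩ : bc k' K _) ∈ RingHom.ker χ := by
    intro z
    rw [RingHom.mem_ker, hχ2 z (hBT z z.2) (LocalSubring.le_ofPrime _ Q' z.2) z.2, map_eq_zero,
      su_residue_zero]
  have hu : ∀ z : bc k' K (suT k (dn (algebraMap F K) S'') V hk), z ∉ RingHom.ker χ →
      IsUnit (⟨z, hmem z z.2⟩ : S''.toSubring) := fun z hz =>
    (hunit z z.2 (hmem z z.2)).mpr fun h1 => hz (hp h1)
  have hcen : Cen (LocalSubring.ofPrime B Q') S'' V'' :=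
    SuE_cen Q' hQ' hBT hmem (RingHom.ker χ) hNQ hu fun z => hV'' z z.2 (hmem z z.2)
  have hdn : dnV (algebraMap F K) ⟨S'', V''⟩ = (⟨dn (algebraMap F K) S'', V⟩ : PV F) := by
    change (⟨dn (algebraMap F K) S'', V''.comap (kmap (algebraMap F K) S'')⟩ : PV F) = _
    rw [hcomap]
  have hq : (⟨S'', V''⟩ : PV K) ∈ PVo k' (fun i => algebraMap F K (x i)) (algebraMap F K)
      (LocalSubring.ofPrime B Q') ⟨dn (algebraMap F K) S'', V⟩ := ⟨hS'', hV2, hcen, hdn⟩
  obtain ⟨φ, hφ⟩ := SuE_emb hcen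
  -- the residue field
  obtain ⟨ψ, hψ1, hψ2⟩ := SuF_psi (R := bc k' K (suT k (dn (algebraMap F K) S'') V hk)) hmem
    fun z => (hV'' z z.2 (hmem z z.2)).1
  have hker : RingHom.ker ψ = RingHom.ker χ := by
    ext z
    rw [RingHom.mem_ker, hψ1, SuE_res_zero]
    exact (hV'' z z.2 (hmem z z.2)).2.symm
  have hmemF : ∀ (y : F) (s : algebraMap F K y ∈ S''.toSubring),
      residue S''.toSubring ⟨algebraMap F K y, s⟩ ∈ V'' →
        y ∈ suT k (dn (algebraMap F K) S'') V hk := by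
    intro y s hy
    refine ⟨s, ?_⟩
    rw [← hcomap]
    exact hy
  have hsurj : Function.Surjective ψ :=
    SuF_surj (F := F) hmem Q' hQ' hBT ψ (hker ▸ hχ4) hψ2 φ hφ (pair_gen h hx hP' hq φ hφ)
      fun y s hy => mem_bc (hmemF y s hy)
  obtain ⟨γ, hγ⟩ : ∃ γ : ResidueField V'' →+* M, ∀ z, γ (ψ z) = χ z :=
    ⟨ψ.liftOfSurjective hsurj ⟨χ, hker.le⟩, fun z =>
      RingHom.liftOfSurjective_comp_apply ψ hsurj ⟨χ, hker.le⟩ z⟩
  refine ⟨⟨S'', V''⟩, hq, γ, ?_, ?_⟩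
  · intro φ' hφ' u
    obtain ⟨⟨y, hy⟩, rfl⟩ := residue_surjective u
    obtain ⟨a, s, hs, hys⟩ := (xcen_mem _ Q' y).mp hy
    have hs0 : (s : K) ≠ 0 := xcen_ne _ _ hs
    have hsu := (xcen_unit _ Q' s).mpr hs
    have hB : ∀ b : B, γ (φ' (residue _ ⟨b, LocalSubring.le_ofPrime _ Q' b.2⟩)) =
        α (residue _ ⟨b, LocalSubring.le_ofPrime _ Q' b.2⟩) := by
      intro b
      rw [hφ' _ (LocalSubring.le_ofPrime _ Q' b.2) (hmem _ (hBT _ b.2)),
        ← hχ2 b (hBT b b.2) (LocalSubring.le_ofPrime _ Q' b.2) b.2, ← hγ]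
      rw [hψ2 ⟨b, hBT b b.2⟩]
    have h4 : residue (LocalSubring.ofPrime B Q').toSubring ⟨y, hy⟩ *
        residue _ ⟨s, LocalSubring.le_ofPrime _ Q' s.2⟩ =
        residue _ ⟨a, LocalSubring.le_ofPrime _ Q' a.2⟩ := by
      rw [← map_mul]
      congr 1
      apply Subtype.ext
      change y * (s : K) = a
      rw [hys, div_mul_cancel₀ _ hs0]
    have h5 : α (residue _ ⟨s, LocalSubring.le_ofPrime _ Q' s.2⟩) ≠ 0 := by
      rw [map_ne_zero]
      exact (hsu.map (residue _)).ne_zero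
    apply mul_right_cancel₀ h5
    rw [← map_mul α, h4, ← hB s, ← map_mul γ, ← map_mul φ', h4, hB a]
  · intro y s1 s2 hy
    have hyT : y ∈ suT k (dn (algebraMap F K) S'') V hk := ⟨s1, hy⟩
    have h1 := hχ1 ⟨y, hyT⟩
    rw [suV_res] at h1
    rw [← h1, ← hγ, hψ2]
    rfl

end Pool.Agent.Lib.MP_b197b4_ntKE
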