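import Mathlib
import Pool.Agent.Lib.MP_b197b4_ntKE.SuC
import Pool.Agent.Lib.MP_b197b4_ntKE.SuF
import Pool.Agent.Lib.MP_b197b4_ntKE.Chi
import Pool.Agent.Lib.MP_b197b4_ntKE.Ch
import Pool.Agent.Lib.MP_b197b4_ntKE.Pt1

/-!
# MP_b197b4_nt, project K1-ALL-DESC: every composite of the residue fields comes from a pair
-/

set_option autoImplicit false

namespace Pool.Agent.Lib.MP_b197b4_ntKE

open IsLocalRing Pool.Agent.Lib.MP_b197b4_ntK Pool.Agent.Lib.MP_b197b4_ntA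
  Pool.Agent.Lib.MP_b197b4_ntKD Pool.Agent.Lib.MP_b197b4_ntKR

variable {k k' F K : Type} [Field k] [Field k'] [Field F] [Field K] [Algebra k k'] [Algebra k F]
  [Algebra k' K] [Algebra F K] {n d : ℕ} {x : Fin (n + 1) → F}

/-- The local ring of a point of a chart is integrally closed, and so is the ring of a pair. -/
theorem Su_closed (hx : Var k d x) {S : LocalSubring F} {V : ValuationSubring (Kap S)}
    (hk : ∀ c : k, ∃ h : algebraMap k F c ∈ S.toSubring, residue S.toSubring ⟨_, h⟩ ∈ V)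
    (i : Fin (n + 1)) (Q : Ideal (cht k x i).toSubring) (hQ : Q.IsPrime)
    (hS : S = LocalSubring.ofPrime _ Q) (hA : cht k x i ≤ suT k S V hk) :
    IsIntegrallyClosed (suT k S V hk) := by
  have hreg : IsRegularRing (cht k x i) := hx.regular i
  have hic : IsIntegrallyClosed (cht k x i) := isIntegrallyClosed_of_reg
  have hfr := hx.frac i
  subst hS
  exact suT_closed hk (SuA_frac hA hfr) fun y hy => su_closed hic hfr Q hQ y hy

/-- The point over `S`, for a chart. -/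
theorem Su_point (h : BC k k' F K) (hx : Var k d x) {S : LocalSubring F}
    {V : ValuationSubring (Kap S)}
    (hk : ∀ c : k, ∃ h : algebraMap k F c ∈ S.toSubring, residue S.toSubring ⟨_, h⟩ ∈ V)
    (i : Fin (n + 1)) {Q : Ideal (cht k x i).toSubring} (hQ : Q.IsPrime)
    (hd : ringKrullDim ((cht k x i).toSubring ⧸ Q) = (2 : ℕ))
    (hS : S = LocalSubring.ofPrime _ Q) (hA : cht k x i ≤ suT k S V hk)
    (N : Ideal (bc k' K (suT k S V hk))) (hN : N.IsPrime)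
    (hle : ∀ t : suT k S V hk, residue S.toSubring ⟨t, t.2.1⟩ = 0 → bcMap k' K _ t ∈ N)
    {B : Subalgebra k' K} (hB : B = bc k' K (cht k x i))
    (hBc : B = cht k' (fun i => algebraMap F K (x i)) i) :
    ∃ (S'' : LocalSubring K) (p'' : Ideal (bc k' K (suT k S V hk))),
      S'' ∈ Pts k' (fun i => algebraMap F K (x i)) 2 ∧ dn (algebraMap F K) S'' = S ∧ p'' ≤ N ∧
      (∀ z ∈ bc k' K (suT k S V hk), z ∈ S''.toSubring) ∧
      ∀ (z : K) (hz : z ∈ bc k' K (suT k S V hk)) (hz' : z ∈ S''.toSubring),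
        IsUnit (⟨z, hz'⟩ : S''.toSubring) ↔ (⟨z, hz⟩ : bc k' K (suT k S V hk)) ∉ p'' := by
  have hT := Su_closed hx hk i Q hQ hS hA
  subst hS
  obtain ⟨f, hf⟩ : ∃ f : suT k (LocalSubring.ofPrime _ Q) V hk →+*
      Kap (LocalSubring.ofPrime _ Q), ∀ t, f t = residue _ ⟨t, t.2.1⟩ :=
    ⟨(residue _).comp (suS hk), fun _ => rfl⟩
  have hp₀ : (RingHom.ker f).IsPrime := RingHom.ker_isPrime f
  have hpQ : ∀ a : (cht k x i).toSubring, a ∈ Q ↔
      (⟨a, hA a.2⟩ : suT k (LocalSubring.ofPrime _ Q) V hk) ∈ RingHom.ker f := by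
    intro a
    rw [RingHom.mem_ker, hf, su_residue_zero]
  have hle' : RingHom.ker f ≤ N.comap (bcMap k' K _) := by
    intro t ht
    rw [RingHom.mem_ker, hf] at ht
    exact hle t ht
  subst hB
  obtain ⟨Q'', hQ'', p'', h1, h2, h3, h4⟩ := SuC_point (k' := k') (K := K) h hA hT Q hQ
    (fun t ht => ht.1) N hN (RingHom.ker f) hp₀ hpQ hle'
  obtain ⟨Q₂, hQ₂, h5, h6, h7⟩ := Pt1_all h hx i (bc k' K (cht k x i)) rfl Q'' hQ''
  have hQQ : Q₂ = Q := by
    ext ⟨a, ha⟩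
    exact (h6 a ha (mem_bc ha)).trans (h4 a ha (mem_bc ha)).symm
  subst hQQ
  refine ⟨LocalSubring.ofPrime _ Q'', p'', ?_, h5, h1, h2, h3⟩
  have h8 : ∀ C : Subalgebra k' K, bc k' K (cht k x i) = C → ∃ (P : Ideal C.toSubring)
      (_ : P.IsPrime), ringKrullDim (C.toSubring ⧸ P) = (2 : ℕ) ∧
        LocalSubring.ofPrime (bc k' K (cht k x i)).toSubring Q'' =
          LocalSubring.ofPrime C.toSubring P := by
    rintro _ rfl
    exact ⟨Q'', hQ'', h7.symm.trans hd, rfl⟩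
  exact ⟨i, h8 _ hBc⟩

/-- D13b (Su.lean): every composite of the residue fields comes from a pair. -/
theorem pair_surj (h : BC k k' F K) (hx : Var k d x) {P' : LocalSubring K}
    (hP' : P' ∈ Pts k' (fun i => algebraMap F K (x i)) 1) {p : PV F} (hp1 : p.1 ∈ Pts k x 2)
    (hp2 : IsDiscreteValuationRing p.2) (hc : Cen (dn (algebraMap F K) P') p.1 p.2)
    (φ : Kap (dn (algebraMap F K) P') →+* ResidueField p.2)
    (hφ : Emb (dn (algebraMap F K) P') p.1 p.2 φ)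
    {M : Type} [Field M] (α : Kap P' →+* M) (β : ResidueField p.2 →+* M)
    (hαβ : ∀ u, α (kmap (algebraMap F K) P' u) = β (φ u)) :
    ∃ q ∈ PVo k' (fun i => algebraMap F K (x i)) (algebraMap F K) P' p,
      ∃ γ : ResidueField q.2 →+* M,
        (∀ (φ' : Kap P' →+* ResidueField q.2), Emb P' q.1 q.2 φ' → ∀ u, γ (φ' u) = α u) ∧
        ∀ (y : F) (s1 : y ∈ p.1.toSubring) (s2 : algebraMap F K y ∈ q.1.toSubring),
          residue _ ⟨y, s1⟩ ∈ p.2 →
          γ (res q.2 (residue _ ⟨algebraMap F K y, s2⟩)) = β (res p.2 (residue _ ⟨y, s1⟩)) := by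
  have hkP : ∀ c : k, algebraMap k F c ∈ (dn (algebraMap F K) P').toSubring := Kap_mem' h hP'
  have hk : ∀ c : k, ∃ h : algebraMap k F c ∈ p.1.toSubring,
      residue p.1.toSubring ⟨_, h⟩ ∈ p.2 := fun c =>
    ⟨hc.1 (hkP c), (hc.2 _ (hkP c) (hc.1 (hkP c))).1⟩
  obtain ⟨χ, hχ1, hχ2, hχ3, hχ4⟩ := Chi_exists h hx hP' hc hk φ hφ α β hαβ
  -- the chart
  obtain ⟨i, Q', hQ', hdQ', hPQ⟩ := id hP'
  have hiP : ∀ j, algebraMap F K (x j) / algebraMap F K (x i) ∈ P'.toSubring := by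
    intro j
    rw [hPQ]
    exact LocalSubring.le_ofPrime _ Q' (xcen_coord i j)
  have hidn : ∀ j, x j / x i ∈ (dn (algebraMap F K) P').toSubring := by
    intro j
    rw [mem_dn, map_div₀]
    exact hiP j
  obtain ⟨Q, hQ, hd, hS⟩ := pts_chart hx.ne hp1 (i := i) fun j => hc.1 (hidn j)
  have hA : cht k x i ≤ suT k p.1 p.2 hk := by
    unfold cht
    rw [Algebra.adjoin_le_iff]
    rintro _ ⟨j, rfl⟩
    exact ⟨hc.1 (hidn j), (hc.2 _ (hidn j) (hc.1 (hidn j))).1⟩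
  have hle : ∀ t : suT k p.1 p.2 hk, residue p.1.toSubring ⟨t, t.2.1⟩ = 0 →
      bcMap k' K _ t ∈ RingHom.ker χ := by
    intro t ht
    rw [RingHom.mem_ker, hχ1, suV_res, ht, MP_b197b4_ntKD.res_zero, map_zero]
  obtain ⟨S'', p'', h1, h2, h3, h4, h5⟩ := Su_point h hx hk i hQ hd hS hA (RingHom.ker χ)
    hχ4.isPrime hle rfl (h.chart_eq x i).symm
  obtain ⟨S, V⟩ := p
  dsimp only at *
  subst h2
  exact SuF_end h hx hP' h1 hp2 hk α β χ hχ1 hQ' hPQ (fun z hz => hχ3 i hiP hz)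
    (fun z hz hzP hzB => hχ2 z hz hzP i hiP hzB) hχ4 p'' h3 h4 h5

end Pool.Agent.Lib.MP_b197b4_ntKE
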