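import Mathlib

/-!
# MP_b197b4_nt, project K1-ALL-DESC, D13d: the composites of a finite and a separable algebraic
extension

The tensor product of a finite extension `κV` and a separable algebraic extension `κ'` of `κ` is
reduced and finite over `κ'`, hence the product of its residue fields, which are the composites.
-/

set_option autoImplicit false

namespace Pool.Agent.Lib.MP_b197b4_ntKE

open TensorProduct

section

variable {κ κV κ' : Type} [Field κ] [Field κV] [Field κ'] [Algebra κ κV] [Algebra κ κ']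

theorem Tn_reduced_aux [Algebra.IsSeparable κ κ'] : IsReduced (κV ⊗[κ] κ') := by
  refine IsReduced.tensorProduct_of_flat_of_forall_fg fun B hB => ?_
  obtain ⟨s, rfl⟩ := hB
  have e : (IntermediateField.adjoin κ (s : Set κ')).toSubalgebra = Algebra.adjoin κ (s : Set κ') :=
    IntermediateField.adjoin_toSubalgebra_of_isAlgebraic fun x _ =>
      (Algebra.IsIntegral.isIntegral x).isAlgebraic
  have hfin : FiniteDimensional κ (IntermediateField.adjoin κ (s : Set κ')) :=
    IntermediateField.finiteDimensional_adjoin fun x _ => Algebra.IsIntegral.isIntegral x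
  rw [← e]
  change IsReduced (κV ⊗[κ] (IntermediateField.adjoin κ (s : Set κ')))
  have h1 : Algebra.FormallyUnramified κ (IntermediateField.adjoin κ (s : Set κ')) :=
    Algebra.FormallyUnramified.of_isSeparable κ _
  exact Algebra.FormallyUnramified.isReduced_of_field κV
    (κV ⊗[κ] (IntermediateField.adjoin κ (s : Set κ')))

theorem Tn_reduced [Algebra.IsSeparable κ κ'] : IsReduced (κ' ⊗[κ] κV) :=
  have := Tn_reduced_aux (κ := κ) (κV := κV) (κ' := κ')
  isReduced_of_injective (Algebra.TensorProduct.comm κ κ' κV)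
    (Algebra.TensorProduct.comm κ κ' κV).injective

/-- The homomorphism from the tensor product to a composite. -/
noncomputable def Tn_hom {M : Type} [Field M] (α : κ' →+* M) (β : κV →+* M)
    (h : ∀ c : κ, α (algebraMap κ κ' c) = β (algebraMap κ κV c)) : κ' ⊗[κ] κV →+* M :=
  letI : Algebra κ M := (α.comp (algebraMap κ κ')).toAlgebra
  (Algebra.TensorProduct.productMap (A := κ') (B := κV) (S := M)
    { α with commutes' := fun _ => rfl } { β with commutes' := fun c => (h c).symm }).toRingHom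

theorem Tn_hom_tmul {M : Type} [Field M] (α : κ' →+* M) (β : κV →+* M)
    (h : ∀ c : κ, α (algebraMap κ κ' c) = β (algebraMap κ κV c)) (a : κ') (b : κV) :
    Tn_hom α β h (a ⊗ₜ b) = α a * β b := by
  let : Algebra κ M := (α.comp (algebraMap κ κ')).toAlgebra
  exact Algebra.TensorProduct.productMap_apply_tmul _ _ a b

theorem Tn_hom_unique {N : Type} [CommRing N] {f g : κ' ⊗[κ] κV →+* N}
    (h1 : ∀ a : κ', f (a ⊗ₜ 1) = g (a ⊗ₜ 1)) (h2 : ∀ b : κV, f (1 ⊗ₜ b) = g (1 ⊗ₜ b)) :
    f = g := by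
  refine RingHom.ext fun z => ?_
  induction z using TensorProduct.induction_on with
  | zero => rw [map_zero, map_zero]
  | add x y hx hy => rw [map_add, map_add, hx, hy]
  | tmul a b =>
    have : (a ⊗ₜ[κ] b : κ' ⊗[κ] κV) = (a ⊗ₜ 1) * (1 ⊗ₜ b) := by
      rw [Algebra.TensorProduct.tmul_mul_tmul, mul_one, one_mul]
    rw [this, map_mul, map_mul, h1, h2]

theorem Tn_surj {M : Type} [Field M] (α : κ' →+* M) (β : κV →+* M)
    (h : ∀ c : κ, α (algebraMap κ κ' c) = β (algebraMap κ κV c))
    (hgen : ∀ z : M, z ∈ Subring.closure (Set.range α ∪ Set.range β)) :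
    Function.Surjective (Tn_hom α β h) := by
  intro z
  have : Subring.closure (Set.range α ∪ Set.range β) ≤ (Tn_hom α β h).range := by
    rw [Subring.closure_le]
    rintro w (⟨a, rfl⟩ | ⟨b, rfl⟩)
    · exact ⟨a ⊗ₜ 1, by rw [Tn_hom_tmul, map_one, mul_one]⟩
    · exact ⟨1 ⊗ₜ b, by rw [Tn_hom_tmul, map_one, one_mul]⟩
  exact this (hgen z)

/-- The degree of a composite. -/
theorem Tn_finrank {M : Type} [Field M] (α : κ' →+* M) (β : κV →+* M)
    (h : ∀ c : κ, α (algebraMap κ κ' c) = β (algebraMap κ κV c))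
    (hs : Function.Surjective (Tn_hom α β h)) :
    @Module.finrank κ' M _ _ α.toAlgebra.toModule =
      Module.finrank κ' (κ' ⊗[κ] κV ⧸ RingHom.ker (Tn_hom α β h)) := by
  let : Algebra κ' M := α.toAlgebra
  let f : κ' ⊗[κ] κV →ₐ[κ'] M :=
    { Tn_hom α β h with
      commutes' := fun c => by
        change Tn_hom α β h (c ⊗ₜ 1) = α c
        rw [Tn_hom_tmul, map_one, mul_one] }
  exact (LinearEquiv.finrank_eq (Ideal.quotientKerAlgEquivOfSurjective (f := f) hs).toLinearEquiv).symm

end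

/-- D13d (Tn.lean), algebra: the composites of a finite and a separable algebraic extension. -/
theorem sum_composites {κ κV κ' : Type} [Field κ] [Field κV] [Field κ'] [Algebra κ κV]
    [Algebra κ κ'] [FiniteDimensional κ κV] [Algebra.IsAlgebraic κ κ'] [Algebra.IsSeparable κ κ']
    {I : Type} (M : I → Type) [∀ i, Field (M i)] (α : ∀ i, κ' →+* M i) (β : ∀ i, κV →+* M i)
    (hαβ : ∀ i (c : κ), α i (algebraMap κ κ' c) = β i (algebraMap κ κV c))
    (hgen : ∀ i (z : M i), z ∈ Subring.closure (Set.range (α i) ∪ Set.range (β i)))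
    (hinj : ∀ i j (θ : M i ≃+* M j), (∀ u, θ (α i u) = α j u) → (∀ u, θ (β i u) = β j u) → i = j)
    (hsurj : ∀ (N : Type) [Field N] (a : κ' →+* N) (b : κV →+* N),
      (∀ c : κ, a (algebraMap κ κ' c) = b (algebraMap κ κV c)) →
      ∃ i, ∃ γ : M i →+* N, (∀ u, γ (α i u) = a u) ∧ ∀ u, γ (β i u) = b u) :
    Finite I ∧ ∑ᶠ i, @Module.finrank κ' (M i) _ _ (α i).toAlgebra.toModule =
      Module.finrank κ κV := by
  classical
  have hred : IsReduced (κ' ⊗[κ] κV) := Tn_reduced
  have hart : IsArtinianRing (κ' ⊗[κ] κV) := IsArtinianRing.of_finite κ' _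
  have hs : ∀ i, Function.Surjective (Tn_hom (α i) (β i) (hαβ i)) := fun i =>
    Tn_surj _ _ _ (hgen i)
  let F : I → MaximalSpectrum (κ' ⊗[κ] κV) := fun i =>
    ⟨RingHom.ker (Tn_hom (α i) (β i) (hαβ i)), RingHom.ker_isMaximal_of_surjective _ (hs i)⟩
  have hFi : Function.Injective F := by
    intro i j hij
    have hk : RingHom.ker (Tn_hom (α i) (β i) (hαβ i)) =
        RingHom.ker (Tn_hom (α j) (β j) (hαβ j)) := congrArg MaximalSpectrum.asIdeal hij
    let e1 := RingHom.quotientKerEquivOfSurjective (hs i)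
    let e2 := RingHom.quotientKerEquivOfSurjective (hs j)
    let θ : M i ≃+* M j := (e1.symm.trans (Ideal.quotEquivOfEq hk)).trans e2
    have hθ : ∀ z, θ (Tn_hom (α i) (β i) (hαβ i) z) = Tn_hom (α j) (β j) (hαβ j) z := by
      intro z
      have h1 : e1.symm (Tn_hom (α i) (β i) (hαβ i) z) = Ideal.Quotient.mk _ z := by
        rw [RingEquiv.symm_apply_eq]
        rfl
      change e2 (Ideal.quotEquivOfEq hk (e1.symm (Tn_hom (α i) (β i) (hαβ i) z))) = _
      rw [h1]
      rfl
    refine hinj i j θ (fun u => ?_) fun u => ?_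
    · have := hθ (u ⊗ₜ 1)
      rwa [Tn_hom_tmul, Tn_hom_tmul, map_one, map_one, mul_one, mul_one] at this
    · have := hθ (1 ⊗ₜ u)
      rwa [Tn_hom_tmul, Tn_hom_tmul, map_one, map_one, one_mul, one_mul] at this
  have hFs : Function.Surjective F := by
    intro m
    have hm := m.isMaximal
    let : Field ((κ' ⊗[κ] κV) ⧸ m.asIdeal) := Ideal.Quotient.field m.asIdeal
    obtain ⟨i, γ, h1, h2⟩ := hsurj ((κ' ⊗[κ] κV) ⧸ m.asIdeal)
      ((Ideal.Quotient.mk m.asIdeal).comp (algebraMap κ' (κ' ⊗[κ] κV)))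
      ((Ideal.Quotient.mk m.asIdeal).comp
        (Algebra.TensorProduct.includeRight (R := κ) (A := κ') (B := κV)).toRingHom) (by
          intro c
          change Ideal.Quotient.mk m.asIdeal (algebraMap κ κ' c ⊗ₜ 1) =
            Ideal.Quotient.mk m.asIdeal (1 ⊗ₜ algebraMap κ κV c)
          rw [Algebra.algebraMap_eq_smul_one, Algebra.algebraMap_eq_smul_one,
            TensorProduct.smul_tmul])
    refine ⟨i, ?_⟩
    have h3 : γ.comp (Tn_hom (α i) (β i) (hαβ i)) = Ideal.Quotient.mk m.asIdeal := by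
      refine Tn_hom_unique (fun a => ?_) fun b => ?_
      · rw [RingHom.comp_apply, Tn_hom_tmul, map_one, mul_one, h1]
        rfl
      · rw [RingHom.comp_apply, Tn_hom_tmul, map_one, one_mul, h2]
        rfl
    have h4 : RingHom.ker (Tn_hom (α i) (β i) (hαβ i)) = m.asIdeal := by
      ext z
      have h6 : γ (Tn_hom (α i) (β i) (hαβ i) z) = Ideal.Quotient.mk m.asIdeal z :=
        RingHom.congr_fun h3 z
      rw [RingHom.mem_ker, ← Ideal.Quotient.eq_zero_iff_mem, ← h6]
      exact (map_eq_zero_iff γ γ.injective).symm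
    exact MaximalSpectrum.ext h4
  let e : I ≃ MaximalSpectrum (κ' ⊗[κ] κV) := Equiv.ofBijective F ⟨hFi, hFs⟩
  have hI : Finite I := Finite.of_equiv _ e.symm
  refine ⟨hI, ?_⟩
  have : Fintype (MaximalSpectrum (κ' ⊗[κ] κV)) := Fintype.ofFinite _
  have h5 : ∀ i, @Module.finrank κ' (M i) _ _ (α i).toAlgebra.toModule =
      Module.finrank κ' ((κ' ⊗[κ] κV) ⧸ (e i).asIdeal) := fun i => Tn_finrank _ _ _ (hs i)
  rw [finsum_congr h5, finsum_comp_equiv (f := fun m : MaximalSpectrum (κ' ⊗[κ] κV) =>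
    Module.finrank κ' ((κ' ⊗[κ] κV) ⧸ m.asIdeal)) e, finsum_eq_sum_of_fintype,
    ← Module.finrank_pi_fintype κ']
  rw [← (LinearEquiv.finrank_eq
    ((IsArtinianRing.equivPi (κ' ⊗[κ] κV)).toLinearEquiv.restrictScalars κ')),
    Module.finrank_baseChange]

end Pool.Agent.Lib.MP_b197b4_ntKE
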