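import Mathlib
import Pool.Agent.Lib.MP_b197b4_ntA.XNrm
import Pool.Agent.Lib.MP_b197b4_ntKE.Pts
import Pool.Agent.Lib.MP_b197b4_ntKE.Kap
import Pool.Agent.Lib.MP_b197b4_ntKE.Fc
import Pool.Agent.Lib.MP_b197b4_ntKE.In
import Pool.Agent.Lib.MP_b197b4_ntKE.Su
import Pool.Agent.Lib.MP_b197b4_ntKE.Gn
import Pool.Agent.Lib.MP_b197b4_ntKE.Tn

/-!
# MP_b197b4_nt, project K1-ALL-DESC: the degree formula
-/

set_option autoImplicit false

namespace Pool.Agent.Lib.MP_b197b4_ntKE

open IsLocalRing Pool.Agent.Lib.MP_b197b4_ntK Pool.Agent.Lib.MP_b197b4_ntA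
  Pool.Agent.Lib.MP_b197b4_ntKD

section

variable {F : Type} [Field F]

/-- The inclusion of the residue field of the centre is unique. -/
theorem Dg_unique {P S : LocalSubring F} {V : ValuationSubring (Kap S)}
    (hle : P.toSubring ≤ S.toSubring) {φ ψ : Kap P →+* ResidueField V} (hφ : Emb P S V φ)
    (hψ : Emb P S V ψ) : φ = ψ := by
  ext u
  obtain ⟨⟨y, hy⟩, rfl⟩ := residue_surjective u
  rw [hφ y hy (hle hy), hψ y hy (hle hy)]

theorem Dg_dgr {P : LocalSubring F} {q : PV F} (hle : P.toSubring ≤ q.1.toSubring)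
    {φ : Kap P →+* ResidueField q.2} (hφ : Emb P q.1 q.2 φ) :
    dgr P q = @Module.finrank (Kap P) (ResidueField q.2) _ _ φ.toAlgebra.toModule := by
  have h : ∃ φ : Kap P →+* ResidueField q.2, Emb P q.1 q.2 φ := ⟨φ, hφ⟩
  unfold dgr
  rw [dif_pos h, Dg_unique hle h.choose_spec hφ]

/-- Every element of the residue field of `V` is the class of an element of `F`. -/
theorem Dg_surj {S : LocalSubring F} {V : ValuationSubring (Kap S)} (u : ResidueField V) :
    ∃ (y : F) (s : y ∈ S.toSubring), residue _ ⟨y, s⟩ ∈ V ∧ u = res V (residue _ ⟨y, s⟩) := by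
  obtain ⟨⟨v, hv⟩, rfl⟩ := residue_surjective u
  obtain ⟨⟨y, hy⟩, rfl⟩ := residue_surjective v
  refine ⟨y, hy, hv, ?_⟩
  unfold res
  rw [dif_pos hv]

end

section

variable {F K : Type} [Field F] [Field K]

/-- The homomorphism of the residue fields of the pairs. -/
theorem Dg_beta (ι : F →+* K) (q : PV K) (p : PV F) (h : dnV ι q = p) :
    (∀ y : F, y ∈ p.1.toSubring ↔ ι y ∈ q.1.toSubring) ∧
    (∀ (y : F) (s1 : y ∈ p.1.toSubring) (s2 : ι y ∈ q.1.toSubring),
      residue _ ⟨y, s1⟩ ∈ p.2 ↔ residue _ ⟨ι y, s2⟩ ∈ q.2) ∧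
    ∃ β : ResidueField p.2 →+* ResidueField q.2, ∀ (y : F) (s1 : y ∈ p.1.toSubring)
      (s2 : ι y ∈ q.1.toSubring), β (res p.2 (residue _ ⟨y, s1⟩)) =
        res q.2 (residue _ ⟨ι y, s2⟩) := by
  subst h
  refine ⟨fun y => Iff.rfl, fun y s1 s2 => Iff.rfl, rmap (kmap ι q.1) q.2, fun y s1 s2 => ?_⟩
  exact rmap_res (kmap ι q.1) q.2 _

end

/-- A compositum with a separable algebraic extension is separable. -/
theorem Dg_sep {k k' F K : Type} [Field k] [Field k'] [Field F] [Field K] [Algebra k k']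
    [Algebra k F] [Algebra k' K] [Algebra F K] (h : BC k k' F K) : Algebra.IsSeparable F K := by
  let := ((algebraMap k' K).comp (algebraMap k k')).toAlgebra
  have t1 : IsScalarTower k k' K := IsScalarTower.of_algebraMap_eq fun c => rfl
  have t2 : IsScalarTower k F K := IsScalarTower.of_algebraMap_eq fun c => h.comm c
  have hsep := h.sep
  have h1 : ∀ c : k', IsSeparable F (algebraMap k' K c) := by
    intro c
    have h2 : IsSeparable k c := Algebra.IsSeparable.isSeparable k c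
    have h3 : IsSeparable k (algebraMap k' K c) :=
      IsSeparable.map (IsScalarTower.toAlgHom k k' K) (algebraMap k' K).injective h2
    exact h3.tower_top F
  have h4 : Algebra.IsSeparable F (IntermediateField.adjoin F (Set.range (algebraMap k' K))) := by
    rw [IntermediateField.isSeparable_adjoin_iff_isSeparable]
    rintro _ ⟨c, rfl⟩
    exact h1 c
  have h5 : IntermediateField.adjoin F (Set.range (algebraMap k' K)) = ⊤ := by
    rw [eq_top_iff]
    intro x _
    exact IntermediateField.algebra_adjoin_le_adjoin _ _ (h.gen x)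
  rw [h5] at h4
  exact (AlgEquiv.Algebra.isSeparable_iff (IntermediateField.topEquiv (F := F) (E := K))).1 h4

section

variable {k k' F K : Type} [Field k] [Field k'] [Field F] [Field K] [Algebra k k'] [Algebra k F]
  [Algebra k' K] [Algebra F K] {n d : ℕ} {x : Fin (n + 1) → F}

theorem Dg_const {k F : Type} [Field k] [Field F] [Algebra k F] {n e : ℕ} {x : Fin (n + 1) → F}
    {P : LocalSubring F} (hP : P ∈ Pts k x e) (c : k) : algebraMap k F c ∈ P.toSubring := by
  obtain ⟨i, Q, hQ, -, rfl⟩ := hP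
  exact LocalSubring.le_ofPrime _ Q ((cht k x i).algebraMap_mem c)

/-- D13e (Dg.lean), from D12c, D13a-d: the degree formula. -/
theorem deg_sum (h : BC k k' F K) (hx : Var k d x) {P' : LocalSubring K}
    (hP' : P' ∈ Pts k' (fun i => algebraMap F K (x i)) 1) {p : PV F} (hp1 : p.1 ∈ Pts k x 2)
    (hp2 : IsDiscreteValuationRing p.2) (hc : Cen (dn (algebraMap F K) P') p.1 p.2) :
    (PVo k' (fun i => algebraMap F K (x i)) (algebraMap F K) P' p).Finite ∧
      ∑ᶠ (q : PV K) (_ : q ∈ PVo k' (fun i => algebraMap F K (x i)) (algebraMap F K) P' p),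
        dgr P' q = dgr (dn (algebraMap F K) P') p := by
  obtain ⟨φ, hφ'⟩ := exists_kap _ _ _ hc
  have hφ : Emb (dn (algebraMap F K) P') p.1 p.2 φ := hφ'
  let iV : Algebra (Kap (dn (algebraMap F K) P')) (ResidueField p.2) := φ.toAlgebra
  let iK : Algebra (Kap (dn (algebraMap F K) P')) (Kap P') := (kmap (algebraMap F K) P').toAlgebra
  have hdnP := pts_dn h hx hP'
  have hfin : FiniteDimensional (Kap (dn (algebraMap F K) P')) (ResidueField p.2) :=
    fin_cen hx hp1 hdnP hp2 hc φ hφ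
  have halg : Algebra.IsAlgebraic (Kap (dn (algebraMap F K) P')) (Kap P') := kap_alg h hx hP'
  have hsep : Algebra.IsSeparable (Kap (dn (algebraMap F K) P')) (Kap P') := by
    have h2 : ∀ c : k', algebraMap k' K c ∈ P'.toSubring := Dg_const hP'
    have h1 : ∀ c : k, algebraMap k F c ∈ (dn (algebraMap F K) P').toSubring := Dg_const hdnP
    have h3 := kap_bc h hx hP' h1 h2
    exact @Dg_sep k k' _ _ _ _ _ _ _ (conK k _ h1).toAlgebra (conK k' _ h2).toAlgebra _ h3
  let I : Type := {q : PV K // q ∈ PVo k' (fun i => algebraMap F K (x i)) (algebraMap F K) P' p}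
  have hα : ∀ i : I, ∃ α : Kap P' →+* ResidueField i.1.2, Emb P' i.1.1 i.1.2 α :=
    fun i => exists_kap _ _ _ i.2.2.2.1
  choose α hα using hα
  have hβ : ∀ i : I, ∃ β : ResidueField p.2 →+* ResidueField i.1.2, ∀ (y : F)
      (s1 : y ∈ p.1.toSubring) (s2 : algebraMap F K y ∈ i.1.1.toSubring),
      β (res p.2 (residue _ ⟨y, s1⟩)) = res i.1.2 (residue _ ⟨algebraMap F K y, s2⟩) :=
    fun i => (Dg_beta (algebraMap F K) i.1 p i.2.2.2.2).2.2
  choose β hβ using hβ
  have hm : ∀ (i : I) (y : F), y ∈ p.1.toSubring ↔ algebraMap F K y ∈ i.1.1.toSubring :=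
    fun i => (Dg_beta (algebraMap F K) i.1 p i.2.2.2.2).1
  have hmV := fun i : I => (Dg_beta (algebraMap F K) i.1 p i.2.2.2.2).2.1
  obtain ⟨h1, h2⟩ := sum_composites (κ := Kap (dn (algebraMap F K) P'))
    (κV := ResidueField p.2) (κ' := Kap P') (I := I) (fun i => ResidueField i.1.2) α β
    (by
      intro i c
      obtain ⟨⟨y, hy⟩, rfl⟩ := residue_surjective c
      have e1 : algebraMap (Kap (dn (algebraMap F K) P')) (Kap P') (residue _ ⟨y, hy⟩) =
        residue _ ⟨algebraMap F K y, hy⟩ := rfl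
      have e2 : algebraMap (Kap (dn (algebraMap F K) P')) (ResidueField p.2) (residue _ ⟨y, hy⟩) =
        res p.2 (residue _ ⟨y, hc.1 hy⟩) := hφ y hy (hc.1 hy)
      rw [e1, e2, hβ i y (hc.1 hy) ((hm i y).1 (hc.1 hy))]
      exact hα i _ hy _)
    (by
      intro i z
      have h3 := pair_gen h hx hP' i.2 (α i) (hα i) z
      refine Subring.closure_mono ?_ h3
      refine Set.union_subset_union_right _ ?_
      rintro _ ⟨y, s, hs, rfl⟩
      exact ⟨res p.2 (residue _ ⟨y, (hm i y).2 s⟩), hβ i y _ s⟩)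
    (by
      intro i j θ hθ1 hθ2
      refine Subtype.ext (pair_inj h hx hP' i.2 j.2 (α i) (hα i) (α j) (hα j) θ hθ1 ?_)
      intro y s1 s2 _
      rw [← hβ i y ((hm i y).2 s1) s1, ← hβ j y ((hm i y).2 s1) s2]
      exact hθ2 _)
    (by
      intro N _ a b hab
      obtain ⟨q, hq, γ, hγ1, hγ2⟩ := pair_surj h hx hP' hp1 hp2 hc φ hφ a b hab
      refine ⟨⟨q, hq⟩, γ, hγ1 _ (hα ⟨q, hq⟩), fun u => ?_⟩
      obtain ⟨y, s, hs, rfl⟩ := Dg_surj u
      have s2 : algebraMap F K y ∈ q.1.toSubring := (hm ⟨q, hq⟩ y).1 s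
      rw [hβ ⟨q, hq⟩ y s s2]
      exact hγ2 y s s2 hs)
  refine ⟨Set.finite_coe_iff.1 h1, ?_⟩
  rw [Dg_dgr hc.1 hφ]
  refine Eq.trans ?_ h2
  rw [← finsum_set_coe_eq_finsum_mem]
  exact finsum_congr fun i => Dg_dgr i.2.2.2.1.1 (hα i)

end

end Pool.Agent.Lib.MP_b197b4_ntKE
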