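import Mathlib
import Pool.Agent.Lib.MP_b197b4_ntA.XNrm
import Pool.Agent.Lib.MP_b197b4_ntKE.Defs
import Pool.Agent.Lib.MP_b197b4_ntKE.Kap
import Pool.Agent.Lib.MP_b197b4_ntKE.Dg

/-!
# MP_b197b4_nt, project K1-ALL-DESC: norms over the larger field of constants
-/

set_option autoImplicit false

namespace Pool.Agent.Lib.MP_b197b4_ntKE

open IsLocalRing Pool.Agent.Lib.MP_b197b4_ntK Pool.Agent.Lib.MP_b197b4_ntA
  Pool.Agent.Lib.MP_b197b4_ntKD

section

variable {F : Type} [Field F] {P S : LocalSubring F} {V : ValuationSubring (Kap S)}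

theorem Ns_uniq (hPS : P.toSubring ≤ S.toSubring) {φ ψ : Kap P →+* ResidueField V}
    (hφ : Emb P S V φ) (hψ : Emb P S V ψ) : φ = ψ := by
  refine RingHom.ext fun z => ?_
  obtain ⟨y, rfl⟩ := residue_surjective z
  have h1 := hφ y y.2 (hPS y.2)
  have h2 := hψ y y.2 (hPS y.2)
  exact h1.trans h2.symm

theorem Ns_nrm (hPS : P.toSubring ≤ S.toSubring) {φ : Kap P →+* ResidueField V}
    (hφ : Emb P S V φ) (c : ResidueField V) :
    nrm P S V c = @Algebra.norm (Kap P) (ResidueField V) _ _ φ.toAlgebra c := by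
  have h : ∃ φ : Kap P →+* ResidueField V, ∀ (y : F) (hP : y ∈ P.toSubring)
      (hS : y ∈ S.toSubring), φ (residue _ ⟨y, hP⟩) = res V (residue _ ⟨y, hS⟩) := ⟨φ, hφ⟩
  unfold nrm
  rw [dif_pos h, Ns_uniq hPS (φ := h.choose) h.choose_spec hφ]

theorem Ns_dgr (hPS : P.toSubring ≤ S.toSubring) {φ : Kap P →+* ResidueField V}
    (hφ : Emb P S V φ) :
    dgr P ⟨S, V⟩ = @Module.finrank (Kap P) (ResidueField V) _ _ φ.toAlgebra.toModule := by
  have h : ∃ φ : Kap P →+* ResidueField V, Emb P S V φ := ⟨φ, hφ⟩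
  unfold dgr
  rw [dif_pos h, Ns_uniq hPS (φ := h.choose) h.choose_spec hφ]

/-- The form and the norm. -/
theorem Ns_form {κ M : Type} [Field κ] [Field M] [Algebra κ M] {l : κ → ℚ}
    (hl : ∀ a b : κ, a ≠ 0 → b ≠ 0 → l (a * b) = l a + l b) {t : M} (ht : t ≠ 0) :
    l (Algebra.norm κ t) = Module.finrank κ M * lam l t := by
  by_cases hfin : FiniteDimensional κ M
  · exact lam_norm_fin hl ht
  · rw [Algebra.norm_eq_one_of_not_module_finite hfin, form_one hl,
      Module.finrank_of_not_finite hfin, Nat.cast_zero, zero_mul]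

open Classical in
/-- The value of the form at an element of the residue field of `V`. -/
noncomputable def Ns_C (P : LocalSubring F) (l : Kap P → ℚ) (p : PV F) (u : ResidueField p.2) : ℚ :=
  if h : ∃ φ : Kap P →+* ResidueField p.2, Emb P p.1 p.2 φ then
    @lam (Kap P) (ResidueField p.2) _ _ h.choose.toAlgebra l u else 0

theorem Ns_C_eq (hPS : P.toSubring ≤ S.toSubring) {φ : Kap P →+* ResidueField V}
    (hφ : Emb P S V φ) (l : Kap P → ℚ) (u : ResidueField V) :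
    Ns_C P l ⟨S, V⟩ u = @lam (Kap P) (ResidueField V) _ _ φ.toAlgebra l u := by
  have h : ∃ φ : Kap P →+* ResidueField V, Emb P S V φ := ⟨φ, hφ⟩
  unfold Ns_C
  rw [dif_pos h, Ns_uniq hPS (φ := h.choose) h.choose_spec hφ]

/-- The norm below. -/
theorem Ns_down (hc : Cen P S V) {l : Kap P → ℚ}
    (hl : ∀ a b : Kap P, a ≠ 0 → b ≠ 0 → l (a * b) = l a + l b) {u : ResidueField V}
    (hu : u ≠ 0) : l (nrm P S V u) = dgr P ⟨S, V⟩ * Ns_C P l ⟨S, V⟩ u := by
  obtain ⟨φ, hφ⟩ := exists_kap P S V hc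
  rw [Ns_nrm hc.1 hφ, Ns_dgr hc.1 hφ, Ns_C_eq hc.1 hφ]
  exact @Ns_form _ _ _ _ φ.toAlgebra _ hl _ hu

end

section

variable {F K : Type} [Field F] [Field K] {ι : F →+* K} {P' S' : LocalSubring K}
  {V' : ValuationSubring (Kap S')}

/-- The square of residue fields. -/
theorem Ns_square (hPS : P'.toSubring ≤ S'.toSubring) {φ' : Kap P' →+* ResidueField V'}
    (hφ' : Emb P' S' V' φ')
    {φ : Kap (dn ι P') →+* ResidueField (V'.comap (kmap ι S'))}
    (hφ : Emb (dn ι P') (dn ι S') (V'.comap (kmap ι S')) φ) (z : Kap (dn ι P')) :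
    rmap (kmap ι S') V' (φ z) = φ' (kmap ι P' z) := by
  obtain ⟨y, rfl⟩ := residue_surjective z
  have hy : ι (y : F) ∈ P'.toSubring := y.2
  have h1 := hφ y y.2 (hPS hy)
  have h2 := hφ' (ι (y : F)) hy (hPS hy)
  have h3 : φ (residue _ y) = res (V'.comap (kmap ι S'))
    (residue _ ⟨(y : F), hPS hy⟩) := h1
  rw [h3, rmap_res, kmap_residue ι S' y (hPS hy) (hPS hy)]
  exact h2.symm

/-- The norm above. -/
theorem Ns_up (hc' : Cen P' S' V') (hc : Cen (dn ι P') (dn ι S') (V'.comap (kmap ι S')))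
    (halg : @Algebra.IsAlgebraic (Kap (dn ι P')) (Kap P') _ _ (kmap ι P').toAlgebra)
    {l : ∀ P : LocalSubring F, Kap P → ℚ}
    (hl : ∀ a b : Kap (dn ι P'), a ≠ 0 → b ≠ 0 →
      l (dn ι P') (a * b) = l (dn ι P') a + l (dn ι P') b)
    {u : ResidueField (V'.comap (kmap ι S'))} (hu : u ≠ 0) :
    lup ι l P' (nrm P' S' V' (rmap (kmap ι S') V' u)) =
      dgr P' ⟨S', V'⟩ * Ns_C (dn ι P') (l (dn ι P')) ⟨dn ι S', V'.comap (kmap ι S')⟩ u := by
  obtain ⟨φ', hφ'⟩ := exists_kap P' S' V' hc'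
  obtain ⟨φ, hφ⟩ := exists_kap _ _ _ hc
  rw [Ns_nrm hc'.1 hφ', Ns_dgr hc'.1 hφ', Ns_C_eq hc.1 hφ]
  unfold lup
  let _ : Algebra (Kap (dn ι P')) (Kap P') := (kmap ι P').toAlgebra
  let _ : Algebra (Kap P') (ResidueField V') := φ'.toAlgebra
  let _ : Algebra (Kap (dn ι P')) (ResidueField V') := (φ'.comp (kmap ι P')).toAlgebra
  let _ : Algebra (Kap (dn ι P')) (ResidueField (V'.comap (kmap ι S'))) := φ.toAlgebra
  have : IsScalarTower (Kap (dn ι P')) (Kap P') (ResidueField V') :=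
    IsScalarTower.of_algebraMap_eq fun _ => rfl
  have : Algebra.IsAlgebraic (Kap (dn ι P')) (Kap P') := halg
  have hne : rmap (kmap ι S') V' u ≠ 0 := (map_ne_zero _).mpr hu
  have h1 := lam_norm (κ := Kap (dn ι P')) (κ' := Kap P') hl hne
  have h2 := lam_hom' (l (dn ι P')) (rmap (kmap ι S') V') (fun c =>
    Ns_square hc'.1 hφ' hφ c) u
  refine h1.trans ?_
  rw [h2]

end

variable {k k' F K : Type} [Field k] [Field k'] [Field F] [Field K] [Algebra k k'] [Algebra k F]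
  [Algebra k' K] [Algebra F K] {n d : ℕ} {x : Fin (n + 1) → F}

/-- D13f (Ns.lean), from D13e, D4 and `lam_norm`. -/
theorem norm_sum (h : BC k k' F K) (hx : Var k d x) {P' : LocalSubring K}
    (hP' : P' ∈ Pts k' (fun i => algebraMap F K (x i)) 1) {p : PV F} (hp1 : p.1 ∈ Pts k x 2)
    (hp2 : IsDiscreteValuationRing p.2) (hc : Cen (dn (algebraMap F K) P') p.1 p.2)
    (l : ∀ P : LocalSubring F, Kap P → ℚ)
    (hl : ∀ a b : Kap (dn (algebraMap F K) P'), a ≠ 0 → b ≠ 0 →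
      l (dn (algebraMap F K) P') (a * b) =
        l (dn (algebraMap F K) P') a + l (dn (algebraMap F K) P') b)
    (u : ∀ q : PV F, ResidueField q.2) (hu : u p ≠ 0) :
    ∑ᶠ (q : PV K) (_ : q ∈ PVo k' (fun i => algebraMap F K (x i)) (algebraMap F K) P' p),
      lup (algebraMap F K) l P' (nrm P' q.1 q.2
        (rmap (kmap (algebraMap F K) q.1) q.2 (u (dnV (algebraMap F K) q)))) =
      l (dn (algebraMap F K) P') (nrm (dn (algebraMap F K) P') p.1 p.2 (u p)) := by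
  obtain ⟨hfin, hdeg⟩ := deg_sum h hx hP' hp1 hp2 hc
  have halg := kap_alg h hx hP'
  have h1 : ∀ q ∈ PVo k' (fun i => algebraMap F K (x i)) (algebraMap F K) P' p,
      lup (algebraMap F K) l P' (nrm P' q.1 q.2
        (rmap (kmap (algebraMap F K) q.1) q.2 (u (dnV (algebraMap F K) q)))) =
      dgr P' q * Ns_C (dn (algebraMap F K) P') (l (dn (algebraMap F K) P')) p (u p) := by
    rintro q ⟨-, -, hq3, hq4⟩
    subst hq4
    exact Ns_up hq3 hc halg hl hu
  rw [finsum_mem_congr rfl h1, Ns_down hc hl hu]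
  have h2 : (∑ᶠ (q : PV K) (_ : q ∈ PVo k' (fun i => algebraMap F K (x i)) (algebraMap F K) P' p),
      (dgr P' q : ℚ)) = dgr (dn (algebraMap F K) P') p := by
    rw [← hdeg, finsum_mem_eq_finite_toFinset_sum _ hfin, finsum_mem_eq_finite_toFinset_sum _ hfin,
      Nat.cast_sum]
  change _ = (dgr (dn (algebraMap F K) P') p : ℚ) *
    Ns_C (dn (algebraMap F K) P') (l (dn (algebraMap F K) P')) p (u p)
  rw [← h2, finsum_mem_eq_finite_toFinset_sum _ hfin, finsum_mem_eq_finite_toFinset_sum _ hfin,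
    Finset.sum_mul]

end Pool.Agent.Lib.MP_b197b4_ntKE
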