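import Mathlib
import Pool.Agent.Lib.MP_b197b4_ntA.XNrm
import Pool.Agent.Lib.MP_b197b4_ntKE.Defs
import Pool.Agent.Lib.MP_b197b4_ntKE.Var
import Pool.Agent.Lib.MP_b197b4_ntKE.Pts
import Pool.Agent.Lib.MP_b197b4_ntKE.Kap
import Pool.Agent.Lib.MP_b197b4_ntKE.Dv
import Pool.Agent.Lib.MP_b197b4_ntKE.Fs
import Pool.Agent.Lib.MP_b197b4_ntKE.Su
import Pool.Agent.Lib.MP_b197b4_ntKE.Ns

/-!
# MP_b197b4_nt, project K1-ALL-DESC: D15, the local formula
-/

set_option autoImplicit false

namespace Pool.Agent.Lib.MP_b197b4_ntKE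

open IsLocalRing Pool.Agent.Lib.MP_b197b4_ntK Pool.Agent.Lib.MP_b197b4_ntA
  Pool.Agent.Lib.MP_b197b4_ntKD

section

variable {F : Type} [Field F]

theorem Lf_tame_one {S : LocalSubring F} {V : ValuationSubring (Kap S)} {f g : Kap S}
    (hf : ord V f = 0) (hg : ord V g = 0) : tame V f g = 1 := by
  unfold tame
  rw [hf, hg, mul_zero, zpow_zero, zpow_zero, zpow_zero, mul_one, div_one, Pool.Agent.Lib.MP_b197b4_ntKD.res_one]

/-- The value of a form at the boundary of a symbol. -/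
theorem Lf_bd {S P : LocalSubring F} {f g : Kap S} (hf : f ≠ 0) (hg : g ≠ 0) (l : Kap P → ℚ)
    (hl : ∀ a b : Kap P, a ≠ 0 → b ≠ 0 → l (a * b) = l a + l b)
    (T : Finset (ValuationSubring (Kap S)))
    (h1 : ∀ V ∈ T, IsDiscreteValuationRing V ∧ Cen P S V)
    (h2 : ∀ V : ValuationSubring (Kap S), IsDiscreteValuationRing V → Cen P S V → V ∉ T → ord V f = 0 ∧ ord V g = 0) :
    l (bd ⟨S, f, g⟩ P) = ∑ V ∈ T, l (nrm P S V (tame V f g)) := by
  classical
  have h3 : bd ⟨S, f, g⟩ P = ∏ V ∈ T, nrm P S V (tame V f g) := by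
    refine finprod_mem_eq_prod_of_inter_mulSupport_eq
      (s := {V : ValuationSubring (Kap S) | IsDiscreteValuationRing V ∧ Cen P S V})
      (fun V => nrm P S V (tame V f g)) ?_
    ext V
    constructor
    · rintro ⟨h3, h4⟩
      refine ⟨?_, h4⟩
      by_contra h5
      apply h4
      obtain ⟨h6, h7⟩ := h2 V h3.1 h3.2 h5
      show nrm P S V (tame V f g) = 1
      rw [Lf_tame_one h6 h7, nrm_one]
    · rintro ⟨h3, h4⟩
      exact ⟨h1 V h3, h4⟩
  rw [h3]
  refine form_prod hl T _ fun V hV => ?_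
  have := (h1 V hV).1
  exact nrm_ne P S V (tame_ne hf hg)

end

section

variable {k k' F K : Type} [Field k] [Field k'] [Field F] [Field K] [Algebra k k'] [Algebra k F]
  [Algebra k' K] [Algebra F K] {n d : ℕ} {x : Fin (n + 1) → F}

theorem Lf_const {x' : Fin (n + 1) → K} {e : ℕ} {P' : LocalSubring K} (hP' : P' ∈ Pts k' x' e)
    (c : k') : algebraMap k' K c ∈ P'.toSubring := by
  obtain ⟨i, Q, hQ, -, rfl⟩ := hP'
  exact LocalSubring.le_ofPrime _ Q ((cht k' x' i).algebraMap_mem c)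

/-- Every pair over `k` has a pair over `k'` above it. -/
theorem Lf_ex (h : BC k k' F K) (hx : Var k d x) {P' : LocalSubring K}
    (hP' : P' ∈ Pts k' (fun i => algebraMap F K (x i)) 1) {p : PV F} (hp1 : p.1 ∈ Pts k x 2)
    (hp2 : IsDiscreteValuationRing p.2) (hc : Cen (dn (algebraMap F K) P') p.1 p.2) :
    ∃ q, q ∈ PVo k' (fun i => algebraMap F K (x i)) (algebraMap F K) P' p := by
  obtain ⟨φ, hφ⟩ := exists_kap _ _ _ hc
  let _ : Algebra (Kap (dn (algebraMap F K) P')) (Kap P') := (kmap (algebraMap F K) P').toAlgebra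
  have : Algebra.IsAlgebraic (Kap (dn (algebraMap F K) P')) (Kap P') := kap_alg h hx hP'
  let β : ResidueField p.2 →+* AlgebraicClosure (ResidueField p.2) := algebraMap _ _
  let _ : Algebra (Kap (dn (algebraMap F K) P')) (AlgebraicClosure (ResidueField p.2)) :=
    (β.comp φ).toAlgebra
  let α : Kap P' →ₐ[Kap (dn (algebraMap F K) P')] AlgebraicClosure (ResidueField p.2) :=
    IsAlgClosed.lift
  obtain ⟨q, hq, -⟩ := pair_surj h hx hP' hp1 hp2 hc φ hφ (α : Kap P' →+* _) β
    fun u => α.commutes u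
  exact ⟨q, hq⟩

theorem Lf_lup (h : BC k k' F K) (hx : Var k d x) {P' : LocalSubring K}
    (hP' : P' ∈ Pts k' (fun i => algebraMap F K (x i)) 1) (l : ∀ P : LocalSubring F, Kap P → ℚ)
    (hl : ∀ a b : Kap (dn (algebraMap F K) P'), a ≠ 0 → b ≠ 0 →
      l (dn (algebraMap F K) P') (a * b) =
        l (dn (algebraMap F K) P') a + l (dn (algebraMap F K) P') b)
    (a b : Kap P') (ha : a ≠ 0) (hb : b ≠ 0) :
    lup (algebraMap F K) l P' (a * b) =
      lup (algebraMap F K) l P' a + lup (algebraMap F K) l P' b := by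
  let _ : Algebra (Kap (dn (algebraMap F K) P')) (Kap P') := (kmap (algebraMap F K) P').toAlgebra
  have : Algebra.IsAlgebraic (Kap (dn (algebraMap F K) P')) (Kap P') := kap_alg h hx hP'
  exact lam_mul hl ha hb

/-- D15 (Lf.lean), from D11, D12, D13f: the local formula. -/
theorem local_formula [IsAlgClosed k'] (h : BC k k' F K) (hx : Var k d x) {P' : LocalSubring K}
    (hP' : P' ∈ Pts k' (fun i => algebraMap F K (x i)) 1) {S : LocalSubring F}
    (hS : S ∈ Pts k x 2) (l : ∀ P : LocalSubring F, Kap P → ℚ)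
    (hl : ∀ a b : Kap (dn (algebraMap F K) P'), a ≠ 0 → b ≠ 0 →
      l (dn (algebraMap F K) P') (a * b) =
        l (dn (algebraMap F K) P') a + l (dn (algebraMap F K) P') b)
    (f g : ∀ S : LocalSubring F, Kap S) (hf : f S ≠ 0) (hg : g S ≠ 0) :
    ∑ᶠ (S' : LocalSubring K) (_ : S' ∈ Ov k' (fun i => algebraMap F K (x i)) (algebraMap F K) 2 S),
      lup (algebraMap F K) l P' (bd ⟨S', kmap (algebraMap F K) S' (f (dn (algebraMap F K) S')),
        kmap (algebraMap F K) S' (g (dn (algebraMap F K) S'))⟩ P') =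
      l (dn (algebraMap F K) P') (bd ⟨S, f S, g S⟩ (dn (algebraMap F K) P')) := by
  classical
  have hx' : Var k' d (fun i => algebraMap F K (x i)) := var_up h hx
  have hconst : ∀ c : k', algebraMap k' K c ∈ P'.toSubring := Lf_const hP'
  -- the values of the form
  have hlup := Lf_lup h hx hP' l hl
  set fK : ∀ S' : LocalSubring K, Kap S' := fun S' => kmap (algebraMap F K) S'
    (f (dn (algebraMap F K) S')) with hfK
  set gK : ∀ S' : LocalSubring K, Kap S' := fun S' => kmap (algebraMap F K) S'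
    (g (dn (algebraMap F K) S')) with hgK
  have hfd : ∀ S', dn (algebraMap F K) S' = S → f (dn (algebraMap F K) S') ≠ 0 := by
    intro S' h1
    rw [h1]
    exact hf
  have hgd : ∀ S', dn (algebraMap F K) S' = S → g (dn (algebraMap F K) S') ≠ 0 := by
    intro S' h1
    rw [h1]
    exact hg
  have hfK0 : ∀ S', dn (algebraMap F K) S' = S → fK S' ≠ 0 := fun S' h1 =>
    (map_ne_zero _).mpr (hfd S' h1)
  have hgK0 : ∀ S', dn (algebraMap F K) S' = S → gK S' ≠ 0 := fun S' h1 =>
    (map_ne_zero _).mpr (hgd S' h1)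
  set G : PV K → ℚ := fun q => lup (algebraMap F K) l P' (nrm P' q.1 q.2 (tame q.2 (fK q.1) (gK q.1)))
    with hG
  -- the finite sets
  have hOv := ov_finite h hx hS (k' := k')
  let TS : ∀ S' : LocalSubring K, Set (ValuationSubring (Kap S')) := fun S' =>
    {V | IsDiscreteValuationRing V ∧ Cen P' S' V ∧ (ord V (fK S') ≠ 0 ∨ ord V (gK S') ≠ 0)}
  have hTS : ∀ S' ∈ Ov k' (fun i => algebraMap F K (x i)) (algebraMap F K) 2 S, (TS S').Finite := by
    intro S' hS'
    refine ((fin_bd hx' hS'.1 (hfK0 S' hS'.2)).union (fin_bd hx' hS'.1 (hgK0 S' hS'.2))).subset ?_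
    rintro V ⟨h1, h2, h3 | h3⟩
    · exact Or.inl ⟨h1, ⟨P', hP', h2⟩, h3⟩
    · exact Or.inr ⟨h1, ⟨P', hP', h2⟩, h3⟩
  let T : ∀ S' : LocalSubring K, Finset (ValuationSubring (Kap S')) := fun S' =>
    if h1 : (TS S').Finite then h1.toFinset else ∅
  have hT : ∀ S' ∈ Ov k' (fun i => algebraMap F K (x i)) (algebraMap F K) 2 S,
      ∀ V : ValuationSubring (Kap S'), V ∈ T S' ↔ V ∈ TS S' := by
    intro S' hS' V
    show V ∈ (if h1 : (TS S').Finite then h1.toFinset else ∅) ↔ _
    rw [dif_pos (hTS S' hS'), Set.Finite.mem_toFinset]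
  set A : Finset (PV K) := hOv.toFinset.sigma T with hA
  have hAmem : ∀ q : PV K, q ∈ A ↔ (q.1 ∈ Pts k' (fun i => algebraMap F K (x i)) 2 ∧
      dn (algebraMap F K) q.1 = S) ∧ q.2 ∈ TS q.1 := by
    intro q
    rw [hA, Finset.mem_sigma, Set.Finite.mem_toFinset]
    constructor
    · rintro ⟨h1, h2⟩
      exact ⟨h1, (hT q.1 h1 q.2).1 h2⟩
    · rintro ⟨h1, h2⟩
      exact ⟨h1, (hT q.1 h1 q.2).2 h2⟩
  -- the left side
  have hleft : (∑ᶠ (S' : LocalSubring K)
      (_ : S' ∈ Ov k' (fun i => algebraMap F K (x i)) (algebraMap F K) 2 S),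
      lup (algebraMap F K) l P' (bd ⟨S', fK S', gK S'⟩ P')) = ∑ q ∈ A, G q := by
    rw [finsum_mem_eq_finite_toFinset_sum _ hOv, hA, Finset.sum_sigma]
    refine Finset.sum_congr rfl fun S' hS' => ?_
    rw [Set.Finite.mem_toFinset] at hS'
    refine Lf_bd (hfK0 S' hS'.2) (hgK0 S' hS'.2) (lup (algebraMap F K) l P') hlup (T S')
      (fun V hV => ?_) fun V h1 h2 h3 => ?_
    · have h1 := (hT S' hS' V).1 hV
      exact ⟨h1.1, h1.2.1⟩
    · rw [hT S' hS'] at h3
      by_contra h4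
      apply h3
      refine ⟨h1, h2, ?_⟩
      by_contra h5
      push Not at h5
      exact h4 h5
  -- the orders go down
  have hdown : ∀ q : PV K, q.1 ∈ Pts k' (fun i => algebraMap F K (x i)) 2 →
      IsDiscreteValuationRing q.2 → Cen P' q.1 q.2 →
      IsDiscreteValuationRing (dnV (algebraMap F K) q).2 ∧
      Cen (dn (algebraMap F K) P') (dnV (algebraMap F K) q).1 (dnV (algebraMap F K) q).2 ∧
      ∀ y : Kap (dn (algebraMap F K) q.1), y ≠ 0 →
        ord q.2 (kmap (algebraMap F K) q.1 y) = ord (dnV (algebraMap F K) q).2 y := by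
    intro q h1 h2 h3
    exact dv_down h hx h1 h2 h3 hconst
  set B : Finset (PV F) := A.image (dnV (algebraMap F K)) with hB
  have hBmem : ∀ p ∈ B, p.1 = S ∧ IsDiscreteValuationRing p.2 ∧
      Cen (dn (algebraMap F K) P') p.1 p.2 := by
    intro p hp
    obtain ⟨q, hq, rfl⟩ := Finset.mem_image.1 hp
    rw [hAmem] at hq
    obtain ⟨⟨h1, h2⟩, h3, h4, h5⟩ := hq
    obtain ⟨h6, h7, h8⟩ := hdown q h1 h3 h4
    exact ⟨h2, h6, h7⟩
  have hfib : ∑ q ∈ A, G q = ∑ p ∈ B, l (dn (algebraMap F K) P')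
      (nrm (dn (algebraMap F K) P') p.1 p.2 (tame p.2 (f p.1) (g p.1))) := by
    rw [← Finset.sum_fiberwise_of_maps_to (s := A) (t := B) (g := dnV (algebraMap F K))
      (fun q hq => Finset.mem_image_of_mem _ hq)]
    refine Finset.sum_congr rfl fun p hp => ?_
    obtain ⟨h1, h2, h3⟩ := hBmem p hp
    have hfp : f p.1 ≠ 0 := by rw [h1]; exact hf
    have hgp : g p.1 ≠ 0 := by rw [h1]; exact hg
    have h4 := norm_sum h hx hP' (p := p) (by rw [h1]; exact hS) h2 h3 l hl
      (fun p => tame p.2 (f p.1) (g p.1)) (tame_ne hfp hgp)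
    refine Eq.trans ?_ h4
    symm
    -- the terms
    have h5 : ∀ q ∈ PVo k' (fun i => algebraMap F K (x i)) (algebraMap F K) P' p,
        lup (algebraMap F K) l P' (nrm P' q.1 q.2
          (rmap (kmap (algebraMap F K) q.1) q.2 (tame (dnV (algebraMap F K) q).2
            (f (dnV (algebraMap F K) q).1) (g (dnV (algebraMap F K) q).1)))) = G q := by
      rintro q ⟨h5, h6, h7, h8⟩
      have h9 : dn (algebraMap F K) q.1 = S := by
        have := congrArg Sigma.fst h8
        exact this.trans h1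
      have h10 := rmap_tame (kmap (algebraMap F K) q.1) q.2 (hdown q h5 h6 h7).2.2
        (hfd q.1 h9) (hgd q.1 h9)
      exact congrArg (fun z => lup (algebraMap F K) l P' (nrm P' q.1 q.2 z)) h10
    rw [finsum_mem_congr rfl h5]
    refine finsum_mem_eq_sum_of_inter_support_eq G ?_
    ext q
    constructor
    · rintro ⟨⟨h6, h7, h8, h9⟩, h10⟩
      refine ⟨?_, h10⟩
      rw [Finset.coe_filter]
      refine ⟨(hAmem q).2 ⟨⟨h6, ?_⟩, h7, h8, ?_⟩, h9⟩
      · have := congrArg Sigma.fst h9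
        exact this.trans h1
      · by_contra h11
        push Not at h11
        apply h10
        show lup (algebraMap F K) l P' (nrm P' q.1 q.2 (tame q.2 (fK q.1) (gK q.1))) = 0
        rw [Lf_tame_one h11.1 h11.2, nrm_one]
        exact form_one hlup
    · rintro ⟨h6, h10⟩
      rw [Finset.coe_filter] at h6
      obtain ⟨h6, h7⟩ := h6
      rw [hAmem] at h6
      exact ⟨⟨h6.1.1, h6.2.1, h6.2.2.1, h7⟩, h10⟩
  -- the right side
  have hright : l (dn (algebraMap F K) P') (bd ⟨S, f S, g S⟩ (dn (algebraMap F K) P')) =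
      ∑ p ∈ B, l (dn (algebraMap F K) P')
        (nrm (dn (algebraMap F K) P') p.1 p.2 (tame p.2 (f p.1) (g p.1))) := by
    have hfinT : {V : ValuationSubring (Kap S) | (⟨S, V⟩ : PV F) ∈ B}.Finite :=
      (B.finite_toSet).preimage (fun a _ b _ hab => by
        have := (Sigma.mk.inj_iff.1 hab).2
        exact eq_of_heq this)
    set T0 : Finset (ValuationSubring (Kap S)) := hfinT.toFinset with hT0
    have hT0mem : ∀ V : ValuationSubring (Kap S), V ∈ T0 ↔ (⟨S, V⟩ : PV F) ∈ B := fun V => by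
      rw [hT0, Set.Finite.mem_toFinset]
      rfl
    have hBT : B = T0.map (Function.Embedding.sigmaMk S) := by
      ext p
      rw [Finset.mem_map]
      constructor
      · intro hp
        obtain ⟨S1, V⟩ := p
        obtain ⟨h1, h2, h3⟩ := hBmem _ hp
        have h4 : S1 = S := h1
        subst h4
        exact ⟨V, (hT0mem V).2 hp, rfl⟩
      · rintro ⟨V, hV, rfl⟩
        exact (hT0mem V).1 hV
    rw [hBT, Finset.sum_map]
    refine Lf_bd hf hg (l (dn (algebraMap F K) P')) hl T0 (fun V hV => ?_) fun V h1 h2 h3 => ?_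
    · exact (hBmem _ ((hT0mem V).1 hV)).2
    · by_contra h4
      apply h3
      rw [hT0mem]
      obtain ⟨q, h5, h6, h7, h8⟩ := Lf_ex h hx hP' (p := ⟨S, V⟩) hS h1 h2
      refine Finset.mem_image.2 ⟨q, (hAmem q).2 ⟨⟨h5, congrArg Sigma.fst h8⟩, h6, h7, ?_⟩, h8⟩
      have h9 : dn (algebraMap F K) q.1 = S := congrArg Sigma.fst h8
      have h10 : ord q.2 (fK q.1) = ord V (f S) :=
        ((hdown q h5 h6 h7).2.2 _ (hfd q.1 h9)).trans
          (congrArg (fun p : PV F => ord p.2 (f p.1)) h8)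
      have h11 : ord q.2 (gK q.1) = ord V (g S) :=
        ((hdown q h5 h6 h7).2.2 _ (hgd q.1 h9)).trans
          (congrArg (fun p : PV F => ord p.2 (g p.1)) h8)
      rw [h10, h11]
      by_contra h12
      push Not at h12
      exact h4 h12
  rw [hright, ← hfib]
  exact hleft

end

end Pool.Agent.Lib.MP_b197b4_ntKE
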