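import Pool.Agent.Lib.MP_b197b4_ntKE.Fs
import Pool.Agent.Lib.MP_b197b4_ntKE.Var
import Pool.Agent.Lib.MP_b197b4_ntKE.Pts
import Pool.Agent.Lib.MP_b197b4_ntKE.Kap
import Pool.Agent.Lib.MP_b197b4_ntKE.Gal2
import Pool.Agent.Lib.MP_b197b4_ntKE.Inv
import Pool.Agent.Lib.MP_b197b4_ntKE.Gd
import Pool.Agent.Lib.MP_b197b4_ntKE.Lf
import Pool.Agent.Lib.MP_b197b4_ntKD.Dc

/-!
# MP_b197b4_nt, project K1-ALL-DESC: the forms on the variety over the larger field of constants
-/

set_option autoImplicit false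

namespace Pool.Agent.Lib.MP_b197b4_ntKE

open IsLocalRing Pool.Agent.Lib.MP_b197b4_ntK Pool.Agent.Lib.MP_b197b4_ntA
  Pool.Agent.Lib.MP_b197b4_ntKD

/-! ## Finite sums -/

/-- Sums over the fibres of a map. -/
theorem fib_sum {α β : Type*} (A : Set α) (B : Set β) (π : α → β) (hπ : ∀ a ∈ A, π a ∈ B)
    (hfin : ∀ b ∈ B, {a | a ∈ A ∧ π a = b}.Finite)
    (hne : ∀ b ∈ B, {a | a ∈ A ∧ π a = b}.Nonempty) (G : β → ℚ) :
    ∑ᶠ (a : α) (_ : a ∈ A), G (π a) / ({a' | a' ∈ A ∧ π a' = π a}.ncard : ℚ) =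
      ∑ᶠ (b : β) (_ : b ∈ B), G b := by
  classical
  have hcard : ∀ b ∈ B, ({a | a ∈ A ∧ π a = b}.ncard : ℚ) ≠ 0 := by
    intro b hb
    have h1 := (Set.ncard_pos (hfin b hb)).mpr (hne b hb)
    exact_mod_cast h1.ne'
  obtain ⟨g, hg⟩ : ∃ g : α → ℚ, g = fun a =>
    G (π a) / ({a' | a' ∈ A ∧ π a' = π a}.ncard : ℚ) := ⟨_, rfl⟩
  have hg0 : ∀ a ∈ A, g a ≠ 0 ↔ G (π a) ≠ 0 := by
    intro a ha
    rw [hg]
    change G (π a) / _ ≠ 0 ↔ _
    rw [div_ne_zero_iff]
    exact ⟨fun h => h.1, fun h => ⟨h, hcard _ (hπ a ha)⟩⟩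
  have e1 : ∑ᶠ (a : α) (_ : a ∈ A), G (π a) / ({a' | a' ∈ A ∧ π a' = π a}.ncard : ℚ) =
      ∑ᶠ (a : α) (_ : a ∈ A), g a := by rw [hg]
  rw [e1]
  by_cases hB : {b | b ∈ B ∧ G b ≠ 0}.Finite
  · have h1 : ∑ᶠ (b : β) (_ : b ∈ B), G b = ∑ᶠ (b : β) (_ : b ∈ {b | b ∈ B ∧ G b ≠ 0}), G b := by
      refine finsum_mem_inter_support_eq _ _ _ ?_
      ext b
      simp only [Set.mem_inter_iff, Function.mem_support, Set.mem_ofPred_eq]
      tauto
    have h2 : ∑ᶠ (a : α) (_ : a ∈ A), g a =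
        ∑ᶠ (a : α) (_ : a ∈ ⋃ b ∈ {b | b ∈ B ∧ G b ≠ 0}, {a | a ∈ A ∧ π a = b}), g a := by
      refine finsum_mem_inter_support_eq _ _ _ ?_
      ext a
      simp only [Set.mem_inter_iff, Function.mem_support, Set.mem_iUnion, Set.mem_ofPred_eq]
      constructor
      · rintro ⟨ha, hga⟩
        exact ⟨⟨π a, ⟨hπ a ha, (hg0 a ha).mp hga⟩, ha, rfl⟩, hga⟩
      · rintro ⟨⟨b, -, ha, -⟩, hga⟩
        exact ⟨ha, hga⟩
    rw [h1, h2, finsum_mem_biUnion _ hB fun b hb => hfin b hb.1]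
    · refine finsum_mem_congr rfl fun b hb => ?_
      have h3 : ∀ a ∈ {a | a ∈ A ∧ π a = b}, g a =
          G b / ({a | a ∈ A ∧ π a = b}.ncard : ℚ) := by
        rintro a ⟨ha, rfl⟩
        rw [hg]
      rw [finsum_mem_congr rfl h3]
      have h4 := hfin b hb.1
      rw [finsum_mem_eq_finite_toFinset_sum _ h4, Finset.sum_const, nsmul_eq_mul,
        ← Set.ncard_eq_toFinset_card _ h4, mul_div_cancel₀ _ (hcard b hb.1)]
    · intro b hb c hc hbc
      refine Set.disjoint_left.mpr ?_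
      rintro a ⟨-, h5⟩ ⟨-, h6⟩
      exact hbc (h5.symm.trans h6)
  · rw [finsum_mem_eq_zero_of_infinite, finsum_mem_eq_zero_of_infinite]
    · intro h1
      apply hB
      refine h1.subset fun b hb => hb
    · intro h1
      apply hB
      refine (h1.image π).subset ?_
      rintro b ⟨hb, hGb⟩
      obtain ⟨a, ha, rfl⟩ := hne b hb
      exact ⟨a, ⟨ha, (hg0 a ha).mpr hGb⟩, rfl⟩

/-- A finite combination of sums with finite support. -/
theorem sum_list {α β : Type*} (A : Set α) (t : List β) (c : β → ℚ) (g : β → α → ℚ)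
    (hfin : ∀ p ∈ t, {a | a ∈ A ∧ g p a ≠ 0}.Finite) :
    {a | a ∈ A ∧ (t.map fun p => c p * g p a).sum ≠ 0}.Finite ∧
    ∑ᶠ (a : α) (_ : a ∈ A), (t.map fun p => c p * g p a).sum =
      (t.map fun p => c p * ∑ᶠ (a : α) (_ : a ∈ A), g p a).sum := by
  induction t with
  | nil => simp
  | cons p t ih =>
    obtain ⟨ih1, ih2⟩ := ih fun q hq => hfin q (List.mem_cons_of_mem _ hq)
    have h1 : {a | a ∈ A ∧ c p * g p a ≠ 0}.Finite :=
      (hfin p List.mem_cons_self).subset fun a ha => ⟨ha.1, right_ne_zero_of_mul ha.2⟩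
    constructor
    · refine (h1.union ih1).subset ?_
      rintro a ⟨ha, hne⟩
      rw [List.map_cons, List.sum_cons] at hne
      by_cases h0 : c p * g p a = 0
      · right
        refine ⟨ha, ?_⟩
        rwa [h0, zero_add] at hne
      · exact Or.inl ⟨ha, h0⟩
    · rw [List.map_cons, List.sum_cons, ← ih2]
      have h2 : ∑ᶠ (a : α) (_ : a ∈ A), ((p :: t).map fun p => c p * g p a).sum =
          ∑ᶠ (a : α) (_ : a ∈ A), (c p * g p a + (t.map fun p => c p * g p a).sum) :=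
        finsum_mem_congr rfl fun a _ => by rw [List.map_cons, List.sum_cons]
      rw [h2, finsum_mem_add_distrib' (h1.subset fun a ha => ⟨ha.1, ha.2⟩)
        (ih1.subset fun a ha => ⟨ha.1, ha.2⟩)]
      congr 1
      by_cases hc : c p = 0
      · rw [hc, zero_mul]
        simp
      · exact (mul_finsum_mem _ _).symm

/-- Interchange of sums. -/
theorem comm_fin {α β : Type*} (O : Set α) (hO : O.Finite) (A : Set β) (h : α → β → ℚ)
    (hfin : ∀ s ∈ O, {b | b ∈ A ∧ h s b ≠ 0}.Finite) :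
    ∑ᶠ (s : α) (_ : s ∈ O), ∑ᶠ (b : β) (_ : b ∈ A), h s b =
      ∑ᶠ (b : β) (_ : b ∈ A), ∑ᶠ (s : α) (_ : s ∈ O), h s b := by
  obtain ⟨B, hB⟩ : ∃ B : Set β, B = ⋃ s ∈ O, {b | b ∈ A ∧ h s b ≠ 0} := ⟨_, rfl⟩
  have hBf : B.Finite := hB ▸ hO.biUnion hfin
  have hBA : ∀ b ∈ B, b ∈ A := by
    intro b hb
    rw [hB] at hb
    obtain ⟨s, -, hb⟩ := Set.mem_iUnion₂.mp hb
    exact hb.1
  have e1 : ∀ s ∈ O, ∑ᶠ (b : β) (_ : b ∈ A), h s b = ∑ᶠ (b : β) (_ : b ∈ B), h s b := by
    intro s hs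
    refine finsum_mem_inter_support_eq _ _ _ ?_
    ext b
    simp only [Set.mem_inter_iff, Function.mem_support]
    refine and_congr_left fun hne => ⟨fun hb => ?_, hBA b⟩
    rw [hB]
    exact Set.mem_biUnion hs ⟨hb, hne⟩
  have e2 : ∑ᶠ (b : β) (_ : b ∈ A), ∑ᶠ (s : α) (_ : s ∈ O), h s b =
      ∑ᶠ (b : β) (_ : b ∈ B), ∑ᶠ (s : α) (_ : s ∈ O), h s b := by
    refine finsum_mem_inter_support_eq _ _ _ ?_
    ext b
    simp only [Set.mem_inter_iff, Function.mem_support]
    refine and_congr_left fun hne => ⟨fun hb => ?_, hBA b⟩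
    obtain ⟨s, hs, hne'⟩ := exists_ne_zero_of_finsum_mem_ne_zero hne
    rw [hB]
    exact Set.mem_biUnion hs ⟨hb, hne'⟩
  rw [finsum_mem_congr rfl e1, e2, finsum_mem_comm _ hO hBf]

theorem exists_fam {F : Type} [Field F] (S : LocalSubring F) (c : Kap S) :
    ∃ f : ∀ S : LocalSubring F, Kap S, f S = c := by
  classical
  exact ⟨Function.update (fun _ => 0) S c, Function.update_self _ _ _⟩

/-! ## The support of a boundary -/

theorem bd_supp {k F : Type} [Field k] [IsAlgClosed k] [Field F] [Algebra k F] {n d : ℕ}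
    {x : Fin (n + 1) → F} (hx : Var k d x) {S : LocalSubring F} (hS : S ∈ Pts k x 2)
    {f g : Kap S} (hf : f ≠ 0) (hg : g ≠ 0) : {P | P ∈ Pts k x 1 ∧ bd ⟨S, f, g⟩ P ≠ 1}.Finite := by
  have hfin := (fin_bd hx hS hf).union (fin_bd hx hS hg)
  refine (hfin.biUnion (t := fun V => {P | P ∈ Pts k x 1 ∧ Cen P S V}) ?_).subset ?_
  · intro V _
    refine Set.Subsingleton.finite ?_
    rintro P ⟨hP, hc⟩ Q ⟨hQ, hc'⟩
    exact xcen_unique hx.ne hP hQ S V hc hc'
  · rintro P ⟨hP, hne⟩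
    unfold bd at hne
    obtain ⟨V, ⟨hV, hc⟩, hne⟩ := exists_ne_one_of_finprod_mem_ne_one hne
    refine Set.mem_biUnion (x := V) ?_ ⟨hP, hc⟩
    by_contra hcon
    apply hne
    have h1 : ord V f = 0 := by
      by_contra h
      exact hcon (Or.inl ⟨hV, ⟨P, hP, hc⟩, h⟩)
    have h2 : ord V g = 0 := by
      by_contra h
      exact hcon (Or.inr ⟨hV, ⟨P, hP, hc⟩, h⟩)
    change nrm P S V (tame V f g) = 1
    rw [tame_eq_one_of_ord h1 h2, nrm_one]

theorem bd_ne {F : Type} [Field F] (S P : LocalSubring F) (f g : Kap S) (hf : f ≠ 0) (hg : g ≠ 0) :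
    bd ⟨S, f, g⟩ P ≠ 0 := by
  unfold bd
  refine finprod_mem_induction (p := fun c => c ≠ 0) one_ne_zero (fun a b ha hb => mul_ne_zero ha hb)
    fun V hV => ?_
  have := hV.1
  exact nrm_ne _ _ _ (tame_ne hf hg)

section

variable {k k' F K : Type} [Field k] [Field k'] [Field F] [Field K] [Algebra k k'] [Algebra k F]
  [Algebra k' K] [Algebra F K] {n d : ℕ} {x : Fin (n + 1) → F}

theorem lup_mul (h : BC k k' F K) (hx : Var k d x) {l : ∀ P : LocalSubring F, Kap P → ℚ}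
    (hl : FormsX k x l) {P' : LocalSubring K} (hP' : P' ∈ Pts k' (fun i => algebraMap F K (x i)) 1)
    {a b : Kap P'} (ha : a ≠ 0) (hb : b ≠ 0) :
    lup (algebraMap F K) l P' (a * b) =
      lup (algebraMap F K) l P' a + lup (algebraMap F K) l P' b := by
  let _ : Algebra (Kap (dn (algebraMap F K) P')) (Kap P') := (kmap (algebraMap F K) P').toAlgebra
  have halg : Algebra.IsAlgebraic (Kap (dn (algebraMap F K) P')) (Kap P') := kap_alg h hx hP'
  exact lam_mul (hl.mul _ (pts_dn h hx hP')) ha hb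

theorem lup_kmap {l : ∀ P : LocalSubring F, Kap P → ℚ}
    (P' : LocalSubring K) (hl : ∀ a b : Kap (dn (algebraMap F K) P'), a ≠ 0 → b ≠ 0 →
      l (dn (algebraMap F K) P') (a * b) =
        l (dn (algebraMap F K) P') a + l (dn (algebraMap F K) P') b)
    {a : Kap (dn (algebraMap F K) P')} (ha : a ≠ 0) :
    lup (algebraMap F K) l P' (kmap (algebraMap F K) P' a) = l (dn (algebraMap F K) P') a := by
  let _ : Algebra (Kap (dn (algebraMap F K) P')) (Kap P') := (kmap (algebraMap F K) P').toAlgebra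
  exact lam_algebraMap hl a ha

theorem lX_mul (h : BC k k' F K) (hx : Var k d x) {l : ∀ P : LocalSubring F, Kap P → ℚ}
    (hl : FormsX k x l) {P' : LocalSubring K} (hP' : P' ∈ Pts k' (fun i => algebraMap F K (x i)) 1)
    {a b : Kap P'} (ha : a ≠ 0) (hb : b ≠ 0) :
    lX k' (fun i => algebraMap F K (x i)) (algebraMap F K) l P' (a * b) =
      lX k' (fun i => algebraMap F K (x i)) (algebraMap F K) l P' a +
      lX k' (fun i => algebraMap F K (x i)) (algebraMap F K) l P' b := by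
  unfold lX
  rw [lup_mul h hx hl hP' ha hb, add_div]

theorem lX_one (h : BC k k' F K) (hx : Var k d x) {l : ∀ P : LocalSubring F, Kap P → ℚ}
    (hl : FormsX k x l) {P' : LocalSubring K}
    (hP' : P' ∈ Pts k' (fun i => algebraMap F K (x i)) 1) :
    lX k' (fun i => algebraMap F K (x i)) (algebraMap F K) l P' 1 = 0 :=
  form_one (l := fun y : Kap P' => lX k' (fun i => algebraMap F K (x i)) (algebraMap F K) l P' y)
    fun _ _ ha hb => lX_mul h hx hl hP' ha hb

/-- The sum over the curves. -/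
noncomputable def TT (k' : Type) [Field k'] [Algebra k' K] (x' : Fin (n + 1) → K) (ι : F →+* K)
    (l : ∀ P : LocalSubring F, Kap P → ℚ) (S' : LocalSubring K) (f g : Kap S') : ℚ :=
  ∑ᶠ (P' : LocalSubring K) (_ : P' ∈ Pts k' x' 1), lX k' x' ι l P' (bd ⟨S', f, g⟩ P')

theorem TT_supp [IsAlgClosed k'] (h : BC k k' F K) (hx : Var k d x)
    {l : ∀ P : LocalSubring F, Kap P → ℚ} (hl : FormsX k x l) {S' : LocalSubring K}
    (hS' : S' ∈ Pts k' (fun i => algebraMap F K (x i)) 2) {f g : Kap S'} (hf : f ≠ 0)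
    (hg : g ≠ 0) : {P' | P' ∈ Pts k' (fun i => algebraMap F K (x i)) 1 ∧
      lX k' (fun i => algebraMap F K (x i)) (algebraMap F K) l P' (bd ⟨S', f, g⟩ P') ≠ 0}.Finite := by
  refine (bd_supp (var_up h hx) hS' hf hg).subset ?_
  rintro P' ⟨hP', hne⟩
  refine ⟨hP', fun h1 => hne ?_⟩
  rw [h1, lX_one h hx hl hP']

theorem fam_res {F : Type} [Field F] (f : ∀ S : LocalSubring F, Kap S) {S T : LocalSubring F}
    (e : S = T) (y : F) (hy : y ∈ S.toSubring) (hy' : y ∈ T.toSubring)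
    (h : f S = residue _ ⟨y, hy⟩) : f T = residue _ ⟨y, hy'⟩ := by
  subst e
  exact h

/-- Symbols on `S'` and its conjugates. -/
theorem TT_theta [IsAlgClosed k'] [IsGalois F K] (h : BC k k' F K) (hx : Var k d x)
    (l : ∀ P : LocalSubring F, Kap P → ℚ) {S' S'' : LocalSubring K}
    (hS' : S' ∈ Pts k' (fun i => algebraMap F K (x i)) 2)
    (hS'' : S'' ∈ Pts k' (fun i => algebraMap F K (x i)) 2)
    (hdn : dn (algebraMap F K) S' = dn (algebraMap F K) S'') (f g : ∀ S : LocalSubring F, Kap S) :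
    TT k' (fun i => algebraMap F K (x i)) (algebraMap F K) l S''
      (kmap (algebraMap F K) S'' (f (dn (algebraMap F K) S'')))
      (kmap (algebraMap F K) S'' (g (dn (algebraMap F K) S''))) =
    TT k' (fun i => algebraMap F K (x i)) (algebraMap F K) l S'
      (kmap (algebraMap F K) S' (f (dn (algebraMap F K) S')))
      (kmap (algebraMap F K) S' (g (dn (algebraMap F K) S'))) := by
  obtain ⟨σ, hσ, hσS⟩ := gal_trans h hx hS' hS'' hdn
  subst hσS
  have hbij : Function.Bijective (kmap (σ : K →+* K) S'') := by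
    refine ⟨RingHom.injective _, fun c => ?_⟩
    obtain ⟨⟨y, hy⟩, rfl⟩ := residue_surjective c
    have hy' : σ.symm y ∈ (dn (σ : K →+* K) S'').toSubring := by
      change σ (σ.symm y) ∈ S''.toSubring
      rw [RingEquiv.apply_symm_apply]
      exact hy
    refine ⟨residue _ ⟨σ.symm y, hy'⟩, ?_⟩
    rw [kmap_residue _ _ _ _ (by exact hy')]
    congr 1
    exact Subtype.ext (σ.apply_symm_apply y)
  obtain ⟨θ, hθ⟩ : ∃ θ : Kap (dn (σ : K →+* K) S'') ≃+* Kap S'', ∀ u, θ u = kmap (σ : K →+* K) S'' u :=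
    ⟨RingEquiv.ofBijective _ hbij, fun _ => rfl⟩
  have hθ' : ∀ (y : F) (h1 : algebraMap F K y ∈ (dn (σ : K →+* K) S'').toSubring)
      (h2 : algebraMap F K y ∈ S''.toSubring), θ (residue _ ⟨algebraMap F K y, h1⟩) =
        residue _ ⟨algebraMap F K y, h2⟩ := by
    intro y h1 h2
    rw [hθ, kmap_residue _ _ _ _ (by exact h1)]
    congr 1
    exact Subtype.ext (hσ y)
  have h1 := inv_T h hx l hS' hS'' hdn θ hθ'
    (kmap (algebraMap F K) _ (f (dn (algebraMap F K) (dn (σ : K →+* K) S''))))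
    (kmap (algebraMap F K) _ (g (dn (algebraMap F K) (dn (σ : K →+* K) S''))))
  have key : ∀ (f : ∀ S : LocalSubring F, Kap S),
      θ (kmap (algebraMap F K) _ (f (dn (algebraMap F K) (dn (σ : K →+* K) S'')))) =
        kmap (algebraMap F K) S'' (f (dn (algebraMap F K) S'')) := by
    intro f
    obtain ⟨⟨y, hy⟩, hfy⟩ := residue_surjective
      (f (dn (algebraMap F K) (dn (σ : K →+* K) S'')))
    have hy1 : algebraMap F K y ∈ (dn (σ : K →+* K) S'').toSubring := hy
    have hy2 : algebraMap F K y ∈ S''.toSubring := by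
      have h3 : σ (algebraMap F K y) ∈ S''.toSubring := hy1
      rwa [hσ] at h3
    rw [fam_res f hdn y hy hy2 hfy.symm, ← hfy, kmap_residue _ _ _ _ hy1, hθ' y hy1 hy2,
      kmap_residue]
  rw [key, key] at h1
  exact h1

/-- Symbols which come from the surface over `k`. -/
theorem TT_zero [IsAlgClosed k'] [IsGalois F K] (h : BC k k' F K) (hx : Var k d x)
    {l : ∀ P : LocalSubring F, Kap P → ℚ} (hl : FormsX k x l) {S' : LocalSubring K}
    (hS' : S' ∈ Pts k' (fun i => algebraMap F K (x i)) 2) (f g : ∀ S : LocalSubring F, Kap S)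
    (hf : f (dn (algebraMap F K) S') ≠ 0) (hg : g (dn (algebraMap F K) S') ≠ 0) :
    TT k' (fun i => algebraMap F K (x i)) (algebraMap F K) l S'
      (kmap (algebraMap F K) S' (f (dn (algebraMap F K) S')))
      (kmap (algebraMap F K) S' (g (dn (algebraMap F K) S'))) = 0 := by
  obtain ⟨S, hSd⟩ : ∃ S, S = dn (algebraMap F K) S' := ⟨_, rfl⟩
  have hS : S ∈ Pts k x 2 := hSd ▸ pts_dn h hx hS'
  have hfS : f S ≠ 0 := by rw [hSd]; exact hf
  have hgS : g S ≠ 0 := by rw [hSd]; exact hg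
  have hfin := ov_finite (k' := k') (K := K) h hx hS
  have hS'O : S' ∈ Ov k' (fun i => algebraMap F K (x i)) (algebraMap F K) 2 S := ⟨hS', hSd.symm⟩
  have key1 : ∑ᶠ (S'' : LocalSubring K)
      (_ : S'' ∈ Ov k' (fun i => algebraMap F K (x i)) (algebraMap F K) 2 S),
      TT k' (fun i => algebraMap F K (x i)) (algebraMap F K) l S''
        (kmap (algebraMap F K) S'' (f (dn (algebraMap F K) S'')))
        (kmap (algebraMap F K) S'' (g (dn (algebraMap F K) S''))) =
      (Ov k' (fun i => algebraMap F K (x i)) (algebraMap F K) 2 S).ncard *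
        TT k' (fun i => algebraMap F K (x i)) (algebraMap F K) l S'
      (kmap (algebraMap F K) S' (f (dn (algebraMap F K) S')))
      (kmap (algebraMap F K) S' (g (dn (algebraMap F K) S'))) := by
    rw [finsum_mem_congr rfl fun S'' hS'' => TT_theta h hx l hS' hS''.1
      (hSd.symm.trans hS''.2.symm) f g, finsum_mem_eq_finite_toFinset_sum _ hfin,
      Finset.sum_const, nsmul_eq_mul, ← Set.ncard_eq_toFinset_card _ hfin]
  have hne : ∀ S'' ∈ Ov k' (fun i => algebraMap F K (x i)) (algebraMap F K) 2 S,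
      kmap (algebraMap F K) S'' (f (dn (algebraMap F K) S'')) ≠ 0 ∧
      kmap (algebraMap F K) S'' (g (dn (algebraMap F K) S'')) ≠ 0 := by
    rintro S'' ⟨-, rfl⟩
    exact ⟨(map_ne_zero _).mpr hfS, (map_ne_zero _).mpr hgS⟩
  have key2 := comm_fin (Ov k' (fun i => algebraMap F K (x i)) (algebraMap F K) 2 S) hfin
    (Pts k' (fun i => algebraMap F K (x i)) 1)
    (fun S'' P' => lX k' (fun i => algebraMap F K (x i)) (algebraMap F K) l P'
      (bd ⟨S'', kmap (algebraMap F K) S'' (f (dn (algebraMap F K) S'')),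
        kmap (algebraMap F K) S'' (g (dn (algebraMap F K) S''))⟩ P'))
    (fun S'' hS'' => TT_supp h hx hl hS''.1 (hne S'' hS'').1 (hne S'' hS'').2)
  have key3 : ∀ P' ∈ Pts k' (fun i => algebraMap F K (x i)) 1,
      ∑ᶠ (S'' : LocalSubring K)
        (_ : S'' ∈ Ov k' (fun i => algebraMap F K (x i)) (algebraMap F K) 2 S),
        lX k' (fun i => algebraMap F K (x i)) (algebraMap F K) l P'
          (bd ⟨S'', kmap (algebraMap F K) S'' (f (dn (algebraMap F K) S'')),
            kmap (algebraMap F K) S'' (g (dn (algebraMap F K) S''))⟩ P') =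
      l (dn (algebraMap F K) P') (bd ⟨S, f S, g S⟩ (dn (algebraMap F K) P')) /
        ({P'' | P'' ∈ Pts k' (fun i => algebraMap F K (x i)) 1 ∧ dn (algebraMap F K) P'' =
          dn (algebraMap F K) P'}.ncard : ℚ) := by
    intro P' hP'
    rw [← local_formula h hx hP' hS l (hl.mul _ (pts_dn h hx hP')) f g hfS hgS]
    unfold lX
    rw [finsum_mem_eq_finite_toFinset_sum _ hfin, finsum_mem_eq_finite_toFinset_sum _ hfin,
      Finset.sum_div]
    rfl
  have key4 := fib_sum (Pts k' (fun i => algebraMap F K (x i)) 1) (Pts k x 1)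
    (dn (algebraMap F K)) (fun P' hP' => pts_dn h hx hP') (fun P hP => ov_finite h hx hP)
    (fun P hP => ov_nonempty h hx hP) (fun P => l P (bd ⟨S, f S, g S⟩ P))
  have key5 : ∑ᶠ (P : LocalSubring F) (_ : P ∈ Pts k x 1), l P (bd ⟨S, f S, g S⟩ P) = 0 :=
    hl.recip ⟨S, f S, g S⟩ hS hfS hgS
  rw [key5, ← finsum_mem_congr rfl key3, ← key2] at key4
  have key6 : ((Ov k' (fun i => algebraMap F K (x i)) (algebraMap F K) 2 S).ncard : ℚ) *
        TT k' (fun i => algebraMap F K (x i)) (algebraMap F K) l S'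
      (kmap (algebraMap F K) S' (f (dn (algebraMap F K) S')))
      (kmap (algebraMap F K) S' (g (dn (algebraMap F K) S'))) = 0 := key1.symm.trans key4
  have hn : ((Ov k' (fun i => algebraMap F K (x i)) (algebraMap F K) 2 S).ncard : ℚ) ≠ 0 := by
    have h1 := (Set.ncard_pos hfin).mpr ⟨S', hS'O⟩
    exact_mod_cast h1.ne'
  exact (mul_eq_zero.mp key6).resolve_left hn

/-- D16: the forms on the variety over `k'`. -/
theorem forms_up [IsAlgClosed k'] [IsGalois F K] (h : BC k k' F K) (hx : Var k d x)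
    {l : ∀ P : LocalSubring F, Kap P → ℚ} (hl : FormsX k x l) :
    FormsX k' (fun i => algebraMap F K (x i))
      (lX k' (fun i => algebraMap F K (x i)) (algebraMap F K) l) := by
  refine ⟨fun P' hP' a b ha hb => lX_mul h hx hl hP' ha hb, ?_⟩
  rintro ⟨S', f, g⟩ hS' hf hg
  change TT k' (fun i => algebraMap F K (x i)) (algebraMap F K) l S' f g = 0
  obtain ⟨Γ, t, hΓ, hfix, ht, hsum⟩ := gal_desc h hx hS' hf hg
  -- the conjugates
  have e1 : ∀ τ ∈ Γ, TT k' (fun i => algebraMap F K (x i)) (algebraMap F K) l S' (τ f) (τ g) =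
      TT k' (fun i => algebraMap F K (x i)) (algebraMap F K) l S' f g := by
    intro τ hτ
    refine inv_T h hx l hS' hS' rfl τ (fun y h1 h2 => ?_) f g
    exact hfix τ hτ (residue _ ⟨y, h1⟩)
  have e2 : ∑ τ ∈ Γ, TT k' (fun i => algebraMap F K (x i)) (algebraMap F K) l S' (τ f) (τ g) =
      Γ.card * TT k' (fun i => algebraMap F K (x i)) (algebraMap F K) l S' f g := by
    rw [Finset.sum_congr rfl e1, Finset.sum_const, nsmul_eq_mul]
  -- the sum over the curves
  have e3 : ∑ τ ∈ Γ, TT k' (fun i => algebraMap F K (x i)) (algebraMap F K) l S' (τ f) (τ g) =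
      ∑ᶠ (P' : LocalSubring K) (_ : P' ∈ Pts k' (fun i => algebraMap F K (x i)) 1),
        ∑ τ ∈ Γ, lX k' (fun i => algebraMap F K (x i)) (algebraMap F K) l P'
          (bd ⟨S', τ f, τ g⟩ P') := by
    have h1 := comm_fin (Γ : Set (Kap S' ≃+* Kap S')) Γ.finite_toSet
      (Pts k' (fun i => algebraMap F K (x i)) 1)
      (fun τ P' => lX k' (fun i => algebraMap F K (x i)) (algebraMap F K) l P'
          (bd ⟨S', τ f, τ g⟩ P'))
      (fun τ _ => TT_supp h hx hl hS' ((map_ne_zero _).mpr hf) ((map_ne_zero _).mpr hg))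
    rw [finsum_mem_coe_finset] at h1
    refine h1.trans (finsum_mem_congr rfl fun P' _ => ?_)
    rw [finsum_mem_coe_finset]
  have e4 : ∀ P' ∈ Pts k' (fun i => algebraMap F K (x i)) 1,
      ∑ τ ∈ Γ, lX k' (fun i => algebraMap F K (x i)) (algebraMap F K) l P'
          (bd ⟨S', τ f, τ g⟩ P') =
        (t.map fun p => (p.2.2 : ℚ) * lX k' (fun i => algebraMap F K (x i)) (algebraMap F K) l P'
          (bd ⟨S', kmap (algebraMap F K) S' p.1, kmap (algebraMap F K) S' p.2.1⟩ P')).sum :=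
    fun P' hP' => hsum P' hP' _ fun a b ha hb => lX_mul h hx hl hP' ha hb
  have e5 := (sum_list (Pts k' (fun i => algebraMap F K (x i)) 1) t (fun p => (p.2.2 : ℚ))
    (fun p P' => lX k' (fun i => algebraMap F K (x i)) (algebraMap F K) l P'
          (bd ⟨S', kmap (algebraMap F K) S' p.1, kmap (algebraMap F K) S' p.2.1⟩ P'))
    (fun p hp => TT_supp h hx hl hS' ((map_ne_zero _).mpr (ht p hp).1)
      ((map_ne_zero _).mpr (ht p hp).2))).2
  have e6 : (t.map fun p => (p.2.2 : ℚ) *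
      ∑ᶠ (P' : LocalSubring K) (_ : P' ∈ Pts k' (fun i => algebraMap F K (x i)) 1),
        lX k' (fun i => algebraMap F K (x i)) (algebraMap F K) l P'
          (bd ⟨S', kmap (algebraMap F K) S' p.1, kmap (algebraMap F K) S' p.2.1⟩ P')).sum = 0 := by
    refine List.sum_eq_zero fun y hy => ?_
    obtain ⟨p, hp, rfl⟩ := List.mem_map.mp hy
    obtain ⟨f', hf'⟩ := exists_fam (dn (algebraMap F K) S') p.1
    obtain ⟨g', hg'⟩ := exists_fam (dn (algebraMap F K) S') p.2.1
    have h1 := TT_zero h hx hl hS' f' g' (by rw [hf']; exact (ht p hp).1)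
      (by rw [hg']; exact (ht p hp).2)
    rw [hf', hg'] at h1
    change (p.2.2 : ℚ) * TT k' (fun i => algebraMap F K (x i)) (algebraMap F K) l S' _ _ = 0
    rw [h1, mul_zero]
  rw [e2, finsum_mem_congr rfl e4, e5, e6] at e3
  have hc : (Γ.card : ℚ) ≠ 0 := by
    have h1 := Finset.card_pos.mpr hΓ
    exact_mod_cast h1.ne'
  exact (mul_eq_zero.mp e3).resolve_left hc

end

end Pool.Agent.Lib.MP_b197b4_ntKE
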