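import Mathlib
import Pool.Agent.Lib.MP_b197b4_ntA.XDual
import Pool.Agent.Lib.MP_b197b4_ntKD.Big
import Pool.Agent.Lib.MP_b197b4_ntKE.Defs
import Pool.Agent.Lib.MP_b197b4_ntKE.Cyc
import Pool.Agent.Lib.MP_b197b4_ntKE.Fx

/-!
# MP_b197b4_nt, project K1-ALL-DESC: the end (D17)
-/

set_option autoImplicit false

namespace Pool.Agent.Lib.MP_b197b4_ntKE

open IsLocalRing Pool.Agent.Lib.MP_b197b4_ntK Pool.Agent.Lib.MP_b197b4_ntA
  Pool.Agent.Lib.MP_b197b4_ntKD

/-- A form on the product of a list. -/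
theorem End_list {κ β : Type*} [Field κ] {l : κ → ℚ}
    (hl : ∀ a b : κ, a ≠ 0 → b ≠ 0 → l (a * b) = l a + l b) (s : List β) (f : β → κ)
    (hf : ∀ q ∈ s, f q ≠ 0) : (s.map f).prod ≠ 0 ∧ l (s.map f).prod = (s.map fun q => l (f q)).sum := by
  induction s with
  | nil =>
    rw [List.map_nil, List.prod_nil, List.map_nil, List.sum_nil]
    exact ⟨one_ne_zero, form_one hl⟩
  | cons q s ih =>
    obtain ⟨h1, h2⟩ := ih fun p hp => hf p (List.mem_cons_of_mem q hp)
    rw [List.map_cons, List.prod_cons, List.map_cons, List.sum_cons,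
      hl _ _ (hf q List.mem_cons_self) h1, h2]
    exact ⟨mul_ne_zero (hf q List.mem_cons_self) h1, rfl⟩

/-- A form kills every cycle which is a boundary up to torsion. -/
theorem End_kill {k F : Type} [Field k] [IsAlgClosed k] [Field F] [Algebra k F] {n d : ℕ}
    {x : Fin (n + 1) → F} (hx : Var k d x) {l : ∀ P : LocalSubring F, Kap P → ℚ}
    (hl : FormsX k x l) {a : ∀ P : LocalSubring F, Kap P} (ha : CycX k x a) {N : ℕ} (hN : 0 < N)
    {s : List (Σ S : LocalSubring F, Kap S × Kap S)}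
    (hs : ∀ q ∈ s, q.1 ∈ Pts k x 2 ∧ q.2.1 ≠ 0 ∧ q.2.2 ≠ 0)
    (hsP : ∀ P ∈ Pts k x 1, a P ^ N = (s.map fun q => bd q P).prod) :
    ∑ᶠ (P : LocalSubring F) (_ : P ∈ Pts k x 1), l P (a P) = 0 := by
  have h1 : ∀ P ∈ Pts k x 1, (N : ℚ) * l P (a P) = (s.map fun q => (1 : ℚ) * l P (bd q P)).sum := by
    intro P hP
    rw [← form_pow (hl.mul P hP) (ha.ne P hP) N, hsP P hP,
      (End_list (hl.mul P hP) s (fun q => bd q P) fun q hq =>
        bd_ne q.1 P q.2.1 q.2.2 (hs q hq).2.1 (hs q hq).2.2).2]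
    simp only [one_mul]
  have h2 : ∑ᶠ (P : LocalSubring F) (_ : P ∈ Pts k x 1),
      (s.map fun q => (1 : ℚ) * l P (bd q P)).sum = 0 := by
    rw [(sum_list (Pts k x 1) s (fun _ => (1 : ℚ)) (fun q P => l P (bd q P)) ?_).2]
    · have h3 : (s.map fun q => (1 : ℚ) * ∑ᶠ (P : LocalSubring F) (_ : P ∈ Pts k x 1),
          l P (bd q P)) = s.map fun _ => (0 : ℚ) := by
        refine List.map_congr_left fun q hq => ?_
        rw [hl.recip q (hs q hq).1 (hs q hq).2.1 (hs q hq).2.2, mul_zero]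
      rw [h3]
      simp
    · intro q hq
      refine (bd_supp hx (hs q hq).1 (hs q hq).2.1 (hs q hq).2.2).subset ?_
      rintro P ⟨hP, hne⟩
      refine ⟨hP, fun h4 => hne ?_⟩
      have h5 : bd q P = 1 := h4
      rw [h5, form_one (hl.mul P hP)]
  have h6 : ∑ᶠ (P : LocalSubring F) (_ : P ∈ Pts k x 1), (N : ℚ) * l P (a P) = 0 := by
    rw [← h2]
    exact finsum_congr fun P => finsum_congr fun hP => h1 P hP
  have h7 : ∑ᶠ (P : LocalSubring F) (_ : P ∈ Pts k x 1), (N : ℚ) * l P (a P) =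
      (N : ℚ) * ∑ᶠ (P : LocalSubring F) (_ : P ∈ Pts k x 1), l P (a P) := by
    have h8 : {P | P ∈ Pts k x 1 ∧ l P (a P) ≠ 0}.Finite := by
      refine ha.finite.subset ?_
      rintro P ⟨hP, hne⟩
      refine ⟨hP, fun h9 => hne ?_⟩
      rw [h9, form_one (hl.mul P hP)]
    have h10 := (sum_list (Pts k x 1) [()] (fun _ => (N : ℚ)) (fun _ P => l P (a P))
      fun _ _ => h8).2
    simpa only [List.map_cons, List.map_nil, List.sum_cons, List.sum_nil, add_zero] using h10
  rw [h7] at h6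
  have hN' : (N : ℚ) ≠ 0 := by exact_mod_cast hN.ne'
  exact (mul_eq_zero.mp h6).resolve_left hN'

/-- D17 (End.lean): **the descent**. -/
theorem k1All_descent (k k' : Type) [Field k] [Field k'] [Algebra k k'] [PerfectField k]
    [IsAlgClosed k'] [Algebra.IsAlgebraic k k'] (hk : K1All k') : K1All k := by
  intro F _ _ n x d hd hx a ha
  obtain ⟨K, _, _, _, hBC, hGal⟩ := exists_big k k' F
  refine dualX hx a ha fun l hl => ?_
  have hx' : Var k' d (fun i => algebraMap F K (x i)) := var_up hBC hx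
  have ha' := cyc_up hBC hx ha
  have hl' := forms_up hBC hx hl
  obtain ⟨N, hN, s, hs, hsP⟩ := hk K n (fun i => algebraMap F K (x i)) d hd hx' _ ha'
  have h1 := End_kill hx' hl' ha' hN hs hsP
  have h2 := fib_sum (Pts k' (fun i => algebraMap F K (x i)) 1) (Pts k x 1)
    (fun P' => dn (algebraMap F K) P') (fun P' hP' => pts_dn hBC hx hP')
    (fun P hP => ov_finite hBC hx hP) (fun P hP => ov_nonempty hBC hx hP) (fun P => l P (a P))
  rw [← h2, ← h1]
  refine finsum_congr fun P' => finsum_congr fun hP' => ?_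
  have h3 := hl.mul _ (pts_dn hBC hx hP')
  have h4 : lup (algebraMap F K) l P' (kmap (algebraMap F K) P' (a (dn (algebraMap F K) P'))) =
      l (dn (algebraMap F K) P') (a (dn (algebraMap F K) P')) :=
    lup_kmap P' h3 (ha.ne _ (pts_dn hBC hx hP'))
  unfold lX
  rw [h4]
  rfl

end Pool.Agent.Lib.MP_b197b4_ntKE
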